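import Pool.Agent.LibTB3.N2
import Pool.Agent.LibTB10.G4
import Pool.Agent.LibTB10.A3
/-!
ROW [TB3 R2] MEDIUM.
(cite N1, TB10.exists_rigid) every class has a rigid presentation; classes.
PLAN. exists_class: P₀ := Π i, (Fin (x i).toNat' ...): take Q := (i : Fin n) → (Fin (x i).toNat → p i) and P := (i : Fin n) → (Fin (-x i).toNat → p i)
(finite, projective: `Module.Projective` of finite products: `Module.Projective.pi`-like or via `Module.Projective.of_equiv` with DFinsupp / Finsupp; see
TB10.c1_proj in LibTB10/C1), finrank Hom(Q,X) = ∑ i (x i).toNat * finrank Hom(p i,X) (`LinearMap.lsum`, `Module.finrank_pi_fintype`, see TB10.c1_dim and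
LibTB10/C1, I1.ty_prod for the style), (x i).toNat - (-x i).toNat = x i (`Int.toNat_sub_toNat_neg`).  TB10.exists_rigid with the list of hfin (finrank k Q).
exists_cl: hp.ty for F.Q and F.P.  Cl_unique: test with the simple modules of hp.dual.
zeroP: the presentation PUnit → PUnit has class 0 and is rigid.
Cl_sum: finrank Hom(Q × Q', X) = sum (`LinearMap.coprodEquiv` is over commutative semirings? otherwise by hand as in TB10.ty_prod).
Cl_smd: F summand of G and G summand of F with mutually inverse maps gives the same class; stated with equivalences.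
-/
set_option autoImplicit false
universe u
namespace TB3
open Module TB10

section
variable {k : Type u} [Field k] {A : Type u} [Ring A] [Algebra k A]
variable {n : ℕ} {p : Fin n → Submodule A A}

/-- finite products of projective modules are projective -/
theorem r2_proj {m : ℕ} (M : Fin m → Type u) [∀ i, AddCommGroup (M i)] [∀ i, Module A (M i)]
    [∀ i, Module.Projective A (M i)] : Module.Projective A (∀ i, M i) := by
  classical
  exact Module.Projective.of_equiv' (DFinsupp.linearEquivFunOnFintype : (Π₀ i, M i) ≃ₗ[A] _)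

theorem r2_pi {m : ℕ} (M : Fin m → Type u) [∀ i, AddCommGroup (M i)] [∀ i, Module A (M i)]
    [∀ i, Module k (M i)] [∀ i, IsScalarTower k A (M i)] [∀ i, Module.Finite k (M i)]
    (X : Type u) [AddCommGroup X] [Module A X] [Module k X] [IsScalarTower k A X] [Module.Finite k X] :
    finrank k ((∀ i, M i) →ₗ[A] X) = ∑ i, finrank k (M i →ₗ[A] X) := by
  classical
  rw [← (LinearMap.lsum A M k (M := X)).finrank_eq, Module.finrank_pi_fintype]

theorem r2_pow (Q : Type u) [AddCommGroup Q] [Module A Q] [Module k Q] [IsScalarTower k A Q]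
    [Module.Finite k Q] (m : ℕ)
    (X : Type u) [AddCommGroup X] [Module A X] [Module k X] [IsScalarTower k A X] [Module.Finite k X] :
    finrank k ((Fin m → Q) →ₗ[A] X) = m * finrank k (Q →ₗ[A] X) := by
  rw [r2_pi (k := k) (fun _ : Fin m => Q) X]
  simp

theorem r2_prod (Q Q' : Type u) [AddCommGroup Q] [Module A Q] [Module k Q] [IsScalarTower k A Q]
    [Module.Finite k Q] [AddCommGroup Q'] [Module A Q'] [Module k Q'] [IsScalarTower k A Q']
    [Module.Finite k Q']
    (X : Type u) [AddCommGroup X] [Module A X] [Module k X] [IsScalarTower k A X] [Module.Finite k X] :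
    finrank k ((Q × Q') →ₗ[A] X) = finrank k (Q →ₗ[A] X) + finrank k (Q' →ₗ[A] X) := by
  rw [← (LinearMap.coprodEquiv k (R := A) (M := Q) (M₂ := Q') (M₃ := X)).finrank_eq,
    Module.finrank_prod]

theorem r2_congr {Q Q' : Type u} [AddCommGroup Q] [Module A Q] [AddCommGroup Q'] [Module A Q']
    (e : Q ≃ₗ[A] Q')
    (X : Type u) [AddCommGroup X] [Module A X] [Module k X] [IsScalarTower k A X] :
    finrank k (Q →ₗ[A] X) = finrank k (Q' →ₗ[A] X) :=
  (LinearEquiv.congrLeft X k e).finrank_eq

theorem exists_class [Module.Finite k A] [Infinite k] (hp : Bas k p) (hfin : FinB k A)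
    (x : Fin n → ℤ) : ∃ F : Pres k A, Rigid F.f ∧ Cl k p F x := by
  haveI hpr : ∀ i, Module.Projective A (p i) := fun i => hp.proj i
  haveI h1 : ∀ m : Fin n → ℕ, ∀ i, Module.Projective A (Fin (m i) → p i) := fun m i =>
    r2_proj (fun _ : Fin (m i) => (p i : Type u))
  haveI h2 : ∀ m : Fin n → ℕ, Module.Projective A ((i : Fin n) → (Fin (m i) → p i)) := fun m =>
    r2_proj (fun i : Fin n => (Fin (m i) → p i))
  have hdim : ∀ m : Fin n → ℕ, ∀ (X : Type u) [AddCommGroup X] [Module A X] [Module k X]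
      [IsScalarTower k A X] [Module.Finite k X],
      finrank k (((i : Fin n) → (Fin (m i) → p i)) →ₗ[A] X) =
        ∑ i, m i * finrank k (p i →ₗ[A] X) := by
    intro m X _ _ _ _ _
    rw [r2_pi (k := k) (fun i : Fin n => (Fin (m i) → p i)) X]
    exact Finset.sum_congr rfl fun i _ => r2_pow (p i) (m i) X
  obtain ⟨L, hL⟩ := hfin (finrank k ((i : Fin n) → (Fin (x i).toNat → p i)))
  obtain ⟨f, hf⟩ := exists_rigid (k := k) (P := (i : Fin n) → (Fin (-x i).toNat → p i))
    (Q := (i : Fin n) → (Fin (x i).toNat → p i)) L hL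
  refine ⟨{ P := (i : Fin n) → (Fin (-x i).toNat → p i)
            Q := (i : Fin n) → (Fin (x i).toNat → p i)
            f := f }, hf, ?_⟩
  intro X _ _ _ _ _
  change (finrank k (((i : Fin n) → (Fin (x i).toNat → p i)) →ₗ[A] X) : ℤ) =
    finrank k (((i : Fin n) → (Fin (-x i).toNat → p i)) →ₗ[A] X) + br k p x X
  rw [hdim (fun i => (x i).toNat) X, hdim (fun i => (-x i).toNat) X]
  unfold br
  push_cast
  rw [← Finset.sum_add_distrib]
  refine Finset.sum_congr rfl fun i _ => ?_
  rw [← add_mul]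
  congr 1
  omega

theorem exists_cl (hp : Bas k p) (F : Pres k A) : ∃ x, Cl k p F x := by
  obtain ⟨s, hs⟩ := hp.ty F.Q
  obtain ⟨t, ht⟩ := hp.ty F.P
  refine ⟨fun i => (s i : ℤ) - t i, ?_⟩
  intro X _ _ _ _ _
  rw [hs X, ht X]
  unfold br
  push_cast
  rw [← Finset.sum_add_distrib]
  exact Finset.sum_congr rfl fun i _ => by ring

theorem Cl_unique (hp : Bas k p) {F : Pres k A} {x y : Fin n → ℤ} (hx : Cl k p F x)
    (hy : Cl k p F y) : x = y := by
  funext i
  obtain ⟨S, i1, i2, i3, i4, i5, -, hS⟩ := hp.dual i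
  have h1 := hx S
  have h2 := hy S
  have h3 : ∀ z : Fin n → ℤ, br k p z S = z i := by
    intro z
    unfold br
    rw [Finset.sum_eq_single i]
    · rw [hS i]
      simp
    · intro j _ hj
      rw [hS j]
      simp [hj]
    · intro hi
      exact absurd (Finset.mem_univ i) hi
  rw [h3] at h1 h2
  omega

theorem Cl_sum {F G : Pres k A} {x y : Fin n → ℤ} (hx : Cl k p F x) (hy : Cl k p G y)
    (h : F.P × G.P →ₗ[A] F.Q × G.Q) : Cl k p (F.sum G h) (x + y) := by
  intro X _ _ _ _ _
  change (finrank k ((F.Q × G.Q) →ₗ[A] X) : ℤ) =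
    finrank k ((F.P × G.P) →ₗ[A] X) + br k p (x + y) X
  have h1 := hx X
  have h2 := hy X
  rw [r2_prod (k := k) F.Q G.Q X, r2_prod (k := k) F.P G.P X, br_add_left]
  push_cast
  omega

theorem Cl_of_equiv {F G : Pres k A} {x : Fin n → ℤ} (hx : Cl k p F x)
    (eP : F.P ≃ₗ[A] G.P) (eQ : F.Q ≃ₗ[A] G.Q) : Cl k p G x := by
  intro X _ _ _ _ _
  rw [← r2_congr (k := k) eQ X, ← r2_congr (k := k) eP X]
  exact hx X

/-- the zero presentation -/
theorem exists_zeroP : ∃ F : Pres k A, Rigid F.f ∧ Cl k p F 0 ∧ Subsingleton F.P ∧ Subsingleton F.Q := by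
  refine ⟨{ P := PUnit.{u+1}
            Q := PUnit.{u+1}
            f := 0 }, ?_, ?_, ?_, ?_⟩
  · intro h
    exact ⟨0, 0, LinearMap.ext fun z => rfl⟩
  · intro X _ _ _ _ _
    rw [br_zero_left, add_zero]
  · exact inferInstanceAs (Subsingleton PUnit.{u+1})
  · exact inferInstanceAs (Subsingleton PUnit.{u+1})

/-- `P^a ⊕ P'^b → Q^a ⊕ Q'^b` has class `a x + b y` -/
theorem Cl_pow {F G : Pres k A} {x y : Fin n → ℤ} (hx : Cl k p F x) (hy : Cl k p G y) (a b : ℕ)
    (X : Type u) [AddCommGroup X] [Module A X] [Module k X] [IsScalarTower k A X] [Module.Finite k X] :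
    (finrank k (((Fin a → F.Q) × (Fin b → G.Q)) →ₗ[A] X) : ℤ) =
      finrank k (((Fin a → F.P) × (Fin b → G.P)) →ₗ[A] X) + br k p (a • x + b • y) X := by
  have h1 := hx X
  have h2 := hy X
  rw [r2_prod (k := k) (Fin a → F.Q) (Fin b → G.Q) X, r2_prod (k := k) (Fin a → F.P) (Fin b → G.P) X,
    r2_pow, r2_pow, r2_pow, r2_pow, br_add_left, br_nsmul_left, br_nsmul_left]
  push_cast
  rw [h1, h2]
  ring

end

end TB3
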