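import Pool.Agent.LibTB3.R1
import Pool.Agent.LibTB3.R2
import Pool.Agent.LibTB10.C1
import Pool.Agent.LibTB10.T2
import Pool.Agent.LibTB10.C1
/-!
ROW [TB3 C1] MEDIUM.
(cite R1, R2, TB10.EE_iff_E0, TB10.c1_sum) compatibility in terms of presentations.
PLAN. cmp_iff: EE F.f G.f ↔ E0 F.f G.M (TB10.EE_iff_E0) ↔ E0c x G.M (E0_iff).  If Cmp x y: G.M is Tc y (Tc_M) so E0c x.  Conversely if E0c x G.M
and Tc y X then Gen A G.M X (gen_iff), E0 F.f G.M gives E0 F.f X (TB10.E0_of_gen) so E0c x X.  Same with exchanged roles.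
cmp_sum: F.sum G (F.f.prodMap G.f) is rigid (TB10.c1_sum), of class x + y (Cl_sum).
E0_sum_iff: E0 (f.prodMap g) X ↔ E0 f X ∧ E0 g X: maps from products are pairs (components).
hom_sum_iff: (Q × Q') ⧸ range (f.prodMap g): a map θ corresponds to a pair of maps on the two cokernels.  Concretely → : given θ₁ : F.M → X compose with
the map of cokernels induced by fst; ← : θ ∘ mkQ restricted to Q and Q' factors through the cokernels.
-/
set_option autoImplicit false
universe u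
namespace TB3
open Module TB10

section
variable {k : Type u} [Field k] {A : Type u} [Ring A] [Algebra k A]
variable {n : ℕ} {p : Fin n → Submodule A A}
    {X : Type u} [AddCommGroup X] [Module A X] [Module k X] [IsScalarTower k A X] [Module.Finite k X]
    [Module.Finite k A]

theorem cmp_iff {x y : Fin n → ℤ} {F G : Pres k A} (hF : Rigid F.f) (hx : Cl k p F x)
    (hG : Rigid G.f) (hy : Cl k p G y) : Cmp k p x y ↔ EE F.f G.f ∧ EE G.f F.f := by
  rw [EE_iff_E0, EE_iff_E0]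
  constructor
  · intro h
    exact ⟨(E0_iff hF hx).2 (h.2 G.M (Tc_M hG hy)), (E0_iff hG hy).2 (h.1 F.M (Tc_M hF hx))⟩
  · rintro ⟨h1, h2⟩
    refine ⟨?_, ?_⟩
    · intro X _ _ _ _ _ hX
      exact (E0_iff hG hy).1 (E0_of_gen (k := k) G.f h2 ((gen_iff hF hx).2 hX))
    · intro X _ _ _ _ _ hX
      exact (E0_iff hF hx).1 (E0_of_gen (k := k) F.f h1 ((gen_iff hG hy).2 hX))

theorem cmp_sum {x y : Fin n → ℤ} {F G : Pres k A} (hF : Rigid F.f) (hx : Cl k p F x)
    (hG : Rigid G.f) (hy : Cl k p G y) (h : Cmp k p x y) :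
    Rigid (F.sum G (F.f.prodMap G.f)).f ∧ Cl k p (F.sum G (F.f.prodMap G.f)) (x + y) := by
  obtain ⟨h1, h2⟩ := (cmp_iff hF hx hG hy).1 h
  exact ⟨c1_sum F.f G.f hF hG h1 h2, Cl_sum hx hy _⟩

theorem E0_sum_iff (F G : Pres k A) :
    E0 (F.sum G (F.f.prodMap G.f)).f X ↔ E0 F.f X ∧ E0 G.f X := by
  constructor
  · intro h
    refine ⟨fun g => ?_, fun g => ?_⟩
    · obtain ⟨q, hq⟩ := h (g ∘ₗ LinearMap.fst A F.P G.P)
      refine ⟨q ∘ₗ LinearMap.inl A F.Q G.Q, ?_⟩
      ext v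
      have h1 := congrArg (fun m : F.P × G.P →ₗ[A] X => m (v, 0)) hq
      simpa using h1
    · obtain ⟨q, hq⟩ := h (g ∘ₗ LinearMap.snd A F.P G.P)
      refine ⟨q ∘ₗ LinearMap.inr A F.Q G.Q, ?_⟩
      ext v
      have h1 := congrArg (fun m : F.P × G.P →ₗ[A] X => m (0, v)) hq
      simpa using h1
  · rintro ⟨h1, h2⟩ g
    obtain ⟨q1, hq1⟩ := h1 (g ∘ₗ LinearMap.inl A F.P G.P)
    obtain ⟨q2, hq2⟩ := h2 (g ∘ₗ LinearMap.inr A F.P G.P)
    refine ⟨LinearMap.coprod q1 q2, ?_⟩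
    apply LinearMap.ext
    rintro ⟨v, w⟩
    have k1 := congrArg (fun m : F.P →ₗ[A] X => m v) hq1
    have k2 := congrArg (fun m : G.P →ₗ[A] X => m w) hq2
    simp only [LinearMap.comp_apply, LinearMap.inl_apply, LinearMap.inr_apply] at k1 k2
    have hg : g (v, w) = g (v, 0) + g (0, w) := by
      rw [← map_add]
      simp
    rw [hg, ← k1, ← k2]
    rfl

theorem hom_sum_iff (F G : Pres k A) :
    (∀ θ : (F.sum G (F.f.prodMap G.f)).M →ₗ[A] X, θ = 0) ↔
      (∀ θ : F.M →ₗ[A] X, θ = 0) ∧ (∀ θ : G.M →ₗ[A] X, θ = 0) := by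
  constructor
  · intro h
    refine ⟨fun θ => ?_, fun θ => ?_⟩
    · have hle : LinearMap.range (F.sum G (F.f.prodMap G.f)).f ≤
          LinearMap.ker (θ ∘ₗ (LinearMap.range F.f).mkQ ∘ₗ LinearMap.fst A F.Q G.Q) := by
        rintro _ ⟨⟨v, w⟩, rfl⟩
        rw [LinearMap.mem_ker]
        have h1 : (LinearMap.range F.f).mkQ (F.f v) = 0 := by
          rw [Submodule.mkQ_apply, Submodule.Quotient.mk_eq_zero]
          exact ⟨v, rfl⟩
        change θ ((LinearMap.range F.f).mkQ (F.f v)) = 0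
        rw [h1, map_zero]
      have h0 := h ((LinearMap.range (F.sum G (F.f.prodMap G.f)).f).liftQ _ hle)
      apply Submodule.linearMap_qext
      ext q
      have h2 := congrArg (fun m : (F.sum G (F.f.prodMap G.f)).M →ₗ[A] X =>
        m (Submodule.Quotient.mk ((q, 0) : F.Q × G.Q))) h0
      exact h2
    · have hle : LinearMap.range (F.sum G (F.f.prodMap G.f)).f ≤
          LinearMap.ker (θ ∘ₗ (LinearMap.range G.f).mkQ ∘ₗ LinearMap.snd A F.Q G.Q) := by
        rintro _ ⟨⟨v, w⟩, rfl⟩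
        rw [LinearMap.mem_ker]
        have h1 : (LinearMap.range G.f).mkQ (G.f w) = 0 := by
          rw [Submodule.mkQ_apply, Submodule.Quotient.mk_eq_zero]
          exact ⟨w, rfl⟩
        change θ ((LinearMap.range G.f).mkQ (G.f w)) = 0
        rw [h1, map_zero]
      have h0 := h ((LinearMap.range (F.sum G (F.f.prodMap G.f)).f).liftQ _ hle)
      apply Submodule.linearMap_qext
      ext q
      have h2 := congrArg (fun m : (F.sum G (F.f.prodMap G.f)).M →ₗ[A] X =>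
        m (Submodule.Quotient.mk ((0, q) : F.Q × G.Q))) h0
      exact h2
  · rintro ⟨h1, h2⟩ θ
    set R := LinearMap.range (F.sum G (F.f.prodMap G.f)).f with hR
    have hle1 : LinearMap.range F.f ≤
        LinearMap.ker (θ ∘ₗ R.mkQ ∘ₗ LinearMap.inl A F.Q G.Q) := by
      rintro _ ⟨v, rfl⟩
      rw [LinearMap.mem_ker]
      have h3 : R.mkQ ((F.f v, 0) : F.Q × G.Q) = 0 := by
        rw [Submodule.mkQ_apply, Submodule.Quotient.mk_eq_zero]
        refine ⟨(v, 0), ?_⟩
        simp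
      change θ (R.mkQ ((F.f v, 0) : F.Q × G.Q)) = 0
      rw [h3, map_zero]
    have hle2 : LinearMap.range G.f ≤
        LinearMap.ker (θ ∘ₗ R.mkQ ∘ₗ LinearMap.inr A F.Q G.Q) := by
      rintro _ ⟨w, rfl⟩
      rw [LinearMap.mem_ker]
      have h3 : R.mkQ ((0, G.f w) : F.Q × G.Q) = 0 := by
        rw [Submodule.mkQ_apply, Submodule.Quotient.mk_eq_zero]
        refine ⟨(0, w), ?_⟩
        simp
      change θ (R.mkQ ((0, G.f w) : F.Q × G.Q)) = 0
      rw [h3, map_zero]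
    have e1 := h1 ((LinearMap.range F.f).liftQ _ hle1)
    have e2 := h2 ((LinearMap.range G.f).liftQ _ hle2)
    apply Submodule.linearMap_qext
    apply LinearMap.ext
    rintro ⟨q, q'⟩
    have k1 : θ (R.mkQ ((q, 0) : F.Q × G.Q)) = 0 :=
      congrArg (fun m : F.M →ₗ[A] X => m (Submodule.Quotient.mk q)) e1
    have k2 : θ (R.mkQ ((0, q') : F.Q × G.Q)) = 0 :=
      congrArg (fun m : G.M →ₗ[A] X => m (Submodule.Quotient.mk q')) e2
    have e3 : ((q, q') : F.Q × G.Q) = (q, 0) + (0, q') := by simp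
    change θ (R.mkQ ((q, q') : F.Q × G.Q)) = 0
    rw [e3, map_add, map_add, k1, k2, add_zero]

end

end TB3
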