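import Pool.Agent.LibTB3.C1
/-!
ROW [TB3 C2] MEDIUM.
(cite N1, N2, R1, R2, C1) compatible classes: E0, H0, T of the sum.
PLAN. Take rigid presentations F, G of x, y (exists_class), F.sum G rigid of class x + y (cmp_sum).  E0c_add: E0_iff three times and E0_sum_iff.
H0c_add: hom_zero_iff and hom_sum_iff.  Tc_add_left: numerically: K ≠ ⊤: br x (X ⧸ K) > 0 and E0c y X (h.1), so br y (X ⧸ K) ≥ 0.
Cmp_add_iff (→): w compatible with x + y.  Cmp w x: Tc w X → E0c (x+y) X → E0c x X; Tc x X → Tc (x+y) X (Tc_add_left) → E0c w X.  (←): Tc w X → E0c x, E0c y → E0c (x+y);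
Tc (x+y) X → E0c w X: take W rigid presentation of w; E0c w F.M because Tc x F.M (Tc_M) and Cmp w x; same for G.M; so E0 W.f (F.sum G ..).M (C1: EE W.f of the
direct sum: use cmp_iff for (W, F), (W, G): EE W.f F.f and EE W.f G.f give EE W.f (F.f.prodMap G.f) componentwise), so EE W.f (sum) and by cmp_iff... simpler:
prove EE W.f (F.f.prodMap G.f) and EE (F.f.prodMap G.f) W.f componentwise and apply cmp_iff to W and the sum.
Cmp_zero: Tc 0 X forces X subsingleton (subsingleton_of_Tc_zero, E0c_subsingleton), E0c 0 always.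
E0c_smul etc.: for m > 0 br (m x) = m br x, trivial.  Cmp_smul: from these (m > 0), m = 0: Cmp_zero.
-/
set_option autoImplicit false
universe u
namespace TB3
open Module TB10

section
variable {k : Type u} [Field k] {A : Type u} [Ring A] [Algebra k A]
variable {n : ℕ} {p : Fin n → Submodule A A}
    {X : Type u} [AddCommGroup X] [Module A X] [Module k X] [IsScalarTower k A X] [Module.Finite k X]
    [Module.Finite k A]

theorem Cmp.symm {x y : Fin n → ℤ} (h : Cmp k p x y) : Cmp k p y x := ⟨h.2, h.1⟩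

theorem Cmp.refl (x : Fin n → ℤ) : Cmp k p x x :=
  ⟨fun _ _ _ _ _ _ h => Tc_E0c h, fun _ _ _ _ _ _ h => Tc_E0c h⟩

theorem Cmp_zero (x : Fin n → ℤ) : Cmp k p x 0 := by
  refine ⟨?_, ?_⟩
  · intro X _ _ _ _ _ _
    exact E0c_zero
  · intro X _ _ _ _ _ h
    have h1 : Subsingleton X := subsingleton_of_Tc_zero h
    exact E0c_subsingleton x

theorem E0c_smul {m : ℕ} (hm : 0 < m) (x : Fin n → ℤ) : E0c k p (m • x) X ↔ E0c k p x X := by
  have hm' : (0 : ℤ) < m := by exact_mod_cast hm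
  refine forall_congr' fun K => ?_
  rw [br_nsmul_left]
  constructor
  · intro h
    by_contra h1
    push Not at h1
    have h2 : (m : ℤ) * br k p x (X ⧸ K) < 0 := mul_neg_of_pos_of_neg hm' h1
    omega
  · intro h
    exact mul_nonneg hm'.le h

theorem H0c_smul {m : ℕ} (hm : 0 < m) (x : Fin n → ℤ) : H0c k p (m • x) X ↔ H0c k p x X := by
  have hm' : (0 : ℤ) < m := by exact_mod_cast hm
  refine forall_congr' fun K => ?_
  rw [br_nsmul_left]
  constructor
  · intro h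
    by_contra h1
    push Not at h1
    have h2 : 0 < (m : ℤ) * br k p x K := mul_pos hm' h1
    omega
  · intro h
    exact mul_nonpos_of_nonneg_of_nonpos hm'.le h

theorem Tc_smul {m : ℕ} (hm : 0 < m) (x : Fin n → ℤ) : Tc k p (m • x) X ↔ Tc k p x X := by
  have hm' : (0 : ℤ) < m := by exact_mod_cast hm
  refine forall_congr' fun K => forall_congr' fun _ => ?_
  rw [br_nsmul_left]
  constructor
  · intro h
    by_contra h1
    push Not at h1
    have h2 : (m : ℤ) * br k p x (X ⧸ K) ≤ 0 := mul_nonpos_of_nonneg_of_nonpos hm'.le h1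
    omega
  · intro h
    exact mul_pos hm' h

theorem Cmp.smul {x y : Fin n → ℤ} (h : Cmp k p x y) (m : ℕ) : Cmp k p (m • x) y := by
  rcases Nat.eq_zero_or_pos m with rfl | hm
  · rw [zero_smul]
    exact (Cmp_zero y).symm
  · refine ⟨?_, ?_⟩
    · intro X _ _ _ _ _ hX
      exact h.1 X ((Tc_smul hm x).1 hX)
    · intro X _ _ _ _ _ hX
      exact (E0c_smul hm x).2 (h.2 X hX)

theorem Cmp.of_smul {x y : Fin n → ℤ} {m : ℕ} (hm : 0 < m) (h : Cmp k p (m • x) y) : Cmp k p x y := by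
  refine ⟨?_, ?_⟩
  · intro X _ _ _ _ _ hX
    exact h.1 X ((Tc_smul hm x).2 hX)
  · intro X _ _ _ _ _ hX
    exact (E0c_smul hm x).1 (h.2 X hX)

theorem Tc_add_left {x y : Fin n → ℤ} (h : Cmp k p x y) (hX : Tc k p x X) : Tc k p (x + y) X := by
  intro K hK
  rw [br_add_left]
  have h1 := hX K hK
  have h2 := h.1 X hX K
  omega

variable [Infinite k] (hp : Bas k p) (hfin : FinB k A)

include hp hfin

theorem E0c_add {x y : Fin n → ℤ} (h : Cmp k p x y) :
    E0c k p (x + y) X ↔ E0c k p x X ∧ E0c k p y X := by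
  obtain ⟨F, hF, hx⟩ := exists_class hp hfin x
  obtain ⟨G, hG, hy⟩ := exists_class hp hfin y
  obtain ⟨hS, hxy⟩ := cmp_sum hF hx hG hy h
  rw [← E0_iff hS hxy, ← E0_iff hF hx, ← E0_iff hG hy]
  exact E0_sum_iff F G

theorem H0c_add {x y : Fin n → ℤ} (h : Cmp k p x y) :
    H0c k p (x + y) X ↔ H0c k p x X ∧ H0c k p y X := by
  obtain ⟨F, hF, hx⟩ := exists_class hp hfin x
  obtain ⟨G, hG, hy⟩ := exists_class hp hfin y
  obtain ⟨hS, hxy⟩ := cmp_sum hF hx hG hy h
  rw [← hom_zero_iff hS hxy, ← hom_zero_iff hF hx, ← hom_zero_iff hG hy]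
  exact hom_sum_iff F G

theorem Ws_add {x y : Fin n → ℤ} (h : Cmp k p x y) :
    Ws k p (x + y) X ↔ Ws k p x X ∧ Ws k p y X := by
  unfold Ws
  rw [E0c_add hp hfin h, H0c_add hp hfin h]
  tauto

theorem Cmp_add_iff {w x y : Fin n → ℤ} (h : Cmp k p x y) :
    Cmp k p w (x + y) ↔ Cmp k p w x ∧ Cmp k p w y := by
  constructor
  · intro h'
    refine ⟨⟨?_, ?_⟩, ⟨?_, ?_⟩⟩
    · intro X _ _ _ _ _ hX
      exact ((E0c_add hp hfin h).1 (h'.1 X hX)).1
    · intro X _ _ _ _ _ hX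
      exact h'.2 X (Tc_add_left h hX)
    · intro X _ _ _ _ _ hX
      exact ((E0c_add hp hfin h).1 (h'.1 X hX)).2
    · intro X _ _ _ _ _ hX
      refine h'.2 X ?_
      rw [add_comm]
      exact Tc_add_left h.symm hX
  · rintro ⟨h1, h2⟩
    obtain ⟨W, hW, hw⟩ := exists_class hp hfin w
    obtain ⟨F, hF, hx⟩ := exists_class hp hfin x
    obtain ⟨G, hG, hy⟩ := exists_class hp hfin y
    obtain ⟨hS, hxy⟩ := cmp_sum hF hx hG hy h
    obtain ⟨a1, a2⟩ := (cmp_iff hW hw hF hx).1 h1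
    obtain ⟨b1, b2⟩ := (cmp_iff hW hw hG hy).1 h2
    refine (cmp_iff hW hw hS hxy).2 ⟨?_, ?_⟩
    · intro g
      obtain ⟨α₁, β₁, e₁⟩ := a1 (LinearMap.fst A F.Q G.Q ∘ₗ g)
      obtain ⟨α₂, β₂, e₂⟩ := b1 (LinearMap.snd A F.Q G.Q ∘ₗ g)
      refine ⟨LinearMap.prod α₁ α₂, LinearMap.prod β₁ β₂, ?_⟩
      apply LinearMap.ext
      intro v
      have k₁ := congrArg (fun m : W.P →ₗ[A] F.Q => m v) e₁
      have k₂ := congrArg (fun m : W.P →ₗ[A] G.Q => m v) e₂
      exact Prod.ext k₁ k₂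
    · intro g
      obtain ⟨α₁, β₁, e₁⟩ := a2 (g ∘ₗ LinearMap.inl A F.P G.P)
      obtain ⟨α₂, β₂, e₂⟩ := b2 (g ∘ₗ LinearMap.inr A F.P G.P)
      refine ⟨LinearMap.coprod α₁ α₂, LinearMap.coprod β₁ β₂, ?_⟩
      apply LinearMap.ext
      rintro ⟨v, v'⟩
      have k₁ := congrArg (fun m : F.P →ₗ[A] W.Q => m v) e₁
      have k₂ := congrArg (fun m : G.P →ₗ[A] W.Q => m v') e₂
      simp only [LinearMap.add_apply, LinearMap.comp_apply, LinearMap.inl_apply,
        LinearMap.inr_apply] at k₁ k₂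
      have hg : g (v, v') = g (v, 0) + g (0, v') := by
        rw [← map_add]
        simp
      rw [hg, ← k₁, ← k₂]
      change (α₁ (F.f v) + α₂ (G.f v')) + W.f (β₁ v + β₂ v') = _
      rw [map_add]
      abel

/-- `E0` of `a x + b y`, `a, b > 0` -/
theorem E0c_comb {x y : Fin n → ℤ} (h : Cmp k p x y) {a b : ℕ} (ha : 0 < a) (hb : 0 < b) :
    E0c k p (a • x + b • y) X ↔ E0c k p x X ∧ E0c k p y X := by
  rw [E0c_add hp hfin ((h.smul a).symm.smul b).symm, E0c_smul ha, E0c_smul hb]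

theorem H0c_comb {x y : Fin n → ℤ} (h : Cmp k p x y) {a b : ℕ} (ha : 0 < a) (hb : 0 < b) :
    H0c k p (a • x + b • y) X ↔ H0c k p x X ∧ H0c k p y X := by
  rw [H0c_add hp hfin ((h.smul a).symm.smul b).symm, H0c_smul ha, H0c_smul hb]

/-- the torsion submodule -/
theorem exists_torsion (x : Fin n → ℤ)
    (X : Type u) [AddCommGroup X] [Module A X] [Module k X] [IsScalarTower k A X] [Module.Finite k X] :
    ∃ N : Submodule A X, Tc k p x N ∧ H0c k p x (X ⧸ N) := by
  obtain ⟨F, hF, hx⟩ := exists_class hp hfin x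
  exact exists_torsion_of hF hx X

end

end TB3
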