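import Pool.Agent.LibTB3.C2
import Pool.Agent.LibTB10.G4
/-!
ROW [TB3 C3] MEDIUM.
(cite R2, C1, C2, TB10.generic_step) The star lemma: for N large, N x + u is compatible with x.
PLAN. F rigid of class x, G₀ rigid of class u.  Claim: for every N there is a rigid G of class N x + u with
ee k F.f G.f + ee k G.f F.f ≤ s - N (natural subtraction), s = the value for G₀.  Step: TB10.generic_step F.f G.f gives h : F.P × G.P → F.Q × G.Q rigid with
ee F h ≤ ee F G, ee h F ≤ ee G F, and < if ee F G > 0 resp. ee G F > 0; the presentation F.sum G h has class x + (N x + u) (Cl_sum); so the sum decreases by at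
least 1 as long as it is positive.  (list for generic_step: hfin (finrank k (F.Q × G.Q)).)
For N ≥ s both ee are 0, EE by TB10.ee_eq_zero_iff, and cmp_iff gives Cmp x (N x + u).
-/
set_option autoImplicit false
universe u
namespace TB3
open Module TB10

section
variable {k : Type u} [Field k] {A : Type u} [Ring A] [Algebra k A]
variable {n : ℕ} {p : Fin n → Submodule A A}
    [Module.Finite k A] [Infinite k] (hp : Bas k p) (hfin : FinB k A)

include hp hfin

theorem star (x u : Fin n → ℤ) : ∃ N₀ : ℕ, ∀ N ≥ N₀, Cmp k p (N • x + u) x := by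
  obtain ⟨F, hF, hx⟩ := exists_class hp hfin x
  obtain ⟨G₀, hG₀, hu⟩ := exists_class hp hfin u
  have key : ∀ N : ℕ, ∃ G : Pres k A, Rigid G.f ∧ Cl k p G (N • x + u) ∧
      ee k F.f G.f + ee k G.f F.f ≤ (ee k F.f G₀.f + ee k G₀.f F.f) - N := by
    intro N
    induction N with
    | zero =>
      refine ⟨G₀, hG₀, ?_, le_of_eq (Nat.sub_zero _).symm⟩
      rw [zero_smul, zero_add]
      exact hu
    | succ N ih =>
      obtain ⟨G, hG, hGc, hle⟩ := ih
      obtain ⟨L, hL⟩ := hfin (finrank k (F.Q × G.Q))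
      obtain ⟨h, hh, h1, h2, h3, h4, h5, h6⟩ := generic_step F.f G.f hF hG L hL
      refine ⟨F.sum G h, hh, ?_, ?_⟩
      · have h7 := Cl_sum hx hGc h
        have h8 : x + (N • x + u) = (N + 1) • x + u := by
          rw [add_smul, one_smul]
          abel
        rwa [h8] at h7
      · show ee k F.f h + ee k h F.f ≤ _
        rcases Nat.eq_zero_or_pos (ee k F.f G.f) with e1 | e1
        · rcases Nat.eq_zero_or_pos (ee k G.f F.f) with e2 | e2
          · omega
          · have := (h5 e2).1
            omega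
        · have := (h6 e1).1
          omega
  refine ⟨ee k F.f G₀.f + ee k G₀.f F.f, fun N hN => ?_⟩
  obtain ⟨G, hG, hGc, hle⟩ := key N
  have e1 : ee k F.f G.f = 0 := by omega
  have e2 : ee k G.f F.f = 0 := by omega
  exact (cmp_iff hG hGc hF hx).2 ⟨(ee_eq_zero_iff _ _).1 e2, (ee_eq_zero_iff _ _).1 e1⟩

/-- if `W_{N x + u} ≠ 0` for all large `N` ... : for `N` large a semistable module for `N x + u` is semistable for `x` and `⟨u, ·⟩ = 0` on it -/
theorem star_Ws (x u : Fin n → ℤ) : ∃ N₀ : ℕ, ∀ N ≥ N₀, Cmp k p (N • x + u) x ∧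
    ∀ (X : Type u) [AddCommGroup X] [Module A X] [Module k X] [IsScalarTower k A X] [Module.Finite k X],
      Ws k p (N • x + u) X → Ws k p x X ∧ br k p u X = 0 := by
  obtain ⟨N₀, hN₀⟩ := star hp hfin x u
  refine ⟨N₀ + 1, fun N hN => ⟨hN₀ N (by omega), ?_⟩⟩
  intro X _ _ _ _ _ hX
  have h1 : Cmp k p x ((N - 1) • x + u) := (hN₀ (N - 1) (by omega)).symm
  have h2 : x + ((N - 1) • x + u) = N • x + u := by
    obtain ⟨M, rfl⟩ : ∃ M, N = M + 1 := ⟨N - 1, by omega⟩
    rw [Nat.add_sub_cancel, add_smul, one_smul]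
    abel
  have h3 := hX
  rw [← h2] at h3
  have h4 := (Ws_add hp hfin h1).1 h3
  refine ⟨h4.1, ?_⟩
  have h5 := Ws_br h4.1
  have h6 := Ws_br hX
  rw [br_add_left, br_nsmul_left, h5, mul_zero, zero_add] at h6
  exact h6

end

end TB3
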