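import Pool.Agent.LibTB3.C2
/-!
ROW [TB3 C4] MEDIUM.
(cite C2) lists of pairwise compatible classes.
PLAN. Induction on the list with the strengthened statement: Cp l implies (∀ w, Cmp w l.sum ↔ ∀ y ∈ l, Cmp w y) and E0c l.sum ↔ ∀, H0c l.sum ↔ ∀.
Step for y :: l: Cmp y l.sum by the first part for l (all members of l are compatible with y), then Cmp_add_iff, E0c_add, H0c_add for y + l.sum.
Sbo_mem: E0c l.sum → E0c y from the list lemma; Tc y X → Tc l.sum X: l is a permutation of y :: l' (`List.perm_cons_erase`, List.Perm.sum_eq), Tc_add_left with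
Cmp y l'.sum.  Sbo_cmp: y ≤ z, y' ≤ z', z compatible with z' implies y compatible with y': Tc y → Tc z → E0c z' → E0c y'.
Cp_append: from pairwise compatibility of all members.
-/
set_option autoImplicit false
universe u
namespace TB3
open Module TB10

section
variable {k : Type u} [Field k] {A : Type u} [Ring A] [Algebra k A]
variable {n : ℕ} {p : Fin n → Submodule A A}
    {X : Type u} [AddCommGroup X] [Module A X] [Module k X] [IsScalarTower k A X] [Module.Finite k X]
    [Module.Finite k A] [Infinite k] (hp : Bas k p) (hfin : FinB k A)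

omit [Module.Finite k A] [Infinite k] in
theorem c4_H0c_zero : H0c k p (0 : Fin n → ℤ) X := fun K => by
  rw [br_zero_left]

omit [Module.Finite k A] [Infinite k] in
theorem c4_cp_cons {y : Fin n → ℤ} {l : List (Fin n → ℤ)} (hl : Cp k p (y :: l)) : Cp k p l :=
  fun z hz z' hz' => hl z (List.mem_cons_of_mem y hz) z' (List.mem_cons_of_mem y hz')

omit [Module.Finite k A] [Infinite k] in
theorem c4_list {m : ℕ} (t : Fin m → Fin n → ℤ) (ht : ∀ i j, Cmp k p (t i) (t j)) (c : Fin m → ℕ) :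
    ∃ l : List (Fin n → ℤ), Cp k p l ∧ l.sum = ∑ i, c i • t i ∧ ∀ y, y ∈ l ↔ ∃ i, 0 < c i ∧ y = t i := by
  have hmem : ∀ y, y ∈ ((List.finRange m).map fun i => List.replicate (c i) (t i)).flatten ↔
      ∃ i, 0 < c i ∧ y = t i := by
    intro y
    rw [List.mem_flatten]
    constructor
    · rintro ⟨l, hl, hy⟩
      rw [List.mem_map] at hl
      obtain ⟨i, -, rfl⟩ := hl
      rw [List.mem_replicate] at hy
      exact ⟨i, Nat.pos_of_ne_zero hy.1, hy.2⟩
    · rintro ⟨i, hi, rfl⟩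
      exact ⟨List.replicate (c i) (t i), List.mem_map.2 ⟨i, List.mem_finRange i, rfl⟩,
        List.mem_replicate.2 ⟨hi.ne', rfl⟩⟩
  refine ⟨((List.finRange m).map fun i => List.replicate (c i) (t i)).flatten, ?_, ?_, hmem⟩
  · intro y hy y' hy'
    obtain ⟨i, -, rfl⟩ := (hmem y).1 hy
    obtain ⟨j, -, rfl⟩ := (hmem y').1 hy'
    exact ht i j
  · rw [List.sum_flatten, List.map_map, Fin.sum_univ_def]
    congr 1
    refine List.map_congr_left fun i _ => ?_
    rw [Function.comp_apply, List.sum_replicate]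

include hp hfin

theorem Cmp_list {l : List (Fin n → ℤ)} (hl : Cp k p l) (w : Fin n → ℤ) :
    Cmp k p w l.sum ↔ ∀ y ∈ l, Cmp k p w y := by
  induction l generalizing w with
  | nil =>
    rw [List.sum_nil]
    exact ⟨fun _ y hy => absurd hy List.not_mem_nil, fun _ => Cmp_zero w⟩
  | cons y l ih =>
    have hl' := c4_cp_cons hl
    have hy : Cmp k p y l.sum := (ih hl' y).2 fun z hz =>
      hl y List.mem_cons_self z (List.mem_cons_of_mem y hz)
    rw [List.sum_cons, Cmp_add_iff hp hfin hy, ih hl' w, List.forall_mem_cons]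

theorem c4_cmp_sum {y : Fin n → ℤ} {l : List (Fin n → ℤ)} (hl : Cp k p (y :: l)) :
    Cmp k p y l.sum :=
  (Cmp_list hp hfin (c4_cp_cons hl) y).2 fun z hz =>
    hl y List.mem_cons_self z (List.mem_cons_of_mem y hz)

theorem E0c_list {l : List (Fin n → ℤ)} (hl : Cp k p l) :
    E0c k p l.sum X ↔ ∀ y ∈ l, E0c k p y X := by
  induction l with
  | nil =>
    rw [List.sum_nil]
    exact ⟨fun _ y hy => absurd hy List.not_mem_nil, fun _ => E0c_zero⟩
  | cons y l ih =>
    rw [List.sum_cons, E0c_add hp hfin (c4_cmp_sum hp hfin hl), ih (c4_cp_cons hl),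
      List.forall_mem_cons]

theorem H0c_list {l : List (Fin n → ℤ)} (hl : Cp k p l) :
    H0c k p l.sum X ↔ ∀ y ∈ l, H0c k p y X := by
  induction l with
  | nil =>
    rw [List.sum_nil]
    exact ⟨fun _ y hy => absurd hy List.not_mem_nil, fun _ => c4_H0c_zero⟩
  | cons y l ih =>
    rw [List.sum_cons, H0c_add hp hfin (c4_cmp_sum hp hfin hl), ih (c4_cp_cons hl),
      List.forall_mem_cons]

theorem Sbo_mem {l : List (Fin n → ℤ)} (hl : Cp k p l) {y : Fin n → ℤ} (hy : y ∈ l) :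
    Sbo k p y l.sum := by
  classical
  refine ⟨fun X => ?_, fun X => ?_⟩
  · intro _ _ _ _ _ hX
    exact (E0c_list hp hfin hl).1 hX y hy
  · intro _ _ _ _ _ hX
    have hperm := List.perm_cons_erase hy
    have hcp : Cp k p (y :: l.erase y) := fun z hz z' hz' =>
      hl z (hperm.mem_iff.2 hz) z' (hperm.mem_iff.2 hz')
    rw [hperm.sum_eq, List.sum_cons]
    exact Tc_add_left (c4_cmp_sum hp hfin hcp) hX

omit [Infinite k] hp hfin in
theorem Sbo_cmp {y y' z z' : Fin n → ℤ} (h : Sbo k p y z) (h' : Sbo k p y' z')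
    (hz : Cmp k p z z') : Cmp k p y y' := by
  refine ⟨fun X => ?_, fun X => ?_⟩
  · intro _ _ _ _ _ hX
    exact h'.1 X (hz.1 X (h.2 X hX))
  · intro _ _ _ _ _ hX
    exact h.1 X (hz.2 X (h'.2 X hX))

omit [Infinite k] hp hfin in
theorem Sbo.refl (y : Fin n → ℤ) : Sbo k p y y := ⟨fun _ => by intros; assumption, fun _ => by intros; assumption⟩

omit [Infinite k] hp hfin in
theorem Sbo.trans {x y z : Fin n → ℤ} (h : Sbo k p x y) (h' : Sbo k p y z) : Sbo k p x z := by
  refine ⟨fun X => ?_, fun X => ?_⟩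
  · intro _ _ _ _ _ hX
    exact h.1 X (h'.1 X hX)
  · intro _ _ _ _ _ hX
    exact h'.2 X (h.2 X hX)

/-- sums with multiplicities of pairwise compatible classes: all members are compatible with the sum, members with positive coefficient are subordinate -/
theorem sum_cmp {m : ℕ} (t : Fin m → Fin n → ℤ) (ht : ∀ i j, Cmp k p (t i) (t j)) (c : Fin m → ℕ)
    (w : Fin n → ℤ) (hw : ∀ i, 0 < c i → Cmp k p w (t i)) : Cmp k p w (∑ i, c i • t i) := by
  obtain ⟨l, hl, hs, hm⟩ := c4_list t ht c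
  rw [← hs, Cmp_list hp hfin hl]
  intro y hy
  obtain ⟨i, hi, rfl⟩ := (hm y).1 hy
  exact hw i hi

theorem sum_E0c {m : ℕ} (t : Fin m → Fin n → ℤ) (ht : ∀ i j, Cmp k p (t i) (t j)) (c : Fin m → ℕ) :
    E0c k p (∑ i, c i • t i) X ↔ ∀ i, 0 < c i → E0c k p (t i) X := by
  obtain ⟨l, hl, hs, hm⟩ := c4_list t ht c
  rw [← hs, E0c_list hp hfin hl]
  constructor
  · intro h i hi
    exact h _ ((hm _).2 ⟨i, hi, rfl⟩)
  · intro h y hy
    obtain ⟨i, hi, rfl⟩ := (hm y).1 hy
    exact h i hi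

theorem sum_H0c {m : ℕ} (t : Fin m → Fin n → ℤ) (ht : ∀ i j, Cmp k p (t i) (t j)) (c : Fin m → ℕ) :
    H0c k p (∑ i, c i • t i) X ↔ ∀ i, 0 < c i → H0c k p (t i) X := by
  obtain ⟨l, hl, hs, hm⟩ := c4_list t ht c
  rw [← hs, H0c_list hp hfin hl]
  constructor
  · intro h i hi
    exact h _ ((hm _).2 ⟨i, hi, rfl⟩)
  · intro h y hy
    obtain ⟨i, hi, rfl⟩ := (hm y).1 hy
    exact h i hi

theorem sum_Sbo {m : ℕ} (t : Fin m → Fin n → ℤ) (ht : ∀ i j, Cmp k p (t i) (t j)) (c : Fin m → ℕ)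
    (i : Fin m) (hi : 0 < c i) : Sbo k p (t i) (∑ i, c i • t i) := by
  obtain ⟨l, hl, hs, hm⟩ := c4_list t ht c
  rw [← hs]
  exact Sbo_mem hp hfin hl ((hm _).2 ⟨i, hi, rfl⟩)

/-- the list with multiplicities -/
theorem exists_list {m : ℕ} (t : Fin m → Fin n → ℤ) (ht : ∀ i j, Cmp k p (t i) (t j)) (c : Fin m → ℕ) :
    ∃ l : List (Fin n → ℤ), Cp k p l ∧ l.sum = ∑ i, c i • t i ∧ ∀ y, y ∈ l ↔ ∃ i, 0 < c i ∧ y = t i :=
  c4_list t ht c

end

end TB3
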