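import Pool.Agent.LibTB3.R2
import Pool.Agent.LibTB10.W2
import Pool.Agent.LibTB10.G1
import Pool.Agent.LibTB10.P3
/-!
ROW [TB3 D1] MEDIUM/STRONG.
(cite TB10.W1, W2) Fitting: a rigid presentation which is not local is a direct sum of two smaller rigid presentations.
PLAN. ¬ LocP G: there is (α, β) with α f = f β, not both nilpotent, not both bijective.  Fitting for α and β (see TB10.loc_of_minimal in LibTB10/W2: for m large
IsCompl (ker α^m) (range α^m) and IsCompl (ker β^m) (range β^m), m ≥ 1, f (ker β^m) ⊆ ker α^m, f (range β^m) ⊆ range α^m (TB10.w2_comm)).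
P' = ker β^m, Q' = ker α^m, P'' = range β^m, Q'' = range α^m; G' = G.sub P' Q' .. (TB10.Pres.sub, projectivity TB10.projective_of_isCompl), G'' = G.sub P'' Q'' ...
If P' = ⊤ and Q' = ⊤ then both nilpotent; if P' = ⊥ and Q' = ⊥ both are injective, so bijective.  So both sizes are smaller (finrank of a proper submodule;
G.size = G'.size + G''.size by IsCompl).
Rigid G'.f, EE G'.f G''.f etc.: h : P' → Q'' extends by zero on P'' to P → Q, = α₁ f + f β₁ (Rigid), project to the components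
(`Submodule.linearProjOfIsCompl`/`Submodule.projectionOnto`).  All four statements are the same computation.
Cl: finrank Hom(G.Q,X) = finrank Hom(Q',X) + finrank Hom(Q'',X) (TB10.p3_finrank_split).
-/
set_option autoImplicit false
universe u
namespace TB3
open Module TB10

section
variable {k : Type u} [Field k] {A : Type u} [Ring A] [Algebra k A]


theorem d1_EE {P Q : Type u} [AddCommGroup P] [Module A P] [AddCommGroup Q] [Module A Q]
    (f : P →ₗ[A] Q) (hf : Rigid f) (Pa Pa' Pb Pb' : Submodule A P) (Qa Qb Qb' : Submodule A Q)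
    (hPa : IsCompl Pa Pa') (hPb : IsCompl Pb Pb') (hQb : IsCompl Qb Qb')
    (ha : ∀ p ∈ Pa, f p ∈ Qa) (hb : ∀ p ∈ Pb, f p ∈ Qb) (hb' : ∀ p ∈ Pb', f p ∈ Qb') :
    EE (f.restrict ha : Pa →ₗ[A] Qa) (f.restrict hb : Pb →ₗ[A] Qb) := by
  intro h
  obtain ⟨α, β, hαβ⟩ := hf (Qb.subtype ∘ₗ h ∘ₗ Pa.projectionOnto Pa' hPa)
  have hπ : ∀ x : P, Qb.projectionOnto Qb' hQb (f x) = f.restrict hb (Pb.projectionOnto Pb' hPb x) := by
    intro x
    have hx : x ∈ Pb ⊔ Pb' := by rw [hPb.sup_eq_top]; trivial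
    obtain ⟨y, hy, z, hz, rfl⟩ := Submodule.mem_sup.mp hx
    rw [map_add, map_add, map_add, Submodule.projectionOnto_apply_of_mem_left hQb (hb y hy),
      Submodule.projectionOnto_apply_of_mem_right hQb (hb' z hz),
      Submodule.projectionOnto_apply_of_mem_left hPb hy,
      Submodule.projectionOnto_apply_of_mem_right hPb hz, add_zero, add_zero]
    rfl
  refine ⟨Qb.projectionOnto Qb' hQb ∘ₗ α ∘ₗ Qa.subtype,
    Pb.projectionOnto Pb' hPb ∘ₗ β ∘ₗ Pa.subtype, ?_⟩
  refine LinearMap.ext fun p => ?_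
  have h1 := LinearMap.congr_fun hαβ (p : P)
  simp only [LinearMap.add_apply, LinearMap.comp_apply, Submodule.projectionOnto_apply_left] at h1
  have h2 := congrArg (Qb.projectionOnto Qb' hQb) h1
  rw [map_add, hπ] at h2
  rw [LinearMap.add_apply, LinearMap.comp_apply, LinearMap.comp_apply, LinearMap.comp_apply,
    LinearMap.comp_apply, LinearMap.comp_apply]
  refine Eq.trans ?_ (h2.trans ?_)
  · rfl
  · exact Submodule.projectionOnto_apply_left hQb (h p)

theorem d1_size (G : Pres k A) (P' : Submodule A G.P) (Q' : Submodule A G.Q)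
    (h : ¬ (P' = ⊤ ∧ Q' = ⊤)) : finrank k P' + finrank k Q' < G.size := by
  by_contra hc
  have h0 : G.size = finrank k G.P + finrank k G.Q := rfl
  have h1 := w2_le (k := k) P'
  have h2 := w2_le (k := k) Q'
  exact h ⟨w2_top (k := k) P' (by omega), w2_top (k := k) Q' (by omega)⟩

theorem d1_bij {X : Type u} [AddCommGroup X] [Module A X] [IsNoetherian A X] (a : Module.End A X)
    {m : ℕ} (hm : 1 ≤ m) (h : LinearMap.range (a ^ m) = ⊤) : Function.Bijective a := by
  have h10 : Function.Surjective a := by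
    intro x
    obtain ⟨r, hr⟩ : x ∈ LinearMap.range (a ^ m) := by
      rw [h]
      exact Submodule.mem_top
    refine ⟨(a ^ (m - 1)) r, ?_⟩
    rw [← Module.End.mul_apply, ← pow_succ', Nat.sub_add_cancel hm, hr]
  exact ⟨IsNoetherian.injective_of_surjective_endomorphism a h10, h10⟩

theorem exists_split (G : Pres k A) (hG : Rigid G.f) (h : ¬ LocP G) :
    ∃ G' G'' : Pres k A, Rigid G'.f ∧ Rigid G''.f ∧ EE G'.f G''.f ∧ EE G''.f G'.f ∧
      G'.size < G.size ∧ G''.size < G.size ∧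
      ∀ (n : ℕ) (p : Fin n → Submodule A A) (x' x'' : Fin n → ℤ), Cl k p G' x' → Cl k p G'' x'' → Cl k p G (x' + x'') := by
  unfold LocP at h
  push Not at h
  obtain ⟨α, β, hc, hn, hb⟩ := h
  have hNQ : IsNoetherian A G.Q := isNoetherian_of_tower k inferInstance
  have hAQ : IsArtinian A G.Q := isArtinian_of_tower k inferInstance
  have hNP : IsNoetherian A G.P := isNoetherian_of_tower k inferInstance
  have hAP : IsArtinian A G.P := isArtinian_of_tower k inferInstance
  have h2 : ∀ p, G.f (β p) = α (G.f p) := fun p => (LinearMap.congr_fun hc p).symm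
  obtain ⟨m, ⟨hn0, hn1⟩, hm⟩ := (((LinearMap.eventually_isCompl_ker_pow_range_pow α).and
    (LinearMap.eventually_isCompl_ker_pow_range_pow β)).and
    (Filter.eventually_ge_atTop 1)).exists
  have h3 : ∀ p ∈ LinearMap.ker (β ^ m), G.f p ∈ LinearMap.ker (α ^ m) := by
    intro p hp
    rw [LinearMap.mem_ker] at hp ⊢
    rw [← w2_comm h2, hp, map_zero]
  have h4 : ∀ p ∈ LinearMap.range (β ^ m), G.f p ∈ LinearMap.range (α ^ m) := by
    rintro _ ⟨p, rfl⟩
    exact ⟨G.f p, (w2_comm h2 m p).symm⟩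
  refine ⟨G.sub (LinearMap.ker (β ^ m)) (LinearMap.ker (α ^ m)) (projective_of_isCompl hn1)
    (projective_of_isCompl hn0) h3,
    G.sub (LinearMap.range (β ^ m)) (LinearMap.range (α ^ m)) (projective_of_isCompl hn1.symm)
    (projective_of_isCompl hn0.symm) h4, ?_, ?_, ?_, ?_, ?_, ?_, ?_⟩
  · exact d1_EE G.f hG _ _ _ _ _ _ _ hn1 hn1 hn0 h3 h3 h4
  · exact d1_EE G.f hG _ _ _ _ _ _ _ hn1.symm hn1.symm hn0.symm h4 h4 h3
  · exact d1_EE G.f hG _ _ _ _ _ _ _ hn1 hn1.symm hn0.symm h3 h4 h3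
  · exact d1_EE G.f hG _ _ _ _ _ _ _ hn1.symm hn1 hn0 h4 h3 h4
  · refine d1_size G _ _ ?_
    rintro ⟨e1, e2⟩
    exact hn ⟨m, LinearMap.ker_eq_top.1 e2⟩ ⟨m, LinearMap.ker_eq_top.1 e1⟩
  · refine d1_size G _ _ ?_
    rintro ⟨e1, e2⟩
    exact hb (d1_bij α hm e2) (d1_bij β hm e1)
  · intro n p x' x'' h' h'' X _ _ _ _ _
    have e1 := h' X
    have e2 := h'' X
    have e3 := p3_finrank_split (k := k) _ _ hn0 X
    have e4 := p3_finrank_split (k := k) _ _ hn1 X
    have e5 := br_add_left (k := k) (p := p) (X := X) x' x''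
    rw [e3, e4, e5]
    push_cast
    have e1' : (finrank k (LinearMap.ker (α ^ m) →ₗ[A] X) : ℤ) =
      finrank k (LinearMap.ker (β ^ m) →ₗ[A] X) + br k p x' X := e1
    have e2' : (finrank k (LinearMap.range (α ^ m) →ₗ[A] X) : ℤ) =
      finrank k (LinearMap.range (β ^ m) →ₗ[A] X) + br k p x'' X := e2
    rw [e1', e2']
    ring

end

end TB3
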