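import Pool.Agent.LibTB3.D1
import Pool.Agent.LibTB3.C4
/-!
ROW [TB3 D2] MEDIUM.
(cite D1, C1, C4, R2) every class is the sum of a list of pairwise compatible prime classes.
PLAN. Strong induction on G.size: for every rigid G and z with Cl G z there is l with all members prime, Cp l, l.sum = z.
LocP G: if z = 0: l = [], else l = [z] (Cmp.refl).  Otherwise exists_split: G', G'', classes z', z'' (exists_cl), z = z' + z'' (Cl_unique), lists l', l'' and
l = l' ++ l''.  Cross compatibility: Cmp z' z'' (cmp_iff), Sbo y z' (Sbo_mem) , Sbo y' z'', Sbo_cmp.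
Start: exists_class.
-/
set_option autoImplicit false
universe u
namespace TB3
open Module TB10

section
variable {k : Type u} [Field k] {A : Type u} [Ring A] [Algebra k A]
variable {n : ℕ} {p : Fin n → Submodule A A}

theorem d2_main [Module.Finite k A] [Infinite k] (hp : Bas k p) (hfin : FinB k A) (N : ℕ) :
    ∀ G : Pres k A, Rigid G.f → G.size < N → ∀ z : Fin n → ℤ, Cl k p G z →
      ∃ l : List (Fin n → ℤ), (∀ y ∈ l, Prm k p y) ∧ Cp k p l ∧ l.sum = z := by
  induction N with
  | zero => exact fun G _ h => absurd h (Nat.not_lt_zero _)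
  | succ N ih =>
    intro G hG hN z hz
    by_cases hloc : LocP G
    · by_cases h0 : z = 0
      · refine ⟨[], ?_, ?_, ?_⟩
        · intro y hy
          exact absurd hy List.not_mem_nil
        · intro y hy
          exact absurd hy List.not_mem_nil
        · rw [h0]
          exact List.sum_nil
      · refine ⟨[z], ?_, ?_, ?_⟩
        · intro y hy
          rw [List.mem_singleton.1 hy]
          exact ⟨h0, G, hG, hloc, hz⟩
        · intro y hy y' hy'
          rw [List.mem_singleton.1 hy, List.mem_singleton.1 hy']
          exact Cmp.refl z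
        · exact List.sum_singleton
    · obtain ⟨G', G'', h1, h2, h3, h4, h5, h6, h7⟩ := exists_split G hG hloc
      obtain ⟨z', hz'⟩ := exists_cl hp G'
      obtain ⟨z'', hz''⟩ := exists_cl hp G''
      have hzz : z = z' + z'' := Cl_unique hp hz (h7 n p z' z'' hz' hz'')
      obtain ⟨l', a1, a2, a3⟩ := ih G' h1 (by omega) z' hz'
      obtain ⟨l'', b1, b2, b3⟩ := ih G'' h2 (by omega) z'' hz''
      have hc : Cmp k p l'.sum l''.sum := by
        rw [a3, b3]
        exact (cmp_iff h1 hz' h2 hz'').2 ⟨h3, h4⟩
      have hx : ∀ y ∈ l', ∀ y' ∈ l'', Cmp k p y y' := fun y hy y' hy' =>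
        Sbo_cmp (Sbo_mem hp hfin a2 hy) (Sbo_mem hp hfin b2 hy') hc
      refine ⟨l' ++ l'', ?_, ?_, ?_⟩
      · intro y hy
        rcases List.mem_append.1 hy with h | h
        · exact a1 y h
        · exact b1 y h
      · intro y hy y' hy'
        rcases List.mem_append.1 hy with h | h
        · rcases List.mem_append.1 hy' with h' | h'
          · exact a2 y h y' h'
          · exact hx y h y' h'
        · rcases List.mem_append.1 hy' with h' | h'
          · exact (hx y' h' y h).symm
          · exact b2 y h y' h'
      · rw [List.sum_append, a3, b3, hzz]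

theorem exists_dec [Module.Finite k A] [Infinite k] (hp : Bas k p) (hfin : FinB k A) (z : Fin n → ℤ) :
    ∃ l : List (Fin n → ℤ), (∀ y ∈ l, Prm k p y) ∧ Cp k p l ∧ l.sum = z := by
  obtain ⟨F, hF, hz⟩ := exists_class hp hfin z
  exact d2_main hp hfin (F.size + 1) F hF (Nat.lt_succ_self _) z hz

end

end TB3
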