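import Pool.Agent.LibTB3.Defs
import Pool.Agent.LibTB10.W2
import Pool.Agent.LibTB10.A3
/-!
ROW [TB3 D3] MEDIUM.
(cite LibTB10) local presentations and local modules.
PLAN. lift_pair: θ : F.M → G.M lifts to (a, b) with a f = g b and mkQ ∘ a = θ ∘ mkQ: a by projectivity of F.Q, a ∘ f lands in range G.f, lift through
G.P → range G.f (F.P projective; `LinearMap.rangeRestrict`).
loc_M: α : F.M → F.M lifts to (a, b); if both nilpotent then α^m mkQ = mkQ a^m = 0 so α nilpotent; if bijective then α is surjective, and bijective by finite dimension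
(over k; F.M is finite over k; see LibTB10/W2).
smd_of_M: s, r lift to (a,b), (c,d); (c a, d b) is an endomorphism of F inducing r s on F.M, bijective on F.M ≠ 0 so not nilpotent, so both c a, d b are bijective
by LocP; replace c by (c a)⁻¹ c, d by (d b)⁻¹ d (LinearEquiv.ofBijective).  The relation (c a) f = f (d b) gives the relation for the inverses.
sum_bij: in a local endomorphism ring a finite sum of nilpotents is not bijective: if ∑ u_i = 1 then some u_i is bijective.  Induction over the finset with the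
statement: if v + ∑_{i∈s} u_i is bijective then v or some u_i is bijective: for two: v + w = b bijective, v nilpotent: b⁻¹v is not bijective (M nontrivial, v not
injective..., nilpotent on a nontrivial module is not bijective) so nilpotent, 1 - b⁻¹ v = b⁻¹ w is bijective (IsNilpotent.isUnit_one_sub, Module.End.isUnit_iff).
-/
set_option autoImplicit false
universe u
namespace TB3
open Module TB10

section
variable {k : Type u} [Field k] {A : Type u} [Ring A] [Algebra k A]


theorem d3_not_nilp {M : Type u} [AddCommGroup M] [Module A M] [Nontrivial M]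
    (u : M →ₗ[A] M) (h : Function.Bijective u) : ¬ IsNilpotent (u : Module.End A M) := by
  rintro ⟨n, hn⟩
  have h1 : IsUnit ((u : Module.End A M) ^ n) := ((Module.End.isUnit_iff u).2 h).pow n
  rw [hn] at h1
  have h2 := (Module.End.isUnit_iff (0 : Module.End A M)).1 h1
  obtain ⟨x, y, hxy⟩ := exists_pair_ne M
  exact hxy (h2.1 rfl)

theorem lift_pair (F G : Pres k A) (θ : F.M →ₗ[A] G.M) :
    ∃ (a : F.Q →ₗ[A] G.Q) (b : F.P →ₗ[A] G.P), a ∘ₗ F.f = G.f ∘ₗ b ∧
      ∀ q : F.Q, Submodule.Quotient.mk (a q) = θ (Submodule.Quotient.mk q) := by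
  obtain ⟨a, ha⟩ := Module.projective_lifting_property (LinearMap.range G.f).mkQ
    (θ ∘ₗ (LinearMap.range F.f).mkQ) (Submodule.mkQ_surjective _)
  have h0 : ∀ q, (LinearMap.range G.f).mkQ (a q) = θ ((LinearMap.range F.f).mkQ q) := fun q =>
    LinearMap.congr_fun ha q
  have h1 : ∀ p, (a ∘ₗ F.f) p ∈ LinearMap.range G.f := by
    intro p
    rw [← Submodule.Quotient.mk_eq_zero]
    have h2 := h0 (F.f p)
    have h3 : (LinearMap.range F.f).mkQ (F.f p) = 0 := by
      rw [Submodule.mkQ_apply, Submodule.Quotient.mk_eq_zero]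
      exact LinearMap.mem_range_self _ p
    rw [h3, map_zero] at h2
    exact h2
  obtain ⟨b, hb⟩ := Module.projective_lifting_property G.f.rangeRestrict
    ((a ∘ₗ F.f).codRestrict (LinearMap.range G.f) h1) G.f.surjective_rangeRestrict
  refine ⟨a, b, ?_, h0⟩
  refine LinearMap.ext fun p => ?_
  exact (congrArg Subtype.val (LinearMap.congr_fun hb p)).symm

theorem loc_M {F : Pres k A} (hF : LocP F) (hM : Nontrivial F.M) : Loc A F.M := by
  intro α
  obtain ⟨a, b, hab, hq⟩ := lift_pair F F α
  rcases hF a b hab with ⟨⟨n, hn⟩, -⟩ | ⟨ha, -⟩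
  · left
    refine ⟨n, LinearMap.ext fun x => ?_⟩
    obtain ⟨q, rfl⟩ := Submodule.mkQ_surjective _ x
    have h1 : (α ^ n) ((LinearMap.range F.f).mkQ q) = (LinearMap.range F.f).mkQ ((a ^ n) q) :=
      (w2_comm (f := (LinearMap.range F.f).mkQ) hq n q).symm
    rw [h1, hn]
    rfl
  · right
    have hs : Function.Surjective α := by
      intro x
      obtain ⟨q, rfl⟩ := Submodule.mkQ_surjective _ x
      obtain ⟨r, hr⟩ := ha.2 q
      refine ⟨(LinearMap.range F.f).mkQ r, ?_⟩
      rw [← hr]
      exact (hq r).symm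
    have hN : IsNoetherian A F.M := isNoetherian_of_tower k inferInstance
    exact ⟨IsNoetherian.injective_of_surjective_endomorphism α hs, hs⟩

theorem smd_of_M {F G : Pres k A} (hF : LocP F) (hM : Nontrivial F.M) (s : F.M →ₗ[A] G.M)
    (r : G.M →ₗ[A] F.M) (h : Function.Bijective (r ∘ₗ s)) : Smd F G := by
  obtain ⟨a, b, hab, hs⟩ := lift_pair F G s
  obtain ⟨c, d, hcd, hr⟩ := lift_pair G F r
  have hab' : ∀ p, a (F.f p) = G.f (b p) := fun p => LinearMap.congr_fun hab p
  have hcd' : ∀ p, c (G.f p) = F.f (d p) := fun p => LinearMap.congr_fun hcd p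
  have hE : (c ∘ₗ a) ∘ₗ F.f = F.f ∘ₗ (d ∘ₗ b) := by
    refine LinearMap.ext fun p => ?_
    change c (a (F.f p)) = F.f (d (b p))
    rw [hab', hcd']
  have hrs : ∀ q, (LinearMap.range F.f).mkQ ((c ∘ₗ a) q) =
      (r ∘ₗ s) ((LinearMap.range F.f).mkQ q) := by
    intro q
    change Submodule.Quotient.mk (c (a q)) = r (s (Submodule.Quotient.mk q))
    rw [← hs, ← hr]
  rcases hF (c ∘ₗ a) (d ∘ₗ b) hE with ⟨⟨n, hn⟩, -⟩ | ⟨h1, h2⟩
  · exfalso
    refine d3_not_nilp (r ∘ₗ s) h ⟨n, LinearMap.ext fun x => ?_⟩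
    obtain ⟨q, rfl⟩ := Submodule.mkQ_surjective _ x
    have h3 : ((r ∘ₗ s : Module.End A F.M) ^ n) ((LinearMap.range F.f).mkQ q) =
        (LinearMap.range F.f).mkQ (((c ∘ₗ a : Module.End A F.Q) ^ n) q) :=
      (w2_comm (f := (LinearMap.range F.f).mkQ) hrs n q).symm
    rw [h3, hn]
    rfl
  · let e₁ := LinearEquiv.ofBijective (c ∘ₗ a) h1
    let e₂ := LinearEquiv.ofBijective (d ∘ₗ b) h2
    have he : ∀ x, e₁ (F.f x) = F.f (e₂ x) := fun x => LinearMap.congr_fun hE x
    refine ⟨a, b, e₁.symm.toLinearMap ∘ₗ c, e₂.symm.toLinearMap ∘ₗ d, hab, ?_, ?_, ?_⟩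
    · refine LinearMap.ext fun x => ?_
      change e₁.symm (c (G.f x)) = F.f (e₂.symm (d x))
      rw [hcd', LinearEquiv.symm_apply_eq, he, LinearEquiv.apply_symm_apply]
    · refine LinearMap.ext fun x => ?_
      change e₁.symm (c (a x)) = x
      rw [LinearEquiv.symm_apply_eq]
      rfl
    · refine LinearMap.ext fun x => ?_
      change e₂.symm (d (b x)) = x
      rw [LinearEquiv.symm_apply_eq]
      rfl

theorem d3_two {M : Type u} [AddCommGroup M] [Module A M] [Nontrivial M] (hM : Loc A M)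
    (v w : M →ₗ[A] M) (h : Function.Bijective (v + w)) :
    Function.Bijective v ∨ Function.Bijective w := by
  let e := LinearEquiv.ofBijective (v + w) h
  rcases hM (e.symm.toLinearMap ∘ₗ v) with h1 | h1
  · right
    have h2 : IsUnit (1 - (e.symm.toLinearMap ∘ₗ v : Module.End A M)) := h1.isUnit_one_sub
    have h3 := (Module.End.isUnit_iff _).1 h2
    have h4 : (w : M → M) =
        e ∘ ⇑(1 - (e.symm.toLinearMap ∘ₗ v : Module.End A M)) := by
      funext x
      change w x = e (x - e.symm (v x))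
      rw [map_sub, LinearEquiv.apply_symm_apply]
      change w x = (v x + w x) - v x
      abel
    rw [h4]
    exact e.bijective.comp h3
  · left
    have h4 : (v : M → M) = e ∘ ⇑(e.symm.toLinearMap ∘ₗ v) := by
      funext x
      change v x = e (e.symm (v x))
      rw [LinearEquiv.apply_symm_apply]
    rw [h4]
    exact e.bijective.comp h1

theorem d3_sum {M : Type u} [AddCommGroup M] [Module A M] [Nontrivial M] (hM : Loc A M)
    {ι : Type*} (s : Finset ι) (u : ι → M →ₗ[A] M)
    (h : Function.Bijective (∑ i ∈ s, u i : M →ₗ[A] M)) : ∃ i ∈ s, Function.Bijective (u i) := by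
  classical
  induction s using Finset.induction_on with
  | empty =>
    exfalso
    rw [Finset.sum_empty] at h
    obtain ⟨x, y, hxy⟩ := exists_pair_ne M
    exact hxy (h.1 rfl)
  | insert a s ha ih =>
    rw [Finset.sum_insert ha] at h
    rcases d3_two hM _ _ h with h1 | h1
    · exact ⟨a, Finset.mem_insert_self _ _, h1⟩
    · obtain ⟨i, hi, h2⟩ := ih h1
      exact ⟨i, Finset.mem_insert_of_mem hi, h2⟩

theorem exists_bij_of_sum {M : Type u} [AddCommGroup M] [Module A M] [Module k M] [IsScalarTower k A M]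
    [Module.Finite k M] [Nontrivial M] (hM : Loc A M) {ι : Type*} (s : Finset ι) (u : ι → M →ₗ[A] M)
    (h : Function.Bijective (∑ i ∈ s, u i)) : ∃ i ∈ s, Function.Bijective (u i) := by
  have h0 : (∑ i ∈ s, ⇑(u i)) = ⇑(∑ i ∈ s, u i) := by
    funext x
    rw [Finset.sum_apply, LinearMap.sum_apply]
  exact d3_sum hM s u (h0 ▸ h)

theorem not_nilpotent_of_bij {M : Type u} [AddCommGroup M] [Module A M] [Nontrivial M]
    (u : M →ₗ[A] M) (h : Function.Bijective u) : ¬ IsNilpotent (u : Module.End A M) :=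
  d3_not_nilp u h

end

end TB3
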