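import Pool.Agent.LibTB3.C4
import Pool.Agent.LibTB3.D3
/-!
ROW [TB3 D4] MEDIUM.
(cite C1, C4, D3) Krull-Schmidt for presentations.
PLAN. smd_sum: (a,b),(c,d) for F in G ⊕ H; a = (a_G, a_H), c = c_G fst + c_H snd; e_G = (c_G a_G, d_G b_G) and e_H are endomorphisms of F with sum (id, id).
If e_G is not bijective it is nilpotent (both components), so id - e_G = e_H is bijective (IsNilpotent.isUnit_one_sub) in both components, and Smd F H after
composition with the inverse (as in smd_of_M).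
smd_loc: G local: (a c, b d) is an endomorphism of G, idempotent.  Nilpotent: a c = 0, so id = c a c a = 0 (c a = id) on F.Q, same for F.P: contradiction with F
nonzero.  Bijective and idempotent: a c = id, so a : F.Q ≃ G.Q, b : F.P ≃ G.P.
exists_sum: induction on l.  []: R2.exists_zeroP; F nonzero can not be a summand of 0 (c a = id forces F.Q, F.P subsingletons).  y :: l: F_y from Prm, G_l from the
induction, G = F_y.sum G_l (prodMap); Cmp y l.sum by Cmp_list; cmp_sum; a nonzero local summand is a summand of F_y, then Cl by smd_loc, or of G_l.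
-/
set_option autoImplicit false
universe u
namespace TB3
open Module TB10

section
variable {k : Type u} [Field k] {A : Type u} [Ring A] [Algebra k A]
variable {n : ℕ} {p : Fin n → Submodule A A}

private theorem d4_fix {F G : Pres k A} (a : F.Q →ₗ[A] G.Q) (b : F.P →ₗ[A] G.P)
    (c : G.Q →ₗ[A] F.Q) (d : G.P →ₗ[A] F.P) (h1 : a ∘ₗ F.f = G.f ∘ₗ b) (h2 : c ∘ₗ G.f = F.f ∘ₗ d)
    (h3 : Function.Bijective (c ∘ₗ a)) (h4 : Function.Bijective (d ∘ₗ b)) : Smd F G := by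
  have a1 : ∀ v, a (F.f v) = G.f (b v) := fun v => LinearMap.congr_fun h1 v
  have a2 : ∀ v, c (G.f v) = F.f (d v) := fun v => LinearMap.congr_fun h2 v
  let u := LinearEquiv.ofBijective (c ∘ₗ a) h3
  let w := LinearEquiv.ofBijective (d ∘ₗ b) h4
  have hu : ∀ v, u v = c (a v) := fun v => rfl
  have hw : ∀ v, w v = d (b v) := fun v => rfl
  refine ⟨a, b, u.symm.toLinearMap ∘ₗ c, w.symm.toLinearMap ∘ₗ d, h1, ?_, ?_, ?_⟩
  · refine LinearMap.ext fun v => ?_
    show u.symm (c (G.f v)) = F.f (w.symm (d v))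
    rw [LinearEquiv.symm_apply_eq, hu, a1, a2, a2, ← hw, LinearEquiv.apply_symm_apply]
  · refine LinearMap.ext fun v => ?_
    show u.symm (c (a v)) = v
    rw [← hu, LinearEquiv.symm_apply_apply]
  · refine LinearMap.ext fun v => ?_
    show w.symm (d (b v)) = v
    rw [← hw, LinearEquiv.symm_apply_apply]

private theorem d4_one_sub {M : Type u} [AddCommGroup M] [Module A M] {u v : M →ₗ[A] M}
    (h : IsNilpotent (u : Module.End A M)) (hs : ∀ x, u x + v x = x) : Function.Bijective v := by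
  have h1 : IsUnit ((1 : Module.End A M) - u) := h.isUnit_one_sub
  have h2 : (1 : Module.End A M) - u = v := by
    refine LinearMap.ext fun x => ?_
    show x - u x = v x
    rw [sub_eq_iff_eq_add, add_comm]
    exact (hs x).symm
  rw [h2] at h1
  exact (Module.End.isUnit_iff _).1 h1

theorem smd_sum {F G H : Pres k A} (hF : LocP F) (h : Smd F (G.sum H (G.f.prodMap H.f))) :
    Smd F G ∨ Smd F H := by
  obtain ⟨a, b, c, d, h1, h2, h3, h4⟩ := h
  have a1 : ∀ v, a (F.f v) = (G.f (b v).1, H.f (b v).2) := fun v => LinearMap.congr_fun h1 v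
  have a2 : ∀ v : G.P × H.P, c (G.f v.1, H.f v.2) = F.f (d v) := fun v => LinearMap.congr_fun h2 v
  have a3 : ∀ v, c (a v) = v := fun v => LinearMap.congr_fun h3 v
  have a4 : ∀ v, d (b v) = v := fun v => LinearMap.congr_fun h4 v
  let aG : F.Q →ₗ[A] G.Q := LinearMap.fst A G.Q H.Q ∘ₗ a
  let aH : F.Q →ₗ[A] H.Q := LinearMap.snd A G.Q H.Q ∘ₗ a
  let bG : F.P →ₗ[A] G.P := LinearMap.fst A G.P H.P ∘ₗ b
  let bH : F.P →ₗ[A] H.P := LinearMap.snd A G.P H.P ∘ₗ b
  let cG : G.Q →ₗ[A] F.Q := c ∘ₗ LinearMap.inl A G.Q H.Q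
  let cH : H.Q →ₗ[A] F.Q := c ∘ₗ LinearMap.inr A G.Q H.Q
  let dG : G.P →ₗ[A] F.P := d ∘ₗ LinearMap.inl A G.P H.P
  let dH : H.P →ₗ[A] F.P := d ∘ₗ LinearMap.inr A G.P H.P
  have g1 : aG ∘ₗ F.f = G.f ∘ₗ bG := by
    refine LinearMap.ext fun v => ?_
    show (a (F.f v)).1 = G.f (b v).1
    rw [a1]
  have g2 : aH ∘ₗ F.f = H.f ∘ₗ bH := by
    refine LinearMap.ext fun v => ?_
    show (a (F.f v)).2 = H.f (b v).2
    rw [a1]
  have g3 : cG ∘ₗ G.f = F.f ∘ₗ dG := by
    refine LinearMap.ext fun v => ?_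
    show c (G.f v, 0) = F.f (d (v, 0))
    rw [← a2]
    show c (G.f v, 0) = c (G.f v, H.f 0)
    rw [map_zero]
  have g4 : cH ∘ₗ H.f = F.f ∘ₗ dH := by
    refine LinearMap.ext fun v => ?_
    show c (0, H.f v) = F.f (d (0, v))
    rw [← a2]
    show c (0, H.f v) = c (G.f 0, H.f v)
    rw [map_zero]
  have s1 : ∀ v, cG (aG v) + cH (aH v) = v := by
    intro v
    show c ((a v).1, 0) + c (0, (a v).2) = v
    rw [← map_add, Prod.mk_add_mk, add_zero, zero_add]
    exact a3 v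
  have s2 : ∀ v, dG (bG v) + dH (bH v) = v := by
    intro v
    show d ((b v).1, 0) + d (0, (b v).2) = v
    rw [← map_add, Prod.mk_add_mk, add_zero, zero_add]
    exact a4 v
  have e1 : (cG ∘ₗ aG) ∘ₗ F.f = F.f ∘ₗ (dG ∘ₗ bG) := by
    rw [LinearMap.comp_assoc, g1, ← LinearMap.comp_assoc, g3, LinearMap.comp_assoc]
  rcases hF (cG ∘ₗ aG) (dG ∘ₗ bG) e1 with ⟨n1, n2⟩ | ⟨n1, n2⟩
  · right
    exact d4_fix aH bH cH dH g2 g4 (d4_one_sub n1 s1) (d4_one_sub n2 s2)
  · left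
    exact d4_fix aG bG cG dG g1 g3 n1 n2

private theorem d4_zero {M N : Type u} [AddCommGroup M] [Module A M] [AddCommGroup N] [Module A N]
    (a : M →ₗ[A] N) (c : N →ₗ[A] M) (h : c ∘ₗ a = LinearMap.id)
    (hn : IsNilpotent ((a ∘ₗ c : N →ₗ[A] N) : Module.End A N)) : Subsingleton M := by
  have h1 : ∀ v, c (a v) = v := fun v => LinearMap.congr_fun h v
  obtain ⟨m, hm⟩ := hn
  have h2 : ∀ m : ℕ, ∀ v, (((a ∘ₗ c : N →ₗ[A] N) : Module.End A N) ^ m) (a v) = a v := by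
    intro m
    induction m with
    | zero => intro v; rfl
    | succ m ih =>
      intro v
      rw [pow_succ]
      show (((a ∘ₗ c : N →ₗ[A] N) : Module.End A N) ^ m) (a (c (a v))) = a v
      rw [h1, ih]
  refine ⟨fun x y => ?_⟩
  have h3 : ∀ v, a v = 0 := fun v => by
    rw [← h2 m v, hm]
    rfl
  rw [← h1 x, ← h1 y, h3, h3]

private theorem d4_bij {M N : Type u} [AddCommGroup M] [Module A M] [AddCommGroup N] [Module A N]
    (a : M →ₗ[A] N) (c : N →ₗ[A] M) (h : c ∘ₗ a = LinearMap.id)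
    (hb : Function.Bijective (a ∘ₗ c)) : Function.Bijective a := by
  have h1 : ∀ v, c (a v) = v := fun v => LinearMap.congr_fun h v
  refine ⟨fun x y hxy => ?_, fun y => ?_⟩
  · rw [← h1 x, ← h1 y, hxy]
  · obtain ⟨z, hz⟩ := hb.2 y
    exact ⟨c z, hz⟩

theorem smd_loc {F G : Pres k A} (hF : Nontrivial F.Q ∨ Nontrivial F.P) (hG : LocP G) (h : Smd F G) :
    Nonempty (F.P ≃ₗ[A] G.P) ∧ Nonempty (F.Q ≃ₗ[A] G.Q) := by
  obtain ⟨a, b, c, d, h1, h2, h3, h4⟩ := h
  have e1 : (a ∘ₗ c) ∘ₗ G.f = G.f ∘ₗ (b ∘ₗ d) := by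
    rw [LinearMap.comp_assoc, h2, ← LinearMap.comp_assoc, h1, LinearMap.comp_assoc]
  rcases hG (a ∘ₗ c) (b ∘ₗ d) e1 with ⟨n1, n2⟩ | ⟨n1, n2⟩
  · exfalso
    have s1 : Subsingleton F.Q := d4_zero a c h3 n1
    have s2 : Subsingleton F.P := d4_zero b d h4 n2
    rcases hF with hF | hF
    · exact not_subsingleton _ s1
    · exact not_subsingleton _ s2
  · exact ⟨⟨LinearEquiv.ofBijective b (d4_bij b d h4 n2)⟩, ⟨LinearEquiv.ofBijective a (d4_bij a c h3 n1)⟩⟩

theorem exists_sum [Module.Finite k A] [Infinite k] (hp : Bas k p) (hfin : FinB k A)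
    (l : List (Fin n → ℤ)) (hl : Cp k p l) (hl' : ∀ y ∈ l, Prm k p y) :
    ∃ G : Pres k A, Rigid G.f ∧ Cl k p G l.sum ∧
      ∀ F : Pres k A, LocP F → (Nontrivial F.Q ∨ Nontrivial F.P) → Smd F G → ∃ y ∈ l, Cl k p F y := by
  induction l with
  | nil =>
    obtain ⟨G, g1, g2, g3, g4⟩ := exists_zeroP (k := k) (A := A) (p := p)
    refine ⟨G, g1, by rw [List.sum_nil]; exact g2, fun F _ hF hS => ?_⟩
    exfalso
    obtain ⟨a, b, c, d, _, _, h3, h4⟩ := hS
    have a3 : ∀ v, c (a v) = v := fun v => LinearMap.congr_fun h3 v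
    have a4 : ∀ v, d (b v) = v := fun v => LinearMap.congr_fun h4 v
    rcases hF with hF | hF
    · refine not_subsingleton F.Q ⟨fun x y => ?_⟩
      rw [← a3 x, ← a3 y, Subsingleton.elim (a x) (a y)]
    · refine not_subsingleton F.P ⟨fun x y => ?_⟩
      rw [← a4 x, ← a4 y, Subsingleton.elim (b x) (b y)]
  | cons y l ih =>
    have hl1 : Cp k p l := fun z hz z' hz' =>
      hl z (List.mem_cons_of_mem _ hz) z' (List.mem_cons_of_mem _ hz')
    obtain ⟨G, g1, g2, g3⟩ := ih hl1 fun z hz => hl' z (List.mem_cons_of_mem _ hz)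
    obtain ⟨_, Y, y1, y2, y3⟩ := hl' y List.mem_cons_self
    have hc : Cmp k p y l.sum := (Cmp_list hp hfin hl1 y).2 fun z hz =>
      hl y List.mem_cons_self z (List.mem_cons_of_mem _ hz)
    obtain ⟨r1, r2⟩ := cmp_sum y1 y3 g1 g2 hc
    refine ⟨_, r1, by rw [List.sum_cons]; exact r2, fun F hF hF' hS => ?_⟩
    rcases smd_sum hF hS with h | h
    · obtain ⟨⟨eP⟩, ⟨eQ⟩⟩ := smd_loc hF' y2 h
      exact ⟨y, List.mem_cons_self, Cl_of_equiv y3 eP.symm eQ.symm⟩
    · obtain ⟨z, hz, hz'⟩ := g3 F hF hF' h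
      exact ⟨z, List.mem_cons_of_mem _ hz, hz'⟩

end

end TB3
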