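import Pool.Agent.LibTB3.R1
import Pool.Agent.LibTB3.D3
import Pool.Agent.LibTB10.T1
/-!
ROW [TB3 D5] MEDIUM.
(cite R1, D3) SPLIT: a local rigid F with M_F ≠ 0 of class x, G rigid of class z, E0_z ⊆ E0_x and T_x ⊆ T_z: F is a summand of G.
PLAN. M = F.M, N = G.M.  Tc x M (Tc_M) so Tc z M so Gen A N M (gen_iff).  Let h_j be a finite basis of Hom(N,M) over k (instFinHom) and
h : (Fin m → N) → M, h v = ∑ h_j (v j).  Surjective because tr A N M = ⊤ (every θ is a k-combination of the h_j, so its range is in range h).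
K = ker h.  E0 G.f K: c : G.P → K; TB10.rigid_iff_E0: E0 G.f N, so (componentwise) there is q : G.Q → (Fin m → N) with q g = subtype ∘ c.  h q kills range g so it
induces η : N → M (Submodule.liftQ); η = ∑ a_j h_j = h ∘ (fun v j => a_j • v).  q' = q - (a_j • mkQ ·)_j maps into K (h q' = 0) and q' g = q g since mkQ g = 0.
So E0c z K (E0_iff), E0c x K, E0 F.f K (E0_iff).  mkQ : F.Q → M lifts through h to q : F.Q → (Fin m → N) (projective); q f lands in K (h q f = mkQ f = 0);
E0 F.f K: q f = q₁ f with q₁ : F.Q → K; (q - q₁) f = 0 so q - q₁ induces s : M → (Fin m → N), h s = id (on classes).  So ∑_j h_j s_j = id is bijective;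
exists_bij_of_sum: some h_j s_j is bijective, smd_of_M.
-/
set_option autoImplicit false
universe u
namespace TB3
open Module TB10

section
variable {k : Type u} [Field k] {A : Type u} [Ring A] [Algebra k A]
variable {n : ℕ} {p : Fin n → Submodule A A}

/-- the universal map of powers of `N` to `M`. -/
private theorem d5_univ {M N : Type u} [AddCommGroup M] [Module A M] [Module k M]
    [IsScalarTower k A M] [Module.Finite k M] [AddCommGroup N] [Module A N] [Module k N]
    [IsScalarTower k A N] [Module.Finite k N] (hgen : Gen A N M) :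
    ∃ (m : ℕ) (hh : (Fin m → N) →ₗ[A] M), Function.Surjective hh ∧
      ∀ η : N →ₗ[A] M, ∃ a : Fin m → k, ∀ v : N, η v = hh (fun j => a j • v) := by
  classical
  set b := Module.finBasis k (N →ₗ[A] M) with hb
  set hh : (Fin (finrank k (N →ₗ[A] M)) → N) →ₗ[A] M := ∑ j, b j ∘ₗ LinearMap.proj j with hhd
  have h1 : ∀ v, hh v = ∑ j, b j (v j) := by
    intro v
    rw [hhd, LinearMap.sum_apply]
    rfl
  have h2 : ∀ η : N →ₗ[A] M, ∀ v : N, η v = hh (fun j => (b.repr η j) • v) := by
    intro η v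
    rw [h1]
    conv_lhs => rw [← b.sum_repr η, LinearMap.sum_apply]
    refine Finset.sum_congr rfl fun j _ => ?_
    rw [LinearMap.smul_apply, LinearMap.map_smul_of_tower]
  refine ⟨_, hh, ?_, fun η => ⟨fun j => b.repr η j, h2 η⟩⟩
  rw [← LinearMap.range_eq_top, eq_top_iff]
  have h3 : tr A N M = ⊤ := hgen
  rw [← h3]
  unfold tr
  rw [iSup_le_iff]
  rintro θ _ ⟨v, rfl⟩
  rw [h2 θ v]
  exact ⟨_, rfl⟩

theorem split_of_sbo [Module.Finite k A] {x z : Fin n → ℤ} {F G : Pres k A}
    (hF : Rigid F.f) (hL : LocP F) (hx : Cl k p F x) (hM : Nontrivial F.M)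
    (hG : Rigid G.f) (hz : Cl k p G z) (h : Sbo k p x z) : Smd F G := by
  classical
  have hT : Tc k p z F.M := h.2 F.M (Tc_M hF hx)
  have hgen : Gen A G.M F.M := (gen_iff hG hz).2 hT
  obtain ⟨m, hh, hsurj, hcomb⟩ := d5_univ (k := k) hgen
  -- `E(G, ker hh) = 0`
  have hGM : E0 G.f G.M := (rigid_iff_E0 G.f).1 hG
  have hK : E0 G.f (LinearMap.ker hh) := by
    intro c
    choose q hq using fun j => hGM ((LinearMap.proj j ∘ₗ (LinearMap.ker hh).subtype) ∘ₗ c)
    have h1 : ∀ y j, q j (G.f y) = (c y : Fin m → G.M) j := fun y j => by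
      have := LinearMap.congr_fun (hq j) y
      exact this
    set Q : G.Q →ₗ[A] (Fin m → G.M) := LinearMap.pi q with hQ
    have h2 : ∀ y, Q (G.f y) = (c y : Fin m → G.M) := fun y => funext fun j => h1 y j
    have h3 : LinearMap.range G.f ≤ LinearMap.ker (hh ∘ₗ Q) := by
      rintro _ ⟨y, rfl⟩
      rw [LinearMap.mem_ker, LinearMap.comp_apply, h2]
      exact (c y).2
    obtain ⟨a, ha⟩ := hcomb (Submodule.liftQ _ (hh ∘ₗ Q) h3)
    set w : G.Q →ₗ[A] (Fin m → G.M) :=
      LinearMap.pi (fun j => a j • (LinearMap.range G.f).mkQ) with hw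
    have h4 : ∀ y, hh (w y) = hh (Q y) := by
      intro y
      have h5 := ha ((LinearMap.range G.f).mkQ y)
      rw [Submodule.mkQ_apply, Submodule.liftQ_apply, LinearMap.comp_apply] at h5
      rw [h5]
      rfl
    have h6 : ∀ y, (Q - w) y ∈ LinearMap.ker hh := by
      intro y
      rw [LinearMap.mem_ker, LinearMap.sub_apply, map_sub, h4, sub_self]
    refine ⟨(Q - w).codRestrict _ h6, ?_⟩
    ext1 y
    refine Subtype.ext ?_
    rw [LinearMap.comp_apply, LinearMap.codRestrict_apply, LinearMap.sub_apply, h2]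
    have h7 : w (G.f y) = 0 := by
      funext j
      have h8 : (LinearMap.range G.f).mkQ (G.f y) = 0 := by
        rw [Submodule.mkQ_apply, Submodule.Quotient.mk_eq_zero]
        exact ⟨y, rfl⟩
      show a j • (LinearMap.range G.f).mkQ (G.f y) = 0
      rw [h8, smul_zero]
    rw [h7, sub_zero]
  have hKx : E0 F.f (LinearMap.ker hh) :=
    (E0_iff hF hx).2 (h.1 _ ((E0_iff hG hz).1 hK))
  obtain ⟨q, hq⟩ := Module.projective_lifting_property hh (LinearMap.range F.f).mkQ hsurj
  have hq' : ∀ y, hh (q y) = (LinearMap.range F.f).mkQ y := fun y => LinearMap.congr_fun hq y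
  have h9 : ∀ y, (q ∘ₗ F.f) y ∈ LinearMap.ker hh := by
    intro y
    rw [LinearMap.mem_ker, LinearMap.comp_apply, hq', Submodule.mkQ_apply,
      Submodule.Quotient.mk_eq_zero]
    exact ⟨y, rfl⟩
  obtain ⟨q₁, hq₁⟩ := hKx ((q ∘ₗ F.f).codRestrict _ h9)
  have h10 : ∀ y, (q₁ (F.f y) : Fin m → G.M) = q (F.f y) := fun y => by
    have := LinearMap.congr_fun hq₁ y
    exact congrArg Subtype.val this
  have h11 : LinearMap.range F.f ≤
      LinearMap.ker (q - (LinearMap.ker hh).subtype ∘ₗ q₁) := by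
    rintro _ ⟨y, rfl⟩
    rw [LinearMap.mem_ker, LinearMap.sub_apply, LinearMap.comp_apply, Submodule.subtype_apply, h10,
      sub_self]
  set s : F.M →ₗ[A] (Fin m → G.M) :=
    Submodule.liftQ _ (q - (LinearMap.ker hh).subtype ∘ₗ q₁) h11 with hs
  have h12 : ∀ v : F.M, hh (s v) = v := by
    intro v
    obtain ⟨y, rfl⟩ := Submodule.mkQ_surjective _ v
    rw [hs, Submodule.mkQ_apply, Submodule.liftQ_apply, LinearMap.sub_apply, map_sub, hq',
      LinearMap.comp_apply, Submodule.subtype_apply, (q₁ y).2, sub_zero, Submodule.mkQ_apply]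
  have h14 : (∑ j : Fin m, (hh ∘ₗ LinearMap.single A (fun _ : Fin m => G.M) j) ∘ₗ
      (LinearMap.proj j ∘ₗ s) : F.M →ₗ[A] F.M) = LinearMap.id := by
    refine LinearMap.ext fun v => ?_
    rw [LinearMap.sum_apply, LinearMap.id_apply]
    conv_rhs => rw [← h12 v, ← Finset.univ_sum_single (s v), map_sum]
    rfl
  set u : Fin m → F.M →ₗ[A] F.M := fun j =>
    (hh ∘ₗ LinearMap.single A (fun _ : Fin m => G.M) j) ∘ₗ (LinearMap.proj j ∘ₗ s) with hu
  have h13 : Function.Bijective (∑ j ∈ Finset.univ, u j) := by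
    have h15 : (∑ j ∈ Finset.univ, (u j : F.M → F.M)) = id := by
      funext v
      rw [Finset.sum_apply, ← LinearMap.sum_apply, h14]
      rfl
    rw [h15]
    exact Function.bijective_id
  obtain ⟨j, -, hj⟩ := exists_bij_of_sum (k := k) (loc_M hL hM) Finset.univ u h13
  exact smd_of_M hL hM _ _ hj

end

end TB3
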