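import Pool.Agent.LibTB3.R1
import Pool.Agent.LibTB3.D3
import Pool.Agent.LibTB10.E1
import Pool.Agent.LibTB10.T1
/-!
ROW [TB3 D6] MEDIUM/STRONG.
(cite R1, D3, TB10.E1H) INJ: a local rigid F of class x ≠ 0 with M_F = 0 (so F is P → 0): if G is rigid of class z and E0_z ⊆ E0_x then F is a summand of G.
PLAN. F.f is surjective (M_F = 0).  It splits (F.Q projective): s with f s = id; β = id - s f is an endomorphism of F.P with f β = 0 = 0 ∘ f.  LocP for (0, β):
both nilpotent: β is idempotent so β = 0, so f is injective, so bijective, so Cl F 0 (finrank Hom(P,X) = finrank Hom(Q,X)) and x = 0 (needs Cl_unique; instead: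
br k p x X = 0 for all X; hx0 is stated as: some X with br k p x X ≠ 0).  Both bijective: 0 : F.Q → F.Q bijective, so F.Q subsingleton.
So Hom(F.P, X) = 0 iff E0 F.f X.  F.P is nontrivial, has a simple quotient c : F.P → S: S = F.P ⧸ R, R maximal (coatom; F.P is finitely generated,
`IsCoatomic`/`Submodule.exists_le_...`; or choose R ≠ ⊤ of maximal dimension), S = simple (isSimpleModule_iff_isCoatom).
Case 1: there are g' : G.P → S and p ∈ ker G.f with g' p ≠ 0.  Then g' restricted to ker G.f is surjective (S simple), lift c : F.P → S to b : F.P → ker G.f with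
g' b = c (F.P projective); lift g' to d : G.P → F.P with c d = g' (G.P projective, c surjective).  c (d b) = c, so d b is not nilpotent (c ≠ 0), and (0, d b) is an
endomorphism of F, so d b is bijective.  Smd: a = 0, b, c = 0, (d b)⁻¹ d; F.Q is a subsingleton.
Case 2: every g' : G.P → S vanishes on ker G.f.  I = TB10.E1H k A S (module Hom_k(A,S), LibTB10/E1), ι : S → I, ι s = (a ↦ a s), A-linear, injective.
Claim A: for every g' : G.P → S there is q : G.Q → I with q ∘ G.f = ι ∘ g': g' factors over range G.f as a k-linear map, extend k-linearly to c' : G.Q → S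
(LinearMap.exists_extend), q y = (a ↦ c' (a y)).
t = tr A G.M (I ⧸ range ι), L = comap of t in I.  Claim E0 G.f L: c₁ : G.P → L; composite to t; E0 G.f t (TB10.E0_of_gen, gen_tr, rigid_iff_E0) gives q₁ : G.Q → t,
lift q₁ to q₂ : G.Q → L (L → t surjective, G.Q projective); c₁ - q₂ g lands in range ι, = ι g'; Claim A gives q₃ : G.Q → I, mkQ q₃ kills range g so factors through
G.M, so its range is in t, so q₃ lands in L; c₁ = (q₂ + q₃) g.
So E0c z L, E0c x L, E0 F.f L: Hom(F.P, L) = 0, but ι c : F.P → L is nonzero.  Contradiction.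
-/
set_option autoImplicit false
universe u
namespace TB3
open Module TB10

section
variable {k : Type u} [Field k] {A : Type u} [Ring A] [Algebra k A]
variable {n : ℕ} {p : Fin n → Submodule A A}

theorem d6_extend {V W S : Type u} [AddCommGroup V] [Module k V] [AddCommGroup W] [Module k W]
    [AddCommGroup S] [Module k S] (u : V →ₗ[k] W) (g : V →ₗ[k] S) (h : ∀ v, u v = 0 → g v = 0) :
    ∃ c : W →ₗ[k] S, ∀ v, c (u v) = g v := by
  obtain ⟨π, hπ⟩ := (LinearMap.range u).subtype.exists_leftInverse_of_injective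
    (Submodule.ker_subtype _)
  obtain ⟨σ, hσ⟩ := u.rangeRestrict.exists_rightInverse_of_surjective
    (LinearMap.range_eq_top.2 u.surjective_rangeRestrict)
  refine ⟨g ∘ₗ σ ∘ₗ π, fun v => ?_⟩
  have h1 : π (u v) = u.rangeRestrict v := LinearMap.congr_fun hπ (u.rangeRestrict v)
  have h2 : u (σ (u.rangeRestrict v)) = u v :=
    congrArg Subtype.val (LinearMap.congr_fun hσ (u.rangeRestrict v))
  have h3 : g (σ (u.rangeRestrict v) - v) = 0 := h _ (by rw [map_sub, h2, sub_self])
  rw [LinearMap.comp_apply, LinearMap.comp_apply, h1]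
  rw [map_sub, sub_eq_zero] at h3
  exact h3

/-- `ι s = (a ↦ a s)` -/
def d6_iota (S : Type u) [AddCommGroup S] [Module A S] [Module k S] [IsScalarTower k A S] :
    S →ₗ[A] E1H k A S where
  toFun s := (LinearMap.toSpanSingleton A S s).restrictScalars k
  map_add' x y := E1H.ext' fun a => smul_add a x y
  map_smul' b x := E1H.ext' fun a => by
    change a • (b • x) = (a * b) • x
    rw [mul_smul]

theorem d6_iota_ev (S : Type u) [AddCommGroup S] [Module A S] [Module k S] [IsScalarTower k A S]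
    (s : S) (a : A) : (d6_iota (k := k) (A := A) S s).ev a = a • s := rfl

theorem d6_iota_inj (S : Type u) [AddCommGroup S] [Module A S] [Module k S] [IsScalarTower k A S] :
    Function.Injective (d6_iota (k := k) (A := A) S) := by
  intro x y h
  have h1 := congrArg (fun ψ => E1H.ev ψ 1) h
  simp only [d6_iota_ev, one_smul] at h1
  exact h1

theorem d6_claimA {P Q S : Type u} [AddCommGroup P] [Module A P] [Module k P] [IsScalarTower k A P]
    [AddCommGroup Q] [Module A Q] [Module k Q] [IsScalarTower k A Q]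
    [AddCommGroup S] [Module A S] [Module k S] [IsScalarTower k A S]
    (f : P →ₗ[A] Q) (g : P →ₗ[A] S) (h : ∀ p, f p = 0 → g p = 0) :
    ∃ q : Q →ₗ[A] E1H k A S, q ∘ₗ f = d6_iota (k := k) S ∘ₗ g := by
  obtain ⟨c, hc⟩ := d6_extend (k := k) (f.restrictScalars k) (g.restrictScalars k) h
  have hc' : ∀ p, c (f p) = g p := hc
  refine ⟨{ toFun := fun y => c ∘ₗ (LinearMap.toSpanSingleton A Q y).restrictScalars k
            map_add' := fun x y => E1H.ext' fun a => ?_
            map_smul' := fun b x => E1H.ext' fun a => ?_ }, ?_⟩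
  · change c (a • (x + y)) = c (a • x) + c (a • y)
    rw [smul_add, map_add]
  · change c (a • (b • x)) = c ((a * b) • x)
    rw [mul_smul]
  · refine LinearMap.ext fun p => E1H.ext' fun a => ?_
    change c (a • f p) = a • g p
    rw [← map_smul, hc', map_smul]

theorem d6_claimL [Module.Finite k A] {S : Type u} [AddCommGroup S] [Module A S] [Module k S]
    [IsScalarTower k A S] [Module.Finite k S] (G : Pres k A) (hG : Rigid G.f)
    (h : ∀ g : G.P →ₗ[A] S, ∀ p, G.f p = 0 → g p = 0) :
    ∃ L : Submodule A (E1H k A S), LinearMap.range (d6_iota (k := k) (A := A) S) ≤ L ∧ E0 G.f L := by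
  set R := LinearMap.range (d6_iota (k := k) (A := A) S) with hR
  set t := tr A G.M (E1H k A S ⧸ R) with ht
  have hRL : R ≤ t.comap R.mkQ := by
    intro x hx
    rw [Submodule.mem_comap, Submodule.mkQ_apply, (Submodule.Quotient.mk_eq_zero R).2 hx]
    exact Submodule.zero_mem _
  refine ⟨t.comap R.mkQ, hRL, ?_⟩
  intro c₁
  have hM : E0 G.f G.M := (rigid_iff_E0 G.f).1 hG
  have hE : E0 G.f t := E0_of_gen (k := k) G.f hM gen_tr
  -- the map `L → t`
  let ρ : t.comap R.mkQ →ₗ[A] t := R.mkQ.restrict (fun x hx => hx)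
  have hρ : Function.Surjective ρ := by
    rintro ⟨y, hy⟩
    obtain ⟨x, rfl⟩ := Submodule.mkQ_surjective _ y
    exact ⟨⟨x, hy⟩, rfl⟩
  have hρ0 : ∀ x : t.comap R.mkQ, ρ x = 0 → (x : E1H k A S) ∈ R := by
    intro x hx
    have h1 : R.mkQ (x : E1H k A S) = 0 := congrArg Subtype.val hx
    rw [← LinearMap.mem_ker, Submodule.ker_mkQ] at h1
    exact h1
  obtain ⟨q₁, hq₁⟩ := hE (ρ ∘ₗ c₁)
  obtain ⟨q₂, hq₂⟩ := Module.projective_lifting_property ρ q₁ hρ
  have h2 : ∀ p, ((t.comap R.mkQ).subtype ∘ₗ (c₁ - q₂ ∘ₗ G.f)) p ∈ R := by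
    intro p
    refine hρ0 ((c₁ - q₂ ∘ₗ G.f) p) ?_
    have h3 := LinearMap.congr_fun hq₁ p
    have h4 := LinearMap.congr_fun hq₂ (G.f p)
    rw [LinearMap.comp_apply] at h4
    rw [LinearMap.comp_apply, LinearMap.comp_apply] at h3
    rw [LinearMap.sub_apply, map_sub, LinearMap.comp_apply, h4, h3, sub_self]
  obtain ⟨g', hg'⟩ := Module.projective_lifting_property
    (d6_iota (k := k) (A := A) S).rangeRestrict
    (((t.comap R.mkQ).subtype ∘ₗ (c₁ - q₂ ∘ₗ G.f)).codRestrict R h2)
    (LinearMap.surjective_rangeRestrict _)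
  have hg : ∀ p, d6_iota (k := k) (A := A) S (g' p) = (c₁ p : E1H k A S) - (q₂ (G.f p) : _) :=
    fun p => congrArg Subtype.val (LinearMap.congr_fun hg' p)
  obtain ⟨q₃, hq₃⟩ := d6_claimA (k := k) G.f g' (h g')
  have hq3 : ∀ p, q₃ (G.f p) = d6_iota (k := k) (A := A) S (g' p) := fun p =>
    LinearMap.congr_fun hq₃ p
  have hker : LinearMap.range G.f ≤ LinearMap.ker (R.mkQ ∘ₗ q₃) := by
    rintro _ ⟨p, rfl⟩
    rw [LinearMap.mem_ker, LinearMap.comp_apply, hq3, Submodule.mkQ_apply,
      Submodule.Quotient.mk_eq_zero]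
    exact ⟨_, rfl⟩
  have hq3L : ∀ y, q₃ y ∈ t.comap R.mkQ := by
    intro y
    rw [Submodule.mem_comap]
    exact range_le_tr ((LinearMap.range G.f).liftQ (R.mkQ ∘ₗ q₃) hker)
      ⟨Submodule.Quotient.mk y, rfl⟩
  refine ⟨q₂ + q₃.codRestrict _ hq3L, ?_⟩
  refine LinearMap.ext fun p => Subtype.ext ?_
  change (q₂ (G.f p) : E1H k A S) + q₃ (G.f p) = c₁ p
  rw [hq3, hg, add_sub_cancel]

theorem inj_of_sbo [Module.Finite k A] {x z : Fin n → ℤ} {F G : Pres k A}
    (hF : Rigid F.f) (hL : LocP F) (hx : Cl k p F x) (hM : Subsingleton F.M)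
    (hx0 : ∃ (X : Type u) (_ : AddCommGroup X) (_ : Module A X) (_ : Module k X)
      (_ : IsScalarTower k A X) (_ : Module.Finite k X), br k p x X ≠ 0)
    (hG : Rigid G.f) (hz : Cl k p G z)
    (h : ∀ (X : Type u) [AddCommGroup X] [Module A X] [Module k X] [IsScalarTower k A X]
      [Module.Finite k X], E0c k p z X → E0c k p x X) : Smd F G := by
  have hrange : LinearMap.range F.f = ⊤ := by
    exact Submodule.Quotient.subsingleton_iff.1 hM
  have hsurj : Function.Surjective F.f := LinearMap.range_eq_top.1 hrange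
  obtain ⟨X₀, i1, i2, i3, i4, i5, hX₀⟩ := hx0
  obtain ⟨s, hs⟩ := Module.projective_lifting_property F.f LinearMap.id hsurj
  have hs' : ∀ q, F.f (s q) = q := fun q => LinearMap.congr_fun hs q
  have hQ : Subsingleton F.Q := by
    have hc : (0 : F.Q →ₗ[A] F.Q) ∘ₗ F.f = F.f ∘ₗ (LinearMap.id - s ∘ₗ F.f) := by
      refine LinearMap.ext fun p => ?_
      change (0 : F.Q) = F.f (p - s (F.f p))
      rw [map_sub, hs', sub_self]
    rcases hL 0 (LinearMap.id - s ∘ₗ F.f) hc with ⟨-, hn⟩ | ⟨hb, -⟩
    · exfalso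
      have hidem : IsIdempotentElem (LinearMap.id - s ∘ₗ F.f : Module.End A F.P) := by
        refine LinearMap.ext fun p => ?_
        change (p - s (F.f p)) - s (F.f (p - s (F.f p))) = p - s (F.f p)
        rw [map_sub, hs', sub_self, map_zero, sub_zero]
      have h0 : (LinearMap.id - s ∘ₗ F.f : Module.End A F.P) = 0 := by
        obtain ⟨m, hm⟩ := hn
        have h1 := hidem.pow_succ_eq m
        rw [pow_succ, hm, zero_mul] at h1
        exact h1.symm
      have hinj : Function.Injective F.f := by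
        intro a b hab
        have ha : a - s (F.f a) = 0 := LinearMap.congr_fun h0 a
        have hb : b - s (F.f b) = 0 := LinearMap.congr_fun h0 b
        rw [sub_eq_zero] at ha hb
        rw [ha, hb, hab]
      have e := LinearEquiv.ofBijective F.f ⟨hinj, hsurj⟩
      have h2 : finrank k (F.Q →ₗ[A] X₀) = finrank k (F.P →ₗ[A] X₀) :=
        (LinearEquiv.ofBijective (pre k e.toLinearMap X₀) ⟨fun a b hab => by
          refine LinearMap.ext fun y => ?_
          have := LinearMap.congr_fun hab (e.symm y)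
          change a (e (e.symm y)) = b (e (e.symm y)) at this
          rwa [e.apply_symm_apply] at this,
          fun a => ⟨a ∘ₗ e.symm.toLinearMap, LinearMap.ext fun y => by
            change a (e.symm (e y)) = a y
            rw [e.symm_apply_apply]⟩⟩).finrank_eq
      have h3 := hx X₀
      rw [h2] at h3
      exact hX₀ (by linarith)
    · exact ⟨fun a b => hb.1 rfl⟩
  have hP : Nontrivial F.P := by
    by_contra hcon
    rw [not_nontrivial_iff_subsingleton] at hcon
    have h3 := hx X₀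
    have h1 : Subsingleton (F.P →ₗ[A] X₀) := ⟨fun a b => LinearMap.ext fun y => by
      rw [Subsingleton.elim y 0, map_zero, map_zero]⟩
    have h2 : Subsingleton (F.Q →ₗ[A] X₀) := ⟨fun a b => LinearMap.ext fun y => by
      rw [Subsingleton.elim y 0, map_zero, map_zero]⟩
    rw [Module.finrank_zero_of_subsingleton, Module.finrank_zero_of_subsingleton] at h3
    exact hX₀ (by push_cast at h3; linarith)
  have hNP : IsNoetherian A F.P := isNoetherian_of_tower k inferInstance
  obtain ⟨R, hR⟩ : ∃ R : Submodule A F.P, IsCoatom R := IsCoatomic.exists_coatom _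
  haveI hsimple : IsSimpleModule A (F.P ⧸ R) := isSimpleModule_iff_isCoatom.2 hR
  have hnt : Nontrivial (F.P ⧸ R) := IsSimpleModule.nontrivial A _
  have hc0 : R.mkQ ≠ 0 := by
    intro h0
    obtain ⟨y, hy⟩ := exists_ne (0 : F.P ⧸ R)
    obtain ⟨x, rfl⟩ := Submodule.mkQ_surjective _ y
    rw [h0] at hy
    exact hy rfl
  by_cases hcase : ∀ g : G.P →ₗ[A] (F.P ⧸ R), ∀ p, G.f p = 0 → g p = 0
  · exfalso
    obtain ⟨L, hRL, hEL⟩ := d6_claimL (k := k) G hG hcase
    have h1 : E0c k p x L := h L ((E0_iff hG hz).1 hEL)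
    have h2 : E0 F.f L := (E0_iff hF hx).2 h1
    have h3 : ∀ y, (d6_iota (k := k) (A := A) (F.P ⧸ R) ∘ₗ R.mkQ) y ∈ L := fun y =>
      hRL ⟨R.mkQ y, rfl⟩
    obtain ⟨q, hq⟩ := h2 ((d6_iota (k := k) (A := A) (F.P ⧸ R) ∘ₗ R.mkQ).codRestrict L h3)
    apply hc0
    refine LinearMap.ext fun y => ?_
    apply d6_iota_inj (k := k) (A := A) (F.P ⧸ R)
    have h4 := congrArg Subtype.val (LinearMap.congr_fun hq y)
    have h5 : ((q (F.f y) : L) : E1H k A (F.P ⧸ R)) = 0 := by
      rw [Subsingleton.elim (F.f y) 0, map_zero]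
      rfl
    change ((q (F.f y) : L) : E1H k A (F.P ⧸ R)) = d6_iota (k := k) (A := A) (F.P ⧸ R) (R.mkQ y) at h4
    rw [← h4, h5, LinearMap.zero_apply, map_zero]
  · push Not at hcase
    obtain ⟨g, p₀, hp₀, hgp₀⟩ := hcase
    have hne : g ∘ₗ (LinearMap.ker G.f).subtype ≠ 0 := by
      intro h0
      exact hgp₀ (LinearMap.congr_fun h0 ⟨p₀, hp₀⟩)
    obtain ⟨b₀, hb₀⟩ := Module.projective_lifting_property (g ∘ₗ (LinearMap.ker G.f).subtype)
      R.mkQ (LinearMap.surjective_of_ne_zero hne)
    obtain ⟨d, hd⟩ := Module.projective_lifting_property R.mkQ g (Submodule.mkQ_surjective _)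
    set b : F.P →ₗ[A] G.P := (LinearMap.ker G.f).subtype ∘ₗ b₀ with hb
    have hcdb : ∀ y, R.mkQ ((d ∘ₗ b) y) = R.mkQ y := by
      intro y
      have h1 := LinearMap.congr_fun hd (b y)
      have h2 := LinearMap.congr_fun hb₀ y
      exact h1.trans h2
    have hpow : ∀ m : ℕ, ∀ y, R.mkQ (((d ∘ₗ b : Module.End A F.P) ^ m) y) = R.mkQ y := by
      intro m
      induction m with
      | zero => intro y; rfl
      | succ m ih =>
        intro y
        rw [pow_succ, Module.End.mul_apply, ih]
        exact hcdb y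
    have hcomm : (0 : F.Q →ₗ[A] F.Q) ∘ₗ F.f = F.f ∘ₗ (d ∘ₗ b) :=
      LinearMap.ext fun y => Subsingleton.elim _ _
    rcases hL 0 (d ∘ₗ b) hcomm with ⟨-, m, hm⟩ | ⟨-, hbij⟩
    · exfalso
      apply hc0
      refine LinearMap.ext fun y => ?_
      have h1 := hpow m y
      rw [hm] at h1
      rw [← h1]
      exact map_zero _
    · refine ⟨0, b, 0, (LinearEquiv.ofBijective (d ∘ₗ b) hbij).symm.toLinearMap ∘ₗ d, ?_, ?_, ?_, ?_⟩
      · refine LinearMap.ext fun y => ?_
        exact (b₀ y).2.symm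
      · exact LinearMap.ext fun y => Subsingleton.elim _ _
      · exact LinearMap.ext fun y => Subsingleton.elim _ _
      · refine LinearMap.ext fun y => ?_
        exact (LinearEquiv.ofBijective (d ∘ₗ b) hbij).symm_apply_apply y

end

end TB3
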