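import Pool.Agent.LibTB3.D2
import Pool.Agent.LibTB3.D4
import Pool.Agent.LibTB3.D5
import Pool.Agent.LibTB3.D6
/-!
ROW [TB3 D7] MEDIUM.
(cite D2, D4, D5, D6, R2, C4) the Summand Theorem on the level of classes.
PLAN. mem_of_sbo: y prime: F rigid local of class y ≠ 0.  G from exists_sum for l, class l.sum.  If F.M is nontrivial split_of_sbo, otherwise inj_of_sbo
(hx0: y i ≠ 0 for some i, take the simple module of hp.dual i: br = y i).  So Smd F G; F is nonzero (otherwise Cl F 0 so y = 0 by Cl_unique: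
F.P, F.Q subsingletons have finrank Hom = 0).  exists_sum: Cl F y' for some y' ∈ l, y' = y (Cl_unique).
mem_of_sbo_sum: exists_list of C4.
prm_eq_of_sum: y prime and y = ∑ c i • t i (Sbo.refl).
sbo_of_cmp: NoW z, Cmp y z: E0c z → Tc z (Tc_of_NoW) → E0c y; Tc y → E0c z → Tc z.
cmp_dec: if y = l.sum (l as in exists_dec) and Cmp y z then every member is compatible with z: Sbo_mem, Sbo_cmp with Sbo.refl z.
-/
set_option autoImplicit false
universe u
namespace TB3
open Module TB10

section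
variable {k : Type u} [Field k] {A : Type u} [Ring A] [Algebra k A]
variable {n : ℕ} {p : Fin n → Submodule A A}
    [Module.Finite k A] [Infinite k] (hp : Bas k p) (hfin : FinB k A)

include hp hfin

theorem mem_of_sbo {l : List (Fin n → ℤ)} (hl : Cp k p l) (hl' : ∀ y ∈ l, Prm k p y)
    {y : Fin n → ℤ} (hy : Prm k p y) (h : Sbo k p y l.sum) : y ∈ l := by
  obtain ⟨hy0, F, hF, hL, hFy⟩ := hy
  obtain ⟨G, hG, hGz, hsum⟩ := exists_sum hp hfin l hl hl'
  have hx0 : ∃ (X : Type u) (_ : AddCommGroup X) (_ : Module A X) (_ : Module k X)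
      (_ : IsScalarTower k A X) (_ : Module.Finite k X), br k p y X ≠ 0 := by
    obtain ⟨i, hi⟩ := Function.ne_iff.1 hy0
    obtain ⟨S, i1, i2, i3, i4, i5, -, hS⟩ := hp.dual i
    refine ⟨S, i1, i2, i3, i4, i5, ?_⟩
    have h1 : br k p y S = y i := by
      unfold br
      simp only [hS]
      simp
    rw [h1]
    exact hi
  have hsmd : Smd F G := by
    rcases subsingleton_or_nontrivial F.M with hM | hM
    · exact inj_of_sbo hF hL hFy hM hx0 hG hGz h.1
    · exact split_of_sbo hF hL hFy hM hG hGz h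
  have hne : Nontrivial F.Q ∨ Nontrivial F.P := by
    by_contra hcon
    rw [not_or, not_nontrivial_iff_subsingleton, not_nontrivial_iff_subsingleton] at hcon
    obtain ⟨h1, h2⟩ := hcon
    apply hy0
    refine Cl_unique hp hFy ?_
    intro X _ _ _ _ _
    have e1 : finrank k (F.Q →ₗ[A] X) = 0 := by
      have : Subsingleton (F.Q →ₗ[A] X) :=
        ⟨fun a b => LinearMap.ext fun q => by rw [Subsingleton.elim q 0, map_zero, map_zero]⟩
      exact finrank_zero_of_subsingleton
    have e2 : finrank k (F.P →ₗ[A] X) = 0 := by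
      have : Subsingleton (F.P →ₗ[A] X) :=
        ⟨fun a b => LinearMap.ext fun q => by rw [Subsingleton.elim q 0, map_zero, map_zero]⟩
      exact finrank_zero_of_subsingleton
    rw [e1, e2, br_zero_left]
    simp
  obtain ⟨y', hy', hFy'⟩ := hsum F hL hne hsmd
  rw [Cl_unique hp hFy hFy']
  exact hy'

theorem mem_of_sbo_sum {m : ℕ} (t : Fin m → Fin n → ℤ) (ht : ∀ i j, Cmp k p (t i) (t j))
    (ht' : ∀ i, Prm k p (t i)) (c : Fin m → ℕ) {y : Fin n → ℤ} (hy : Prm k p y)
    (h : Sbo k p y (∑ i, c i • t i)) : ∃ i, 0 < c i ∧ y = t i := by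
  obtain ⟨l, hl, hsum, hmem⟩ := exists_list hp hfin t ht c
  have h1 : y ∈ l := by
    refine mem_of_sbo hp hfin hl ?_ hy ?_
    · intro w hw
      obtain ⟨i, -, rfl⟩ := (hmem w).1 hw
      exact ht' i
    · rw [hsum]
      exact h
  exact (hmem y).1 h1

theorem prm_of_sum {m : ℕ} (t : Fin m → Fin n → ℤ) (ht : ∀ i j, Cmp k p (t i) (t j))
    (ht' : ∀ i, Prm k p (t i)) (c : Fin m → ℕ) (hy : Prm k p (∑ i, c i • t i)) :
    ∃ i, 0 < c i ∧ ∑ i, c i • t i = t i := by
  obtain ⟨i, hi, h⟩ := mem_of_sbo_sum hp hfin t ht ht' c hy (Sbo.refl _)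
  exact ⟨i, hi, h⟩

omit [Infinite k] hfin in
theorem sbo_of_cmp {y z : Fin n → ℤ} (hz : NoW k p z) (h : Cmp k p y z) : Sbo k p y z := by
  constructor
  · intro X _ _ _ _ _ hX
    exact h.2 X (Tc_of_NoW hp hz hX)
  · intro X _ _ _ _ _ hX
    exact Tc_of_NoW hp hz (h.1 X hX)

theorem cmp_of_dec {l : List (Fin n → ℤ)} (hl : Cp k p l) {z : Fin n → ℤ} (h : Cmp k p l.sum z) :
    ∀ y ∈ l, Cmp k p y z := by
  intro y hy
  exact Sbo_cmp (Sbo_mem hp hfin hl hy) (Sbo.refl z) h

end

end TB3
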