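import Pool.Agent.LibTB10.Defs

/-!
# Board TB3 : the second tau-Brauer-Thrall conjecture for algebras with three simple modules without loops
Definitions (page: notes_MP_424b8c_rank3.md in the store).

`k` is a field, `A` a finite-dimensional `k`-algebra, modules are left `A`-modules in `Type u` which are
finite-dimensional over `k`.  `p : Fin n → Submodule A A` are the indecomposable projective left ideals.
A class is a vector `x : Fin n → ℤ`.
-/

set_option autoImplicit false

universe u

namespace TB3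

open Module TB10

section
variable (k : Type u) [Field k] {A : Type u} [Ring A] [Algebra k A] {n : ℕ}
variable (p : Fin n → Submodule A A)

/-- the pairing `⟨x, X⟩ = ∑ i, x i * dim Hom(p i, X)`. -/
noncomputable def br (x : Fin n → ℤ) (X : Type u) [AddCommGroup X] [Module A X] [Module k X]
    [IsScalarTower k A X] : ℤ :=
  ∑ i, x i * (finrank k (p i →ₗ[A] X) : ℤ)

/-- all quotients of `X` have `⟨x, ·⟩ ≥ 0`. -/
def E0c (x : Fin n → ℤ) (X : Type u) [AddCommGroup X] [Module A X] [Module k X]
    [IsScalarTower k A X] : Prop :=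
  ∀ K : Submodule A X, 0 ≤ br k p x (X ⧸ K)

/-- all submodules of `X` have `⟨x, ·⟩ ≤ 0`. -/
def H0c (x : Fin n → ℤ) (X : Type u) [AddCommGroup X] [Module A X] [Module k X]
    [IsScalarTower k A X] : Prop :=
  ∀ K : Submodule A X, br k p x K ≤ 0

/-- all nonzero quotients of `X` have `⟨x, ·⟩ > 0`. -/
def Tc (x : Fin n → ℤ) (X : Type u) [AddCommGroup X] [Module A X] [Module k X]
    [IsScalarTower k A X] : Prop :=
  ∀ K : Submodule A X, K ≠ ⊤ → 0 < br k p x (X ⧸ K)

/-- `X` is `x`-semistable. -/
def Ws (x : Fin n → ℤ) (X : Type u) [AddCommGroup X] [Module A X] [Module k X]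
    [IsScalarTower k A X] : Prop :=
  E0c k p x X ∧ H0c k p x X

/-- `S` is `x`-stable. -/
structure St (x : Fin n → ℤ) (S : Type u) [AddCommGroup S] [Module A S] [Module k S]
    [IsScalarTower k A S] : Prop where
  nt : Nontrivial S
  zero : br k p x S = 0
  neg : ∀ K : Submodule A S, K ≠ ⊥ → K ≠ ⊤ → br k p x K < 0

/-- the classes `x`, `y` are compatible. -/
def Cmp (x y : Fin n → ℤ) : Prop :=
  (∀ (X : Type u) [AddCommGroup X] [Module A X] [Module k X] [IsScalarTower k A X]
    [Module.Finite k X], Tc k p x X → E0c k p y X) ∧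
  (∀ (X : Type u) [AddCommGroup X] [Module A X] [Module k X] [IsScalarTower k A X]
    [Module.Finite k X], Tc k p y X → E0c k p x X)

/-- `y` is subordinate to `z` : `E0_z ⊆ E0_y` and `T_y ⊆ T_z`. -/
def Sbo (y z : Fin n → ℤ) : Prop :=
  (∀ (X : Type u) [AddCommGroup X] [Module A X] [Module k X] [IsScalarTower k A X]
    [Module.Finite k X], E0c k p z X → E0c k p y X) ∧
  (∀ (X : Type u) [AddCommGroup X] [Module A X] [Module k X] [IsScalarTower k A X]
    [Module.Finite k X], Tc k p y X → Tc k p z X)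

/-- the presentation `F` has class `x` : `dim Hom(Q,X) - dim Hom(P,X) = ⟨x, X⟩` for all `X`. -/
def Cl (F : Pres k A) (x : Fin n → ℤ) : Prop :=
  ∀ (X : Type u) [AddCommGroup X] [Module A X] [Module k X] [IsScalarTower k A X]
    [Module.Finite k X],
    (finrank k (F.Q →ₗ[A] X) : ℤ) = finrank k (F.P →ₗ[A] X) + br k p x X

variable {k} in
/-- every endomorphism of the presentation `F` is nilpotent or bijective. -/
def LocP (F : Pres k A) : Prop :=
  ∀ (α : F.Q →ₗ[A] F.Q) (β : F.P →ₗ[A] F.P), α ∘ₗ F.f = F.f ∘ₗ β →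
    (IsNilpotent (α : Module.End A F.Q) ∧ IsNilpotent (β : Module.End A F.P)) ∨
      (Function.Bijective α ∧ Function.Bijective β)

variable {k} in
/-- `F` is a direct summand of `G`. -/
def Smd (F G : Pres k A) : Prop :=
  ∃ (a : F.Q →ₗ[A] G.Q) (b : F.P →ₗ[A] G.P) (c : G.Q →ₗ[A] F.Q) (d : G.P →ₗ[A] F.P),
    a ∘ₗ F.f = G.f ∘ₗ b ∧ c ∘ₗ G.f = F.f ∘ₗ d ∧ c ∘ₗ a = LinearMap.id ∧ d ∘ₗ b = LinearMap.id

/-- `x` is prime : nonzero, and the class of a rigid presentation with local endomorphism ring. -/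
def Prm (x : Fin n → ℤ) : Prop :=
  x ≠ 0 ∧ ∃ F : Pres k A, Rigid F.f ∧ LocP F ∧ Cl k p F x

/-- the members of the list are pairwise compatible (and compatible with themselves). -/
def Cp (l : List (Fin n → ℤ)) : Prop := ∀ y ∈ l, ∀ y' ∈ l, Cmp k p y y'

/-- no nonzero `z`-semistable modules. -/
def NoW (z : Fin n → ℤ) : Prop :=
  ∀ (X : Type u) [AddCommGroup X] [Module A X] [Module k X] [IsScalarTower k A X]
    [Module.Finite k X], Ws k p z X → Subsingleton X

/-- the abstract properties of the indecomposable projective modules. -/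
structure Bas : Prop where
  idem : ∀ i, ∃ e : A, e * e = e ∧ ∀ a : A, a ∈ p i ↔ a * e = a
  loc : ∀ i, Loc A (p i)
  faithful : ∀ (X : Type u) [AddCommGroup X] [Module A X] [Module k X] [IsScalarTower k A X]
    [Module.Finite k X], (∀ i, ∀ h : p i →ₗ[A] X, h = 0) → Subsingleton X
  ty : ∀ (Q : Type u) [AddCommGroup Q] [Module A Q] [Module k Q] [IsScalarTower k A Q]
    [Module.Finite k Q] [Module.Projective A Q], ∃ t : Fin n → ℕ,
    ∀ (X : Type u) [AddCommGroup X] [Module A X] [Module k X] [IsScalarTower k A X]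
      [Module.Finite k X], finrank k (Q →ₗ[A] X) = ∑ i, t i * finrank k (p i →ₗ[A] X)
  dual : ∀ i, ∃ (S : Type u) (_ : AddCommGroup S) (_ : Module A S) (_ : Module k S)
    (_ : IsScalarTower k A S) (_ : Module.Finite k S), IsSimpleModule A S ∧
    ∀ j, finrank k (p j →ₗ[A] S) = if j = i then 1 else 0

variable (A) in
/-- finitely many bricks in every dimension. -/
def FinB : Prop := ∀ D : ℕ, ∃ L : List (Rp k A), Cov k A D L

/-- a chamber : `n` different pairwise compatible prime classes which generate `ℤ^n`. -/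
structure Chm (t : Fin n → Fin n → ℤ) : Prop where
  prm : ∀ i, Prm k p (t i)
  cmp : ∀ i j, Cmp k p (t i) (t j)
  inj : Function.Injective t
  span : ∀ u : Fin n → ℤ, ∃ c : Fin n → ℤ, u = ∑ i, c i • t i


/-- `y` is a dual class of the `x`-stable module `S`. -/
structure Dl (x : Fin n → ℤ) (S : Type u) [AddCommGroup S] [Module A S] [Module k S]
    [IsScalarTower k A S] (y : Fin n → ℤ) : Prop where
  prm : Prm k p y
  cmp : Cmp k p x y
  ws : ∀ (V : Type u) [AddCommGroup V] [Module A V] [Module k V] [IsScalarTower k A V]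
    [Module.Finite k V], Ws k p x V → E0c k p y V
  one : br k p y S = 1
  zero : ∀ (S' : Type u) [AddCommGroup S'] [Module A S'] [Module k S'] [IsScalarTower k A S']
    [Module.Finite k S'], St k p x S' → IsEmpty (S ≃ₗ[A] S') → br k p y S' = 0

/-- `S`, `S'` are the two `x`-stable modules, with dual classes `y`, `y'`. -/
structure Two (x : Fin n → ℤ) (S S' : Type u) [AddCommGroup S] [Module A S] [Module k S]
    [IsScalarTower k A S] [AddCommGroup S'] [Module A S'] [Module k S'] [IsScalarTower k A S']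
    (y y' : Fin n → ℤ) : Prop where
  s : St k p x S
  s' : St k p x S'
  ne : IsEmpty (S ≃ₗ[A] S')
  all : ∀ (V : Type u) [AddCommGroup V] [Module A V] [Module k V] [IsScalarTower k A V]
    [Module.Finite k V], St k p x V → Nonempty (V ≃ₗ[A] S) ∨ Nonempty (V ≃ₗ[A] S')
  d : Dl k p x S y
  d' : Dl k p x S' y'

variable (A) in
/-- `dim A/[A,A]` -/
noncomputable def hh0 : ℕ := finrank k (A ⧸ Submodule.span k {z : A | ∃ a b : A, z = a * b - b * a})

/-- no stable module has a nonsplit self-extension -/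
def NSE : Prop :=
  ∀ (x : Fin n → ℤ) (S Z : Type u) [AddCommGroup S] [Module A S] [Module k S] [IsScalarTower k A S]
    [Module.Finite k S] [AddCommGroup Z] [Module A Z] [Module k Z] [IsScalarTower k A Z]
    [Module.Finite k Z], St k p x S → ∀ (ι : S →ₗ[A] Z), Function.Injective ι →
    ∀ (σ : Z →ₗ[A] S), Function.Surjective σ → LinearMap.range ι = LinearMap.ker σ →
    ∃ s : S →ₗ[A] Z, σ ∘ₗ s = LinearMap.id

/-- the number of prime summands of a class. -/
noncomputable def psi (z : Fin n → ℤ) : ℕ :=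
  sInf {m | ∃ (t : Fin n → Fin n → ℤ) (c : Fin n → ℕ), Chm k p t ∧ z = ∑ i, c i • t i ∧
    m = ∑ i, c i}

/-- the wall opposite to the `i`-th member of a chamber -/
def wl {n : ℕ} (t : Fin n → Fin n → ℤ) (i : Fin n) : Fin n → ℤ := ∑ j ∈ Finset.univ.erase i, t j

/-- the six directions -/
def Hx : Finset (ℤ × ℤ) := {(1, 0), (0, 1), (-1, 1), (-1, 0), (0, -1), (1, -1)}

end

end TB3
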