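import Pool.Agent.LibTB3.N3
/-!
ROW [TB3 N4] MEDIUM.
(cite N1, N2, N3) stable quotients and submodules of semistable modules; induction.
PLAN. exists_stable_quot: among K ≠ ⊤ with Ws x (X ⧸ K) choose finrank k (X ⧸ K) minimal (K = ⊥ is one: X ⧸ ⊥ ≃ X, Ws_congr).  X ⧸ K is stable by St.of_ws:
a semistable submodule N of X ⧸ K, N ≠ ⊥: (X ⧸ K) ⧸ N is semistable (Ws_sub, Ws_br) of smaller dimension and is a quotient of X, so it is 0, N = ⊤.
exists_stable_sub: among nonzero semistable submodules choose one of minimal dimension (⊤ is one); submodules of a submodule: `Submodule.map subtype`.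
Ws_rec: strong induction on finrank k X (generalize X and the instances: `induction` on a natural number N with finrank k X ≤ N); subsingleton case h0;
otherwise exists_stable_quot gives K with St (X ⧸ K), K semistable (Ws_sub needs br K = 0: br X = br K + br (X ⧸ K)), finrank K < finrank X because
K ≠ ⊤ (X ⧸ K nontrivial), hs.
-/
set_option autoImplicit false
universe u
namespace TB3
open Module TB10

section
variable {k : Type u} [Field k] {A : Type u} [Ring A] [Algebra k A]
variable {n : ℕ} {p : Fin n → Submodule A A}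
    {X : Type u} [AddCommGroup X] [Module A X] [Module k X] [IsScalarTower k A X] [Module.Finite k X]
    [Module.Finite k A]

omit [Module.Finite k A] in
private theorem n4_quot_lt (N : Submodule A X) (hN : N ≠ ⊥) :
    finrank k (X ⧸ N) < finrank k X := by
  have h1 := LinearMap.finrank_range_add_finrank_ker (N.mkQ.restrictScalars k)
  have h2 : LinearMap.range (N.mkQ.restrictScalars k) = ⊤ :=
    LinearMap.range_eq_top.2 (Submodule.mkQ_surjective N)
  rw [h2, finrank_top] at h1
  have h3 : 0 < finrank k (LinearMap.ker (N.mkQ.restrictScalars k)) := by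
    rw [Module.finrank_pos_iff]
    obtain ⟨v, hv, hv0⟩ := Submodule.exists_mem_ne_zero_of_ne_bot hN
    refine ⟨⟨⟨v, ?_⟩, 0, fun h => hv0 (congrArg Subtype.val h)⟩⟩
    rw [LinearMap.mem_ker, LinearMap.restrictScalars_apply, Submodule.mkQ_apply]
    exact (Submodule.Quotient.mk_eq_zero N).2 hv
  omega

omit [Module.Finite k A] in
private theorem n4_sub_lt (N : Submodule A X) (hN : N ≠ ⊤) :
    finrank k N < finrank k X := by
  have h1 : Function.Injective (N.subtype.restrictScalars k) := Subtype.val_injective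
  have h2 := LinearMap.finrank_le_finrank_of_injective h1
  rcases h2.lt_or_eq with h | h
  · exact h
  · exfalso
    apply hN
    have h3 := (LinearMap.injective_iff_surjective_of_finrank_eq_finrank h).1 h1
    rw [Submodule.eq_top_iff']
    intro y
    obtain ⟨z, hz⟩ := h3 y
    rw [← hz]
    exact z.2

theorem exists_stable_quot (hp : Bas k p) {x : Fin n → ℤ} [Nontrivial X] (hX : Ws k p x X) :
    ∃ K : Submodule A X, St k p x (X ⧸ K) := by
  classical
  have hne : ∃ d : ℕ, ∃ K : Submodule A X, K ≠ ⊤ ∧ Ws k p x (X ⧸ K) ∧ finrank k (X ⧸ K) = d :=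
    ⟨_, ⊥, bot_ne_top, Ws_congr (Submodule.quotEquivOfEqBot ⊥ rfl).symm hX, rfl⟩
  obtain ⟨K, hK1, hK2, hK3⟩ := Nat.find_spec hne
  refine ⟨K, ?_⟩
  have hnt : Nontrivial (X ⧸ K) := Submodule.Quotient.nontrivial_iff.2 hK1
  refine St.of_ws hp hK2 fun N hN => ?_
  by_contra hcon
  push Not at hcon
  obtain ⟨hN0, hN1⟩ := hcon
  have hws := (Ws_sub hp hK2 N (Ws_br hN)).2
  have hsurj : Function.Surjective (N.mkQ ∘ₗ K.mkQ) :=
    (Submodule.mkQ_surjective N).comp (Submodule.mkQ_surjective K)
  have e := LinearMap.quotKerEquivOfSurjective (N.mkQ ∘ₗ K.mkQ) hsurj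
  have hK' : LinearMap.ker (N.mkQ ∘ₗ K.mkQ) ≠ ⊤ := by
    intro h
    apply hN1
    rw [Submodule.eq_top_iff']
    intro y
    obtain ⟨z, rfl⟩ := Submodule.mkQ_surjective K y
    have hz : z ∈ LinearMap.ker (N.mkQ ∘ₗ K.mkQ) := by
      rw [h]
      exact Submodule.mem_top
    rw [LinearMap.mem_ker, LinearMap.comp_apply, Submodule.mkQ_apply] at hz
    exact (Submodule.Quotient.mk_eq_zero N).1 hz
  have hmin := Nat.find_min' hne ⟨LinearMap.ker (N.mkQ ∘ₗ K.mkQ), hK', Ws_congr e.symm hws, rfl⟩
  have h1 : finrank k (X ⧸ LinearMap.ker (N.mkQ ∘ₗ K.mkQ)) = finrank k ((X ⧸ K) ⧸ N) :=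
    LinearEquiv.finrank_eq (e.restrictScalars k)
  have h2 := n4_quot_lt (k := k) N hN0
  omega

theorem exists_stable_sub (hp : Bas k p) {x : Fin n → ℤ} [Nontrivial X] (hX : Ws k p x X) :
    ∃ N : Submodule A X, St k p x N := by
  classical
  have hne : ∃ d : ℕ, ∃ N : Submodule A X, N ≠ ⊥ ∧ Ws k p x N ∧ finrank k N = d :=
    ⟨_, ⊤, top_ne_bot, Ws_congr Submodule.topEquiv.symm hX, rfl⟩
  obtain ⟨N, hN1, hN2, hN3⟩ := Nat.find_spec hne
  refine ⟨N, ?_⟩
  have hnt : Nontrivial N := (Submodule.nontrivial_iff_ne_bot).2 hN1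
  refine St.of_ws hp hN2 fun M hM => ?_
  by_contra hcon
  push Not at hcon
  obtain ⟨hM0, hM1⟩ := hcon
  have e := Submodule.equivMapOfInjective N.subtype Subtype.val_injective M
  have hM' : M.map N.subtype ≠ ⊥ := by
    intro h
    apply hM0
    rw [Submodule.eq_bot_iff]
    intro y hy
    have h3 : (y : X) ∈ M.map N.subtype := ⟨y, hy, rfl⟩
    rw [h] at h3
    exact Subtype.ext ((Submodule.mem_bot A).1 h3)
  have hmin := Nat.find_min' hne ⟨M.map N.subtype, hM', Ws_congr e hM, rfl⟩
  have h1 : finrank k M = finrank k (M.map N.subtype) :=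
    LinearEquiv.finrank_eq (e.restrictScalars k)
  have h2 := n4_sub_lt (k := k) M hM1
  omega

/-- induction over semistable modules: `K` semistable with the property and `X ⧸ K` stable implies the property for `X` -/
theorem Ws_rec (hp : Bas k p) {x : Fin n → ℤ}
    {C : ∀ (X : Type u) [AddCommGroup X] [Module A X] [Module k X] [IsScalarTower k A X]
      [Module.Finite k X], Prop}
    (h0 : ∀ (X : Type u) [AddCommGroup X] [Module A X] [Module k X] [IsScalarTower k A X]
      [Module.Finite k X], Subsingleton X → C X)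
    (hs : ∀ (X : Type u) [AddCommGroup X] [Module A X] [Module k X] [IsScalarTower k A X]
      [Module.Finite k X] (K : Submodule A X), Ws k p x X → Ws k p x K → St k p x (X ⧸ K) → C K → C X)
    (X : Type u) [AddCommGroup X] [Module A X] [Module k X] [IsScalarTower k A X]
      [Module.Finite k X] (hX : Ws k p x X) : C X := by
  suffices h : ∀ (d : ℕ) (X : Type u) [AddCommGroup X] [Module A X] [Module k X]
      [IsScalarTower k A X] [Module.Finite k X], finrank k X ≤ d → Ws k p x X → C X from
    h _ X le_rfl hX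
  intro d
  induction d with
  | zero =>
    intro X _ _ _ _ _ hd _
    refine h0 X ?_
    rw [← not_nontrivial_iff_subsingleton]
    intro hn
    have := Module.finrank_pos (R := k) (M := X)
    omega
  | succ d ih =>
    intro X _ _ _ _ _ hd hX
    rcases subsingleton_or_nontrivial X with hs' | hn
    · exact h0 X hs'
    · obtain ⟨K, hK⟩ := exists_stable_quot hp hX
      have h1 := br_add hp x K
      have h2 := Ws_br hX
      have h3 := hK.zero
      have hws : Ws k p x K := (Ws_sub hp hX K (by omega)).1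
      have hK1 : K ≠ ⊤ := by
        exact Submodule.Quotient.nontrivial_iff.1 hK.nt
      have h4 := n4_sub_lt (k := k) K hK1
      exact hs X K hX hws hK (ih K (by omega) hws)

end

end TB3
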