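import Pool.Agent.LibTB3.H1
import Pool.Agent.LibTB3.C2
import Pool.Agent.LibTB3.N4
/-!
ROW [TB3 H6] MEDIUM.
(cite N2, C2, C4, D7, H1) the two sides of a wall.
PLAN. z = wl t i, ∑ t = z + t i (Finset.add_sum_erase), Cmp z (t i).
tc_neg (br (t i) S = -1): ← : Tc z X → E0c (t i) X, Tc_add_left.  → : Tc (∑ t) X → E0c z X (E0c_add, Tc_E0c).  If K ≠ ⊤ and br z (X ⧸ K) = 0 then X ⧸ K is semistable (Ws_of_E0c),
nontrivial, has a quotient S (wall_quot), so X has a quotient S: Tc (∑ t) S (Tc_surj) but br (∑ t) S = 0 - 1 < 0.  (Tc_iff_E0c.)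
e0_pos (br (t i) S = 1): → E0c_add.  ← : E0c z X; torsion N: Tc z N, H0c z (X ⧸ N) (exists_torsion), so X ⧸ N is semistable for z.  E0c (t i) N since Cmp.  E0c (t i) (X ⧸ N): every
semistable V for z has E0c (t i) V: its quotients Y... V is semistable, Ws z V; quotient Y = V ⧸ K: torsion/semistable? Use: S has E0c (t i): quotient of S proper nonzero has
br z > 0; take M₁ with br_bound; E0c (M₁ • z + 1 • t i) S as proper quotients have br z ≥ 1 and S itself has br (t i) = 1; E0c_comb gives E0c (t i) S.  Then Ws_rec with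
C V := E0c (t i) V (E0c_ext; V ⧸ K ≃ S).  (E0c_ext for X.)
side: t' = update t i w, both chambers, same sign.  Both ∑ t and ∑ t' = z + w are NoW (Chm.noW with c = 1).  If sign -1: Tc (∑ t) ↔ Tc z ↔ Tc (∑ t') by tc_neg (wl t' i = wl t i),
and E0c = Tc for both (Tc_of_NoW, Tc_E0c).  If +1: E0c (∑ t) ↔ E0c z ↔ E0c (∑ t'), Tc the same.  So Sbo (t i) (∑ t') (from sum_Sbo for t), so t i = t' j for some j
(mem_of_sbo_sum); j ≠ i impossible by ht.inj, so t i = w.
-/
set_option autoImplicit false
universe u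
namespace TB3
open Module TB10

section
variable {n : ℕ}

private theorem H6_wl (t : Fin n → Fin n → ℤ) (i : Fin n) :
    wl t i = ∑ j, (if j = i then 0 else 1 : ℕ) • t j := by
  unfold wl
  rw [← Finset.add_sum_erase Finset.univ (fun j => (if j = i then 0 else 1 : ℕ) • t j) (Finset.mem_univ i)]
  rw [if_pos rfl, zero_smul, zero_add]
  apply Finset.sum_congr rfl
  intro j hj
  rw [if_neg (Finset.ne_of_mem_erase hj), one_smul]

private theorem H6_sum (t : Fin n → Fin n → ℤ) (i : Fin n) :
    ∑ j, t j = wl t i + t i := (Finset.sum_erase_add Finset.univ t (Finset.mem_univ i)).symm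

private theorem H6_one (t : Fin n → Fin n → ℤ) :
    ∑ j, (1 : ℕ) • t j = ∑ j, t j := Finset.sum_congr rfl fun j _ => one_smul _ _

private theorem H6_wl_update (t : Fin n → Fin n → ℤ) (i : Fin n) (w : Fin n → ℤ) :
    wl (Function.update t i w) i = wl t i := by
  unfold wl
  apply Finset.sum_congr rfl
  intro j hj
  rw [Function.update_of_ne (Finset.ne_of_mem_erase hj)]

end

section
variable {k : Type u} [Field k] {A : Type u} [Ring A] [Algebra k A]
variable {n : ℕ} {p : Fin n → Submodule A A}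
    {S : Type u} [AddCommGroup S] [Module A S] [Module k S] [IsScalarTower k A S] [Module.Finite k S]
    [Module.Finite k A] [Infinite k] [IsAlgClosed k] (hp : Bas k p) (hfin : FinB k A)

include hp hfin

private theorem H6_cmp {t : Fin n → Fin n → ℤ} (ht : Chm k p t) (i : Fin n) :
    Cmp k p (wl t i) (t i) := by
  rw [H6_wl]
  exact (sum_cmp hp hfin t ht.cmp _ (t i) (fun j _ => ht.cmp i j)).symm

theorem tc_neg {t : Fin n → Fin n → ℤ} (ht : Chm k p t) (i : Fin n) (hS : St k p (wl t i) S)
    (h : br k p (t i) S = -1)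
    (X : Type u) [AddCommGroup X] [Module A X] [Module k X] [IsScalarTower k A X] [Module.Finite k X] :
    Tc k p (∑ j, t j) X ↔ Tc k p (wl t i) X := by
  have hc := H6_cmp hp hfin ht i
  rw [H6_sum t i]
  constructor
  · intro hX
    rw [Tc_iff_E0c hp]
    refine ⟨((E0c_add hp hfin hc).1 (Tc_E0c hX)).1, ?_⟩
    intro K hK hW
    have : Nontrivial (X ⧸ K) := Submodule.Quotient.nontrivial_iff.2 hK
    obtain ⟨g, hg⟩ := wall_quot hp hfin ht i hS (X ⧸ K) hW
    have h1 : Tc k p (wl t i + t i) S :=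
      Tc_surj (g ∘ₗ K.mkQ) (hg.comp K.mkQ_surjective) hX
    have := hS.nt
    have h2 := Tc_br h1
    rw [br_add_left, hS.zero, h] at h2
    linarith
  · intro hX
    exact Tc_add_left hc hX

theorem ws_E0c_pos {t : Fin n → Fin n → ℤ} (ht : Chm k p t) (i : Fin n) (hS : St k p (wl t i) S)
    (h : br k p (t i) S = 1)
    (V : Type u) [AddCommGroup V] [Module A V] [Module k V] [IsScalarTower k A V] [Module.Finite k V]
    (hV : Ws k p (wl t i) V) : E0c k p (t i) V := by
  have hc := H6_cmp hp hfin ht i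
  have hSE : E0c k p (t i) S := by
    obtain ⟨C, hC⟩ := br_bound (k := k) hp (t i) S
    have h1 : E0c k p ((C + 1) • wl t i + 1 • t i) S := by
      intro K
      rw [br_add_left, br_nsmul_left, br_nsmul_left]
      by_cases hb : K = ⊥
      · subst hb
        rw [br_congr (k := k) (p := p) (wl t i) (Submodule.quotEquivOfEqBot (⊥ : Submodule A S) rfl),
          br_congr (k := k) (p := p) (t i) (Submodule.quotEquivOfEqBot (⊥ : Submodule A S) rfl), hS.zero, h]
        norm_num
      · by_cases hT : K = ⊤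
        · have : Subsingleton (S ⧸ K) := Submodule.Quotient.subsingleton_iff.2 hT
          rw [br_subsingleton, br_subsingleton]
          norm_num
        · have h2 := hS.pos hp K hb hT
          have h3 := (abs_le.1 (hC K).1).1
          push_cast
          nlinarith
    exact ((E0c_comb hp hfin hc (Nat.succ_pos C) Nat.one_pos).1 h1).2
  refine Ws_rec (C := fun V _ _ _ _ _ => E0c k p (t i) V) hp ?_ ?_ V hV
  · intro X _ _ _ _ _ hX
    exact E0c_subsingleton _
  · intro X _ _ _ _ _ K hX hK hSt hC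
    obtain ⟨e⟩ := wall_unique hp hfin ht i hS hSt
    exact E0c_ext hp K hC (E0c_surj e.toLinearMap e.surjective hSE)

theorem e0_pos {t : Fin n → Fin n → ℤ} (ht : Chm k p t) (i : Fin n) (hS : St k p (wl t i) S)
    (h : br k p (t i) S = 1)
    (X : Type u) [AddCommGroup X] [Module A X] [Module k X] [IsScalarTower k A X] [Module.Finite k X] :
    E0c k p (∑ j, t j) X ↔ E0c k p (wl t i) X := by
  have hc := H6_cmp hp hfin ht i
  rw [H6_sum t i]
  constructor
  · intro hX
    exact ((E0c_add hp hfin hc).1 hX).1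
  · intro hX
    obtain ⟨N, hN1, hN2⟩ := exists_torsion hp hfin (wl t i) X
    have hW : Ws k p (wl t i) (X ⧸ N) := ⟨E0c_surj N.mkQ N.mkQ_surjective hX, hN2⟩
    have h1 := ws_E0c_pos hp hfin ht i hS h (X ⧸ N) hW
    have h2 : E0c k p (t i) X := E0c_ext hp N (hc.1 N hN1) h1
    exact (E0c_add hp hfin hc).2 ⟨hX, h2⟩

theorem side {t : Fin n → Fin n → ℤ} (ht : Chm k p t) (i : Fin n) (w : Fin n → ℤ)
    (ht' : Chm k p (Function.update t i w)) (hS : St k p (wl t i) S)
    (h : br k p (t i) S = br k p w S) : w = t i := by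
  have hwl := H6_wl_update t i w
  have hti : Function.update t i w i = w := Function.update_self i w t
  have hS' : St k p (wl (Function.update t i w) i) S := by
    rw [hwl]
    exact hS
  have hn : NoW k p (∑ j, t j) := by
    rw [← H6_one]
    exact Chm.noW hp hfin ht (fun _ => 1) (fun _ => Nat.one_pos)
  have hn' : NoW k p (∑ j, Function.update t i w j) := by
    rw [← H6_one]
    exact Chm.noW hp hfin ht' (fun _ => 1) (fun _ => Nat.one_pos)
  have key : ∀ (X : Type u) [AddCommGroup X] [Module A X] [Module k X] [IsScalarTower k A X]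
      [Module.Finite k X], (E0c k p (∑ j, Function.update t i w j) X → E0c k p (∑ j, t j) X) ∧
        (Tc k p (∑ j, t j) X → Tc k p (∑ j, Function.update t i w j) X) := by
    intro X _ _ _ _ _
    rcases (wall_pair hp hfin ht i hS).2 with h1 | h1
    · have h2 : br k p (Function.update t i w i) S = 1 := by
        rw [hti, ← h, h1]
      have e1 := e0_pos hp hfin ht i hS h1 X
      have e2 := e0_pos hp hfin ht' i hS' h2 X
      rw [hwl] at e2
      exact ⟨fun hX => e1.2 (e2.1 hX), fun hX => Tc_of_NoW hp hn' (e2.2 (e1.1 (Tc_E0c hX)))⟩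
    · have h2 : br k p (Function.update t i w i) S = -1 := by
        rw [hti, ← h, h1]
      have e1 := tc_neg hp hfin ht i hS h1 X
      have e2 := tc_neg hp hfin ht' i hS' h2 X
      rw [hwl] at e2
      exact ⟨fun hX => Tc_E0c (e1.2 (e2.1 (Tc_of_NoW hp hn' hX))), fun hX => e2.2 (e1.1 hX)⟩
  have hsb : Sbo k p (t i) (∑ j, t j) := by
    rw [← H6_one]
    exact sum_Sbo hp hfin t ht.cmp (fun _ => 1) i Nat.one_pos
  have hsb' : Sbo k p (t i) (∑ j, (1 : ℕ) • Function.update t i w j) := by
    rw [H6_one]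
    exact ⟨fun X _ _ _ _ _ hX => hsb.1 X ((key X).1 hX), fun X _ _ _ _ _ hX => (key X).2 (hsb.2 X hX)⟩
  obtain ⟨j, -, hj⟩ := mem_of_sbo_sum hp hfin (Function.update t i w) ht'.cmp ht'.prm (fun _ => 1)
    (ht.prm i) hsb'
  by_cases hji : j = i
  · subst hji
    rw [hti] at hj
    exact hj.symm
  · rw [Function.update_of_ne hji] at hj
    exact absurd (ht.inj hj).symm hji

end

end TB3
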