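import Pool.Agent.LibTB3.H5
import Pool.Agent.LibTB3.H6
/-!
ROW [TB3 G7] MEDIUM.
(cite H1, H5, H6, N2) the torsion class below a positive wall.
PLAN. exists_neighbour t i: w, t' = update t i w, br w S = -1.  tc_neg for t' (wl t' i = wl t i, t' i = w): Tc (∑ t') X ↔ Tc (wl t i) X.
(1) Tc (∑ t') X → Tc (∑ t) X: Tc (wl t i) X → E0c (t i) X (compatible: Cmp (wl t i) (t i) from sum_cmp), Tc_add_left, ∑ t = wl t i + t i.
(2) Tc (∑ t) S holds: quotients: S ⧸ K, K ≠ ⊤: E0c (∑ t) S by e0_pos (S is semistable for wl t i) and NoW (Chm.noW) so Tc (Tc_of_NoW).  Not Tc (∑ t') S: br (∑ t') S = 0 + (-1) < 0.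
(3) if Tc (∑ t) X and not Tc (∑ t') X: not Tc (wl t i) X; E0c (wl t i) X (E0c_add); Tc_iff_E0c: some K ≠ ⊤ with X ⧸ K semistable; wall_quot: X ⧸ K → S surjective.
-/
set_option autoImplicit false
universe u
namespace TB3
open Module TB10

section
variable {k : Type u} [Field k] {A : Type u} [Ring A] [Algebra k A]
variable {n : ℕ} {p : Fin n → Submodule A A}
    [Module.Finite k A] [Infinite k] [IsAlgClosed k] (hp : Bas k p) (hfin : FinB k A)

include hp hfin

omit [Infinite k] [IsAlgClosed k] hp hfin in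
private theorem g7_sum (t : Fin n → Fin n → ℤ) (i : Fin n) : ∑ j, t j = wl t i + t i := by
  unfold wl
  exact (Finset.sum_erase_add Finset.univ t (Finset.mem_univ i)).symm

omit [Infinite k] [IsAlgClosed k] hp hfin in
private theorem g7_wl_update (t : Fin n → Fin n → ℤ) (i : Fin n) (w : Fin n → ℤ) :
    wl (Function.update t i w) i = wl t i := by
  unfold wl
  refine Finset.sum_congr rfl fun j hj => ?_
  rw [Function.update_of_ne (Finset.ne_of_mem_erase hj)]

omit [IsAlgClosed k] in
private theorem g7_cmp {t : Fin n → Fin n → ℤ} (ht : Chm k p t) (i : Fin n) :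
    Cmp k p (wl t i) (t i) := by
  have h := sum_cmp hp hfin t ht.cmp (fun j => if j = i then 0 else 1) (t i) (fun j _ => ht.cmp i j)
  have e : (∑ j, (if j = i then 0 else 1 : ℕ) • t j) = wl t i := by
    unfold wl
    rw [← Finset.sum_erase_add Finset.univ _ (Finset.mem_univ i)]
    rw [if_pos rfl, zero_smul, add_zero]
    refine Finset.sum_congr rfl fun j hj => ?_
    rw [if_neg (Finset.ne_of_mem_erase hj), one_smul]
  have h' : Cmp k p (t i) (wl t i) := by
    rw [← e]; exact h
  exact h'.symm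

theorem exists_lower {t : Fin n → Fin n → ℤ} (ht : Chm k p t) (i : Fin n)
    {S : Type u} [AddCommGroup S] [Module A S] [Module k S] [IsScalarTower k A S] [Module.Finite k S]
    (hS : St k p (wl t i) S) (h : br k p (t i) S = 1) :
    ∃ t' : Fin n → Fin n → ℤ, Chm k p t' ∧
      (∀ (X : Type u) [AddCommGroup X] [Module A X] [Module k X] [IsScalarTower k A X] [Module.Finite k X],
        Tc k p (∑ j, t' j) X → Tc k p (∑ j, t j) X) ∧
      ¬ Tc k p (∑ j, t' j) S ∧ Tc k p (∑ j, t j) S ∧
      (∀ (X : Type u) [AddCommGroup X] [Module A X] [Module k X] [IsScalarTower k A X] [Module.Finite k X],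
        Tc k p (∑ j, t j) X → ¬ Tc k p (∑ j, t' j) X → ∃ g : X →ₗ[A] S, Function.Surjective g) := by
  classical
  obtain ⟨w, ht', hw⟩ := exists_neighbour hp hfin ht i
  have hsum : ∑ j, t j = wl t i + t i := g7_sum t i
  have hwl : wl (Function.update t i w) i = wl t i := g7_wl_update t i w
  have hti : Function.update t i w i = w := Function.update_self i w t
  have hsum' : ∑ j, Function.update t i w j = wl t i + w := by
    rw [g7_sum (Function.update t i w) i, hwl, hti]
  have hwS : br k p w S = -1 := by rw [hw S hS, h]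
  have hS' : St k p (wl (Function.update t i w) i) S := by rw [hwl]; exact hS
  have hcmp : Cmp k p (wl t i) (t i) := g7_cmp hp hfin ht i
  have htc : ∀ (X : Type u) [AddCommGroup X] [Module A X] [Module k X] [IsScalarTower k A X]
      [Module.Finite k X],
      Tc k p (∑ j, Function.update t i w j) X ↔ Tc k p (wl t i) X := by
    intro X _ _ _ _ _
    have h1 := tc_neg hp hfin ht' i hS' (by rw [hti]; exact hwS) X
    rw [hwl] at h1
    exact h1
  have hnow : NoW k p (∑ j, t j) := by
    have h1 := Chm.noW hp hfin ht (fun _ => 1) (fun _ => Nat.one_pos)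
    simpa using h1
  have hTS : Tc k p (∑ j, t j) S := by
    refine Tc_of_NoW hp hnow ?_
    exact (e0_pos hp hfin ht i hS h S).mpr (hS.ws hp).1
  haveI : Nontrivial S := hS.nt
  refine ⟨Function.update t i w, ht', ?_, ?_, hTS, ?_⟩
  · intro X _ _ _ _ _ hX
    rw [hsum]
    exact Tc_add_left hcmp ((htc X).mp hX)
  · intro hc
    have h1 := Tc_br hc
    rw [hsum', br_add_left, hS.zero, hwS] at h1
    omega
  · intro X _ _ _ _ _ hX hn
    have hn' : ¬ Tc k p (wl t i) X := fun hh => hn ((htc X).mpr hh)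
    have hE : E0c k p (wl t i) X := by
      have h1 := Tc_E0c hX
      rw [hsum] at h1
      exact ((E0c_add hp hfin hcmp).mp h1).1
    have hK : ∃ K : Submodule A X, K ≠ ⊤ ∧ Ws k p (wl t i) (X ⧸ K) := by
      by_contra hcon
      apply hn'
      refine (Tc_iff_E0c hp).mpr ⟨hE, ?_⟩
      intro K hKt hKW
      exact hcon ⟨K, hKt, hKW⟩
    obtain ⟨K, hKt, hKW⟩ := hK
    haveI : Nontrivial (X ⧸ K) := Submodule.Quotient.nontrivial_iff.mpr hKt
    obtain ⟨g, hg⟩ := wall_quot hp hfin ht i hS (X ⧸ K) hKW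
    exact ⟨g ∘ₗ K.mkQ, hg.comp K.mkQ_surjective⟩

end

end TB3
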