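import Pool.Agent.LibTB3.G6
import Pool.Agent.LibTB3.G7
import Pool.Agent.LibTB10.R1
/-!
ROW [TB3 G8] MEDIUM.
(cite G6, G7, H1, H2, TB10.exists_rep) finitely many chambers imply finitely many bricks.
PLAN. The list: for every chamber t (finite set) and i choose a stable module of the wall (exists_wall) and a representation r(t,i) (TB10.exists_rep: finrank, ρ); L = all of them.
X a brick.  T₀ = {t chamber | Tc (∑ t) X} is nonempty: the chamber of z₀ = fun _ => 1 (exists_chm_of_NoW; NoW: Ws gives br 1 X = 0, br_one_pos): E0c z₀ X always (br_one_nonneg) so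
E0c (∑ t) X (sum_E0c both have all coefficients positive), Tc by NoW.  Choose t ∈ T₀ minimal for the preorder t' ≤ t :⟺ ∀ Z, Tc (∑ t') Z → Tc (∑ t) Z (finite nonempty set:
`Set.Finite.exists_minimalFor`-like; or by contradiction an infinite strictly descending sequence in a finite set; or induction on the cardinality).
exists_stable_hom t X: i, S stable, br (t i) S = 1, g : S → X nonzero.  exists_lower: t' < t strictly (S distinguishes them), so by minimality X is not in Tc (∑ t'), so there is a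
surjection f : X → S.  g ∘ f : X → X is nonzero, so bijective, f injective: X ≃ S ≃ Vm r(t,i) (wall_unique).
-/
set_option autoImplicit false
universe u
namespace TB3
open Module TB10

section
variable {k : Type u} [Field k] {A : Type u} [Ring A] [Algebra k A]
variable {n : ℕ} {p : Fin n → Submodule A A}
    [Module.Finite k A] [Infinite k] [IsAlgClosed k] (hp : Bas k p) (hfin : FinB k A)

include hp hfin

omit [IsAlgClosed k] [Infinite k] [Module.Finite k A] hp hfin in
theorem g8_one_smul (t : Fin n → Fin n → ℤ) :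
    (∑ j, t j) = ∑ j, (fun _ : Fin n => (1 : ℕ)) j • t j :=
  Finset.sum_congr rfl fun j _ => (one_smul ℕ (t j)).symm

theorem g8_start (X : Type u) [AddCommGroup X] [Module A X] [Module k X] [IsScalarTower k A X]
    [Module.Finite k X] :
    ∃ t : Fin n → Fin n → ℤ, Chm k p t ∧ Tc k p (∑ j, t j) X := by
  have hno : NoW k p (fun _ : Fin n => (1 : ℤ)) := by
    intro Y _ _ _ _ _ hY
    by_contra hcon
    rw [not_subsingleton_iff_nontrivial] at hcon
    have h1 := br_one_pos (k := k) (X := Y) hp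
    rw [Ws_br hY] at h1
    exact lt_irrefl _ h1
  obtain ⟨t, c, ht, hc, hz⟩ := exists_chm_of_NoW hp hfin hno
  refine ⟨t, ht, ?_⟩
  have h0 : E0c k p (fun _ : Fin n => (1 : ℤ)) X := fun K => br_one_nonneg
  rw [hz] at h0
  have h1 := (sum_E0c hp hfin t ht.cmp c).1 h0
  have h2 : E0c k p (∑ j, t j) X := by
    rw [g8_one_smul t]
    exact (sum_E0c hp hfin t ht.cmp _).2 fun i _ => h1 i (hc i)
  have h3 : NoW k p (∑ j, t j) := by
    rw [g8_one_smul t]
    exact Chm.noW hp hfin ht _ fun _ => Nat.one_pos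
  exact Tc_of_NoW hp h3 h2

theorem g8_list (t : Fin n → Fin n → ℤ) (i : Fin n) :
    ∃ L : List (Rp k A), Chm k p t → ∀ (S : Type u) [AddCommGroup S] [Module A S] [Module k S]
      [IsScalarTower k A S] [Module.Finite k S], St k p (wl t i) S →
      ∃ r ∈ L, Nonempty (S ≃ₗ[A] Vm r.2) := by
  by_cases ht : Chm k p t
  · obtain ⟨S₀, i1, i2, i3, i4, i5, hS₀⟩ := exists_wall hp hfin ht i
    obtain ⟨ρ, ⟨e⟩⟩ := TB10.exists_rep (k := k) (A := A) S₀
    refine ⟨[⟨finrank k S₀, ρ⟩], fun _ S _ _ _ _ _ hS => ?_⟩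
    obtain ⟨e'⟩ := wall_unique hp hfin ht i hS hS₀
    exact ⟨_, List.mem_singleton_self _, ⟨e'.trans e⟩⟩
  · exact ⟨[], fun h => absurd h ht⟩

theorem finite_bricks (hch : {t : Fin n → Fin n → ℤ | Chm k p t}.Finite) :
    ∃ L : List (Rp k A), ∀ (X : Type u) [AddCommGroup X] [Module A X] [Module k X] [IsScalarTower k A X]
      [Module.Finite k X], IsBrick A X → ∃ r ∈ L, Nonempty (X ≃ₗ[A] Vm r.2) := by
  choose L hL using g8_list (k := k) (p := p) hp hfin
  refine ⟨hch.toFinset.toList.flatMap fun t => (List.finRange n).flatMap fun i => L t i, ?_⟩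
  intro X _ _ _ _ _ hX
  have hnt : Nontrivial X := hX.1
  -- the set of chambers
  have hfinT : {t : Fin n → Fin n → ℤ | Chm k p t ∧ Tc k p (∑ j, t j) X}.Finite :=
    hch.subset fun t ht => ht.1
  obtain ⟨t, ⟨ht, htX⟩, hmin⟩ := hfinT.exists_minimalFor
    (fun t => {r : Rp k A | Tc k p (∑ j, t j) (Vm r.2)}) _ (g8_start hp hfin X)
  obtain ⟨i, hi⟩ := exists_stable_hom hp hfin ht X htX
  obtain ⟨S, i1, i2, i3, i4, i5, hS⟩ := exists_wall hp hfin ht i
  obtain ⟨h1, g, hg⟩ := hi S hS
  obtain ⟨t', ht', hle, hS', hSt, hsurj⟩ := exists_lower hp hfin ht i hS h1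
  have hX' : ¬ Tc k p (∑ j, t' j) X := by
    intro hcon
    have h2 := hmin (show t' ∈ {t : Fin n → Fin n → ℤ | Chm k p t ∧ Tc k p (∑ j, t j) X} from
      ⟨ht', hcon⟩) (fun r hr => hle _ hr)
    obtain ⟨ρ, ⟨e⟩⟩ := TB10.exists_rep (k := k) (A := A) S
    have h3 : (⟨finrank k S, ρ⟩ : Rp k A) ∈ {r : Rp k A | Tc k p (∑ j, t j) (Vm r.2)} :=
      Tc_surj e.toLinearMap e.surjective hSt
    have h4 : Tc k p (∑ j, t' j) (Vm ρ) := h2 h3
    exact hS' (Tc_surj e.symm.toLinearMap e.symm.surjective h4)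
  obtain ⟨f, hf⟩ := hsurj X htX hX'
  have hgf : g ∘ₗ f ≠ 0 := by
    intro hcon
    apply hg
    ext s
    obtain ⟨x, rfl⟩ := hf s
    exact congrArg (fun h : X →ₗ[A] X => h x) hcon
  have hbij := hX.2 _ hgf
  have hinj : Function.Injective f := by
    intro a b hab
    apply hbij.1
    rw [LinearMap.comp_apply, LinearMap.comp_apply, hab]
  obtain ⟨r, hr, ⟨e⟩⟩ := hL t i ht S hS
  refine ⟨r, ?_, ⟨(LinearEquiv.ofBijective f ⟨hinj, hf⟩).trans e⟩⟩
  refine List.mem_flatMap.2 ⟨t, ?_, List.mem_flatMap.2 ⟨i, List.mem_finRange i, hr⟩⟩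
  rw [Finset.mem_toList, Set.Finite.mem_toFinset]
  exact ht

end

end TB3
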