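import Pool.Agent.LibTB3.P1
import Pool.Agent.LibTB10.P2
import Pool.Agent.LibTB10.P3
/-!
ROW [TB3 P2] MEDIUM.
(cite P1, TB10.P2, TB10.P3) the structure Bas for an algebra with simple modules S_1, ..., S_m.
PLAN. The simple modules S i have a k-structure: simple A-modules are quotients of A, finite over k: `Module.compHom (S i) (algebraMap k A)` (see how TB10.two_simples in LibTB10/F2 does it).
p i = exists_cover (S i).  dual: finrank Hom(p j, S i) = δ (for j ≠ i all maps are 0 by hne).  faithful: X nontrivial has a simple submodule N (TB10.exists_simple_sub), N ≃ S i,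
p i → S i ≃ N → X nonzero.  ty: t i = finrank Hom(Q, S i); the identity finrank Hom(Q,X) = ∑ t i finrank Hom(p i, X) holds for X simple and then for all X by induction on the
dimension (see TB10.ty_of_simple in LibTB10/P2: same induction with TB10.hom_add).
-/
set_option autoImplicit false
universe u
namespace TB3
open Module TB10

section
variable {k : Type u} [Field k] {A : Type u} [Ring A] [Algebra k A]

theorem p2_proj {P : Submodule A A} {e : A} (he : e * e = e) (h : ∀ a : A, a ∈ P ↔ a * e = a) :
    Module.Projective A P := by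
  have hm : ∀ a : A, (LinearMap.toSpanSingleton A A e) a ∈ P := by
    intro a
    rw [h, LinearMap.toSpanSingleton_apply, smul_eq_mul, mul_assoc, he]
  refine Module.Projective.of_split P.subtype
    (LinearMap.codRestrict P (LinearMap.toSpanSingleton A A e) hm) ?_
  ext x
  have h1 : (x : A) * e = x := (h x).1 x.2
  change (LinearMap.toSpanSingleton A A e) (x : A) = (x : A)
  rw [LinearMap.toSpanSingleton_apply, smul_eq_mul, h1]

theorem p2_faithful {m : ℕ} (S : Fin m → Type u)
    [∀ i, AddCommGroup (S i)] [∀ i, Module A (S i)] [∀ i, Module k (S i)]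
    [∀ i, IsScalarTower k A (S i)]
    (p : Fin m → Submodule A A)
    (hall : ∀ (T : Type u) [AddCommGroup T] [Module A T] [IsSimpleModule A T],
      ∃ i, Nonempty (T ≃ₗ[A] S i))
    (h1 : ∀ i, finrank k (p i →ₗ[A] S i) = 1)
    (X : Type u) [AddCommGroup X] [Module A X] [Module k X] [IsScalarTower k A X]
    [Module.Finite k X] (hX : ∀ i, ∀ h : p i →ₗ[A] X, h = 0) : Subsingleton X := by
  by_contra hns
  haveI : Nontrivial X := not_subsingleton_iff_nontrivial.mp hns
  obtain ⟨N, hN⟩ := exists_simple_sub (k := k) (A := A) (X := X)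
  obtain ⟨i, ⟨e⟩⟩ := hall N
  obtain ⟨q, hq⟩ := p3_exists_ne (h1 i)
  apply hq
  have h3 := hX i (N.subtype ∘ₗ e.symm.toLinearMap ∘ₗ q)
  ext x
  have h4 := LinearMap.congr_fun h3 x
  simp only [LinearMap.comp_apply, Submodule.subtype_apply, LinearMap.zero_apply,
    LinearEquiv.coe_coe, ZeroMemClass.coe_eq_zero, map_eq_zero_iff, EmbeddingLike.map_eq_zero_iff] at h4
  rw [h4]; rfl

theorem p2_ty {m : ℕ} (S : Fin m → Type u)
    [∀ i, AddCommGroup (S i)] [∀ i, Module A (S i)] [∀ i, Module k (S i)]
    [∀ i, IsScalarTower k A (S i)]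
    (p : Fin m → Submodule A A) [∀ i, Module.Finite k (p i)] (hproj : ∀ i, Module.Projective A (p i))
    (hall : ∀ (T : Type u) [AddCommGroup T] [Module A T] [IsSimpleModule A T],
      ∃ i, Nonempty (T ≃ₗ[A] S i))
    (hd : ∀ i j, finrank k (p j →ₗ[A] S i) = if j = i then 1 else 0)
    (Q : Type u) [AddCommGroup Q] [Module A Q] [Module k Q] [IsScalarTower k A Q]
    [Module.Finite k Q] [Module.Projective A Q]
    (X : Type u) [AddCommGroup X] [Module A X] [Module k X] [IsScalarTower k A X]
    [Module.Finite k X] :
    finrank k (Q →ₗ[A] X) = ∑ i, finrank k (Q →ₗ[A] S i) * finrank k (p i →ₗ[A] X) := by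
  have key : ∀ (d : ℕ) (X : Type u) [AddCommGroup X] [Module A X] [Module k X] [IsScalarTower k A X]
      [Module.Finite k X], finrank k X = d →
      finrank k (Q →ₗ[A] X) = ∑ i, finrank k (Q →ₗ[A] S i) * finrank k (p i →ₗ[A] X) := by
    intro d
    induction d using Nat.strong_induction_on with
    | _ d ih =>
      intro X _ _ _ _ _ hn
      rcases subsingleton_or_nontrivial X with hX | hX
      · rw [finrank_zero_of_subsingleton]
        symm
        apply Finset.sum_eq_zero
        intro i _
        rw [finrank_zero_of_subsingleton (R := k) (M := p i →ₗ[A] X), mul_zero]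
      · obtain ⟨N, hN⟩ := exists_simple_sub (k := k) (A := A) (X := X)
        have hNn : Nontrivial N := IsSimpleModule.nontrivial A N
        have h1 : 0 < finrank k N := finrank_pos
        have h2 := Submodule.finrank_quotient_add_finrank (N.restrictScalars k)
        have h3 : finrank k (X ⧸ N.restrictScalars k) = finrank k (X ⧸ N) :=
          (Submodule.Quotient.restrictScalarsEquiv k N).finrank_eq
        have h4 : finrank k ↥(N.restrictScalars k) = finrank k N := rfl
        have h5 : finrank k (X ⧸ N) < d := by omega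
        have h6 : ∀ i, finrank k (p i →ₗ[A] X)
            = finrank k (p i →ₗ[A] N) + finrank k (p i →ₗ[A] (X ⧸ N)) := by
          intro i
          haveI := hproj i
          exact hom_add (P₀ := p i) N
        have h7 : finrank k (Q →ₗ[A] N)
            = ∑ i, finrank k (Q →ₗ[A] S i) * finrank k (p i →ₗ[A] N) := by
          obtain ⟨l, ⟨e⟩⟩ := hall N
          rw [p3_finrank_congr Q e]
          have h8 : ∀ i, finrank k (p i →ₗ[A] N) = if i = l then 1 else 0 := by
            intro i
            rw [p3_finrank_congr (p i) e, hd l i]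
          simp only [h8, mul_ite, mul_one, mul_zero]
          rw [Finset.sum_ite_eq' Finset.univ l, if_pos (Finset.mem_univ l)]
        rw [hom_add (P₀ := Q) N, h7, ih _ h5 (X ⧸ N) rfl, ← Finset.sum_add_distrib]
        apply Finset.sum_congr rfl
        intro i _
        rw [h6 i, mul_add]
  exact key _ X rfl

theorem exists_bas [IsAlgClosed k] [Module.Finite k A] {m : ℕ} (S : Fin m → Type u)
    [∀ i, AddCommGroup (S i)] [∀ i, Module A (S i)] [∀ i, IsSimpleModule A (S i)]
    (hne : ∀ i j, i ≠ j → IsEmpty (S i ≃ₗ[A] S j))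
    (hall : ∀ (T : Type u) [AddCommGroup T] [Module A T] [IsSimpleModule A T],
      ∃ i, Nonempty (T ≃ₗ[A] S i)) :
    ∃ p : Fin m → Submodule A A, Bas k p := by
  letI : ∀ i, Module k (S i) := fun i => Module.compHom (S i) (algebraMap k A)
  haveI : ∀ i, IsScalarTower k A (S i) := fun i => IsScalarTower.of_algebraMap_smul fun _ _ => rfl
  haveI : ∀ i, Module.Finite k (S i) := fun i => Module.Finite.trans A (S i)
  choose p hidem hloc h1 h0 using fun i => exists_cover (k := k) (A := A) (S i)
  have hproj : ∀ i, Module.Projective A (p i) := by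
    intro i
    obtain ⟨e, he, h⟩ := hidem i
    exact p2_proj he h
  have hd : ∀ i j, finrank k (p j →ₗ[A] S i) = if j = i then 1 else 0 := by
    intro i j
    by_cases hij : j = i
    · subst hij
      rw [if_pos rfl]
      exact h1 j
    · rw [if_neg hij, Module.finrank_zero_iff]
      exact ⟨fun x y => by rw [h0 j (S i) (hne j i hij) x, h0 j (S i) (hne j i hij) y]⟩
  refine ⟨p, ⟨hidem, hloc, ?_, ?_, ?_⟩⟩
  · intro X _ _ _ _ _ hX
    exact p2_faithful S p hall h1 X hX
  · intro Q _ _ _ _ _ _
    refine ⟨fun i => finrank k (Q →ₗ[A] S i), ?_⟩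
    intro X _ _ _ _ _
    exact p2_ty S p hproj hall hd Q X
  · intro i
    exact ⟨S i, inferInstance, inferInstance, inferInstance, inferInstance, inferInstance,
      inferInstance, fun j => hd i j⟩

end

end TB3
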