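import Pool.Agent.LibTB3.G5
import Pool.Agent.LibTB3.G8
import Pool.Agent.LibTB3.P2
import Pool.Agent.LibTB10.F2
import Pool.Agent.LibTB10.F3
import Pool.Agent.LibTB10.R1
import Pool.Agent.LibTB10.E2
/-!
ROW [TB3 F1] helper10.
(cite everything) assembly (helper10 proves this row).
-/
set_option autoImplicit false
universe u
namespace TB3
open Module TB10

section
variable {k : Type u} [Field k] {A : Type u} [Ring A] [Algebra k A]
/-- three simple modules, no self-extensions of stable modules, infinitely many bricks: infinitely many bricks of one dimension -/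
theorem three_simples_nse (k : Type u) [Field k] [IsAlgClosed k] (A : Type u) [Ring A] [Algebra k A]
    [Module.Finite k A] (p : Fin 3 → Submodule A A) (hp : Bas k p)
    (hA : FinB k A → NSE k p) (hinf : InfBricksAll k A) : ∃ d, InfBricks k A d := by
  by_contra hcon
  push Not at hcon
  have : Infinite k := IsAlgClosed.instInfinite
  have hfin : FinB k A := fun D => exists_cov D (fun d _ => hcon d)
  obtain ⟨L, hL⟩ := finite_bricks hp hfin (finite_chm hp hfin (hA hfin))
  exact not_infAll L hL hinf

/-- three simple modules, `dim A/[A,A] ≤ 3`, infinitely many bricks: infinitely many bricks of one dimension -/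
theorem three_simples (k : Type u) [Field k] [IsAlgClosed k] (A : Type u) [Ring A] [Algebra k A]
    [Module.Finite k A] (S : Fin 3 → Type u)
    [∀ i, AddCommGroup (S i)] [∀ i, Module A (S i)] [∀ i, IsSimpleModule A (S i)]
    (hne : ∀ i j, i ≠ j → IsEmpty (S i ≃ₗ[A] S j))
    (hall : ∀ (T : Type u) [AddCommGroup T] [Module A T] [IsSimpleModule A T],
      ∃ i, Nonempty (T ≃ₗ[A] S i))
    (hA : hh0 k A ≤ 3) (hinf : InfBricksAll k A) : ∃ d, InfBricks k A d := by
  have : Infinite k := IsAlgClosed.instInfinite
  obtain ⟨p, hp⟩ := exists_bas (k := k) S hne hall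
  exact three_simples_nse k A p hp (fun hfin => nse_of_hh0 hp hfin hA) hinf

end

end TB3
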