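import Pool.Agent.LibTB3.F1
/-!
Corners of quotients (helper10).
-/
set_option autoImplicit false
universe u
namespace TB3
open Module TB10

theorem two_or_three_corner (k : Type u) [Field k] [IsAlgClosed k] (A A' B : Type u)
    [Ring A] [Algebra k A] [Module.Finite k A] [Ring A'] [Algebra k A'] [Ring B] [Algebra k B]
    (π : A →ₐ[k] A') (hπ : Function.Surjective π)
    (φ : B →ₗ[k] A') (hmul : ∀ x y, φ (x * y) = φ x * φ y)
    (hinj : Function.Injective φ) (hcorner : ∀ a : A', ∃ b : B, φ b = φ 1 * a * φ 1)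
    (m : ℕ) (S : Fin m → Type u)
    [∀ i, AddCommGroup (S i)] [∀ i, Module B (S i)] [∀ i, IsSimpleModule B (S i)]
    (hne : ∀ i j, i ≠ j → IsEmpty (S i ≃ₗ[B] S j))
    (hall : ∀ (T : Type u) [AddCommGroup T] [Module B T] [IsSimpleModule B T],
      ∃ i, Nonempty (T ≃ₗ[B] S i))
    (hm : m = 2 ∨ m = 3 ∧ hh0 k B ≤ 3) (hinf : InfBricksAll k B) :
    ∃ d, (m = 2 → d ≤ finrank k A * (2 ^ finrank k B * finrank k B)) ∧ InfBricks k A d := by
  rcases hm with rfl | ⟨rfl, hA⟩
  · obtain ⟨d, hd, h⟩ := two_simples_corner k A A' B π hπ φ hmul hinj hcorner (S 0) (S 1)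
      (hne 0 1 (by decide)) (fun T _ _ _ => by
        obtain ⟨i, hi⟩ := hall T
        fin_cases i
        · exact Or.inl hi
        · exact Or.inr hi) hinf
    exact ⟨d, fun _ => hd, h⟩
  · haveI : Module.Finite k A' := Module.Finite.of_surjective π.toLinearMap hπ
    haveI : Module.Finite k B := Module.Finite.of_injective φ hinj
    obtain ⟨d, h⟩ := three_simples k B S hne hall hA hinf
    obtain ⟨d', -, h'⟩ := infBricks_of_corner φ hmul hinj hcorner d h
    exact ⟨d', fun h => absurd h (by decide), infBricks_of_quot π hπ d' h'⟩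

end TB3
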