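import Pool.Agent.LibTB3.C1
import Pool.Agent.LibTB3.R2
import Pool.Agent.LibTB10.C1
/-!
ROW [TB3 G1] MEDIUM.
(cite TB10.chain_exists, R2, C1) the chain between two classes.
PLAN. F, G rigid of classes x, y (exists_class).  TB10.chain_exists F.f G.f with the list of hfin gives l : List Node, IsChain Compat, first node (1,0), last node (0,1).
A node ν gives the presentation with P = (Fin ν.x → F.P) × (Fin ν.y → G.P), Q similar, f = ν.h (projective: TB10.c1_proj), of class ν.x • x + ν.y • y (Cl_pow).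
Compat: Rigid (a.h.prodMap b.h) gives Rigid a.h, Rigid b.h, EE both ways (components), so Cmp of the classes (cmp_iff).
r = l.length - 1, a i = (l.get i).x, b i = (l.get i).y for i ≤ r (0 beyond): IsChain gives the relation for consecutive nodes (`List.isChain_iff_get` or by induction on l with a
generalized statement: for every list l with IsChain Compat, head a₀, last b₀ there are r, a, b ...).
-/
set_option autoImplicit false
universe u
namespace TB3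
open Module TB10

section
variable {k : Type u} [Field k] {A : Type u} [Ring A] [Algebra k A]

/-- the presentation of a node -/
abbrev g1_pres (F G : Pres k A) (ν : Node A F.P F.Q G.P G.Q) : Pres k A where
  P := (Fin ν.x → F.P) × (Fin ν.y → G.P)
  Q := (Fin ν.x → F.Q) × (Fin ν.y → G.Q)
  pP := by
    have h1 := c1_proj A F.P ν.x
    have h2 := c1_proj A G.P ν.y
    infer_instance
  pQ := by
    have h1 := c1_proj A F.Q ν.x
    have h2 := c1_proj A G.Q ν.y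
    infer_instance
  f := ν.h

/-- the four components of rigidity of a direct sum -/
theorem g1_comp {P₁ Q₁ P₂ Q₂ : Type u} [AddCommGroup P₁] [Module A P₁] [AddCommGroup Q₁]
    [Module A Q₁] [AddCommGroup P₂] [Module A P₂] [AddCommGroup Q₂] [Module A Q₂]
    (f : P₁ →ₗ[A] Q₁) (g : P₂ →ₗ[A] Q₂) (h : Rigid (f.prodMap g)) :
    Rigid f ∧ Rigid g ∧ EE f g ∧ EE g f := by
  refine ⟨?_, ?_, ?_, ?_⟩
  · intro m
    obtain ⟨α, β, e⟩ := h (LinearMap.inl A Q₁ Q₂ ∘ₗ m ∘ₗ LinearMap.fst A P₁ P₂)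
    refine ⟨LinearMap.fst A Q₁ Q₂ ∘ₗ α ∘ₗ LinearMap.inl A Q₁ Q₂,
      LinearMap.fst A P₁ P₂ ∘ₗ β ∘ₗ LinearMap.inl A P₁ P₂, ?_⟩
    ext v
    have h1 := congrArg (fun z : (P₁ × P₂) →ₗ[A] (Q₁ × Q₂) => (z (v, 0)).1) e
    simpa using h1
  · intro m
    obtain ⟨α, β, e⟩ := h (LinearMap.inr A Q₁ Q₂ ∘ₗ m ∘ₗ LinearMap.snd A P₁ P₂)
    refine ⟨LinearMap.snd A Q₁ Q₂ ∘ₗ α ∘ₗ LinearMap.inr A Q₁ Q₂,
      LinearMap.snd A P₁ P₂ ∘ₗ β ∘ₗ LinearMap.inr A P₁ P₂, ?_⟩
    ext v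
    have h1 := congrArg (fun z : (P₁ × P₂) →ₗ[A] (Q₁ × Q₂) => (z (0, v)).2) e
    simpa using h1
  · intro m
    obtain ⟨α, β, e⟩ := h (LinearMap.inr A Q₁ Q₂ ∘ₗ m ∘ₗ LinearMap.fst A P₁ P₂)
    refine ⟨LinearMap.snd A Q₁ Q₂ ∘ₗ α ∘ₗ LinearMap.inl A Q₁ Q₂,
      LinearMap.snd A P₁ P₂ ∘ₗ β ∘ₗ LinearMap.inl A P₁ P₂, ?_⟩
    ext v
    have h1 := congrArg (fun z : (P₁ × P₂) →ₗ[A] (Q₁ × Q₂) => (z (v, 0)).2) e
    simpa using h1
  · intro m
    obtain ⟨α, β, e⟩ := h (LinearMap.inl A Q₁ Q₂ ∘ₗ m ∘ₗ LinearMap.snd A P₁ P₂)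
    refine ⟨LinearMap.fst A Q₁ Q₂ ∘ₗ α ∘ₗ LinearMap.inr A Q₁ Q₂,
      LinearMap.fst A P₁ P₂ ∘ₗ β ∘ₗ LinearMap.inr A P₁ P₂, ?_⟩
    ext v
    have h1 := congrArg (fun z : (P₁ × P₂) →ₗ[A] (Q₁ × Q₂) => (z (0, v)).1) e
    simpa using h1

end

section
variable {k : Type u} [Field k] {A : Type u} [Ring A] [Algebra k A]
variable {n : ℕ} {p : Fin n → Submodule A A}
    [Module.Finite k A] [Infinite k]

theorem exists_chain (hp : Bas k p) (hfin : FinB k A) (x y : Fin n → ℤ) :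
    ∃ (r : ℕ) (a b : ℕ → ℕ), a 0 = 1 ∧ b 0 = 0 ∧ a r = 0 ∧ b r = 1 ∧
      ∀ i < r, a i * b (i + 1) = a (i + 1) * b i + 1 ∧
        Cmp k p (a i • x + b i • y) (a (i + 1) • x + b (i + 1) • y) := by
  obtain ⟨F, hF, hx⟩ := exists_class hp hfin x
  obtain ⟨G, hG, hy⟩ := exists_class hp hfin y
  obtain ⟨L, hL⟩ := hfin (2 ^ (ee k F.f G.f + ee k G.f F.f) * (finrank k F.Q + finrank k G.Q))
  obtain ⟨l, -, hch, ⟨ν, hν, hνx, hνy⟩, ⟨μ, hμ, hμx, hμy⟩⟩ := chain_exists F.f G.f hF hG L hL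
  have hlen : 0 < l.length := by
    rcases l with _ | ⟨c, l⟩
    · simp at hν
    · simp
  rw [List.isChain_iff_getElem] at hch
  have h0 : l[0]? = some ν := by rw [← List.head?_eq_getElem?]; exact hν
  have hr : l[l.length - 1]? = some μ := by rw [← List.getLast?_eq_getElem?]; exact hμ
  refine ⟨l.length - 1, fun i => l[i]?.elim 0 Node.x, fun i => l[i]?.elim 0 Node.y, ?_, ?_, ?_, ?_, ?_⟩
  · simp only [h0, Option.elim, hνx]
  · simp only [h0, Option.elim, hνy]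
  · simp only [hr, Option.elim, hμx]
  · simp only [hr, Option.elim, hμy]
  · intro i hi
    have hi1 : i < l.length := by omega
    have hi2 : i + 1 < l.length := by omega
    have e1 : l[i]? = some l[i] := List.getElem?_eq_getElem hi1
    have e2 : l[i + 1]? = some l[i + 1] := List.getElem?_eq_getElem hi2
    simp only [e1, e2, Option.elim]
    obtain ⟨hc, hd⟩ := hch i hi2
    refine ⟨hd, ?_⟩
    obtain ⟨r1, r2, r3, r4⟩ := g1_comp _ _ hc
    exact (cmp_iff (F := g1_pres F G l[i]) (G := g1_pres F G l[i + 1]) r1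
      (fun X => Cl_pow hx hy _ _ X) r2 (fun X => Cl_pow hx hy _ _ X)).2 ⟨r3, r4⟩

end

end TB3
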