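import Pool.Agent.LibTB3.Defs
/-!
ROW [TB3 G2] MEDIUM.
ONLY MATHLIB.  Discrete Sturm comparison along a unimodular chain.
V is an additive commutative group (ℤ^3), f : V → ℕ (psi), z i = a i • x + b i • y.
PLAN. (1) c i with a (i-1) + a (i+1) = c a i and b (i-1) + b (i+1) = c b i for 0 < i < r: subtract the two determinant relations: (a (i-1) + a (i+1)) * b i = a i * (b (i-1) + b (i+1)),
a i, b i coprime (determinant 1), so a i ∣ a (i-1) + a (i+1) (if a i = 0 then b i = 1 by coprimality...: c = b (i-1) + b (i+1)).  So hconv gives c * f (z i) ≤ f (z (i-1)) + f (z (i+1)).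
(2) R i := (f (z i) : ℤ) - a i * f x - b i * f y; R 0 = R r = 0 (a 0 = 1, b 0 = 0 so z 0 = x), c R i ≤ R (i-1) + R (i+1).
(3) W i := R i * a (i+1) - R (i+1) * a i, W i - W (i-1) = R i * (a (i+1) + a (i-1)) - a i (R (i+1) + R (i-1)) ≤ 0 for 0 < i < r, W (r-1) = R (r-1) * 0 - 0 * a (r-1) = 0.  So W i ≥ 0 for all i < r.
(4) a i > 0 for i < r: if a i = 0 with i < r then a i * b (i+1) = 0 = a (i+1) * b i + 1 impossible.  R (i+1) * a i ≤ R i * a (i+1) ≤ 0 by induction so R (i+1) ≤ 0.
(5) (1,1) lies in the cone of consecutive nodes: choose i < r maximal with a i ≥ b i (i = 0 ok: a 0 = 1 ≥ 0 = b 0; a r = 0 < 1 = b r): a (i+1) < b (i+1).  m = b (i+1) - a (i+1) ≥ 0, m' = a i - b i ≥ 0: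
m a i + m' a (i+1) = a i b (i+1) - a (i+1) b i = 1, the same for b.  So x + y = m • z i + m' • z (i+1), f (x + y) = m f (z i) + m' f (z (i+1)) ≤ f x + f y by R ≤ 0.
-/
set_option autoImplicit false
universe u
namespace TB3
open Module TB10

section
variable {k : Type u} [Field k] {A : Type u} [Ring A] [Algebra k A]
theorem sturm {V : Type*} [AddCommGroup V] (f : V → ℕ) (x y : V) (r : ℕ) (a b : ℕ → ℕ)
    (ha0 : a 0 = 1) (hb0 : b 0 = 0) (har : a r = 0) (hbr : b r = 1)
    (hdet : ∀ i < r, a i * b (i + 1) = a (i + 1) * b i + 1)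
    (hadd : ∀ i < r, ∀ m m' : ℕ, f (m • (a i • x + b i • y) + m' • (a (i + 1) • x + b (i + 1) • y)) =
      m * f (a i • x + b i • y) + m' * f (a (i + 1) • x + b (i + 1) • y))
    (hconv : ∀ i, i + 1 < r → ∀ c : ℕ, a i + a (i + 2) = c * a (i + 1) → b i + b (i + 2) = c * b (i + 1) →
      c * f (a (i + 1) • x + b (i + 1) • y) ≤
        f (a i • x + b i • y) + f (a (i + 2) • x + b (i + 2) • y)) :
    f (x + y) ≤ f x + f y := by
  have hapos : ∀ i < r, 0 < a i := by
    intro i hi
    rcases Nat.eq_zero_or_pos (a i) with h | h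
    · have := hdet i hi
      rw [h, zero_mul] at this
      omega
    · exact h
  have hr : 0 < r := by
    rcases Nat.eq_zero_or_pos r with h | h
    · rw [h, ha0] at har
      omega
    · exact h
  have hdetZ : ∀ i < r, (a i : ℤ) * b (i + 1) = a (i + 1) * b i + 1 := by
    intro i hi
    exact_mod_cast hdet i hi
  obtain ⟨R, hR⟩ : ∃ R : ℕ → ℤ, ∀ i, R i = (f (a i • x + b i • y) : ℤ) - a i * f x - b i * f y :=
    ⟨_, fun i => rfl⟩
  have hR0 : R 0 = 0 := by
    rw [hR, ha0, hb0]
    simp
  have hRr : R r = 0 := by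
    rw [hR, har, hbr]
    simp
  have hW : ∀ i, i + 1 < r → R (i + 1) * a (i + 2) - R (i + 2) * a (i + 1) ≤
      R i * a (i + 1) - R (i + 1) * a i := by
    intro i hi
    have h1 := hdet i (by omega)
    have h2 := hdet (i + 1) hi
    have ha1 := hapos (i + 1) hi
    have h3 : (a i + a (i + 2)) * b (i + 1) = a (i + 1) * (b i + b (i + 2)) := by
      have e1 : i + 1 + 1 = i + 2 := rfl
      rw [e1] at h2
      nlinarith [h1, h2]
    have hcop : Nat.Coprime (a (i + 1)) (b (i + 1)) := by
      have h4 : Nat.gcd (a (i + 1)) (b (i + 1)) ∣ 1 := by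
        have d1 : Nat.gcd (a (i + 1)) (b (i + 1)) ∣ a i * b (i + 1) :=
          (Nat.gcd_dvd_right _ _).mul_left _
        have d2 : Nat.gcd (a (i + 1)) (b (i + 1)) ∣ a (i + 1) * b i :=
          (Nat.gcd_dvd_left _ _).mul_right _
        rw [h1] at d1
        exact (Nat.dvd_add_right d2).1 d1
      exact Nat.dvd_one.1 h4
    have hd : a (i + 1) ∣ a i + a (i + 2) :=
      hcop.dvd_of_dvd_mul_right (Dvd.intro _ h3.symm)
    obtain ⟨c, hc⟩ := hd
    have hc' : a i + a (i + 2) = c * a (i + 1) := by rw [hc, mul_comm]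
    have hcb : b i + b (i + 2) = c * b (i + 1) := by
      rw [hc'] at h3
      have h5 : a (i + 1) * (c * b (i + 1)) = a (i + 1) * (b i + b (i + 2)) := by
        rw [← h3]; ring
      exact (Nat.eq_of_mul_eq_mul_left ha1 h5).symm
    have h6 := hconv i hi c hc' hcb
    have h6Z : (c : ℤ) * f (a (i + 1) • x + b (i + 1) • y) ≤
        f (a i • x + b i • y) + f (a (i + 2) • x + b (i + 2) • y) := by
      exact_mod_cast h6
    have hcZ : (a i : ℤ) + a (i + 2) = c * a (i + 1) := by exact_mod_cast hc'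
    have hcbZ : (b i : ℤ) + b (i + 2) = c * b (i + 1) := by exact_mod_cast hcb
    have h7 : (c : ℤ) * R (i + 1) ≤ R i + R (i + 2) := by
      rw [hR, hR, hR]
      linear_combination h6Z + (f x : ℤ) * hcZ + (f y : ℤ) * hcbZ
    have ha1Z : (0 : ℤ) ≤ a (i + 1) := by positivity
    have h8 := mul_le_mul_of_nonneg_left h7 ha1Z
    linear_combination h8 + R (i + 1) * hcZ
  have hW0 : ∀ j, ∀ i, i + 1 + j = r → 0 ≤ R i * a (i + 1) - R (i + 1) * a i := by
    intro j
    induction j with
    | zero =>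
      intro i hi
      have hi' : i + 1 = r := by omega
      rw [hi', hRr, har]
      simp
    | succ j ih =>
      intro i hi
      have h1 := ih (i + 1) (by omega)
      have h2 := hW i (by omega)
      exact h1.trans h2
  have hRle : ∀ i, i ≤ r → R i ≤ 0 := by
    intro i
    induction i with
    | zero =>
      intro _
      rw [hR0]
    | succ i ih =>
      intro hi
      have h1 := hW0 (r - (i + 1)) i (by omega)
      have h2 := ih (by omega)
      have h3 : (0 : ℤ) < a i := by exact_mod_cast hapos i (by omega)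
      have h4 : (0 : ℤ) ≤ a (i + 1) := by positivity
      by_contra h5
      push Not at h5
      nlinarith [mul_pos h5 h3, mul_nonneg h4 (neg_nonneg.2 h2)]
  obtain ⟨i, hir, hi1, hi2⟩ : ∃ i, i < r ∧ b i ≤ a i ∧ a (i + 1) < b (i + 1) := by
    classical
    have hex : ∃ j, a j < b j := ⟨r, by rw [har, hbr]; omega⟩
    obtain ⟨j, hj, hjm⟩ : ∃ j, a j < b j ∧ ∀ j' < j, ¬ a j' < b j' :=
      ⟨Nat.find hex, Nat.find_spec hex, fun j' h => Nat.find_min hex h⟩
    have hj0 : j ≠ 0 := by
      rintro rfl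
      rw [ha0, hb0] at hj
      omega
    obtain ⟨i, rfl⟩ := Nat.exists_eq_succ_of_ne_zero hj0
    have hjr : i + 1 ≤ r := by
      by_contra h
      exact hjm r (by omega) (by rw [har, hbr]; omega)
    exact ⟨i, by omega, by have := hjm i (by omega); omega, hj⟩
  have h1 := hadd i hir (b (i + 1) - a (i + 1)) (a i - b i)
  have e1 : (b (i + 1) - a (i + 1)) * a i + (a i - b i) * a (i + 1) = 1 := by
    zify [hi2.le, hi1]
    linear_combination hdetZ i hir
  have e2 : (b (i + 1) - a (i + 1)) * b i + (a i - b i) * b (i + 1) = 1 := by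
    zify [hi2.le, hi1]
    linear_combination hdetZ i hir
  have e3 : (b (i + 1) - a (i + 1)) • (a i • x + b i • y) +
      (a i - b i) • (a (i + 1) • x + b (i + 1) • y) = x + y := by
    have : (b (i + 1) - a (i + 1)) • (a i • x + b i • y) +
        (a i - b i) • (a (i + 1) • x + b (i + 1) • y) =
        ((b (i + 1) - a (i + 1)) * a i + (a i - b i) * a (i + 1)) • x +
        ((b (i + 1) - a (i + 1)) * b i + (a i - b i) * b (i + 1)) • y := by
      simp only [smul_add, add_smul, mul_smul]
      abel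
    rw [this, e1, e2, one_smul, one_smul]
  rw [e3] at h1
  rw [h1]
  have g1 := hRle i hir.le
  have g2 := hRle (i + 1) hir
  rw [hR] at g1 g2
  have g1' : f (a i • x + b i • y) ≤ a i * f x + b i * f y := by
    zify
    linarith
  have g2' : f (a (i + 1) • x + b (i + 1) • y) ≤ a (i + 1) * f x + b (i + 1) * f y := by
    zify
    linarith
  calc (b (i + 1) - a (i + 1)) * f (a i • x + b i • y) +
        (a i - b i) * f (a (i + 1) • x + b (i + 1) • y)
      ≤ (b (i + 1) - a (i + 1)) * (a i * f x + b i * f y) +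
        (a i - b i) * (a (i + 1) * f x + b (i + 1) * f y) :=
        add_le_add (Nat.mul_le_mul_left _ g1') (Nat.mul_le_mul_left _ g2')
    _ = ((b (i + 1) - a (i + 1)) * a i + (a i - b i) * a (i + 1)) * f x +
        ((b (i + 1) - a (i + 1)) * b i + (a i - b i) * b (i + 1)) * f y := by ring
    _ = f x + f y := by rw [e1, e2, one_mul, one_mul]

end

end TB3
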