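import Pool.Agent.LibTB3.Defs
/-!
ROW [TB3 H0] MEDIUM.
ONLY MATHLIB (plus Defs for the notation).  Integer linear algebra.
PLAN. coords_unique: n vectors which span ℤ^n are a basis (surjective endomorphism of a finite free module over ℤ is injective: `OrzechProperty`,
`Module.Finite.injective_of_surjective_endomorphism`-like: the map c ↦ ∑ c i • t i is a surjective endomorphism of Fin n → ℤ).
card_eq: a finite set s ⊆ ℤ^n which spans and is linearly independent in the form for w ∈ s there is a functional f_w : ℤ^n → ℤ with f_w w ≠ 0 and f_w v = 0 for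
v ∈ s, v ≠ w has n elements: linear independence, `Basis.mk`, `Basis.indexEquiv`/`Module.finrank_eq_card_basis`; then t : Fin n ≃ s.
indep_le: x, y_1, ..., y_m are linearly independent, so m + 1 ≤ n (`LinearIndependent.fintype_card_le_finrank`).
-/
set_option autoImplicit false
universe u
namespace TB3
open Module TB10

section
variable {k : Type u} [Field k] {A : Type u} [Ring A] [Algebra k A]
theorem coords_unique {n : ℕ} (t : Fin n → Fin n → ℤ)
    (ht : ∀ u : Fin n → ℤ, ∃ c : Fin n → ℤ, u = ∑ i, c i • t i) (c c' : Fin n → ℤ)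
    (h : ∑ i, c i • t i = ∑ i, c' i • t i) : c = c' := by
  have hsurj : Function.Surjective (Fintype.linearCombination ℤ t) := by
    intro u
    obtain ⟨c, hc⟩ := ht u
    exact ⟨c, by rw [Fintype.linearCombination_apply, hc]⟩
  have hinj := OrzechProperty.injective_of_surjective_endomorphism _ hsurj
  apply hinj
  rw [Fintype.linearCombination_apply, Fintype.linearCombination_apply]
  exact h

theorem exists_enum {n : ℕ} (s : Finset (Fin n → ℤ))
    (hs : ∀ u : Fin n → ℤ, u ∈ Submodule.span ℤ (s : Set (Fin n → ℤ)))
    (hf : ∀ w ∈ s, ∃ f : (Fin n → ℤ) →ₗ[ℤ] ℤ, f w ≠ 0 ∧ ∀ v ∈ s, v ≠ w → f v = 0) :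
    ∃ t : Fin n → Fin n → ℤ, Function.Injective t ∧ (∀ v, v ∈ s ↔ ∃ i, v = t i) ∧
      ∀ u : Fin n → ℤ, ∃ c : Fin n → ℤ, u = ∑ i, c i • t i := by
  classical
  have hli : LinearIndependent ℤ (fun v : s => (v : Fin n → ℤ)) := by
    rw [Fintype.linearIndependent_iff]
    intro g hg w
    obtain ⟨f, hf1, hf2⟩ := hf w w.2
    have h1 := congrArg f hg
    rw [map_sum, map_zero, Finset.sum_eq_single w] at h1
    · rw [map_smul, smul_eq_mul] at h1
      exact (mul_eq_zero.1 h1).resolve_right hf1
    · intro v _ hv
      rw [map_smul, hf2 v v.2 (fun h => hv (Subtype.ext h)), smul_zero]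
    · intro h
      exact absurd (Finset.mem_univ w) h
  have hrange : Set.range (fun v : s => (v : Fin n → ℤ)) = (s : Set (Fin n → ℤ)) := by
    ext v
    simp
  have hsp : ⊤ ≤ Submodule.span ℤ (Set.range (fun v : s => (v : Fin n → ℤ))) := by
    intro u _
    rw [hrange]
    exact hs u
  have hcard : s.card = n := by
    have h1 := Module.finrank_eq_card_basis (Basis.mk hli hsp)
    rw [Module.finrank_fin_fun, Fintype.card_coe] at h1
    exact h1.symm
  let e : Fin n ≃ s := (s.equivFinOfCardEq hcard).symm
  refine ⟨fun i => (e i : Fin n → ℤ), ?_, ?_, ?_⟩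
  · intro i j hij
    exact e.injective (Subtype.ext hij)
  · intro v
    constructor
    · intro hv
      exact ⟨e.symm ⟨v, hv⟩, by simp⟩
    · rintro ⟨i, rfl⟩
      exact (e i).2
  · intro u
    have h1 : Set.range (fun i => (e i : Fin n → ℤ)) = (s : Set (Fin n → ℤ)) := by
      ext v
      constructor
      · rintro ⟨i, rfl⟩
        exact (e i).2
      · intro hv
        exact ⟨e.symm ⟨v, hv⟩, by simp⟩
    have h2 := hs u
    rw [← h1, Submodule.mem_span_range_iff_exists_fun] at h2
    obtain ⟨c, hc⟩ := h2
    exact ⟨c, hc.symm⟩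

theorem indep_le {n m : ℕ} (v y : Fin m → Fin n → ℤ)
    (h : ∀ i j, ∑ l, y i l * v j l = if i = j then 1 else 0) (x : Fin n → ℤ) (hx : x ≠ 0)
    (h0 : ∀ j, ∑ l, x l * v j l = 0) : m + 1 ≤ n := by
  classical
  let z : Option (Fin m) → Fin n → ℤ := fun o => Option.elim o x y
  have hli : LinearIndependent ℤ z := by
    rw [Fintype.linearIndependent_iff]
    intro g hg
    have hg' : g none • x + ∑ i, g (some i) • y i = 0 := by
      rw [Fintype.sum_option] at hg
      exact hg
    have hsome : ∀ j, g (some j) = 0 := by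
      intro j
      have h1 : ∑ l, (g none • x + ∑ i, g (some i) • y i) l * v j l = 0 := by
        rw [hg']
        simp
      have h2 : ∀ l, (g none • x + ∑ i, g (some i) • y i) l * v j l =
          g none * (x l * v j l) + ∑ i, g (some i) * (y i l * v j l) := by
        intro l
        rw [Pi.add_apply, Finset.sum_apply, add_mul, Finset.sum_mul]
        simp only [Pi.smul_apply, smul_eq_mul, mul_assoc]
      rw [Finset.sum_congr rfl fun l _ => h2 l, Finset.sum_add_distrib, ← Finset.mul_sum, h0 j,
        mul_zero, zero_add, Finset.sum_comm] at h1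
      rw [Finset.sum_congr rfl fun i _ => (Finset.mul_sum _ _ _).symm] at h1
      simp only [h] at h1
      simpa using h1
    intro o
    rcases o with _ | i
    · have h3 : g none • x = 0 := by
        have h4 : ∑ i, g (some i) • y i = 0 :=
          Finset.sum_eq_zero fun i _ => by rw [hsome i, zero_smul]
        rw [h4, add_zero] at hg'
        exact hg'
      exact (smul_eq_zero.1 h3).resolve_right hx
    · exact hsome i
  have h5 := hli.fintype_card_le_finrank
  rw [Fintype.card_option, Fintype.card_fin, Module.finrank_fin_fun] at h5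
  exact h5

end

end TB3
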