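import Pool.Agent.LibTB3.H3
import Pool.Agent.LibTB3.H0
/-!
ROW [TB3 H4] MEDIUM.
(cite D7, H0, H3) the function psi.
PLAN. psi_eq: the set in the definition is {∑ c i}: if ∑ c i • t i = ∑ c' i • t' i with two chambers then for c i > 0: Sbo (t i) z (sum_Sbo), so t i = t' j with c' j > 0
(mem_of_sbo_sum), and conversely; this gives a bijection of {i | 0 < c i} with {j | 0 < c' j} (both t, t' injective), and ∑ c i • t i = ∑ c' j • t' j expressed in
the basis t gives c i = c' j (coords_unique).  So the sums agree.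
psi_add: exists_chm_two, (c + c').  psi_smul: exists_chm.  psi_pos: exists_chm, x ≠ 0 so some c i > 0.  psi_prm: exists_chm x, x = ∑ c i • t i, prm_of_sum: = t i,
coords_unique: c = Pi.single i 1.
prm_single: the presentation 0 → p i (F.P = PUnit, F.Q = p i): LocP by hp.loc i (β = 0 is nilpotent and bijective), rigid (maps from PUnit are 0), class: finrank Hom(PUnit,X) = 0.
p i → 0: class -e_i, Rigid since F.Q = PUnit.  For Loc use finiteness: p i nontrivial is not needed.
-/
set_option autoImplicit false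
universe u
namespace TB3
open Module TB10

section
variable {k : Type u} [Field k] {A : Type u} [Ring A] [Algebra k A]
variable {n : ℕ} {p : Fin n → Submodule A A}
    [Module.Finite k A] [Infinite k] [IsAlgClosed k] (hp : Bas k p) (hfin : FinB k A)

include hp hfin

omit [Module.Finite k A] [Infinite k] [IsAlgClosed k] hp hfin in
private theorem h4_reindex {M : Type*} [AddCommMonoid M] {t t' : Fin n → Fin n → ℤ}
    (hi : Function.Injective t) (hi' : Function.Injective t') {c c' : Fin n → ℕ}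
    {σ τ : Fin n → Fin n} (hσ : ∀ i, 0 < c i → 0 < c' (σ i) ∧ t i = t' (σ i))
    (hτ : ∀ j, 0 < c' j → 0 < c (τ j) ∧ t' j = t (τ j)) (g : Fin n → M)
    (hg : ∀ j, c' j = 0 → g j = 0) :
    ∑ j, g j = ∑ i, if 0 < c i then g (σ i) else 0 := by
  classical
  have h1 : ∑ j, g j = ∑ j ∈ Finset.univ.filter (fun j => 0 < c' j), g j := by
    rw [Finset.sum_filter]
    refine Finset.sum_congr rfl fun j _ => ?_
    by_cases h : 0 < c' j
    · rw [if_pos h]
    · rw [if_neg h, hg j (by omega)]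
  rw [h1, ← Finset.sum_filter]
  symm
  refine Finset.sum_nbij' σ τ ?_ ?_ ?_ ?_ ?_
  · intro i h
    rw [Finset.mem_filter] at h ⊢
    exact ⟨Finset.mem_univ _, (hσ i h.2).1⟩
  · intro j h
    rw [Finset.mem_filter] at h ⊢
    exact ⟨Finset.mem_univ _, (hτ j h.2).1⟩
  · intro i h
    rw [Finset.mem_filter] at h
    obtain ⟨h2, h3⟩ := hσ i h.2
    exact hi ((hτ _ h2).2.symm.trans h3.symm)
  · intro j h
    rw [Finset.mem_filter] at h
    obtain ⟨h2, h3⟩ := hτ j h.2
    exact hi' ((hσ _ h2).2.symm.trans h3.symm)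
  · intro i _
    rfl

omit [IsAlgClosed k] in
private theorem h4_match {t t' : Fin n → Fin n → ℤ} (ht : Chm k p t) (ht' : Chm k p t')
    (c c' : Fin n → ℕ) (h : ∑ i, c i • t i = ∑ i, c' i • t' i) :
    ∃ σ : Fin n → Fin n, ∀ i, 0 < c i → 0 < c' (σ i) ∧ t i = t' (σ i) := by
  have h1 : ∀ i, ∃ j, 0 < c i → 0 < c' j ∧ t i = t' j := by
    intro i
    by_cases hi : 0 < c i
    · have h2 := sum_Sbo hp hfin t ht.cmp c i hi
      rw [h] at h2
      obtain ⟨j, h3, h4⟩ := mem_of_sbo_sum hp hfin t' ht'.cmp ht'.prm c' (ht.prm i) h2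
      exact ⟨j, fun _ => ⟨h3, h4⟩⟩
    · exact ⟨i, fun h2 => absurd h2 hi⟩
  choose σ hσ using h1
  exact ⟨σ, hσ⟩

omit [IsAlgClosed k] in
private theorem h4_sum {t t' : Fin n → Fin n → ℤ} (ht : Chm k p t) (ht' : Chm k p t')
    (c c' : Fin n → ℕ) (h : ∑ i, c i • t i = ∑ i, c' i • t' i) : ∑ i, c i = ∑ i, c' i := by
  classical
  obtain ⟨σ, hσ⟩ := h4_match hp hfin ht ht' c c' h
  obtain ⟨τ, hτ⟩ := h4_match hp hfin ht' ht c' c h.symm
  have h1 := h4_reindex ht.inj ht'.inj hσ hτ (fun j => c' j • t' j) fun j hj => by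
    rw [hj, zero_smul]
  have h2 := h4_reindex ht.inj ht'.inj hσ hτ c' fun j hj => hj
  have h3 : ∑ i, (c i : ℤ) • t i = ∑ i, ((if 0 < c i then c' (σ i) else 0 : ℕ) : ℤ) • t i := by
    simp only [natCast_zsmul]
    rw [h, h1]
    refine Finset.sum_congr rfl fun i _ => ?_
    by_cases hi : 0 < c i
    · rw [if_pos hi, if_pos hi, (hσ i hi).2]
    · rw [if_neg hi, if_neg hi, zero_smul]
  have h4 := coords_unique t ht.span _ _ h3
  rw [h2]
  refine Finset.sum_congr rfl fun i _ => ?_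
  have h5 := congrFun h4 i
  exact_mod_cast h5

theorem psi_eq {t : Fin n → Fin n → ℤ} (ht : Chm k p t) (c : Fin n → ℕ) :
    psi k p (∑ i, c i • t i) = ∑ i, c i := by
  unfold psi
  have h1 : {m | ∃ (t' : Fin n → Fin n → ℤ) (c' : Fin n → ℕ), Chm k p t' ∧
      ∑ i, c i • t i = ∑ i, c' i • t' i ∧ m = ∑ i, c' i} = {∑ i, c i} := by
    ext m
    rw [Set.mem_singleton_iff]
    constructor
    · rintro ⟨t', c', ht', h2, rfl⟩
      exact (h4_sum hp hfin ht ht' c c' h2).symm
    · rintro rfl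
      exact ⟨t, c, ht, rfl, rfl⟩
  rw [h1, csInf_singleton]

theorem psi_add {x y : Fin n → ℤ} (h : Cmp k p x y) : psi k p (x + y) = psi k p x + psi k p y := by
  obtain ⟨t, c, c', ht, rfl, rfl⟩ := exists_chm_two hp hfin h
  have h1 : ∑ i, c i • t i + ∑ i, c' i • t i = ∑ i, (c i + c' i) • t i := by
    rw [← Finset.sum_add_distrib]
    exact Finset.sum_congr rfl fun i _ => (add_smul _ _ _).symm
  rw [h1, psi_eq hp hfin ht, psi_eq hp hfin ht, psi_eq hp hfin ht, Finset.sum_add_distrib]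

theorem psi_smul (m : ℕ) (x : Fin n → ℤ) : psi k p (m • x) = m * psi k p x := by
  obtain ⟨t, c, ht, rfl⟩ := exists_chm hp hfin x
  have h1 : m • ∑ i, c i • t i = ∑ i, (m * c i) • t i := by
    rw [Finset.smul_sum]
    exact Finset.sum_congr rfl fun i _ => smul_smul _ _ _
  rw [h1, psi_eq hp hfin ht, psi_eq hp hfin ht, Finset.mul_sum]

theorem psi_zero : psi k p (0 : Fin n → ℤ) = 0 := by
  have h := psi_smul hp hfin 0 (0 : Fin n → ℤ)
  rwa [zero_smul, zero_mul] at h

theorem psi_pos {x : Fin n → ℤ} (hx : x ≠ 0) : 1 ≤ psi k p x := by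
  obtain ⟨t, c, ht, rfl⟩ := exists_chm hp hfin x
  rw [psi_eq hp hfin ht]
  by_contra hcon
  apply hx
  have h1 : ∑ i, c i = 0 := by omega
  rw [Finset.sum_eq_zero_iff] at h1
  refine Finset.sum_eq_zero fun i hi => ?_
  rw [h1 i hi, zero_smul]

theorem psi_prm {x : Fin n → ℤ} (hx : Prm k p x) : psi k p x = 1 := by
  classical
  obtain ⟨t, c, ht, rfl⟩ := exists_chm hp hfin x
  obtain ⟨i, -, h1⟩ := prm_of_sum hp hfin t ht.cmp ht.prm c hx
  have h2 : t i = ∑ j, (Pi.single i 1 : Fin n → ℕ) j • t j := by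
    rw [Finset.sum_eq_single i]
    · rw [Pi.single_eq_same, one_smul]
    · intro j _ hj
      rw [Pi.single_eq_of_ne hj, zero_smul]
    · intro h
      exact absurd (Finset.mem_univ i) h
  rw [h1, h2, psi_eq hp hfin ht, Finset.sum_eq_single i]
  · rw [Pi.single_eq_same]
  · intro j _ hj
    rw [Pi.single_eq_of_ne hj]
  · intro h
    exact absurd (Finset.mem_univ i) h

omit [Module.Finite k A] [Infinite k] [IsAlgClosed k] hp hfin in
private theorem h4_br (X : Type u) [AddCommGroup X] [Module A X] [Module k X]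
    [IsScalarTower k A X] (i : Fin n) :
    br k p (Pi.single i 1) X = (finrank k (p i →ₗ[A] X) : ℤ) := by
  classical
  unfold br
  rw [Finset.sum_eq_single i]
  · rw [Pi.single_eq_same, one_mul]
  · intro j _ hj
    rw [Pi.single_eq_of_ne hj, zero_mul]
  · intro h
    exact absurd (Finset.mem_univ i) h

omit [Infinite k] [IsAlgClosed k] hfin in
theorem prm_single (i : Fin n) : Prm k p (Pi.single i 1) := by
  have := hp.proj i
  refine ⟨?_, { P := PUnit.{u+1}, Q := p i, f := 0 }, ?_, ?_, ?_⟩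
  · intro h
    have := congrFun h i
    rw [Pi.single_eq_same] at this
    exact one_ne_zero this
  · intro h
    exact ⟨0, 0, Subsingleton.elim _ _⟩
  · intro α β _
    rcases hp.loc i α with h | h
    · exact Or.inl ⟨h, 1, Subsingleton.elim _ _⟩
    · exact Or.inr ⟨h, fun _ _ _ => Subsingleton.elim _ _, fun y => ⟨y, Subsingleton.elim _ _⟩⟩
  · intro X _ _ _ _ _
    rw [h4_br]
    have h1 : finrank k (PUnit.{u+1} →ₗ[A] X) = 0 := finrank_zero_of_subsingleton
    show (finrank k (p i →ₗ[A] X) : ℤ) = (finrank k (PUnit.{u+1} →ₗ[A] X) : ℤ) + _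
    rw [h1]
    simp

omit [Infinite k] [IsAlgClosed k] hfin in
theorem prm_neg_single (i : Fin n) : Prm k p (-(Pi.single i 1)) := by
  have := hp.proj i
  refine ⟨?_, { P := p i, Q := PUnit.{u+1}, f := 0 }, ?_, ?_, ?_⟩
  · intro h
    have := congrFun h i
    rw [Pi.neg_apply, Pi.single_eq_same] at this
    exact absurd this (by norm_num)
  · intro h
    exact ⟨0, 0, Subsingleton.elim _ _⟩
  · intro α β _
    rcases hp.loc i β with h | h
    · exact Or.inl ⟨⟨1, Subsingleton.elim _ _⟩, h⟩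
    · exact Or.inr ⟨⟨fun _ _ _ => Subsingleton.elim _ _, fun y => ⟨y, Subsingleton.elim _ _⟩⟩, h⟩
  · intro X _ _ _ _ _
    rw [br_neg_left, h4_br]
    have h1 : finrank k (PUnit.{u+1} →ₗ[A] X) = 0 := finrank_zero_of_subsingleton
    show (finrank k (PUnit.{u+1} →ₗ[A] X) : ℤ) = (finrank k (p i →ₗ[A] X) : ℤ) + _
    rw [h1]
    simp

end

end TB3
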