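import Pool.Agent.LibTB3.S10
import Pool.Agent.LibTB3.H4
/-!
ROW [TB3 S11] MEDIUM.
(cite D7, H0, H3, H4, S6, S10) n = 3: local convexity of psi.
PLAN. exists_chm_two for Cmp a y: chamber t', a = ∑ c' i • t' i, y = ∑ m i • t' i, psi y = ∑ m i (psi_eq).  a ≠ 0: some c i > 0; x = t i: Sbo x a (sum_Sbo), so x = t' j with c' j > 0
(mem_of_sbo_sum).  So every member t' l is compatible with x; by llp (after a permutation bringing i to position 0: Chm.perm; coordinates in the basis t) the sum of the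
coordinates f l of t' l in the basis t is ≤ 1.  y = ∑ m l • t' l so e = ∑ m l • f l (coords_unique), ∑ e i = ∑ m l * (∑ f l i) ≤ ∑ m l = psi y.
-/
set_option autoImplicit false
universe u
namespace TB3
open Module TB10

section
variable {k : Type u} [Field k] {A : Type u} [Ring A] [Algebra k A]
variable {p : Fin 3 → Submodule A A} [Module.Finite k A] [Infinite k] [IsAlgClosed k]
    (hp : Bas k p) (hfin : FinB k A)

include hp hfin

theorem local_convex (hA : NSE k p) {t : Fin 3 → Fin 3 → ℤ} (ht : Chm k p t) (c : Fin 3 → ℕ)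
    (h0 : ∑ i, c i • t i ≠ 0) {y : Fin 3 → ℤ} (hy : Cmp k p (∑ i, c i • t i) y) (e : Fin 3 → ℤ)
    (he : y = ∑ i, e i • t i) : ∑ i, e i ≤ (psi k p y : ℤ) := by
  obtain ⟨t', c', m, ht', hc', hm⟩ := exists_chm_two hp hfin hy
  have hpsi : psi k p y = ∑ i, m i := by rw [hm]; exact psi_eq hp hfin ht' m
  -- a positive coefficient
  have hpos : ∃ i, 0 < c i := by
    by_contra hcon
    push Not at hcon
    apply h0
    refine Finset.sum_eq_zero fun i _ => ?_
    have : c i = 0 := Nat.le_zero.1 (hcon i)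
    rw [this, zero_smul]
  obtain ⟨i, hi⟩ := hpos
  have hS : Sbo k p (t i) (∑ i, c' i • t' i) := by
    rw [← hc']
    exact sum_Sbo hp hfin t ht.cmp c i hi
  obtain ⟨j, _, hj⟩ := mem_of_sbo_sum hp hfin t' ht'.cmp ht'.prm c' (ht.prm i) hS
  have hcmp : ∀ l, Cmp k p (t i) (t' l) := fun l => hj ▸ ht'.cmp j l
  choose f hf using fun l => ht.span (t' l)
  have hle : ∀ l, ∑ s, f l s ≤ 1 := by
    intro l
    have hσ := Chm.perm ht (Equiv.swap 0 i)
    have hfun : (t ∘ (Equiv.swap 0 i)) = ![t (Equiv.swap 0 i 0), t (Equiv.swap 0 i 1),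
        t (Equiv.swap 0 i 2)] := by
      funext s
      fin_cases s <;> rfl
    rw [hfun] at hσ
    have hx0 : Equiv.swap (0 : Fin 3) i 0 = i := Equiv.swap_apply_left 0 i
    have h1 := llp hp hfin hA hσ (ht'.prm l) (by rw [hx0]; exact hcmp l)
      (fun s => f l (Equiv.swap 0 i s)) (by
        rw [hf l, ← Equiv.sum_comp (Equiv.swap 0 i) (fun s => f l s • t s), Fin.sum_univ_three])
    rw [← Equiv.sum_comp (Equiv.swap 0 i) (fun s => f l s), Fin.sum_univ_three]
    exact h1
  have heq : e = fun s => ∑ l, (m l : ℤ) * f l s := by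
    refine coords_unique t ht.span _ _ ?_
    rw [← he, hm]
    have h2 : ∀ l, m l • t' l = ∑ s, ((m l : ℤ) * f l s) • t s := by
      intro l
      rw [← natCast_zsmul (t' l) (m l), hf l, Finset.smul_sum]
      exact Finset.sum_congr rfl fun s _ => smul_smul _ _ _
    rw [Finset.sum_congr rfl fun l _ => h2 l, Finset.sum_comm]
    exact Finset.sum_congr rfl fun s _ => (Finset.sum_smul).symm
  rw [heq, hpsi, Finset.sum_comm]
  push_cast
  refine Finset.sum_le_sum fun l _ => ?_
  rw [← Finset.mul_sum]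
  have h3 : (0 : ℤ) ≤ m l := Int.natCast_nonneg _
  nlinarith [hle l]

end

end TB3
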