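import Pool.Agent.LibTB3.G1
import Pool.Agent.LibTB3.G2
import Pool.Agent.LibTB3.S11
/-!
ROW [TB3 G3] MEDIUM.
(cite C2, H3, H4, S11, G1, G2) n = 3: psi is subadditive.
PLAN. exists_chain x y and sturm.  hadd: psi_add and psi_smul with Cmp (m • z_i) (m' • z_(i+1)) (Cmp.smul, Cmp.symm).
hconv: z = z (i+1).  If z = 0: psi 0 = 0 (psi_zero).  Otherwise exists_chm z: chamber t, z = ∑ c' j • t j; z i and z (i+2) are compatible with z; coordinates e, e' of z i and z (i+2) in the basis t
(Chm.span); z i + z (i+2) = c • z so e + e' = c • c' (coords_unique); c * psi z = c * ∑ c' j = ∑ e j + ∑ e' j ≤ psi (z i) + psi (z (i+2)) (psi_eq, local_convex).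
psi_le: psi x ≤ ∑ |x i| (psi_prm with prm_single, prm_neg_single, psi_smul, subadditivity; x = ∑ x i • e_i).
-/
set_option autoImplicit false
universe u
namespace TB3
open Module TB10

section
variable {k : Type u} [Field k] {A : Type u} [Ring A] [Algebra k A]
variable {p : Fin 3 → Submodule A A} [Module.Finite k A] [Infinite k] [IsAlgClosed k]
    (hp : Bas k p) (hfin : FinB k A)

include hp hfin

theorem psi_subadd (hA : NSE k p) (x y : Fin 3 → ℤ) : psi k p (x + y) ≤ psi k p x + psi k p y := by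
  obtain ⟨r, a, b, ha0, hb0, har, hbr, hch⟩ := exists_chain hp hfin x y
  refine sturm (psi k p) x y r a b ha0 hb0 har hbr (fun i hi => (hch i hi).1) ?_ ?_
  · intro i hi m m'
    have h1 : Cmp k p (m • (a i • x + b i • y)) (m' • (a (i + 1) • x + b (i + 1) • y)) :=
      (((hch i hi).2.smul m).symm.smul m').symm
    rw [psi_add hp hfin h1, psi_smul hp hfin, psi_smul hp hfin]
  · intro i hi c hca hcb
    have hi1 : i < r := by omega
    have c1 := (hch i hi1).2
    have c2 := (hch (i + 1) hi).2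
    have hc2a : i + 1 + 1 = i + 2 := rfl
    rw [hc2a] at c2
    set z : Fin 3 → ℤ := a (i + 1) • x + b (i + 1) • y with hz
    set z₁ : Fin 3 → ℤ := a i • x + b i • y with hz₁
    set z₂ : Fin 3 → ℤ := a (i + 2) • x + b (i + 2) • y with hz₂
    have hsum : z₁ + z₂ = c • z := by
      have e1 : z₁ + z₂ = (a i + a (i + 2)) • x + (b i + b (i + 2)) • y := by
        rw [hz₁, hz₂, add_smul, add_smul]
        abel
      rw [e1, hca, hcb, hz, smul_add, mul_smul, mul_smul]
    by_cases h0 : z = 0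
    · rw [h0, psi_zero hp hfin, mul_zero]
      exact Nat.zero_le _
    · obtain ⟨t, c', ht, hzt⟩ := exists_chm hp hfin z
      obtain ⟨e₁, he₁⟩ := ht.span z₁
      obtain ⟨e₂, he₂⟩ := ht.span z₂
      have hne : ∑ j, c' j • t j ≠ 0 := by
        rw [← hzt]
        exact h0
      have k1 : Cmp k p (∑ j, c' j • t j) z₁ := by
        rw [← hzt]
        exact c1.symm
      have k2 : Cmp k p (∑ j, c' j • t j) z₂ := by
        rw [← hzt]
        exact c2
      have l1 := local_convex hp hfin hA ht c' hne k1 e₁ he₁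
      have l2 := local_convex hp hfin hA ht c' hne k2 e₂ he₂
      have hpz : psi k p z = ∑ j, c' j := by
        rw [hzt]
        exact psi_eq hp hfin ht c'
      have hco : (fun j => e₁ j + e₂ j) = fun j => ((c * c' j : ℕ) : ℤ) := by
        apply coords_unique t ht.span
        have e3 : ∑ j, (e₁ j + e₂ j) • t j = z₁ + z₂ := by
          rw [he₁, he₂, ← Finset.sum_add_distrib]
          exact Finset.sum_congr rfl fun j _ => add_smul _ _ _
        rw [e3, hsum, hzt, Finset.smul_sum]
        refine Finset.sum_congr rfl fun j _ => ?_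
        rw [smul_smul, natCast_zsmul]
      have hs : ∑ j, e₁ j + ∑ j, e₂ j = ((c * psi k p z : ℕ) : ℤ) := by
        rw [hpz, ← Finset.sum_add_distrib]
        calc ∑ j, (e₁ j + e₂ j) = ∑ j, ((c * c' j : ℕ) : ℤ) :=
              Finset.sum_congr rfl fun j _ => congrFun hco j
          _ = ((c * ∑ j, c' j : ℕ) : ℤ) := by
              rw [Finset.mul_sum, Nat.cast_sum]
      have hle : ((c * psi k p z : ℕ) : ℤ) ≤ ((psi k p z₁ + psi k p z₂ : ℕ) : ℤ) := by
        rw [← hs, Nat.cast_add]
        exact add_le_add l1 l2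
      exact_mod_cast hle

theorem g3_single (i : Fin 3) (m : ℤ) :
    (psi k p (Pi.single i m : Fin 3 → ℤ) : ℤ) = |m| := by
  rcases le_total 0 m with h | h
  · obtain ⟨s, rfl⟩ := Int.eq_ofNat_of_zero_le h
    have e : (Pi.single i (s : ℤ) : Fin 3 → ℤ) = s • (Pi.single i 1 : Fin 3 → ℤ) := by
      rw [← Pi.single_smul]
      simp
    rw [e, psi_smul hp hfin, psi_prm hp hfin (prm_single hp i), mul_one, abs_of_nonneg h]
  · obtain ⟨s, hs⟩ := Int.eq_ofNat_of_zero_le (neg_nonneg.2 h)
    have hm : m = -(s : ℤ) := by omega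
    subst hm
    have e : (Pi.single i (-(s : ℤ)) : Fin 3 → ℤ) = s • (-(Pi.single i 1) : Fin 3 → ℤ) := by
      rw [smul_neg, ← Pi.single_smul, ← Pi.single_neg]
      simp
    rw [e, psi_smul hp hfin, psi_prm hp hfin (prm_neg_single hp i), mul_one, abs_neg,
      abs_of_nonneg (Int.natCast_nonneg s)]

theorem psi_le (hA : NSE k p) (x : Fin 3 → ℤ) : (psi k p x : ℤ) ≤ ∑ i, |x i| := by
  have hx : x = (Pi.single 0 (x 0) + Pi.single 1 (x 1)) + Pi.single 2 (x 2) := by
    funext j
    fin_cases j <;> simp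
  have h1 := psi_subadd hp hfin hA (Pi.single 0 (x 0) + Pi.single 1 (x 1)) (Pi.single 2 (x 2))
  have h2 := psi_subadd hp hfin hA (Pi.single 0 (x 0)) (Pi.single 1 (x 1))
  rw [← hx] at h1
  have h3 := g3_single hp hfin (p := p) 0 (x 0)
  have h4 := g3_single hp hfin (p := p) 1 (x 1)
  have h5 := g3_single hp hfin (p := p) 2 (x 2)
  rw [Fin.sum_univ_three, ← h3, ← h4, ← h5]
  have h6 : psi k p x ≤ psi k p (Pi.single 0 (x 0) : Fin 3 → ℤ) + psi k p (Pi.single 1 (x 1) : Fin 3 → ℤ) +
      psi k p (Pi.single 2 (x 2) : Fin 3 → ℤ) := le_trans h1 (Nat.add_le_add_right h2 _)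
  exact_mod_cast h6

end

end TB3
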