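import Pool.Agent.LibTB3.Defs
/-!
ROW [TB3 G4] MEDIUM.
ONLY MATHLIB.  Dirichlet: a positive subadditive homogeneous function on ℤ^3 is bounded below by |x| / 432.
PLAN. R = ∑ |x i| > 0 (x ≠ 0; for x = 0 nothing to prove: the claim is 0 ≤ ...).  Pigeonhole: for q ∈ {0, ..., 216} put the box number B(q) = (⌊6 (q x_i mod R) / R⌋)_i ∈ {0..5}^3
(Int.emod, values in [0,R)); 217 > 216 = 6^3, so q₁ < q₂ have the same box (`Finset.exists_ne_map_eq_of_card_lt_of_maps_to`).  q = q₂ - q₁ ∈ [1, 216];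
q x_i = R p_i + s_i with p_i = (q₂ x_i / R) - (q₁ x_i / R) and |6 s_i| < R, so 2 ∑ |s_i| < R.  (If |s_i| is an integer with 6 |s_i| < R then ∑ |s_i| * 2 < R.)
p ≠ 0: otherwise q R = ∑ |q x_i| = ∑ |s_i| < R.  So R ≤ R f(p) = f(R p) = f(q x + (- s)) ≤ q f(x) + f(-s) ≤ 216 f(x) + ∑ |s_i|, so R < 432 f(x) (2R ≤ 432 f(x) + 2∑|s_i| < 432 f(x) + R).
-/
set_option autoImplicit false
universe u
namespace TB3
open Module TB10

theorem g4_close {u v R : ℤ} (hR : 0 < R) (h : 6 * u / R = 6 * v / R) : |6 * (u - v)| < R := by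
  have h1 := Int.mul_ediv_add_emod (6 * u) R
  have h2 := Int.mul_ediv_add_emod (6 * v) R
  have h3 := Int.emod_nonneg (6 * u) hR.ne'
  have h4 := Int.emod_lt_of_pos (6 * u) hR
  have h5 := Int.emod_nonneg (6 * v) hR.ne'
  have h6 := Int.emod_lt_of_pos (6 * v) hR
  rw [h] at h1
  rw [abs_lt]
  constructor <;> linarith

theorem g4_box {w R : ℤ} (hR : 0 < R) : 0 ≤ 6 * (w % R) / R ∧ 6 * (w % R) / R < 6 := by
  have h3 := Int.emod_nonneg w hR.ne'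
  have h4 := Int.emod_lt_of_pos w hR
  refine ⟨Int.ediv_nonneg (by linarith) hR.le, ?_⟩
  exact Int.ediv_lt_of_lt_mul hR (by linarith)

theorem g4_pair (x : Fin 3 → ℤ) {R : ℤ} (hR : 0 < R) : ∃ q₁ q₂ : ℕ, q₁ < q₂ ∧ q₂ ≤ 216 ∧
    ∀ i, 6 * (((q₂ : ℤ) * x i) % R) / R = 6 * (((q₁ : ℤ) * x i) % R) / R := by
  let B : Fin 217 → (Fin 3 → Fin 6) := fun q i =>
    ⟨(6 * ((((q : ℕ) : ℤ) * x i) % R) / R).toNat, by
      have h := g4_box (w := ((q : ℕ) : ℤ) * x i) hR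
      omega⟩
  obtain ⟨a, b, hab, hB⟩ := Fintype.exists_ne_map_eq_of_card_lt B (by simp)
  have key : ∀ i, 6 * ((((a : ℕ) : ℤ) * x i) % R) / R = 6 * ((((b : ℕ) : ℤ) * x i) % R) / R := by
    intro i
    have h1 := congrArg Fin.val (congrFun hB i)
    have h2 := g4_box (w := ((a : ℕ) : ℤ) * x i) hR
    have h3 := g4_box (w := ((b : ℕ) : ℤ) * x i) hR
    simp only [B] at h1
    omega
  have ha := a.isLt
  have hb := b.isLt
  rcases lt_or_gt_of_ne (fun h => hab (Fin.ext h) : (a : ℕ) ≠ (b : ℕ)) with h | h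
  · exact ⟨a, b, h, by omega, fun i => (key i).symm⟩
  · exact ⟨b, a, h, by omega, fun i => key i⟩

theorem g4_main (f : (Fin 3 → ℤ) → ℕ) (hsub : ∀ x y, f (x + y) ≤ f x + f y)
    (hmul : ∀ (m : ℕ) (x : Fin 3 → ℤ), f (m • x) = m * f x) (hpos : ∀ x, x ≠ 0 → 1 ≤ f x)
    (hle : ∀ x, (f x : ℤ) ≤ ∑ i, |x i|) (x : Fin 3 → ℤ) {R : ℕ} (hR : 0 < R)
    (hx : ∑ i, |x i| = (R : ℤ)) : (R : ℤ) ≤ 432 * (f x : ℤ) := by
  have hR' : (0 : ℤ) < (R : ℤ) := by exact_mod_cast hR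
  obtain ⟨q₁, q₂, hq, hq2, hbox⟩ := g4_pair x hR'
  obtain ⟨q, rfl⟩ := Nat.exists_eq_add_of_lt hq
  have hq0 : ((q₁ + q + 1 : ℕ) : ℤ) = q₁ + (q + 1) := by push_cast; ring
  obtain ⟨p, hp⟩ : ∃ p : Fin 3 → ℤ, p = fun i =>
    ((q₁ + q + 1 : ℕ) : ℤ) * x i / R - (q₁ : ℤ) * x i / R := ⟨_, rfl⟩
  obtain ⟨s, hs⟩ : ∃ s : Fin 3 → ℤ, s = fun i =>
    (((q₁ + q + 1 : ℕ) : ℤ) * x i) % R - ((q₁ : ℤ) * x i) % R := ⟨_, rfl⟩
  have hrel : ∀ i, ((q : ℤ) + 1) * x i = R * p i + s i := by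
    intro i
    have h1 := Int.mul_ediv_add_emod (((q₁ + q + 1 : ℕ) : ℤ) * x i) R
    have h2 := Int.mul_ediv_add_emod ((q₁ : ℤ) * x i) R
    simp only [hp, hs]
    rw [hq0] at h1 ⊢
    linarith
  have hsm : ∀ i, 6 * |s i| < R := by
    intro i
    have h1 := g4_close hR' (hbox i)
    rw [abs_mul, abs_of_pos (by norm_num : (0 : ℤ) < 6)] at h1
    rw [hs]
    exact h1
  have hsum : 2 * ∑ i, |s i| < (R : ℤ) := by
    have h0 := hsm 0
    have h1 := hsm 1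
    have h2 := hsm 2
    rw [Fin.sum_univ_three]
    linarith
  have hp0 : p ≠ 0 := by
    intro h0
    have h1 : ∀ i, |s i| = ((q : ℤ) + 1) * |x i| := by
      intro i
      have h2 := hrel i
      rw [h0] at h2
      simp only [Pi.zero_apply, mul_zero, zero_add] at h2
      rw [← h2, abs_mul, abs_of_nonneg (by positivity : (0 : ℤ) ≤ (q : ℤ) + 1)]
    have h3 : ∑ i, |s i| = ((q : ℤ) + 1) * R := by
      rw [← hx, Finset.mul_sum]
      exact Finset.sum_congr rfl fun i _ => h1 i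
    rw [h3] at hsum
    nlinarith
  have e1 := hpos p hp0
  have e2 : f (R • p) = R * f p := hmul R p
  have e3 : R • p = (q + 1) • x + (-s) := by
    ext i
    have h1 := hrel i
    rw [Pi.smul_apply, Pi.add_apply, Pi.smul_apply, Pi.neg_apply, nsmul_eq_mul, nsmul_eq_mul]
    push_cast
    linear_combination -h1
  have e4 : f (R • p) ≤ (q + 1) * f x + f (-s) := by
    rw [e3, ← hmul (q + 1) x]
    exact hsub _ _
  have e5 := hle (-s)
  have e6 : ∑ i, |(-s) i| = ∑ i, |s i| := Finset.sum_congr rfl fun i _ => by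
    rw [Pi.neg_apply, abs_neg]
  rw [e6] at e5
  have e7 : R ≤ (q + 1) * f x + f (-s) := by
    calc R = R * 1 := (mul_one R).symm
      _ ≤ R * f p := Nat.mul_le_mul_left R e1
      _ = f (R • p) := e2.symm
      _ ≤ _ := e4
  have e8 : (q + 1) * f x ≤ 216 * f x := Nat.mul_le_mul_right _ (by omega)
  have e9 : (R : ℤ) ≤ 216 * (f x : ℤ) + (f (-s) : ℤ) := by
    have h1 : R ≤ 216 * f x + f (-s) := by omega
    exact_mod_cast h1
  linarith

section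
variable {k : Type u} [Field k] {A : Type u} [Ring A] [Algebra k A]
theorem dirichlet (f : (Fin 3 → ℤ) → ℕ) (hsub : ∀ x y, f (x + y) ≤ f x + f y)
    (hmul : ∀ (m : ℕ) (x : Fin 3 → ℤ), f (m • x) = m * f x) (hpos : ∀ x, x ≠ 0 → 1 ≤ f x)
    (hle : ∀ x, (f x : ℤ) ≤ ∑ i, |x i|) (x : Fin 3 → ℤ) : ∑ i, |x i| ≤ 432 * (f x : ℤ) := by
  obtain ⟨R, hR⟩ := Int.eq_ofNat_of_zero_le (Finset.sum_nonneg fun i _ => abs_nonneg (x i) :
    0 ≤ ∑ i, |x i|)
  rcases Nat.eq_zero_or_pos R with h0 | h0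
  · rw [hR, h0]
    positivity
  · rw [hR]
    exact g4_main f hsub hmul hpos hle x h0 hR

end

end TB3
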