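import Pool.Agent.LibTB3.G3
import Pool.Agent.LibTB3.G4
import Pool.Agent.LibTB3.H4
/-!
ROW [TB3 G5] SHORT.
(cite G3, G4, H4) n = 3: finitely many primes and chambers.
PLAN. psi x = 1 for primes, so ∑ |x i| ≤ 432: a finite set (Set.Finite.subset of {x | ∀ i, |x i| ≤ 432} = Set.pi of Icc, Set.finite_Icc / Set.Finite.pi).
Chambers: functions Fin 3 → primes.
-/
set_option autoImplicit false
universe u
namespace TB3
open Module TB10

section
variable {k : Type u} [Field k] {A : Type u} [Ring A] [Algebra k A]
variable {p : Fin 3 → Submodule A A} [Module.Finite k A] [Infinite k] [IsAlgClosed k]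
    (hp : Bas k p) (hfin : FinB k A)

include hp hfin

theorem finite_prm (hA : NSE k p) : {x : Fin 3 → ℤ | Prm k p x}.Finite := by
  refine Set.Finite.subset (Set.Finite.pi (fun _ : Fin 3 => Set.finite_Icc (-432 : ℤ) 432)) ?_
  intro x hx
  have h1 := dirichlet (psi k p) (fun x y => psi_subadd hp hfin hA x y)
    (fun m x => psi_smul hp hfin m x) (fun x hx => psi_pos hp hfin hx)
    (fun x => psi_le hp hfin hA x) x
  have h2 : psi k p x = 1 := psi_prm hp hfin hx
  rw [h2] at h1
  push_cast at h1
  simp only [Set.mem_pi, Set.mem_univ, true_implies, Set.mem_Icc]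
  intro i
  have h3 : |x i| ≤ ∑ j, |x j| :=
    Finset.single_le_sum (f := fun j => |x j|) (fun j _ => abs_nonneg (x j)) (Finset.mem_univ i)
  have h4 : |x i| ≤ 432 := by linarith
  exact abs_le.mp h4

theorem finite_chm (hA : NSE k p) : {t : Fin 3 → Fin 3 → ℤ | Chm k p t}.Finite := by
  refine Set.Finite.subset (Set.Finite.pi (fun _ : Fin 3 => finite_prm hp hfin hA)) ?_
  intro t ht
  simp only [Set.mem_pi, Set.mem_univ, true_implies, Set.mem_setOf_eq]
  exact fun i => ht.prm i

end

end TB3
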