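import Pool.Agent.LibTB3.D3
import Pool.Agent.LibTB3.D4
import Pool.Agent.LibTB3.R2
/-!
ROW [TB3 G6b] MEDIUM.
(cite D3, D4, R2) socle element for a family of local presentations with different classes.
PLAN. M j = (F j).M.  For θ : M i → X let v(θ) = ∑ j, finrank k of the range of the k-linear map (M j → M i) → (M j → X), s ↦ θ ∘ s (define it like TB10.g1_post).  Choose (i, θ) with θ ≠ 0 and
v(θ) minimal.  Let r : M j → M i be not bijective or j ≠ i, and suppose θ r ≠ 0.  For every l: {θ r s | s : M l → M j} ≤ {θ s' | s' : M l → M i}, and v(θ r) ≥ v(θ), so equality for all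
l; l = i, s' = id: θ = θ r s with s : M i → M j.  r s : M i → M i is nilpotent or bijective (loc_M; M i nontrivial as θ ≠ 0).  Nilpotent: θ = θ (r s)^m = 0.  Bijective: if j = i then r is
surjective, so bijective (finite dimension): contradiction.  If j ≠ i: smd_of_M (with s, r): Smd (F i) (F j); smd_loc (F i nonzero since M i is nontrivial): isomorphisms;
Cl_of_equiv, Cl_unique: t i = t j, contradiction with hinj.
-/
set_option autoImplicit false
universe u
namespace TB3
open Module TB10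

section
variable {k : Type u} [Field k] {A : Type u} [Ring A] [Algebra k A]
variable {n : ℕ} {p : Fin n → Submodule A A}
    {X : Type u} [AddCommGroup X] [Module A X] [Module k X] [IsScalarTower k A X] [Module.Finite k X]
    [Module.Finite k A]

/-- `s ↦ θ ∘ s` as a `k`-linear map. -/
private def g6b_post {L M Y : Type u} [AddCommGroup L] [Module A L] [AddCommGroup M] [Module A M]
    [Module k M] [IsScalarTower k A M] [AddCommGroup Y] [Module A Y] [Module k Y]
    [IsScalarTower k A Y] (θ : M →ₗ[A] Y) : (L →ₗ[A] M) →ₗ[k] (L →ₗ[A] Y) where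
  toFun s := θ ∘ₗ s
  map_add' x y := by
    ext q
    simp
  map_smul' c x := by
    ext q
    have h : θ (c • (x q)) = c • θ (x q) := by
      rw [← algebraMap_smul A c (x q), map_smul, algebraMap_smul]
    simp [h]

theorem exists_socle (hp : Bas k p) {m : ℕ} (t : Fin m → Fin n → ℤ) (hinj : Function.Injective t)
    (F : Fin m → Pres k A) (hL : ∀ i, LocP (F i)) (hc : ∀ i, Cl k p (F i) (t i))
    (h : ∃ j, ∃ θ : (F j).M →ₗ[A] X, θ ≠ 0) :
    ∃ i, ∃ θ : (F i).M →ₗ[A] X, θ ≠ 0 ∧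
      (∀ j, j ≠ i → ∀ r : (F j).M →ₗ[A] (F i).M, θ ∘ₗ r = 0) ∧
      (∀ r : (F i).M →ₗ[A] (F i).M, ¬ Function.Surjective r → θ ∘ₗ r = 0) := by
  classical
  have hfin : ∀ j, Module.Finite k (F j).M := fun j =>
    Module.Finite.of_surjective ((LinearMap.range (F j).f).mkQ.restrictScalars k)
      (Submodule.mkQ_surjective _)
  let S : ∀ (l i : Fin m), ((F i).M →ₗ[A] X) → Submodule k ((F l).M →ₗ[A] X) :=
    fun l i θ => LinearMap.range (g6b_post (k := k) (L := (F l).M) θ)
  let v : ∀ i : Fin m, ((F i).M →ₗ[A] X) → ℕ := fun i θ => ∑ l, finrank k (S l i θ)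
  have hP : ∃ N : ℕ, ∃ i, ∃ θ : (F i).M →ₗ[A] X, θ ≠ 0 ∧ v i θ = N := by
    obtain ⟨j, θ, hθ⟩ := h
    exact ⟨v j θ, j, θ, hθ, rfl⟩
  obtain ⟨i, θ, hθ, hv⟩ := Nat.find_spec hP
  have hmin : ∀ j (θ' : (F j).M →ₗ[A] X), θ' ≠ 0 → v i θ ≤ v j θ' := by
    intro j θ' hθ'
    rw [hv]
    exact Nat.find_min' hP ⟨j, θ', hθ', rfl⟩
  have hnt : Nontrivial (F i).M := by
    by_contra hn
    rw [not_nontrivial_iff_subsingleton] at hn
    apply hθ
    refine LinearMap.ext fun q => ?_
    have hq : q = 0 := @Subsingleton.elim _ hn q 0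
    rw [hq, map_zero, map_zero]
  have key : ∀ j (r : (F j).M →ₗ[A] (F i).M), θ ∘ₗ r ≠ 0 →
      ∃ s : (F i).M →ₗ[A] (F j).M, θ ∘ₗ (r ∘ₗ s) = θ := by
    intro j r hr
    have hle : ∀ l, S l j (θ ∘ₗ r) ≤ S l i θ := by
      rintro l _ ⟨s, rfl⟩
      exact ⟨r ∘ₗ s, rfl⟩
    have hfr : ∀ l, finrank k (S l j (θ ∘ₗ r)) ≤ finrank k (S l i θ) := by
      intro l
      have := hfin l
      exact Submodule.finrank_mono (hle l)
    have hsum : v i θ ≤ v j (θ ∘ₗ r) := hmin j _ hr
    have heq : finrank k (S i j (θ ∘ₗ r)) = finrank k (S i i θ) := by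
      by_contra hne
      have hlt : finrank k (S i j (θ ∘ₗ r)) < finrank k (S i i θ) := lt_of_le_of_ne (hfr i) hne
      have : v j (θ ∘ₗ r) < v i θ :=
        Finset.sum_lt_sum (fun l _ => hfr l) ⟨i, Finset.mem_univ _, hlt⟩
      omega
    have := hfin i
    have hSeq : S i j (θ ∘ₗ r) = S i i θ := Submodule.eq_of_le_of_finrank_eq (hle i) heq
    have hmem : θ ∈ S i i θ := ⟨LinearMap.id, by
      ext q
      rfl⟩
    rw [← hSeq] at hmem
    obtain ⟨s, hs⟩ := hmem
    exact ⟨s, hs⟩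
  have key2 : ∀ j (r : (F j).M →ₗ[A] (F i).M), θ ∘ₗ r ≠ 0 →
      ∃ s : (F i).M →ₗ[A] (F j).M, Function.Bijective (r ∘ₗ s) := by
    intro j r hr
    obtain ⟨s, hs⟩ := key j r hr
    refine ⟨s, ?_⟩
    rcases loc_M (hL i) hnt (r ∘ₗ s) with hnil | hbij
    · exfalso
      obtain ⟨N, hN⟩ := hnil
      have hpow : ∀ a : ℕ, θ ∘ₗ ((r ∘ₗ s : Module.End A (F i).M) ^ a) = θ := by
        intro a
        induction a with
        | zero =>
          ext q
          simp
        | succ a ih =>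
          rw [pow_succ, Module.End.mul_eq_comp, ← LinearMap.comp_assoc, ih]
          exact hs
      have := hpow N
      rw [hN] at this
      apply hθ
      rw [← this]
      exact LinearMap.comp_zero _
    · exact hbij
  refine ⟨i, θ, hθ, ?_, ?_⟩
  · intro j hj r
    by_contra hr
    obtain ⟨s, hs⟩ := key2 j r hr
    have hsm : Smd (F i) (F j) := smd_of_M (hL i) hnt s r hs
    have hQ : Nontrivial (F i).Q := by
      by_contra hn
      rw [not_nontrivial_iff_subsingleton] at hn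
      obtain ⟨a, b, hab⟩ := hnt
      apply hab
      obtain ⟨a', rfl⟩ := Submodule.mkQ_surjective _ a
      obtain ⟨b', rfl⟩ := Submodule.mkQ_surjective _ b
      rw [Subsingleton.elim a' b']
    obtain ⟨⟨eP⟩, ⟨eQ⟩⟩ := smd_loc (Or.inl hQ) (hL j) hsm
    have h1 : Cl k p (F j) (t i) := Cl_of_equiv (hc i) eP eQ
    exact hj (hinj (Cl_unique hp (hc j) h1))
  · intro r hr
    by_contra hne
    obtain ⟨s, hs⟩ := key2 i r hne
    apply hr
    intro y
    obtain ⟨x, hx⟩ := hs.2 y
    exact ⟨s x, hx⟩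

end

end TB3
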