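import Pool.Agent.LibTB3.G6a
import Pool.Agent.LibTB3.G6b
import Pool.Agent.LibTB3.H6
/-!
ROW [TB3 G6] MEDIUM.
(cite G6a, G6b, H1, H6, L1, R1, D3, D7) a nonzero module generated at a chamber contains the stable module of a positive wall.
PLAN. F i local rigid of class t i (ht.prm, choose), M i = (F i).M, z = ∑ t j.  exists_hom_of_Tc (s = univ) and exists_socle give i, θ : M i → X.  S stable for wl t i; wall_pair: sign ±1.
Sign -1: M i is Tc (t i) (Tc_M), so Tc z (sum_Sbo with c = 1), so Tc (wl t i) (tc_neg), so ⨆ j ≠ i tr A (M j) (M i) = ⊤ (sup_tr_eq_top, s = univ.erase i), and θ vanishes on every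
range of M j → M i, j ≠ i, so θ = 0: contradiction.  So br (t i) S = 1.
E0c (t i) S (ws_E0c_pos), finrank Hom(M i, S) = br (t i) S = 1 (finrank_hom): π : M i → S nonzero.  E0c (wl t i) (M i): Tc (t i) (M i) and Cmp (t i) (wl t i).  π surjective (St.surj), K = ker π:
E0c (wl t i) K (ker_E0c_x), E0c (t i) K (ker_E0c_y with x = wl t i, y = t i, ws_E0c_pos), so E0c z K (z = wl t i + t i, E0c_add), Tc z K (Tc_of_NoW, Chm.noW with c = 1).
sup_tr_eq_top: K = ⨆ tr A (M j) K; for s : M j → K: θ ∘ (subtype ∘ s) = 0: j ≠ i ok, j = i: subtype ∘ s : M i → M i is not surjective (lands in K ≠ ⊤).  So θ vanishes on K, and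
factors through π: θ = g ∘ π with g : S → X, g ≠ 0.
-/
set_option autoImplicit false
universe u
namespace TB3
open Module TB10

section
variable {k : Type u} [Field k] {A : Type u} [Ring A] [Algebra k A]
variable {n : ℕ} {p : Fin n → Submodule A A}
    [Module.Finite k A] [Infinite k] [IsAlgClosed k] (hp : Bas k p) (hfin : FinB k A)

include hp hfin

theorem exists_stable_hom {t : Fin n → Fin n → ℤ} (ht : Chm k p t)
    (X : Type u) [AddCommGroup X] [Module A X] [Module k X] [IsScalarTower k A X] [Module.Finite k X]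
    [Nontrivial X] (hX : Tc k p (∑ j, t j) X) :
    ∃ i, ∀ (S : Type u) [AddCommGroup S] [Module A S] [Module k S] [IsScalarTower k A S] [Module.Finite k S],
      St k p (wl t i) S → br k p (t i) S = 1 ∧ ∃ g : S →ₗ[A] X, g ≠ 0 := by
  classical
  choose F hF hL hc using fun i => (ht.prm i).2
  obtain ⟨j, -, θ0, hθ0⟩ := exists_hom_of_Tc hp t F hF hc Finset.univ hX
  obtain ⟨i, θ, hθ, hθj, hθi⟩ := exists_socle hp t ht.inj F hL hc ⟨j, θ0, hθ0⟩
  refine ⟨i, ?_⟩
  intro S _ _ _ _ _ hS
  have hz : ∑ j, t j = wl t i + t i := (Finset.sum_erase_add _ _ (Finset.mem_univ i)).symm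
  have hone : ∑ j, (1 : ℕ) • t j = ∑ j, t j := by simp only [one_smul]
  have hwl : ∑ j, (if j = i then 0 else 1 : ℕ) • t j = wl t i := by
    rw [wl, ← Finset.add_sum_erase _ _ (Finset.mem_univ i)]
    simp only [if_true, zero_smul, zero_add]
    refine Finset.sum_congr rfl fun j hj => ?_
    rw [if_neg (Finset.ne_of_mem_erase hj), one_smul]
  have hcmp : Cmp k p (t i) (wl t i) := by
    rw [← hwl]
    exact sum_cmp hp hfin t ht.cmp _ _ fun j _ => ht.cmp i j
  have hTM : Tc k p (t i) (F i).M := Tc_M (hF i) (hc i)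
  obtain ⟨-, hbr | hbr⟩ := wall_pair hp hfin ht i hS
  · refine ⟨hbr, ?_⟩
    have hES : E0c k p (t i) S := ws_E0c_pos hp hfin ht i hS hbr S (hS.ws hp)
    have hfin1 := finrank_hom (hc i) ((E0_iff (hF i) (hc i)).2 hES)
    rw [hbr] at hfin1
    have hfin2 : finrank k ((F i).M →ₗ[A] S) ≠ 0 := by
      intro h0
      rw [h0] at hfin1
      simp at hfin1
    obtain ⟨π, hπ⟩ : ∃ π : (F i).M →ₗ[A] S, π ≠ 0 := by
      by_contra hcon
      push Not at hcon
      apply hfin2
      have : Subsingleton ((F i).M →ₗ[A] S) := ⟨fun a b => by rw [hcon a, hcon b]⟩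
      exact finrank_zero_of_subsingleton
    have hEM : E0c k p (wl t i) (F i).M := hcmp.1 _ hTM
    have hsurj : Function.Surjective π := hS.surj hp hEM π hπ
    have hK1 : E0c k p (wl t i) (LinearMap.ker π) := ker_E0c_x hp π hsurj hEM hS.zero.le
    have hK2 : E0c k p (t i) (LinearMap.ker π) :=
      ker_E0c_y hp hfin hcmp.symm (fun V => by
        intros
        rename_i hV
        exact ws_E0c_pos hp hfin ht i hS hbr V hV) π hsurj hEM (hS.ws hp)
    have hK3 : E0c k p (∑ j, t j) (LinearMap.ker π) := by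
      rw [hz]
      exact (E0c_add hp hfin hcmp.symm).2 ⟨hK1, hK2⟩
    have hNoW : NoW k p (∑ j, t j) := by
      have := ht.noW hp hfin (fun _ => 1) (fun _ => Nat.one_pos)
      rw [hone] at this
      exact this
    have hK4 : Tc k p (∑ j, t j) (LinearMap.ker π) := Tc_of_NoW hp hNoW hK3
    have hsup := sup_tr_eq_top hp t ht.cmp F hF hc Finset.univ hK4
    have hle : LinearMap.ker π ≤ LinearMap.ker θ := by
      have h1 : (⊤ : Submodule A (LinearMap.ker π)) ≤
          LinearMap.ker (θ ∘ₗ (LinearMap.ker π).subtype) := by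
        rw [← hsup]
        refine iSup_le fun j => iSup_le fun _ => ?_
        rw [tr]
        refine iSup_le fun s => ?_
        rintro _ ⟨m, rfl⟩
        have h2 : θ ∘ₗ ((LinearMap.ker π).subtype ∘ₗ s) = 0 := by
          by_cases hji : j = i
          · subst hji
            apply hθi
            intro hs
            refine hπ (LinearMap.ext fun m => ?_)
            obtain ⟨m', hm'⟩ := hs m
            rw [← hm']
            exact (s m').2
          · exact hθj j hji _
        exact LinearMap.congr_fun h2 m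
      intro m hm
      exact h1 (Submodule.mem_top : (⟨m, hm⟩ : LinearMap.ker π) ∈ ⊤)
    refine ⟨(LinearMap.ker π).liftQ θ hle ∘ₗ
      (LinearMap.quotKerEquivOfSurjective π hsurj).symm.toLinearMap, ?_⟩
    intro h0
    refine hθ (LinearMap.ext fun m => ?_)
    have h1 := LinearMap.congr_fun h0 (π m)
    have h2 : (LinearMap.quotKerEquivOfSurjective π hsurj).symm (π m) =
        Submodule.Quotient.mk m := by
      rw [LinearEquiv.symm_apply_eq]
      rfl
    rw [LinearMap.comp_apply] at h1
    change (LinearMap.ker π).liftQ θ hle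
      ((LinearMap.quotKerEquivOfSurjective π hsurj).symm (π m)) = 0 at h1
    rw [h2] at h1
    exact h1
  · exfalso
    apply hθ
    have hTz : Tc k p (∑ j, t j) (F i).M := by
      have := (sum_Sbo hp hfin t ht.cmp (fun _ => 1) i Nat.one_pos).2 _ hTM
      rw [hone] at this
      exact this
    have hTw : Tc k p (wl t i) (F i).M := (tc_neg hp hfin ht i hS hbr _).1 hTz
    have hsup := sup_tr_eq_top hp t ht.cmp F hF hc (Finset.univ.erase i) hTw
    have hle : (⊤ : Submodule A (F i).M) ≤ LinearMap.ker θ := by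
      rw [← hsup]
      refine iSup_le fun j => iSup_le fun hj => ?_
      rw [tr]
      refine iSup_le fun s => ?_
      rintro _ ⟨m, rfl⟩
      exact LinearMap.congr_fun (hθj j (Finset.ne_of_mem_erase hj) s) m
    exact LinearMap.ext fun m => hle Submodule.mem_top

end

end TB3
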