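import Pool.Agent.LibTB3.N2
import Pool.Agent.LibTB10.A1
import Pool.Agent.LibTB10.A3
import Pool.Agent.LibTB10.T1
import Pool.Agent.LibTB10.T2
import Pool.Agent.LibTB10.T3
/-!
ROW [TB3 R1] MEDIUM.
(cite N1, N2, TB10) The numeric lemma: for a rigid presentation F of class x the conditions E(F,X) = 0, Hom(M_F,X) = 0, X generated by M_F depend only on x.
PLAN. Notation t = tr A F.M X, M = F.M.  E0 F.f F.M by TB10.rigid_iff_E0.
finrank_hom: pre k F.f X : Hom(Q,X) → Hom(P,X) is onto (E0), its kernel is Hom(M,X) (`Submodule.liftQ`/mkQ, build the linear equivalence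
{q // q ∘ f = 0} ≃ Hom(Q ⧸ range f, X), or `LinearMap.finrank_range_add_finrank_ker`), and Cl.
E0_iff →: E0 passes to quotients (lift P → X ⧸ K to P → X, P projective), then finrank_hom (value ≥ 0).  ←: if not E0 F.f X then E0 F.f t (TB10.E0_of_gen,
gen_tr), so not E0 F.f (X ⧸ t) (TB10.A1_E0_ext); Hom(M, X ⧸ t) = 0 (TB10.hom_quot_tr_eq_zero), so pre k F.f (X ⧸ t) is injective and not surjective, so
finrank Hom(Q, X ⧸ t) < finrank Hom(P, X ⧸ t), br x (X ⧸ t) < 0: contradiction with E0c.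
hom_zero_iff →: for K ≤ X Hom(M,K) = 0 so TB10.hom_ge_of_zero.  ←: if θ ≠ 0: t ≠ ⊥, E0 F.f t, some M → t is nonzero (TB10.exists_hom_of_gen, gen_tr)
so br x t = finrank Hom(M,t) > 0.
gen_iff →: for K ≠ ⊤: X ⧸ K nontrivial, generated by M (gen_of_surj_gen), E0 F.f (X ⧸ K) (E0_of_gen), Hom(M, X ⧸ K) ≠ 0, finrank_hom.
←: if t ≠ ⊤ then Hom(M, X ⧸ t) = 0 so br x (X ⧸ t) ≤ 0.
exists_torsion: N = t : Tc x t by gen_iff (gen_tr) and H0c x (X ⧸ t) by hom_zero_iff.
-/
set_option autoImplicit false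
universe u
namespace TB3
open Module TB10

section
variable {k : Type u} [Field k] {A : Type u} [Ring A] [Algebra k A]
variable {n : ℕ} {p : Fin n → Submodule A A}
    {X : Type u} [AddCommGroup X] [Module A X] [Module k X] [IsScalarTower k A X] [Module.Finite k X]
    [Module.Finite k A]

/-- maps `Q ⧸ range f → X` give maps `Q → X` killing the image of `f` -/
noncomputable def r1_map {P Q : Type u} [AddCommGroup P] [Module A P] [AddCommGroup Q] [Module A Q]
    (k : Type u) [Field k] [Algebra k A] (f : P →ₗ[A] Q) (X : Type u) [AddCommGroup X] [Module A X]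
    [Module k X] [IsScalarTower k A X] :
    ((Q ⧸ LinearMap.range f) →ₗ[A] X) →ₗ[k] LinearMap.ker (pre k f X) where
  toFun θ := ⟨θ ∘ₗ (LinearMap.range f).mkQ, by
    rw [LinearMap.mem_ker]
    ext z
    have h0 : (LinearMap.range f).mkQ (f z) = 0 := by
      rw [← LinearMap.mem_ker, Submodule.ker_mkQ]
      exact ⟨z, rfl⟩
    change θ ((LinearMap.range f).mkQ (f z)) = 0
    rw [h0, map_zero]⟩
  map_add' _ _ := rfl
  map_smul' _ _ := rfl

theorem r1_map_bij {P Q : Type u} [AddCommGroup P] [Module A P] [AddCommGroup Q] [Module A Q]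
    (k : Type u) [Field k] [Algebra k A] (f : P →ₗ[A] Q) (X : Type u) [AddCommGroup X] [Module A X]
    [Module k X] [IsScalarTower k A X] : Function.Bijective (r1_map k f X) := by
  constructor
  · intro θ θ' h
    have h1 : θ ∘ₗ (LinearMap.range f).mkQ = θ' ∘ₗ (LinearMap.range f).mkQ := congrArg Subtype.val h
    exact (LinearMap.cancel_right (Submodule.mkQ_surjective _)).1 h1
  · rintro ⟨q, hq⟩
    have hq' : q ∘ₗ f = 0 := hq
    have hle : LinearMap.range f ≤ LinearMap.ker q := by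
      rintro _ ⟨z, rfl⟩
      rw [LinearMap.mem_ker]
      exact LinearMap.congr_fun hq' z
    refine ⟨(LinearMap.range f).liftQ q hle, ?_⟩
    apply Subtype.ext
    exact (LinearMap.range f).liftQ_mkQ q hle

/-- maps `Q → X` killing the image of `f` are maps `Q ⧸ range f → X` -/
noncomputable def r1_equiv {P Q : Type u} [AddCommGroup P] [Module A P] [AddCommGroup Q] [Module A Q]
    (k : Type u) [Field k] [Algebra k A] (f : P →ₗ[A] Q) (X : Type u) [AddCommGroup X] [Module A X]
    [Module k X] [IsScalarTower k A X] :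
    ((Q ⧸ LinearMap.range f) →ₗ[A] X) ≃ₗ[k] LinearMap.ker (pre k f X) :=
  LinearEquiv.ofBijective (r1_map k f X) (r1_map_bij k f X)

omit [Module.Finite k A] in
/-- the dimension formula -/
theorem r1_dim {x : Fin n → ℤ} {F : Pres k A} (hx : Cl k p F x)
    (X : Type u) [AddCommGroup X] [Module A X] [Module k X] [IsScalarTower k A X] [Module.Finite k X] :
    (finrank k (F.M →ₗ[A] X) : ℤ) + finrank k (LinearMap.range (pre k F.f X)) =
      finrank k (F.P →ₗ[A] X) + br k p x X := by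
  have h1 := LinearMap.finrank_range_add_finrank_ker (pre k F.f X)
  have h2 := (r1_equiv k F.f X).finrank_eq
  have h3 := hx X
  rw [← h3, ← h1, h2]
  push_cast
  ring

theorem r1_ge {x : Fin n → ℤ} {F : Pres k A} (hx : Cl k p F x)
    (X : Type u) [AddCommGroup X] [Module A X] [Module k X] [IsScalarTower k A X] [Module.Finite k X] :
    br k p x X ≤ finrank k (F.M →ₗ[A] X) := by
  have h1 := r1_dim hx X
  have h2 : finrank k (LinearMap.range (pre k F.f X)) ≤ finrank k (F.P →ₗ[A] X) :=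
    Submodule.finrank_le _
  omega

omit [Module.Finite k A] in
theorem r1_zero (M X : Type u) [AddCommGroup M] [Module A M] [Module k M] [IsScalarTower k A M]
    [AddCommGroup X] [Module A X] [Module k X] [IsScalarTower k A X]
    (h : ∀ θ : M →ₗ[A] X, θ = 0) : finrank k (M →ₗ[A] X) = 0 := by
  haveI : Subsingleton (M →ₗ[A] X) := ⟨fun a b => (h a).trans (h b).symm⟩
  exact finrank_zero_of_subsingleton

/-- if `Hom(M_F, X) = 0` and `⟨x, X⟩ ≥ 0` then `E(F, X) = 0` -/
theorem r1_E0_of_zero {x : Fin n → ℤ} {F : Pres k A} (hx : Cl k p F x)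
    (X : Type u) [AddCommGroup X] [Module A X] [Module k X] [IsScalarTower k A X] [Module.Finite k X]
    (h : ∀ θ : F.M →ₗ[A] X, θ = 0) (h0 : 0 ≤ br k p x X) : E0 F.f X := by
  have h1 := r1_dim hx X
  have h2 : finrank k (LinearMap.range (pre k F.f X)) ≤ finrank k (F.P →ₗ[A] X) :=
    Submodule.finrank_le _
  rw [r1_zero F.M X h] at h1
  have h3 : finrank k (LinearMap.range (pre k F.f X)) = finrank k (F.P →ₗ[A] X) := by
    push_cast at h1
    omega
  have h4 : LinearMap.range (pre k F.f X) = ⊤ := Submodule.eq_top_of_finrank_eq h3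
  intro y
  have h5 : y ∈ LinearMap.range (pre k F.f X) := by rw [h4]; trivial
  exact h5

/-- `E(F, X) = 0` passes to quotients -/
theorem r1_E0_quot {P Q : Type u} [AddCommGroup P] [Module A P] [Module.Projective A P]
    [AddCommGroup Q] [Module A Q] (f : P →ₗ[A] Q) {X : Type u} [AddCommGroup X] [Module A X]
    (h : E0 f X) (K : Submodule A X) : E0 f (X ⧸ K) := by
  intro y
  obtain ⟨z, hz⟩ := Module.projective_lifting_property K.mkQ y (Submodule.mkQ_surjective _)
  obtain ⟨q, hq⟩ := h z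
  refine ⟨K.mkQ ∘ₗ q, ?_⟩
  rw [LinearMap.comp_assoc, hq, hz]

omit [Module.Finite k A] in
theorem r1_E0_M {F : Pres k A} (hF : Rigid F.f) : E0 F.f F.M := (rigid_iff_E0 F.f).1 hF

/-- maps into the quotient by the trace vanish -/
theorem r1_quot_tr {F : Pres k A} (hF : Rigid F.f)
    (X : Type u) [AddCommGroup X] [Module A X] [Module k X] [IsScalarTower k A X] [Module.Finite k X]
    (θ : F.M →ₗ[A] (X ⧸ tr A F.M X)) : θ = 0 :=
  hom_quot_tr_eq_zero (k := k) F.f (r1_E0_M hF) θ

omit [Module.Finite k A] in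
theorem r1_pos (M X : Type u) [AddCommGroup M] [Module A M] [Module k M] [IsScalarTower k A M]
    [Module.Finite k M] [AddCommGroup X] [Module A X] [Module k X] [IsScalarTower k A X]
    [Module.Finite k X] (θ : M →ₗ[A] X) (h : θ ≠ 0) : 0 < finrank k (M →ₗ[A] X) := by
  haveI : Nontrivial (M →ₗ[A] X) := ⟨⟨θ, 0, h⟩⟩
  exact finrank_pos

/-- if `E(F,X) = 0` then `dim Hom(M_F, X) = ⟨x, X⟩` -/
theorem finrank_hom {x : Fin n → ℤ} {F : Pres k A} (hx : Cl k p F x) (h : E0 F.f X) :
    (finrank k (F.M →ₗ[A] X) : ℤ) = br k p x X := by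
  have h1 := r1_dim hx X
  have h2 : LinearMap.range (pre k F.f X) = ⊤ := LinearMap.range_eq_top.2 fun y => h y
  rw [h2, finrank_top] at h1
  omega

theorem E0_iff {x : Fin n → ℤ} {F : Pres k A} (hF : Rigid F.f) (hx : Cl k p F x) :
    E0 F.f X ↔ E0c k p x X := by
  constructor
  · intro h K
    rw [← finrank_hom hx (r1_E0_quot F.f h K)]
    exact Int.natCast_nonneg _
  · intro h
    refine A1_E0_ext F.f (tr A F.M X) ?_ ?_
    · exact E0_of_gen (k := k) F.f (r1_E0_M hF) gen_tr
    · exact r1_E0_of_zero hx _ (r1_quot_tr hF X) (h _)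

theorem hom_zero_iff {x : Fin n → ℤ} {F : Pres k A} (hF : Rigid F.f) (hx : Cl k p F x) :
    (∀ θ : F.M →ₗ[A] X, θ = 0) ↔ H0c k p x X := by
  constructor
  · intro h K
    have h1 : ∀ θ : F.M →ₗ[A] K, θ = 0 := by
      intro θ
      have h2 := h (K.subtype ∘ₗ θ)
      ext z
      have h3 := LinearMap.congr_fun h2 (Submodule.Quotient.mk z)
      exact h3
    have h4 := r1_ge hx K
    rw [r1_zero F.M K h1] at h4
    simpa using h4
  · intro h θ
    by_contra hθ
    have h1 : tr A F.M X ≠ ⊥ := by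
      intro h2
      apply hθ
      have h3 := range_le_tr θ
      rw [h2, le_bot_iff, LinearMap.range_eq_bot] at h3
      exact h3
    haveI : Nontrivial (tr A F.M X) := Submodule.nontrivial_iff_ne_bot.2 h1
    obtain ⟨θ', hθ'⟩ := exists_hom_of_gen (gen_tr (A := A) (M := F.M) (X := X))
    have h2 : E0 F.f (tr A F.M X) := E0_of_gen (k := k) F.f (r1_E0_M hF) gen_tr
    have h3 := finrank_hom (X := tr A F.M X) hx h2
    have h4 := r1_pos (k := k) F.M (tr A F.M X) θ' hθ'
    have h5 := h (tr A F.M X)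
    omega

theorem gen_iff {x : Fin n → ℤ} {F : Pres k A} (hF : Rigid F.f) (hx : Cl k p F x) :
    Gen A F.M X ↔ Tc k p x X := by
  constructor
  · intro h K hK
    have h1 : Gen A F.M (X ⧸ K) := gen_of_surj_gen h K.mkQ (Submodule.mkQ_surjective _)
    have h2 : E0 F.f (X ⧸ K) := E0_of_gen (k := k) F.f (r1_E0_M hF) h1
    haveI : Nontrivial (X ⧸ K) := Submodule.Quotient.nontrivial_iff.2 hK
    obtain ⟨θ, hθ⟩ := exists_hom_of_gen h1
    rw [← finrank_hom hx h2]
    exact_mod_cast r1_pos (k := k) F.M (X ⧸ K) θ hθ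
  · intro h
    unfold Gen
    by_contra ht
    have h1 := h _ ht
    have h2 := r1_ge hx (X ⧸ tr A F.M X)
    rw [r1_zero F.M _ (r1_quot_tr hF X)] at h2
    push_cast at h2
    omega

theorem Tc_M {x : Fin n → ℤ} {F : Pres k A} (hF : Rigid F.f) (hx : Cl k p F x) :
    Tc k p x F.M :=
  (gen_iff hF hx).1 gen_self

/-- the torsion submodule -/
theorem exists_torsion_of {x : Fin n → ℤ} {F : Pres k A} (hF : Rigid F.f) (hx : Cl k p F x)
    (X : Type u) [AddCommGroup X] [Module A X] [Module k X] [IsScalarTower k A X] [Module.Finite k X] :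
    ∃ N : Submodule A X, Tc k p x N ∧ H0c k p x (X ⧸ N) :=
  ⟨tr A F.M X, (gen_iff hF hx).1 gen_tr, (hom_zero_iff hF hx).1 (r1_quot_tr hF X)⟩

end

end TB3
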