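import Pool.Agent.LibTB3.L1
import Pool.Agent.LibTB3.C4
import Pool.Agent.LibTB3.R1
/-!
ROW [TB3 G6a] MEDIUM.
(cite N2, R1, C4, L1, TB10.T1, T2) generation by a compatible family.
PLAN. M j = (F j).M.  (a) if Y is nontrivial and Tc (∑ j ∈ s, t j) Y then for some j ∈ s some θ : M j → Y is nonzero: otherwise H0c (t j) Y for all j ∈ s (hom_zero_iff) so
br (t j) Y ≤ 0 (H0c_br), the sum br (∑ ...) Y ≤ 0 (br_sum_left), contradiction with Tc_br.
(b) N = ⨆ j ∈ s, tr A (M j) X.  E0c (t i) N for all i: E0c (t i) (M j) (Cmp and Tc_M), E0 (F i).f (M j) (E0_iff), E0 (F i).f (tr A (M j) X) (TB10.E0_of_gen, gen_tr), and E0c (t i) is closed under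
sums of submodules (N₁ ⊔ N₂ is a quotient of N₁ × N₂, E0c_ext, E0c_surj), induction over the finset s.  If N ≠ ⊤ then Y = X ⧸ N is nontrivial and Tc (Tc_surj), so (a) gives θ : M i → X ⧸ N
nonzero; lift_hom (π = N.mkQ, ker = N, E0 (F i).f N) gives θ' : M i → X with mkQ θ' = θ, range θ' ≤ tr A (M i) X ≤ N (TB10.range_le_tr) so θ = 0.  Contradiction.
-/
set_option autoImplicit false
universe u
namespace TB3
open Module TB10

section
variable {k : Type u} [Field k] {A : Type u} [Ring A] [Algebra k A]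
variable {n : ℕ} {p : Fin n → Submodule A A}
    {X : Type u} [AddCommGroup X] [Module A X] [Module k X] [IsScalarTower k A X] [Module.Finite k X]
    [Module.Finite k A]

theorem g6a_prod (hp : Bas k p) {x : Fin n → ℤ}
    {Y : Type u} [AddCommGroup Y] [Module A Y] [Module k Y] [IsScalarTower k A Y] [Module.Finite k Y]
    (h1 : E0c k p x X) (h2 : E0c k p x Y) : E0c k p x (X × Y) := by
  refine E0c_ext hp (LinearMap.range (LinearMap.inl A X Y)) ?_ ?_
  · exact E0c_surj (LinearMap.rangeRestrict (LinearMap.inl A X Y))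
      (LinearMap.surjective_rangeRestrict _) h1
  · refine E0c_surj ((LinearMap.range (LinearMap.inl A X Y)).mkQ ∘ₗ LinearMap.inr A X Y) ?_ h2
    intro z
    obtain ⟨⟨a, b⟩, rfl⟩ := Submodule.mkQ_surjective _ z
    refine ⟨b, ?_⟩
    rw [LinearMap.comp_apply, Submodule.mkQ_apply, Submodule.mkQ_apply, Submodule.Quotient.eq]
    refine ⟨-a, ?_⟩
    simp

theorem g6a_sup (hp : Bas k p) {x : Fin n → ℤ} (N₁ N₂ : Submodule A X)
    (h1 : E0c k p x N₁) (h2 : E0c k p x N₂) : E0c k p x (N₁ ⊔ N₂ : Submodule A X) := by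
  have h := g6a_prod hp h1 h2
  refine E0c_surj ((Submodule.inclusion (le_sup_left : N₁ ≤ N₁ ⊔ N₂)).coprod
    (Submodule.inclusion (le_sup_right : N₂ ≤ N₁ ⊔ N₂))) ?_ h
  rintro ⟨z, hz⟩
  obtain ⟨a, ha, b, hb, rfl⟩ := Submodule.mem_sup.1 hz
  exact ⟨(⟨a, ha⟩, ⟨b, hb⟩), rfl⟩

theorem g6a_fsup (hp : Bas k p) {x : Fin n → ℤ} {ι : Type*} (s : Finset ι) (N : ι → Submodule A X)
    (h : ∀ j ∈ s, E0c k p x (N j)) : E0c k p x (s.sup N : Submodule A X) := by
  classical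
  induction s using Finset.induction_on with
  | empty =>
    rw [Finset.sup_empty]
    exact E0c_subsingleton x
  | insert a s' ha ih =>
    rw [Finset.sup_insert]
    exact g6a_sup hp _ _ (h a (Finset.mem_insert_self a s'))
      (ih fun j hj => h j (Finset.mem_insert_of_mem hj))

theorem g6a_exists_hom {m : ℕ} (t : Fin m → Fin n → ℤ)
    (F : Fin m → Pres k A) (hF : ∀ i, Rigid (F i).f) (hc : ∀ i, Cl k p (F i) (t i)) (s : Finset (Fin m))
    [Nontrivial X] (hX : Tc k p (∑ j ∈ s, t j) X) : ∃ j ∈ s, ∃ θ : (F j).M →ₗ[A] X, θ ≠ 0 := by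
  by_contra hcon
  push Not at hcon
  have h1 : ∀ j ∈ s, br k p (t j) X ≤ 0 := fun j hj =>
    H0c_br ((hom_zero_iff (hF j) (hc j)).1 (hcon j hj))
  have h2 : br k p (∑ j ∈ s, t j) X ≤ 0 := by
    rw [br_sum_left]
    exact Finset.sum_nonpos h1
  have h3 := Tc_br hX
  omega

theorem g6a_E0_tr {m : ℕ} (t : Fin m → Fin n → ℤ) (ht : ∀ i j, Cmp k p (t i) (t j))
    (F : Fin m → Pres k A) (hF : ∀ i, Rigid (F i).f) (hc : ∀ i, Cl k p (F i) (t i)) (i j : Fin m) :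
    E0c k p (t i) (tr A (F j).M X) := by
  have h1 : E0c k p (t i) (F j).M := (ht j i).1 (F j).M (Tc_M (hF j) (hc j))
  have h2 : E0 (F i).f (F j).M := (E0_iff (hF i) (hc i)).2 h1
  have h3 : E0 (F i).f (tr A (F j).M X) := TB10.E0_of_gen (k := k) (F i).f h2 gen_tr
  exact (E0_iff (hF i) (hc i)).1 h3

theorem sup_tr_eq_top (hp : Bas k p) {m : ℕ} (t : Fin m → Fin n → ℤ) (ht : ∀ i j, Cmp k p (t i) (t j))
    (F : Fin m → Pres k A) (hF : ∀ i, Rigid (F i).f) (hc : ∀ i, Cl k p (F i) (t i)) (s : Finset (Fin m))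
    (hX : Tc k p (∑ j ∈ s, t j) X) : ⨆ j ∈ s, tr A (F j).M X = ⊤ := by
  rw [← Finset.sup_eq_iSup s fun j => tr A (F j).M X]
  by_contra hne
  set N : Submodule A X := s.sup fun j => tr A (F j).M X with hN
  have hnt : Nontrivial (X ⧸ N) := Submodule.Quotient.nontrivial_iff.2 hne
  have hT : Tc k p (∑ j ∈ s, t j) (X ⧸ N) := Tc_surj N.mkQ N.mkQ_surjective hX
  obtain ⟨i, hi, θ, hθ⟩ := g6a_exists_hom t F hF hc s hT
  have hE : E0c k p (t i) N := g6a_fsup hp s _ fun j _ => g6a_E0_tr t ht F hF hc i j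
  have hE' : E0 (F i).f (LinearMap.ker N.mkQ) := by
    rw [Submodule.ker_mkQ]
    exact (E0_iff (hF i) (hc i)).2 hE
  obtain ⟨θ', hθ'⟩ := lift_hom (F i) N.mkQ N.mkQ_surjective hE' θ
  refine hθ (LinearMap.ext fun v => ?_)
  rw [← hθ', LinearMap.comp_apply, Submodule.mkQ_apply, LinearMap.zero_apply,
    Submodule.Quotient.mk_eq_zero]
  have h1 : θ' v ∈ tr A (F i).M X := TB10.range_le_tr θ' ⟨v, rfl⟩
  have h2 : tr A (F i).M X ≤ N := Finset.le_sup (f := fun j => tr A (F j).M X) hi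
  exact h2 h1

theorem exists_hom_of_Tc (hp : Bas k p) {m : ℕ} (t : Fin m → Fin n → ℤ)
    (F : Fin m → Pres k A) (hF : ∀ i, Rigid (F i).f) (hc : ∀ i, Cl k p (F i) (t i)) (s : Finset (Fin m))
    [Nontrivial X] (hX : Tc k p (∑ j ∈ s, t j) X) : ∃ j ∈ s, ∃ θ : (F j).M →ₗ[A] X, θ ≠ 0 :=
  g6a_exists_hom t F hF hc s hX

end

end TB3
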