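import Pool.Agent.LibTB3.L3
import Pool.Agent.LibTB3.D7
import Pool.Agent.LibTB3.N4
/-!
ROW [TB3 H1] MEDIUM.
(cite C4, D7, L3, N4) walls of a chamber.
PLAN. Chm.noW: X semistable for ∑ c i • t i (c i > 0): E0c (t i) X, H0c (t i) X for all i (sum_E0c, sum_H0c) so br (t i) X = 0 for all i, so br u X = 0 for all u (span,
br_sum_left, br_zsmul_left), subsingleton_of_br.
exists_wall: wl t i = ∑ c j • t j with c j = 1 for j ≠ i, c i = 0.  Cmp (t i) (wl t i) (sum_cmp).  If NoW (wl t i) then Sbo (t i) (wl t i) (sbo_of_cmp) so t i = t j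
with j ≠ i (mem_of_sbo_sum): contradiction with inj.  So some nontrivial X is semistable: stable quotient (exists_stable_quot).
wall_pair: S stable for wl t i: E0c (t j) S for j ≠ i so br (t j) S ≥ 0, the sum is br (wl t i) S = 0, so all are 0.  Dual class y of S (exists_dual), y = ∑ c j • t j:
1 = br y S = c i * br (t i) S, so ±1 (Int.isUnit...).
wall_unique: if S, S' were not isomorphic: dual y of S: 1 = c i * br (t i) S, 0 = br y S' = c i * br (t i) S', c i ≠ 0, contradiction with wall_pair for S'.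
wall_ws: Ws_rec with C V := ∃ m : ℕ, (∀ u, br u V = m * br u S) ∧ (Nontrivial V → 0 < m): V ⧸ K stable so ≃ S, br_add.
wall_quot: exists_stable_quot and wall_unique.
chm_cmp: y = l.sum (exists_dec), every member w is compatible with z = ∑ t i (cmp_of_dec), Sbo w z (sbo_of_cmp), so w = t i for some i (mem_of_sbo_sum with c = 1);
so y = ∑ c i • t i with c i = number of members of l equal to t i (prove by induction on l: every list with members among the t i has such a sum).
Chm.perm: reindex sums.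
-/
set_option autoImplicit false
universe u
namespace TB3
open Module TB10

section
variable {k : Type u} [Field k] {A : Type u} [Ring A] [Algebra k A]
variable {n : ℕ} {p : Fin n → Submodule A A}
    {S : Type u} [AddCommGroup S] [Module A S] [Module k S] [IsScalarTower k A S] [Module.Finite k S]
    {S' : Type u} [AddCommGroup S'] [Module A S'] [Module k S'] [IsScalarTower k A S'] [Module.Finite k S']
    [Module.Finite k A] [Infinite k] [IsAlgClosed k] (hp : Bas k p) (hfin : FinB k A)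

omit [Infinite k] [IsAlgClosed k] [Module.Finite k A] in
theorem Chm.perm {t : Fin n → Fin n → ℤ} (ht : Chm k p t) (σ : Equiv.Perm (Fin n)) :
    Chm k p (t ∘ σ) := by
  refine ⟨fun i => ht.prm _, fun i j => ht.cmp _ _, ht.inj.comp σ.injective, fun u => ?_⟩
  obtain ⟨c, hc⟩ := ht.span u
  refine ⟨c ∘ σ, ?_⟩
  rw [hc]
  exact (Equiv.sum_comp σ (fun i => c i • t i)).symm

/-- the coefficients of a wall -/
private def h1_c {n : ℕ} (i j : Fin n) : ℕ := if j = i then 0 else 1

private theorem h1_c_pos {n : ℕ} {i j : Fin n} : 0 < h1_c i j ↔ j ≠ i := by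
  unfold h1_c
  split_ifs with h <;> simp [h]

private theorem h1_wl {n : ℕ} (t : Fin n → Fin n → ℤ) (i : Fin n) :
    wl t i = ∑ j, h1_c i j • t j := by
  unfold wl
  rw [← Finset.add_sum_erase Finset.univ _ (Finset.mem_univ i)]
  have h1 : h1_c i i = 0 := by simp [h1_c]
  rw [h1, zero_smul, zero_add]
  refine Finset.sum_congr rfl fun j hj => ?_
  have h2 : h1_c i j = 1 := by simp [h1_c, Finset.ne_of_mem_erase hj]
  rw [h2, one_smul]

/-- the pairing with a sum which has only one nonzero term -/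
private theorem h1_br {n : ℕ} {p : Fin n → Submodule A A} {X : Type u} [AddCommGroup X] [Module A X]
    [Module k X] [IsScalarTower k A X] [Module.Finite k X] (t : Fin n → Fin n → ℤ) (c : Fin n → ℤ)
    (i : Fin n) (h : ∀ j, j ≠ i → br k p (t j) X = 0) :
    br k p (∑ j, c j • t j) X = c i * br k p (t i) X := by
  rw [br_sum_left, Finset.sum_eq_single i]
  · exact br_zsmul_left _ _
  · intro j _ hj
    rw [br_zsmul_left, h j hj, mul_zero]
  · intro h
    exact absurd (Finset.mem_univ i) h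

omit [IsAlgClosed k] in
private theorem h1_noW {n : ℕ} {p : Fin n → Submodule A A} (hp : Bas k p) (hfin : FinB k A)
    {t : Fin n → Fin n → ℤ} (ht : Chm k p t) (c : Fin n → ℕ) (hc : ∀ i, 0 < c i) :
    NoW k p (∑ i, c i • t i) := by
  intro X _ _ _ _ _ hX
  have h0 : ∀ i, br k p (t i) X = 0 := fun i => le_antisymm
    (H0c_br ((sum_H0c hp hfin t ht.cmp c).1 hX.2 i (hc i)))
    (E0c_br ((sum_E0c hp hfin t ht.cmp c).1 hX.1 i (hc i)))
  refine subsingleton_of_br hp fun u => ?_
  obtain ⟨b, hb⟩ := ht.span u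
  rw [hb, br_sum_left]
  refine Finset.sum_eq_zero fun i _ => ?_
  rw [br_zsmul_left, h0 i, mul_zero]

include hp hfin

theorem Chm.noW {t : Fin n → Fin n → ℤ} (ht : Chm k p t) (c : Fin n → ℕ) (hc : ∀ i, 0 < c i) :
    NoW k p (∑ i, c i • t i) := h1_noW hp hfin ht c hc

theorem exists_wall {t : Fin n → Fin n → ℤ} (ht : Chm k p t) (i : Fin n) :
    ∃ (S : Type u) (_ : AddCommGroup S) (_ : Module A S) (_ : Module k S) (_ : IsScalarTower k A S)
      (_ : Module.Finite k S), St k p (wl t i) S := by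
  by_contra hno
  have hz : NoW k p (wl t i) := by
    intro X _ _ _ _ _ hX
    by_contra hs
    rw [not_subsingleton_iff_nontrivial] at hs
    obtain ⟨K, hK⟩ := exists_stable_quot hp hX
    exact hno ⟨X ⧸ K, inferInstance, inferInstance, inferInstance, inferInstance, inferInstance, hK⟩
  have hc : Cmp k p (t i) (wl t i) := by
    rw [h1_wl]
    exact sum_cmp hp hfin t ht.cmp _ _ fun j _ => ht.cmp i j
  have hs := sbo_of_cmp hp hz hc
  rw [h1_wl] at hs
  obtain ⟨j, hj, hij⟩ := mem_of_sbo_sum hp hfin t ht.cmp ht.prm _ (ht.prm i) hs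
  exact h1_c_pos.1 hj (ht.inj hij).symm

omit [IsAlgClosed k] in
private theorem h1_zero {t : Fin n → Fin n → ℤ} (ht : Chm k p t) (i : Fin n)
    (hS : St k p (wl t i) S) : ∀ j, j ≠ i → br k p (t j) S = 0 := by
  have hw := St.ws hp hS
  rw [h1_wl] at hw
  exact fun j hj => le_antisymm
    (H0c_br ((sum_H0c hp hfin t ht.cmp _).1 hw.2 j (h1_c_pos.2 hj)))
    (E0c_br ((sum_E0c hp hfin t ht.cmp _).1 hw.1 j (h1_c_pos.2 hj)))

theorem wall_pair {t : Fin n → Fin n → ℤ} (ht : Chm k p t) (i : Fin n) (hS : St k p (wl t i) S) :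
    (∀ j, j ≠ i → br k p (t j) S = 0) ∧ (br k p (t i) S = 1 ∨ br k p (t i) S = -1) := by
  have h0 := h1_zero hp hfin ht i hS
  refine ⟨h0, ?_⟩
  obtain ⟨y, hy⟩ := exists_dual hp hfin hS
  obtain ⟨c, hc⟩ := ht.span y
  have h1 := hy.one
  rw [hc, h1_br t c i h0] at h1
  exact Int.isUnit_iff.1 (IsUnit.of_mul_eq_one (c i) (by rw [mul_comm]; exact h1))

theorem wall_unique {t : Fin n → Fin n → ℤ} (ht : Chm k p t) (i : Fin n) (hS : St k p (wl t i) S)
    (hS' : St k p (wl t i) S') : Nonempty (S ≃ₗ[A] S') := by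
  by_contra hne
  rw [not_nonempty_iff] at hne
  obtain ⟨y, hy⟩ := exists_dual hp hfin hS
  obtain ⟨c, hc⟩ := ht.span y
  have h1 := hy.one
  rw [hc, h1_br t c i (h1_zero hp hfin ht i hS)] at h1
  have h2 := hy.zero S' hS' hne
  rw [hc, h1_br t c i (h1_zero hp hfin ht i hS')] at h2
  rcases mul_eq_zero.1 h2 with h3 | h3
  · rw [h3, zero_mul] at h1
    exact absurd h1 zero_ne_one
  · rcases (wall_pair hp hfin ht i hS').2 with h4 | h4 <;> omega

theorem wall_ws {t : Fin n → Fin n → ℤ} (ht : Chm k p t) (i : Fin n) (hS : St k p (wl t i) S)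
    (V : Type u) [AddCommGroup V] [Module A V] [Module k V] [IsScalarTower k A V] [Module.Finite k V]
    (hV : Ws k p (wl t i) V) :
    ∃ m : ℕ, (∀ u, br k p u V = m * br k p u S) ∧ (Nontrivial V → 0 < m) := by
  refine Ws_rec (p := p) (x := wl t i) hp (C := fun V _ _ _ _ _ =>
    ∃ m : ℕ, (∀ u, br k p u V = m * br k p u S) ∧ (Nontrivial V → 0 < m)) ?_ ?_ V hV
  · intro X _ _ _ _ _ hX
    refine ⟨0, fun u => ?_, fun h => ?_⟩
    · rw [br_subsingleton, Nat.cast_zero, zero_mul]
    · exact absurd hX (not_subsingleton_iff_nontrivial.2 h)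
  · intro X _ _ _ _ _ K _ _ hK hC
    obtain ⟨m, hm, -⟩ := hC
    obtain ⟨e⟩ := wall_unique hp hfin ht i hK hS
    refine ⟨m + 1, fun u => ?_, fun _ => Nat.succ_pos _⟩
    rw [br_add hp u K, hm u, br_congr u e]
    push_cast
    ring

theorem wall_quot {t : Fin n → Fin n → ℤ} (ht : Chm k p t) (i : Fin n) (hS : St k p (wl t i) S)
    (V : Type u) [AddCommGroup V] [Module A V] [Module k V] [IsScalarTower k A V] [Module.Finite k V]
    [Nontrivial V] (hV : Ws k p (wl t i) V) : ∃ h : V →ₗ[A] S, Function.Surjective h := by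
  obtain ⟨K, hK⟩ := exists_stable_quot hp hV
  obtain ⟨e⟩ := wall_unique hp hfin ht i hK hS
  exact ⟨e.toLinearMap ∘ₗ K.mkQ, e.surjective.comp K.mkQ_surjective⟩

omit [IsAlgClosed k] in
theorem chm_cmp {t : Fin n → Fin n → ℤ} (ht : Chm k p t) {y : Fin n → ℤ}
    (h : ∀ i, Cmp k p y (t i)) : ∃ c : Fin n → ℕ, y = ∑ i, c i • t i := by
  obtain ⟨l, hl1, hl2, rfl⟩ := exists_dec hp hfin y
  have hz : Cmp k p l.sum (∑ i, (fun _ => 1 : Fin n → ℕ) i • t i) :=
    sum_cmp hp hfin t ht.cmp _ _ fun i _ => h i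
  have hno : NoW k p (∑ i, (fun _ => 1 : Fin n → ℕ) i • t i) :=
    h1_noW hp hfin ht _ fun _ => one_pos
  have hm : ∀ w ∈ l, ∃ i, w = t i := by
    intro w hw
    have h1 := cmp_of_dec hp hfin hl2 hz w hw
    obtain ⟨i, -, hi⟩ := mem_of_sbo_sum hp hfin t ht.cmp ht.prm _ (hl1 w hw)
      (sbo_of_cmp hp hno h1)
    exact ⟨i, hi⟩
  clear hz hno h hl1 hl2
  induction l with
  | nil => exact ⟨fun _ => 0, by simp⟩
  | cons w l ih =>
    obtain ⟨c, hc⟩ := ih fun w' hw' => hm w' (List.mem_cons_of_mem _ hw')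
    obtain ⟨i, hi⟩ := hm w List.mem_cons_self
    refine ⟨c + Pi.single i 1, ?_⟩
    rw [List.sum_cons, hc, hi]
    simp only [Pi.add_apply, add_smul, Finset.sum_add_distrib]
    rw [add_comm]
    congr 1
    rw [Finset.sum_eq_single i]
    · rw [Pi.single_eq_same, one_smul]
    · intro j _ hj
      rw [Pi.single_eq_of_ne hj, zero_smul]
    · intro h
      exact absurd (Finset.mem_univ i) h

end

end TB3
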