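import Pool.Agent.LibTB3.H0
import Pool.Agent.LibTB3.H1
import Pool.Agent.LibTB3.N4
import Pool.Agent.LibTB3.C3
/-!
ROW [TB3 H2] STRONG.
(cite C3, C4, D2, D7, L3, N4, H0, H1) a class without semistable modules lies in the interior of a chamber.
PLAN. l from exists_dec z, s = l.toFinset.  (1) every u is in the ℤ-span of s: star z u: N with Cmp (N • z + u) z; l' = dec of N • z + u; members w of l': Cmp w z
(cmp_of_dec), Sbo w z (sbo_of_cmp, NoW), w ∈ l (mem_of_sbo); so N • z + u ∈ span, z = l.sum ∈ span, u ∈ span.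
(2) for w ∈ s: z_w = ∑ v ∈ s.erase w, v = (s.erase w).toList.sum; Cp of that list; Cmp w z_w; if NoW z_w then Sbo w z_w and w ∈ s.erase w: contradiction.  So there is a stable
S for z_w (exists_stable_quot), br v S = 0 for v ∈ s, v ≠ w (all ≥ 0 by E0c_list, sum 0).  Dual class y of S: y ∈ span s (by (1)), br y S = 1 so br w S ≠ 0.
f_w = br · S as a ℤ-linear functional (br_add_left, br_zsmul_left).
(3) exists_enum gives t; Chm: prm, cmp from l; c i = l.count (t i) > 0, z = l.sum = ∑ count • t i (`Finset.sum_list_count` / `List.sum` with toFinset, reindex).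
-/
set_option autoImplicit false
universe u
namespace TB3
open Module TB10

section
variable {k : Type u} [Field k] {A : Type u} [Ring A] [Algebra k A]
variable {n : ℕ} {p : Fin n → Submodule A A}
    [Module.Finite k A] [Infinite k] [IsAlgClosed k] (hp : Bas k p) (hfin : FinB k A)

include hp hfin

theorem exists_chm_of_NoW {z : Fin n → ℤ} (hz : NoW k p z) :
    ∃ (t : Fin n → Fin n → ℤ) (c : Fin n → ℕ), Chm k p t ∧ (∀ i, 0 < c i) ∧ z = ∑ i, c i • t i := by
  classical
  obtain ⟨l, hlp, hlc, hls⟩ := exists_dec hp hfin z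
  have hmem : ∀ v, v ∈ l.toFinset ↔ v ∈ l := fun v => List.mem_toFinset
  have hzspan : z ∈ Submodule.span ℤ ((l.toFinset : Finset (Fin n → ℤ)) : Set (Fin n → ℤ)) := by
    have h0 : l.sum ∈ Submodule.span ℤ ((l.toFinset : Finset (Fin n → ℤ)) : Set (Fin n → ℤ)) :=
      list_sum_mem (fun v hv => Submodule.subset_span (Finset.mem_coe.2 ((hmem v).2 hv)))
    rwa [hls] at h0
  have hspan : ∀ u : Fin n → ℤ,
      u ∈ Submodule.span ℤ ((l.toFinset : Finset (Fin n → ℤ)) : Set (Fin n → ℤ)) := by
    intro u
    obtain ⟨N, hN⟩ := star hp hfin z u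
    have hc := hN N le_rfl
    obtain ⟨l', hlp', hlc', hls'⟩ := exists_dec hp hfin (N • z + u)
    rw [← hls'] at hc
    have hw : ∀ w ∈ l', w ∈ l.toFinset := by
      intro w hw
      have h1 : Cmp k p w z := cmp_of_dec hp hfin hlc' hc w hw
      have h2 : Sbo k p w z := sbo_of_cmp hp hz h1
      rw [← hls] at h2
      exact (hmem w).2 (mem_of_sbo hp hfin hlc hlp (hlp' w hw) h2)
    have h3 : N • z + u ∈ Submodule.span ℤ ((l.toFinset : Finset (Fin n → ℤ)) : Set (Fin n → ℤ)) := by
      rw [← hls']
      exact list_sum_mem (fun v hv => Submodule.subset_span (Finset.mem_coe.2 (hw v hv)))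
    have h4 : u = (N • z + u) - N • z := by abel
    rw [h4]
    exact Submodule.sub_mem _ h3 (Submodule.smul_of_tower_mem _ N hzspan)
  have hf : ∀ w ∈ l.toFinset, ∃ f : (Fin n → ℤ) →ₗ[ℤ] ℤ, f w ≠ 0 ∧
      ∀ v ∈ l.toFinset, v ≠ w → f v = 0 := by
    intro w hw
    have hlwm : ∀ v, v ∈ (l.toFinset.erase w).toList ↔ v ≠ w ∧ v ∈ l := by
      intro v
      rw [Finset.mem_toList, Finset.mem_erase, hmem]
    have hlwc : Cp k p (l.toFinset.erase w).toList := fun y hy y' hy' =>
      hlc y ((hlwm y).1 hy).2 y' ((hlwm y').1 hy').2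
    have hcw : Cmp k p w (l.toFinset.erase w).toList.sum :=
      (Cmp_list hp hfin hlwc w).2 (fun y hy => hlc w ((hmem w).1 hw) y ((hlwm y).1 hy).2)
    have hnW : ¬ NoW k p (l.toFinset.erase w).toList.sum := by
      intro hn
      have h2 := sbo_of_cmp hp hn hcw
      have h3 := mem_of_sbo hp hfin hlwc (fun y hy => hlp y ((hlwm y).1 hy).2)
        (hlp w ((hmem w).1 hw)) h2
      exact ((hlwm w).1 h3).1 rfl
    unfold NoW at hnW
    push Not at hnW
    obtain ⟨X, i1, i2, i3, i4, i5, hXW, hXn⟩ := hnW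
    have : Nontrivial X := hXn
    obtain ⟨K, hK⟩ := exists_stable_quot hp hXW
    have hws := St.ws hp hK
    have hE := (E0c_list hp hfin hlwc).1 hws.1
    have h0 : ∀ v ∈ l.toFinset, v ≠ w → br k p v (X ⧸ K) = 0 := by
      have hsum := br_list_sum (k := k) (p := p) (X := X ⧸ K) (l.toFinset.erase w).toList
      rw [hK.zero, Finset.sum_map_toList] at hsum
      have h5 := (Finset.sum_eq_zero_iff_of_nonneg (fun v hv => E0c_br (hE v (Finset.mem_toList.2 hv)))).1
        hsum.symm
      intro v hv hvw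
      exact h5 v (Finset.mem_erase.2 ⟨hvw, hv⟩)
    obtain ⟨y, hy⟩ := exists_dual hp hfin hK
    refine ⟨{ toFun := fun v => br k p v (X ⧸ K)
              map_add' := fun a b => br_add_left a b
              map_smul' := fun m a => by
                simpa using br_zsmul_left m a }, ?_, ?_⟩
    · intro h6
      have h7 : Submodule.span ℤ ((l.toFinset : Finset (Fin n → ℤ)) : Set (Fin n → ℤ)) ≤
          LinearMap.ker ({ toFun := fun v => br k p v (X ⧸ K)
                           map_add' := fun a b => br_add_left a b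
                           map_smul' := fun m a => by
                             simpa using br_zsmul_left m a } : (Fin n → ℤ) →ₗ[ℤ] ℤ) := by
        rw [Submodule.span_le]
        intro v hv
        rw [SetLike.mem_coe, LinearMap.mem_ker]
        by_cases hvw : v = w
        · rw [hvw]
          exact h6
        · exact h0 v (Finset.mem_coe.1 hv) hvw
      have h8 := h7 (hspan y)
      rw [LinearMap.mem_ker] at h8
      have h9 : br k p y (X ⧸ K) = 0 := h8
      rw [hy.one] at h9
      exact one_ne_zero h9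
    · exact h0
  obtain ⟨t, hinj, hts, hspt⟩ := exists_enum l.toFinset hspan hf
  have htl : ∀ i, t i ∈ l := fun i => (hmem _).1 ((hts _).2 ⟨i, rfl⟩)
  refine ⟨t, fun i => l.count (t i), ⟨fun i => hlp _ (htl i), fun i j => hlc _ (htl i) _ (htl j),
    hinj, hspt⟩, fun i => List.count_pos_iff.2 (htl i), ?_⟩
  rw [← hls, Finset.sum_list_count]
  have himg : l.toFinset = Finset.univ.image t := by
    ext v
    rw [hts v, Finset.mem_image]
    constructor
    · rintro ⟨i, hi⟩
      exact ⟨i, Finset.mem_univ _, hi.symm⟩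
    · rintro ⟨i, _, hi⟩
      exact ⟨i, hi.symm⟩
  rw [himg, Finset.sum_image (fun a _ b _ hab => hinj hab)]


end

end TB3
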