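import Pool.Agent.LibTB3.H2
/-!
ROW [TB3 H3] MEDIUM.
(cite C2, C3, C4, D2, D7, H1, H2) every class, and every pair of compatible classes, lies in a chamber.
PLAN. exists_chm: star_Ws z (fun _ => 1): N with Cmp (N • z + 1) z and: semistable for z⁺ = N • z + 1 implies br 1 X = 0 so X is a subsingleton (br_one_pos): NoW z⁺.
H2: chamber t, z⁺ = ∑ c i • t i, c i > 0.  Cmp z z⁺ gives Cmp z (t i) for all i (exists_list + Cmp_list), chm_cmp.
exists_chm_two: chamber t of x + y = ∑ c i • t i; l = dec of x; w ∈ l: Sbo w x (Sbo_mem), Sbo x (x + y) (E0c_add, Tc_add_left), so w = t i for some i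
(mem_of_sbo_sum); so x = ∑ c' i • t i (as in chm_cmp).  Same for y.
prm_mem: x prime, x = ∑ c i • t i, then prm_of_sum.
-/
set_option autoImplicit false
universe u
namespace TB3
open Module TB10

section
variable {k : Type u} [Field k] {A : Type u} [Ring A] [Algebra k A]
variable {n : ℕ} {p : Fin n → Submodule A A}
    [Module.Finite k A] [Infinite k] [IsAlgClosed k] (hp : Bas k p) (hfin : FinB k A)

include hp hfin

theorem exists_chm (z : Fin n → ℤ) :
    ∃ (t : Fin n → Fin n → ℤ) (c : Fin n → ℕ), Chm k p t ∧ z = ∑ i, c i • t i := by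
  obtain ⟨N₀, hN⟩ := star_Ws hp hfin z (fun _ => 1)
  obtain ⟨hc, hW⟩ := hN N₀ le_rfl
  have hno : NoW k p (N₀ • z + (fun _ => 1)) := by
    intro X _ _ _ _ _ hX
    by_contra hns
    rw [not_subsingleton_iff_nontrivial] at hns
    have h1 := (hW X hX).2
    have h2 := br_one_pos (k := k) (p := p) (X := X) hp
    omega
  obtain ⟨t, c, ht, hc0, hz⟩ := exists_chm_of_NoW hp hfin hno
  have hzc : ∀ i, Cmp k p z (t i) := by
    obtain ⟨l, hl, hls, hlm⟩ := exists_list hp hfin t ht.cmp c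
    have h1 : Cmp k p z l.sum := by
      rw [hls, ← hz]
      exact hc.symm
    rw [Cmp_list hp hfin hl] at h1
    intro i
    exact h1 (t i) ((hlm _).2 ⟨i, hc0 i, rfl⟩)
  obtain ⟨c', hc'⟩ := chm_cmp hp hfin ht hzc
  exact ⟨t, c', ht, hc'⟩

omit [IsAlgClosed k] in
theorem h3_mem {t : Fin n → Fin n → ℤ} (ht : Chm k p t) {c : Fin n → ℕ} {x z : Fin n → ℤ}
    (hz : z = ∑ i, c i • t i) (h : Sbo k p x z) : ∃ c' : Fin n → ℕ, x = ∑ i, c' i • t i := by
  obtain ⟨l, hl1, hl2, hl3⟩ := exists_dec hp hfin x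
  refine chm_cmp hp hfin ht fun j => ?_
  have h1 : Cmp k p (t j) l.sum := by
    rw [Cmp_list hp hfin hl2]
    intro w hw
    have h2 : Sbo k p w l.sum := Sbo_mem hp hfin hl2 hw
    rw [hl3] at h2
    have h3 := h2.trans h
    rw [hz] at h3
    obtain ⟨i, -, hi⟩ := mem_of_sbo_sum hp hfin t ht.cmp ht.prm c (hl1 w hw) h3
    rw [hi]
    exact ht.cmp j i
  rw [hl3] at h1
  exact h1.symm

theorem exists_chm_two {x y : Fin n → ℤ} (h : Cmp k p x y) :
    ∃ (t : Fin n → Fin n → ℤ) (c c' : Fin n → ℕ), Chm k p t ∧ x = ∑ i, c i • t i ∧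
      y = ∑ i, c' i • t i := by
  obtain ⟨t, c, ht, hz⟩ := exists_chm hp hfin (x + y)
  have h1 : Sbo k p x (x + y) :=
    ⟨fun X _ _ _ _ _ hX => ((E0c_add hp hfin h).1 hX).1, fun X _ _ _ _ _ hX => Tc_add_left h hX⟩
  have h2 : Sbo k p y (x + y) := by
    refine ⟨fun X _ _ _ _ _ hX => ((E0c_add hp hfin h).1 hX).2, fun X _ _ _ _ _ hX => ?_⟩
    have h3 := Tc_add_left h.symm hX
    rwa [add_comm] at h3
  obtain ⟨a, ha⟩ := h3_mem hp hfin ht hz h1
  obtain ⟨b, hb⟩ := h3_mem hp hfin ht hz h2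
  exact ⟨t, a, b, ht, ha, hb⟩

/-- two different compatible primes are members of a chamber -/
theorem exists_chm_prm {x y : Fin n → ℤ} (hx : Prm k p x) (hy : Prm k p y) (h : Cmp k p x y)
    (hne : x ≠ y) : ∃ (t : Fin n → Fin n → ℤ) (i j : Fin n), Chm k p t ∧ i ≠ j ∧ x = t i ∧ y = t j := by
  obtain ⟨t, c, c', ht, hxs, hys⟩ := exists_chm_two hp hfin h
  rw [hxs] at hx
  rw [hys] at hy
  obtain ⟨i, -, hi⟩ := prm_of_sum hp hfin t ht.cmp ht.prm c hx
  obtain ⟨j, -, hj⟩ := prm_of_sum hp hfin t ht.cmp ht.prm c' hy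
  refine ⟨t, i, j, ht, ?_, hxs.trans hi, hys.trans hj⟩
  rintro rfl
  exact hne ((hxs.trans hi).trans (hys.trans hj).symm)

end

end TB3
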