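import Pool.Agent.LibTB3.H2
import Pool.Agent.LibTB3.C3
/-!
ROW [TB3 H5] MEDIUM/STRONG.
(cite C3, C4, D7, H1, H2) the neighbour of a chamber through a wall.
PLAN. S stable for z = wl t i (exists_wall), ε = br (t i) S = ±1.  star_Ws z (-(t i)): N ≥ 1 with, for u = N • z - t i: Cmp u z, and X semistable for u is semistable for z with
br (t i) X = 0; then wall_ws: br (t i) X = m ε = 0 so m = 0 so X is a subsingleton.  So NoW u.  H2: chamber t', u = ∑ c' j • t' j, c' j > 0.
For j ≠ i: Sbo (t j) z (sum_Sbo with the 0/1 coefficients) and Cmp z u so Cmp (t j) u (Sbo_cmp, Sbo.refl u), Sbo (t j) u (sbo_of_cmp), t j ∈ range t' (mem_of_sbo_sum).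
So range t' = {t j | j ≠ i} ∪ {w} (both injective with n elements): choose an injection j ↦ t'-index for j ≠ i, the remaining index gives w; update t i w = t' ∘ σ for a
permutation σ, so Chm (Chm.perm).  br w S: br u S = N * 0 - ε = ∑ c' j * br (t' j) S = c_w * br w S, c_w ≥ 1, so br w S = -ε (divisor of ∓1).
For another stable S₂ of the wall: isomorphic to S (wall_unique), br_congr.
-/
set_option autoImplicit false
universe u
namespace TB3
open Module TB10

section
variable {k : Type u} [Field k] {A : Type u} [Ring A] [Algebra k A]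
variable {n : ℕ} {p : Fin n → Submodule A A}
    [Module.Finite k A] [Infinite k] [IsAlgClosed k] (hp : Bas k p) (hfin : FinB k A)

theorem h5_wl (t : Fin n → Fin n → ℤ) (i : Fin n) :
    wl t i = ∑ j, (if j = i then 0 else 1 : ℕ) • t j := by
  unfold wl
  rw [← Finset.add_sum_erase Finset.univ _ (Finset.mem_univ i)]
  rw [if_pos rfl, zero_smul, zero_add]
  refine Finset.sum_congr rfl fun j hj => ?_
  rw [if_neg (Finset.ne_of_mem_erase hj), one_smul]

theorem h5_perm (t t' : Fin n → Fin n → ℤ) (ht : Function.Injective t) (i : Fin n)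
    (h : ∀ j, j ≠ i → ∃ l, t j = t' l) :
    ∃ σ : Equiv.Perm (Fin n), ∀ j, j ≠ i → t j = t' (σ j) := by
  classical
  have h' : ∀ j : {j // j ≠ i}, ∃ l, t j.1 = t' l := fun j => h j.1 j.2
  choose f hf using h'
  have hinj : Function.Injective f := by
    intro a b hab
    apply Subtype.ext
    apply ht
    rw [hf a, hf b, hab]
  let e : {j // j ≠ i} ≃ {x // x ∈ Set.range f} := Equiv.ofInjective f hinj
  refine ⟨e.extendSubtype, fun j hj => ?_⟩
  rw [Equiv.extendSubtype_apply_of_mem e j hj]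
  exact hf ⟨j, hj⟩

theorem h5_div {c : ℕ} {b ε : ℤ} (hc : 0 < c) (hε : ε = 1 ∨ ε = -1) (h : (c : ℤ) * b = -ε) :
    b = -ε := by
  have hu : IsUnit (c : ℤ) := by
    rw [Int.isUnit_iff_abs_eq]
    have h1 : (c : ℤ) ∣ -ε := ⟨b, h.symm⟩
    have h2 : (c : ℤ) ∣ 1 := by
      rcases hε with rfl | rfl
      · exact (dvd_neg.mp h1)
      · simpa using h1
    have h3 := Int.le_of_dvd one_pos h2
    have h4 : (c : ℤ) = 1 := by omega
    rw [h4, abs_one]
  have h4 : (c : ℤ) = 1 := by
    rcases Int.isUnit_iff.mp hu with h | h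
    · exact h
    · omega
  rw [h4, one_mul] at h
  exact h

include hp hfin

theorem exists_neighbour {t : Fin n → Fin n → ℤ} (ht : Chm k p t) (i : Fin n) :
    ∃ w : Fin n → ℤ, Chm k p (Function.update t i w) ∧
      ∀ (S : Type u) [AddCommGroup S] [Module A S] [Module k S] [IsScalarTower k A S] [Module.Finite k S],
        St k p (wl t i) S → br k p w S = - br k p (t i) S := by
  classical
  obtain ⟨S, _, _, _, _, _, hS⟩ := exists_wall hp hfin ht i
  obtain ⟨N₀, hN₀⟩ := star_Ws hp hfin (wl t i) (-(t i))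
  obtain ⟨hcmp, hws⟩ := hN₀ N₀ le_rfl
  set z := wl t i with hz
  set v : Fin n → ℤ := N₀ • z + -(t i) with hv
  have hno : NoW k p v := by
    intro X _ _ _ _ _ hX
    obtain ⟨h1, h2⟩ := hws X hX
    obtain ⟨m, hm, hm'⟩ := wall_ws hp hfin ht i hS X h1
    by_contra hsub
    rw [not_subsingleton_iff_nontrivial] at hsub
    have hpos := hm' hsub
    rw [br_neg_left, neg_eq_zero, hm (t i)] at h2
    rcases mul_eq_zero.mp h2 with h3 | h3
    · have : m = 0 := by exact_mod_cast h3
      omega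
    · rcases (wall_pair hp hfin ht i hS).2 with h4 | h4 <;> omega
  obtain ⟨t', c', ht', hc', hsum⟩ := exists_chm_of_NoW hp hfin hno
  have hmem : ∀ j, j ≠ i → ∃ l, t j = t' l := by
    intro j hj
    have s1 : Sbo k p (t j) z := by
      rw [hz, h5_wl]
      exact sum_Sbo hp hfin t ht.cmp _ j (by simp [hj])
    have s2 : Cmp k p (t j) v := Sbo_cmp s1 (Sbo.refl v) hcmp.symm
    have s3 : Sbo k p (t j) v := sbo_of_cmp hp hno s2
    rw [hsum] at s3
    obtain ⟨l, _, hl⟩ := mem_of_sbo_sum hp hfin t' ht'.cmp ht'.prm c' (ht.prm j) s3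
    exact ⟨l, hl⟩
  obtain ⟨σ, hσ⟩ := h5_perm t t' ht.inj i hmem
  have hupd : Function.update t i (t' (σ i)) = t' ∘ σ := by
    funext j
    by_cases hj : j = i
    · subst hj
      simp
    · rw [Function.update_of_ne hj, hσ j hj]
      rfl
  refine ⟨t' (σ i), ?_, ?_⟩
  · rw [hupd]
    exact Chm.perm ht' σ
  · intro S₂ _ _ _ _ _ hS₂
    obtain ⟨hw1, hw2⟩ := wall_pair hp hfin ht i hS₂
    have e1 : br k p v S₂ = - br k p (t i) S₂ := by
      rw [hv, br_add_left, br_neg_left, br_nsmul_left, hS₂.zero, mul_zero, zero_add]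
    have e2 : br k p v S₂ = ∑ j, (c' (σ j) : ℤ) * br k p (t' (σ j)) S₂ := by
      rw [hsum, br_sum_left, ← Equiv.sum_comp σ]
      refine Finset.sum_congr rfl fun j _ => ?_
      rw [br_nsmul_left]
    have e3 : ∑ j, (c' (σ j) : ℤ) * br k p (t' (σ j)) S₂ = (c' (σ i) : ℤ) * br k p (t' (σ i)) S₂ := by
      refine Finset.sum_eq_single i ?_ ?_
      · intro j _ hj
        rw [← hσ j hj, hw1 j hj, mul_zero]
      · intro h
        exact absurd (Finset.mem_univ i) h
    have e4 : (c' (σ i) : ℤ) * br k p (t' (σ i)) S₂ = - br k p (t i) S₂ := by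
      rw [← e3, ← e2, e1]
    exact h5_div (hc' (σ i)) hw2 e4

end

end TB3
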