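import Pool.Agent.LibTB3.R1
import Pool.Agent.LibTB3.C2
/-!
ROW [TB3 L1] MEDIUM.
(cite N1, N2, R1, C2) lifting of homomorphisms and the kernel lemma.
PLAN. lift_hom: θ ∘ mkQ : F.Q → C lifts through π to q : F.Q → M (projective); q ∘ F.f lands in ker π; hK: q F.f = q' F.f with q' : F.Q → ker π;
(q - q') F.f = 0 so q - q' factors through F.M = F.Q ⧸ range F.f, θ'.
ker_E0c_x: K = ker π, K' ≤ K; put K'' = K'.map K.subtype ≤ M; M ⧸ K'' has the submodule K ⧸ K' with quotient ≃ C: br x (K ⧸ K') = br x (M ⧸ K'') - br x C ≥ 0.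
(In practice: br_ker for M ⧸ K'' → C (induced by π, surjective), kernel ≃ K ⧸ K'.)
ker_E0c_y: V = K ⧸ K' with br x V = 0: then M ⧸ K'' is E0c x with br = 0, so Ws (Ws_of_E0c), V is (isomorphic to) a submodule with br 0, so Ws (Ws_sub), so
0 ≤ br y V by hW.  If br x V ≥ 1: |br y V| ≤ C (br_bound y K).  So with N = C + 1: E0c (N • x + 1 • y) K, and E0c_comb gives E0c y K.
-/
set_option autoImplicit false
universe u
namespace TB3
open Module TB10

section
variable {k : Type u} [Field k] {A : Type u} [Ring A] [Algebra k A]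
variable {n : ℕ} {p : Fin n → Submodule A A}
    {M : Type u} [AddCommGroup M] [Module A M] [Module k M] [IsScalarTower k A M] [Module.Finite k M]
    {C : Type u} [AddCommGroup C] [Module A C] [Module k C] [IsScalarTower k A C] [Module.Finite k C]
    [Module.Finite k A]

theorem lift_hom (F : Pres k A) (π : M →ₗ[A] C) (hπ : Function.Surjective π)
    (hK : E0 F.f (LinearMap.ker π)) (θ : F.M →ₗ[A] C) : ∃ θ' : F.M →ₗ[A] M, π ∘ₗ θ' = θ := by
  obtain ⟨q, hq⟩ := Module.projective_lifting_property π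
    (θ ∘ₗ (LinearMap.range F.f).mkQ) hπ
  have hq1 : ∀ y, π (q y) = θ ((LinearMap.range F.f).mkQ y) := fun y => LinearMap.congr_fun hq y
  have hker : ∀ y : F.P, (q ∘ₗ F.f) y ∈ LinearMap.ker π := by
    intro y
    rw [LinearMap.mem_ker, LinearMap.comp_apply, hq1]
    have h1 : (LinearMap.range F.f).mkQ (F.f y) = 0 := by
      rw [Submodule.mkQ_apply, Submodule.Quotient.mk_eq_zero]
      exact ⟨y, rfl⟩
    rw [h1, map_zero]
  obtain ⟨q', hq'⟩ := hK (LinearMap.codRestrict (LinearMap.ker π) (q ∘ₗ F.f) hker)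
  have hq2 : ∀ y : F.P, ((q' (F.f y) : LinearMap.ker π) : M) = q (F.f y) := by
    intro y
    have h1 := LinearMap.congr_fun hq' y
    rw [LinearMap.comp_apply] at h1
    rw [h1]
    rfl
  obtain ⟨r, hr⟩ : ∃ r : F.Q →ₗ[A] M, r = q - (LinearMap.ker π).subtype ∘ₗ q' := ⟨_, rfl⟩
  have hrange : LinearMap.range F.f ≤ LinearMap.ker r := by
    rintro _ ⟨y, rfl⟩
    rw [LinearMap.mem_ker, hr, LinearMap.sub_apply, LinearMap.comp_apply, Submodule.subtype_apply,
      hq2, sub_self]
  refine ⟨(LinearMap.range F.f).liftQ r hrange, ?_⟩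
  refine Submodule.linearMap_qext _ ?_
  ext y
  rw [LinearMap.comp_apply, LinearMap.comp_apply, Submodule.mkQ_apply, Submodule.liftQ_apply, hr,
    LinearMap.sub_apply, map_sub, hq1, LinearMap.comp_apply, Submodule.subtype_apply,
    LinearMap.mem_ker.1 (q' y).2, sub_zero]
  rfl

/-- the quotient `K ⧸ K'` as a kernel. -/
theorem l1_ker (π : M →ₗ[A] C) (hπ : Function.Surjective π)
    (K' : Submodule A (LinearMap.ker π)) :
    ∃ π' : (M ⧸ K'.map (LinearMap.ker π).subtype) →ₗ[A] C, Function.Surjective π' ∧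
      Nonempty (((LinearMap.ker π) ⧸ K') ≃ₗ[A] LinearMap.ker π') := by
  have hle : K'.map (LinearMap.ker π).subtype ≤ LinearMap.ker π := Submodule.map_subtype_le _ _
  obtain ⟨π', hπ'⟩ : ∃ π' : (M ⧸ K'.map (LinearMap.ker π).subtype) →ₗ[A] C,
      π' = (K'.map (LinearMap.ker π).subtype).liftQ π hle := ⟨_, rfl⟩
  have hmk : ∀ m, π' (Submodule.Quotient.mk m) = π m := fun m => by
    rw [hπ', Submodule.liftQ_apply]
  refine ⟨π', ?_, ?_⟩
  · intro c
    obtain ⟨m, rfl⟩ := hπ c
    exact ⟨Submodule.Quotient.mk m, hmk m⟩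
  · have hφk : ∀ v : LinearMap.ker π, ((K'.map (LinearMap.ker π).subtype).mkQ ∘ₗ
        (LinearMap.ker π).subtype) v ∈ LinearMap.ker π' := by
      intro v
      rw [LinearMap.mem_ker, LinearMap.comp_apply, Submodule.mkQ_apply, hmk]
      exact LinearMap.mem_ker.1 v.2
    obtain ⟨φ, hφ⟩ : ∃ φ : LinearMap.ker π →ₗ[A] LinearMap.ker π',
        ∀ v, ((φ v : LinearMap.ker π') : M ⧸ K'.map (LinearMap.ker π).subtype) =
          Submodule.Quotient.mk (v : M) :=
      ⟨LinearMap.codRestrict _ _ hφk, fun v => rfl⟩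
    have hsur : Function.Surjective φ := by
      rintro ⟨w, hw⟩
      obtain ⟨m, rfl⟩ := Submodule.Quotient.mk_surjective _ w
      rw [LinearMap.mem_ker, hmk] at hw
      exact ⟨⟨m, LinearMap.mem_ker.2 hw⟩, Subtype.ext (hφ _)⟩
    have hkerφ : LinearMap.ker φ = K' := by
      ext v
      rw [LinearMap.mem_ker, ← Submodule.coe_eq_zero, hφ, Submodule.Quotient.mk_eq_zero,
        Submodule.mem_map]
      constructor
      · rintro ⟨w, hw, hwv⟩
        have : w = v := Subtype.ext hwv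
        rwa [← this]
      · intro hv
        exact ⟨v, hv, rfl⟩
    exact ⟨(Submodule.quotEquivOfEq _ _ hkerφ.symm).trans (φ.quotKerEquivOfSurjective hsur)⟩

theorem ker_E0c_x (hp : Bas k p) {x : Fin n → ℤ} (π : M →ₗ[A] C) (hπ : Function.Surjective π)
    (hM : E0c k p x M) (hC : br k p x C ≤ 0) : E0c k p x (LinearMap.ker π) := by
  intro K'
  obtain ⟨π', hπ', ⟨e⟩⟩ := l1_ker π hπ K'
  have h1 := br_ker hp x π' hπ'
  have h2 := br_congr (k := k) (p := p) x e
  have h3 := hM (K'.map (LinearMap.ker π).subtype)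
  rw [h2]
  linarith

theorem ker_E0c_y [Infinite k] (hp : Bas k p) (hfin : FinB k A) {x y : Fin n → ℤ} (hxy : Cmp k p x y)
    (hW : ∀ (V : Type u) [AddCommGroup V] [Module A V] [Module k V] [IsScalarTower k A V]
      [Module.Finite k V], Ws k p x V → E0c k p y V)
    (π : M →ₗ[A] C) (hπ : Function.Surjective π) (hM : E0c k p x M) (hC : Ws k p x C) :
    E0c k p y (LinearMap.ker π) := by
  have hC0 : br k p x C = 0 := Ws_br hC
  have hKx : E0c k p x (LinearMap.ker π) := ker_E0c_x hp π hπ hM hC0.le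
  obtain ⟨B, hB⟩ := br_bound hp y (LinearMap.ker π)
  have hcomb : E0c k p ((B + 1) • x + 1 • y) (LinearMap.ker π) := by
    intro K'
    rw [br_add_left, br_nsmul_left, br_nsmul_left, Nat.cast_one, one_mul]
    have h1 := hKx K'
    rcases h1.eq_or_lt with h2 | h2
    · -- `⟨x, V⟩ = 0`
      obtain ⟨π', hπ', ⟨e⟩⟩ := l1_ker π hπ K'
      have h3 := br_ker hp x π' hπ'
      have h4 := br_congr (k := k) (p := p) x e
      have hE : E0c k p x (M ⧸ K'.map (LinearMap.ker π).subtype) :=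
        E0c_surj (Submodule.mkQ _) (Submodule.mkQ_surjective _) hM
      have hWs : Ws k p x (M ⧸ K'.map (LinearMap.ker π).subtype) :=
        Ws_of_E0c hp hE (by rw [h3, ← h4, ← h2, hC0]; norm_num)
      have hWk : Ws k p x (LinearMap.ker π') :=
        (Ws_sub hp hWs (LinearMap.ker π') (by rw [← h4, ← h2])).1
      have hV := hW _ (Ws_congr e.symm hWk)
      have h5 := E0c_br hV
      rw [← h2, mul_zero, zero_add]
      exact h5
    · have h3 := (abs_le.1 (hB K').1).1
      have h4 : (1 : ℤ) ≤ br k p x ((LinearMap.ker π) ⧸ K') := h2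
      have h5 : (0 : ℤ) ≤ (B : ℤ) := Nat.cast_nonneg B
      push_cast
      nlinarith
  exact ((E0c_comb hp hfin hxy (Nat.succ_pos B) one_pos).1 hcomb).2

end

end TB3
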