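import Pool.Agent.LibTB3.N2
import Pool.Agent.LibTB10.P1
/-!
ROW [TB3 N3] MEDIUM.
(cite N1, N2) Stable modules.
PLAN. St.ws: K = ⊥: 0, K = ⊤: br = br S = 0 (via ⊤ ≃ S), else < 0: H0c; then Ws_of_H0c.
St.surj: h : X → S, h ≠ 0, E0c x X: range h is Ws (Ws_range), br (range h) = 0, range h ≠ ⊥, so range h = ⊤ by St.neg.
St.inj: h : S → X, h ≠ 0, H0c x X: ker h ≠ ⊤; range h is Ws so br (range h) = 0, S ⧸ ker h ≃ range h, so br (ker h) = 0, so ker h = ⊥.
St.bij: both.  St.scalar: copy the proof of TB10.P1.schur (eigenvalue of h.restrictScalars k, S nontrivial and finite over k; h - c•id not injective, so 0 by St.bij).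
St.pos: br (S ⧸ K) = - br K > 0.  St.congr: transport submodules along e.
-/
set_option autoImplicit false
universe u
namespace TB3
open Module TB10

section
variable {k : Type u} [Field k] {A : Type u} [Ring A] [Algebra k A]
variable {n : ℕ} {p : Fin n → Submodule A A}
    {S : Type u} [AddCommGroup S] [Module A S] [Module k S] [IsScalarTower k A S] [Module.Finite k S]
    {S' : Type u} [AddCommGroup S'] [Module A S'] [Module k S'] [IsScalarTower k A S'] [Module.Finite k S']
    {X : Type u} [AddCommGroup X] [Module A X] [Module k X] [IsScalarTower k A X] [Module.Finite k X]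

theorem St.congr {x : Fin n → ℤ} (hS : St k p x S) (e : S ≃ₗ[A] S') : St k p x S' := by
  have := hS.nt
  refine ⟨e.symm.toEquiv.nontrivial, (br_congr x e).symm.trans hS.zero, fun K h0 h1 => ?_⟩
  have hm : (K.comap (e : S →ₗ[A] S')).map (e : S →ₗ[A] S') = K :=
    Submodule.map_comap_eq_of_surjective e.surjective K
  have e1 : br k p x (K.comap (e : S →ₗ[A] S')) = br k p x K := br_congr x (e.ofSubmodule' K)
  rw [← e1]
  apply hS.neg
  · intro h
    apply h0
    rw [← hm, h, Submodule.map_bot]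
  · intro h
    apply h1
    rw [← hm, h, Submodule.map_top]
    exact LinearMap.range_eq_top.2 e.surjective

variable [Module.Finite k A]

theorem St.ws (hp : Bas k p) {x : Fin n → ℤ} (hS : St k p x S) : Ws k p x S := by
  refine Ws_of_H0c hp (fun K => ?_) hS.zero.ge
  by_cases h0 : K = ⊥
  · subst h0
    exact (br_subsingleton x).le
  by_cases h1 : K = ⊤
  · subst h1
    exact ((br_congr x Submodule.topEquiv).trans hS.zero).le
  exact (hS.neg K h0 h1).le

theorem St.pos (hp : Bas k p) {x : Fin n → ℤ} (hS : St k p x S) (K : Submodule A S) (h0 : K ≠ ⊥)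
    (h1 : K ≠ ⊤) : 0 < br k p x (S ⧸ K) := by
  have h2 := br_add hp x K
  have h3 := hS.neg K h0 h1
  have h4 := hS.zero
  omega

theorem St.surj (hp : Bas k p) {x : Fin n → ℤ} (hS : St k p x S) (hX : E0c k p x X)
    (h : X →ₗ[A] S) (h0 : h ≠ 0) : Function.Surjective h := by
  have h1 := Ws_br (Ws_range hp h hX (hS.ws hp).2)
  rw [← LinearMap.range_eq_top]
  by_contra h2
  have h3 := hS.neg (LinearMap.range h) (fun h4 => h0 (LinearMap.range_eq_bot.1 h4)) h2
  omega

theorem St.inj (hp : Bas k p) {x : Fin n → ℤ} (hS : St k p x S) (hX : H0c k p x X)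
    (h : S →ₗ[A] X) (h0 : h ≠ 0) : Function.Injective h := by
  have h1 := Ws_br (Ws_range hp h (hS.ws hp).1 hX)
  have h2 := br_ker hp x h.rangeRestrict (LinearMap.surjective_rangeRestrict h)
  have h3 : LinearMap.ker h.rangeRestrict = LinearMap.ker h := LinearMap.ker_rangeRestrict h
  rw [h3] at h2
  rw [← LinearMap.ker_eq_bot]
  by_contra h4
  have h5 := hS.neg (LinearMap.ker h) h4 (fun h6 => h0 (LinearMap.ker_eq_top.1 h6))
  have h7 := hS.zero
  omega

theorem St.bij (hp : Bas k p) {x : Fin n → ℤ} (hS : St k p x S) (hS' : St k p x S')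
    (h : S →ₗ[A] S') (h0 : h ≠ 0) : Function.Bijective h := by
  exact ⟨hS.inj hp (hS'.ws hp).2 h h0, hS'.surj hp (hS.ws hp).1 h h0⟩

theorem St.isBrick (hp : Bas k p) {x : Fin n → ℤ} (hS : St k p x S) : IsBrick A S := by
  exact ⟨hS.nt, fun h h0 => hS.bij hp hS h h0⟩

theorem St.scalar [IsAlgClosed k] (hp : Bas k p) {x : Fin n → ℤ} (hS : St k p x S)
    (h : S →ₗ[A] S) : ∃ c : k, h = c • LinearMap.id := by
  have : Nontrivial S := hS.nt
  obtain ⟨l, hl⟩ := Module.End.exists_eigenvalue (K := k) (V := S) (h.restrictScalars k)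
  obtain ⟨v, hv⟩ := hl.exists_hasEigenvector
  refine ⟨l, ?_⟩
  by_contra hne
  have hne' : h - l • LinearMap.id ≠ 0 := sub_ne_zero.mpr hne
  have hb := hS.bij hp hS (h - l • LinearMap.id) hne'
  apply hv.2
  apply hb.1
  rw [map_zero]
  have := hv.apply_eq_smul
  simp only [LinearMap.sub_apply, LinearMap.smul_apply, LinearMap.id_apply]
  rw [sub_eq_zero]
  exact this

/-- a quotient `X → S` of an `E0c` module with `⟨x, ·⟩ ≤ 0`... : a semistable `X` with all proper nonzero submodules negative -/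
theorem St.of_ws (hp : Bas k p) {x : Fin n → ℤ} [Nontrivial X] (hX : Ws k p x X)
    (h : ∀ K : Submodule A X, Ws k p x K → K = ⊥ ∨ K = ⊤) : St k p x X := by
  refine ⟨inferInstance, Ws_br hX, fun K h0 h1 => ?_⟩
  refine lt_of_le_of_ne (hX.2 K) fun h2 => ?_
  rcases h K (Ws_sub hp hX K h2).1 with h3 | h3
  · exact h0 h3
  · exact h1 h3

end

end TB3
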