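import Pool.Agent.LibTB3.L1
import Pool.Agent.LibTB3.N3
import Pool.Agent.LibTB3.D3
/-!
ROW [TB3 L2] MEDIUM.
(cite R1, N2, N3, D3, L1) the Loc lemma.
PLAN. two_maps: M = F.M is E0c x (Tc_M: Tc y M, and Cmp).  θ is surjective (St.surj), K = ker θ is E0c x (ker_E0c_x).  If θ' vanishes on K then θ' = γ ∘ θ
(`LinearMap` factorisation: γ = Submodule.liftQ composed with the inverse of quotKerEquivOfSurjective).  Otherwise θ' restricted to K is surjective (St.surj), so
(θ, θ') : M → S × S' is surjective, S × S' is semistable (Ws_ext), E0c y (ker (θ,θ')) (ker_E0c_y), so E0 F.f of it (E0_iff), and (θ, 0) lifts: e : M → M with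
θ e = θ, θ' e = 0 (lift_hom).  loc_M: e nilpotent gives θ = θ e^m = 0; e bijective gives θ' = 0.  M is nontrivial since θ ≠ 0.
br_dual: E0 F.f S (S is Ws x, so E0c y by hW), so br y S = finrank Hom(M,S) (finrank_hom); if it is not 0 take θ ≠ 0; every θ' is γ θ with γ scalar (St.scalar), so
finrank = 1 (finrank_eq_one_iff').
iso_of_dual: θ : M → S, θ' : M → S' nonzero, γ ≠ 0 so bijective (St.bij).
-/
set_option autoImplicit false
universe u
namespace TB3
open Module TB10

section
variable {k : Type u} [Field k] {A : Type u} [Ring A] [Algebra k A]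
variable {n : ℕ} {p : Fin n → Submodule A A}
    {S : Type u} [AddCommGroup S] [Module A S] [Module k S] [IsScalarTower k A S] [Module.Finite k S]
    {S' : Type u} [AddCommGroup S'] [Module A S'] [Module k S'] [IsScalarTower k A S'] [Module.Finite k S']
    [Module.Finite k A] [Infinite k]

omit [Infinite k] in
theorem l2_prod_ws (hp : Bas k p) {x : Fin n → ℤ} (h : Ws k p x S) (h' : Ws k p x S') :
    Ws k p x (S × S') := by
  have e1 : S ≃ₗ[A] LinearMap.ker (LinearMap.snd A S S') :=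
    (LinearEquiv.ofInjective (LinearMap.inl A S S') LinearMap.inl_injective).trans
      (LinearEquiv.ofEq _ _ (LinearMap.range_inl A S S'))
  have e2 : S' ≃ₗ[A] ((S × S') ⧸ LinearMap.ker (LinearMap.snd A S S')) :=
    (LinearMap.quotKerEquivOfSurjective (LinearMap.snd A S S') LinearMap.snd_surjective).symm
  exact Ws_ext hp (LinearMap.ker (LinearMap.snd A S S')) (Ws_congr e1 h) (Ws_congr e2 h')

theorem l2_factor {M : Type u} [AddCommGroup M] [Module A M] (θ : M →ₗ[A] S)
    (hs : Function.Surjective θ) (θ' : M →ₗ[A] S')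
    (h : θ' ∘ₗ (LinearMap.ker θ).subtype = 0) : ∃ γ : S →ₗ[A] S', θ' = γ ∘ₗ θ := by
  have hk : LinearMap.ker θ ≤ LinearMap.ker θ' := by
    intro m hm
    exact LinearMap.congr_fun h ⟨m, hm⟩
  refine ⟨((LinearMap.ker θ).liftQ θ' hk) ∘ₗ
    (LinearMap.quotKerEquivOfSurjective θ hs).symm.toLinearMap, ?_⟩
  ext m
  have h1 : (LinearMap.quotKerEquivOfSurjective θ hs).symm (θ m) = Submodule.Quotient.mk m := by
    rw [LinearEquiv.symm_apply_eq]
    rfl
  rw [LinearMap.comp_apply, LinearMap.comp_apply, LinearEquiv.coe_coe, h1,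
    Submodule.liftQ_apply]

theorem two_maps (hp : Bas k p) (hfin : FinB k A) {x y : Fin n → ℤ} (hxy : Cmp k p x y)
    (hW : ∀ (V : Type u) [AddCommGroup V] [Module A V] [Module k V] [IsScalarTower k A V]
      [Module.Finite k V], Ws k p x V → E0c k p y V)
    {F : Pres k A} (hF : Rigid F.f) (hL : LocP F) (hy : Cl k p F y)
    (hS : St k p x S) (hS' : St k p x S') (θ : F.M →ₗ[A] S) (hθ : θ ≠ 0) (θ' : F.M →ₗ[A] S')
    (hθ' : θ' ≠ 0) : ∃ γ : S →ₗ[A] S', θ' = γ ∘ₗ θ := by
  have hM : E0c k p x F.M := hxy.2 F.M (Tc_M hF hy)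
  have hs := hS.surj hp hM θ hθ
  have hK : E0c k p x (LinearMap.ker θ) := ker_E0c_x hp θ hs hM hS.zero.le
  by_cases h0 : θ' ∘ₗ (LinearMap.ker θ).subtype = 0
  · exact l2_factor θ hs θ' h0
  · exfalso
    have hs' := hS'.surj hp hK _ h0
    have hΘ : Function.Surjective (θ.prod θ') := by
      rintro ⟨a, b⟩
      obtain ⟨m, hm⟩ := hs a
      obtain ⟨κ, hκ⟩ := hs' (b - θ' m)
      refine ⟨m + κ, ?_⟩
      have h1 : θ (κ : F.M) = 0 := κ.2
      have h2 : θ' (κ : F.M) = b - θ' m := hκ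
      rw [LinearMap.prod_apply]
      refine Prod.ext ?_ ?_
      · show θ (m + κ) = a
        rw [map_add, h1, hm, add_zero]
      · show θ' (m + κ) = b
        rw [map_add, h2, add_sub_cancel]
    have hW2 : Ws k p x (S × S') := l2_prod_ws hp (hS.ws hp) (hS'.ws hp)
    have hKy : E0c k p y (LinearMap.ker (θ.prod θ')) :=
      ker_E0c_y hp hfin hxy hW (θ.prod θ') hΘ hM hW2
    have hE0 : E0 F.f (LinearMap.ker (θ.prod θ')) := (E0_iff hF hy).2 hKy
    obtain ⟨e, he⟩ := lift_hom F (θ.prod θ') hΘ hE0 (LinearMap.inl A S S' ∘ₗ θ)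
    have he1 : θ ∘ₗ e = θ := by
      refine LinearMap.ext fun m => ?_
      have h1 := congrArg Prod.fst (LinearMap.congr_fun he m)
      exact h1
    have he2 : θ' ∘ₗ e = 0 := by
      refine LinearMap.ext fun m => ?_
      have h1 := congrArg Prod.snd (LinearMap.congr_fun he m)
      exact h1
    have hnt : Nontrivial F.M := by
      by_contra hcon
      rw [not_nontrivial_iff_subsingleton] at hcon
      apply hθ
      refine LinearMap.ext fun m => ?_
      rw [Subsingleton.elim m 0, map_zero, map_zero]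
    rcases loc_M hL hnt e with hnil | hbij
    · obtain ⟨m, hm⟩ := hnil
      have h1 : ∀ j : ℕ, θ ∘ₗ ((e : Module.End A F.M) ^ j) = θ := by
        intro j
        induction j with
        | zero =>
          rw [pow_zero]
          rfl
        | succ j ih =>
          rw [pow_succ', Module.End.mul_eq_comp, ← LinearMap.comp_assoc, he1, ih]
      apply hθ
      rw [← h1 m, hm, LinearMap.comp_zero]
    · apply hθ'
      refine LinearMap.ext fun m => ?_
      obtain ⟨m', rfl⟩ := hbij.2 m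
      exact LinearMap.congr_fun he2 m'

theorem br_dual [IsAlgClosed k] (hp : Bas k p) (hfin : FinB k A) {x y : Fin n → ℤ} (hxy : Cmp k p x y)
    (hW : ∀ (V : Type u) [AddCommGroup V] [Module A V] [Module k V] [IsScalarTower k A V]
      [Module.Finite k V], Ws k p x V → E0c k p y V)
    (hy : Prm k p y) (hS : St k p x S) : br k p y S = 0 ∨ br k p y S = 1 := by
  obtain ⟨-, F, hF, hL, hFy⟩ := hy
  have h1 := finrank_hom hFy ((E0_iff hF hFy).2 (hW S (hS.ws hp)))
  by_cases h : ∃ θ : F.M →ₗ[A] S, θ ≠ 0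
  · right
    obtain ⟨θ, hθ⟩ := h
    have h2 : finrank k (F.M →ₗ[A] S) = 1 := by
      refine finrank_eq_one θ hθ ?_
      intro θ'
      by_cases h3 : θ' = 0
      · exact ⟨0, by rw [h3, zero_smul]⟩
      · obtain ⟨γ, hγ⟩ := two_maps hp hfin hxy hW hF hL hFy hS hS θ hθ θ' h3
        obtain ⟨c, hc⟩ := hS.scalar hp γ
        refine ⟨c, ?_⟩
        rw [hγ, hc]
        rfl
    rw [← h1, h2]
    rfl
  · left
    push Not at h
    have h2 : Subsingleton (F.M →ₗ[A] S) := ⟨fun a b => by rw [h a, h b]⟩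
    rw [← h1, finrank_zero_of_subsingleton]
    rfl

theorem iso_of_dual (hp : Bas k p) (hfin : FinB k A) {x y : Fin n → ℤ} (hxy : Cmp k p x y)
    (hW : ∀ (V : Type u) [AddCommGroup V] [Module A V] [Module k V] [IsScalarTower k A V]
      [Module.Finite k V], Ws k p x V → E0c k p y V)
    (hy : Prm k p y) (hS : St k p x S) (hS' : St k p x S') (h : br k p y S ≠ 0)
    (h' : br k p y S' ≠ 0) : Nonempty (S ≃ₗ[A] S') := by
  obtain ⟨-, F, hF, hL, hFy⟩ := hy
  have h1 := finrank_hom hFy ((E0_iff hF hFy).2 (hW S (hS.ws hp)))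
  have h1' := finrank_hom hFy ((E0_iff hF hFy).2 (hW S' (hS'.ws hp)))
  have h2 : ∃ θ : F.M →ₗ[A] S, θ ≠ 0 := by
    by_contra hcon
    push Not at hcon
    have h3 : Subsingleton (F.M →ₗ[A] S) := ⟨fun a b => by rw [hcon a, hcon b]⟩
    apply h
    rw [← h1, finrank_zero_of_subsingleton]
    rfl
  have h2' : ∃ θ : F.M →ₗ[A] S', θ ≠ 0 := by
    by_contra hcon
    push Not at hcon
    have h3 : Subsingleton (F.M →ₗ[A] S') := ⟨fun a b => by rw [hcon a, hcon b]⟩
    apply h'
    rw [← h1', finrank_zero_of_subsingleton]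
    rfl
  obtain ⟨θ, hθ⟩ := h2
  obtain ⟨θ', hθ'⟩ := h2'
  obtain ⟨γ, hγ⟩ := two_maps hp hfin hxy hW hF hL hFy hS hS' θ hθ θ' hθ'
  have hγ0 : γ ≠ 0 := by
    rintro rfl
    apply hθ'
    rw [hγ, LinearMap.zero_comp]
  exact ⟨LinearEquiv.ofBijective γ (hS.bij hp hS' γ hγ0)⟩

end

end TB3
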