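import Pool.Agent.LibTB3.L2
import Pool.Agent.LibTB3.C3
import Pool.Agent.LibTB3.D2
/-!
ROW [TB3 L3] SHORT/MEDIUM.
(cite C3, C4, D2, L2) dual classes.
PLAN. u = fun _ => 1.  star x u: N with Cmp (N • x + u) x.  z = N • x + u = l.sum, l from exists_dec.  For V semistable for x: E0c z V: br z (V ⧸ K) = N br x + br u ≥ 0
(E0c x V; br_one_nonneg), so E0c y V for all y ∈ l (E0c_list).  Cmp x y by Cmp_list.  br z S = N * 0 + br u S > 0 (br_one_pos) and br z S = ∑ br y S
(br_list_sum), all terms ≥ 0, so some y ∈ l has br y S ≠ 0, so = 1 (br_dual), and 0 on the other stables (iso_of_dual).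
-/
set_option autoImplicit false
universe u
namespace TB3
open Module TB10

section
variable {k : Type u} [Field k] {A : Type u} [Ring A] [Algebra k A]
variable {n : ℕ} {p : Fin n → Submodule A A}
    {S : Type u} [AddCommGroup S] [Module A S] [Module k S] [IsScalarTower k A S] [Module.Finite k S]
    [Module.Finite k A] [Infinite k] [IsAlgClosed k]

theorem exists_dual (hp : Bas k p) (hfin : FinB k A) {x : Fin n → ℤ} (hS : St k p x S) :
    ∃ y, Dl k p x S y := by
  obtain ⟨N, hN⟩ := star hp hfin x (fun _ => 1)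
  have hz := hN N le_rfl
  obtain ⟨l, hprm, hcp, hsum⟩ := exists_dec hp hfin (N • x + fun _ => (1 : ℤ))
  have hW : ∀ y ∈ l, ∀ (V : Type u) [AddCommGroup V] [Module A V] [Module k V]
      [IsScalarTower k A V] [Module.Finite k V], Ws k p x V → E0c k p y V := by
    intro y hy V _ _ _ _ _ hV
    have h1 : E0c k p l.sum V := by
      rw [hsum]
      intro K
      rw [br_add_left, br_nsmul_left]
      have h2 := hV.1 K
      have h3 : 0 ≤ br k p (fun _ => 1) (V ⧸ K) := br_one_nonneg
      positivity
    exact (E0c_list hp hfin hcp).1 h1 y hy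
  have hcmp : ∀ y ∈ l, Cmp k p x y := by
    have h1 : Cmp k p x l.sum := by
      rw [hsum]
      exact hz.symm
    exact (Cmp_list hp hfin hcp x).1 h1
  obtain ⟨y, hyl, hy0⟩ : ∃ y ∈ l, br k p y S ≠ 0 := by
    by_contra hcon
    push Not at hcon
    have h1 : br k p l.sum S = 0 := by
      rw [br_list_sum]
      refine List.sum_eq_zero ?_
      intro z hz
      obtain ⟨y, hy, rfl⟩ := List.mem_map.1 hz
      exact hcon y hy
    have := hS.nt
    have h2 : 0 < br k p (fun _ => 1) S := br_one_pos hp
    rw [hsum, br_add_left, br_nsmul_left, hS.zero, mul_zero, zero_add] at h1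
    omega
  refine ⟨y, hprm y hyl, hcmp y hyl, fun V => hW y hyl V, ?_, ?_⟩
  · rcases br_dual hp hfin (hcmp y hyl) (fun V => hW y hyl V) (hprm y hyl) hS with h | h
    · exact absurd h hy0
    · exact h
  · intro S' _ _ _ _ _ hS' hne
    by_contra h
    obtain ⟨e⟩ := iso_of_dual hp hfin (hcmp y hyl) (fun V => hW y hyl V) (hprm y hyl) hS hS' hy0 h
    exact hne.false e

end

end TB3
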