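import Pool.Agent.LibTB3.Defs
import Pool.Agent.LibTB10.P2
/-!
ROW [TB3 N1] SHORT/MEDIUM (API, 17 small lemmas).
The pairing `br k p x X = ∑ i, x i * dim Hom(p i, X)`.
PLAN. Bas.proj: p i = {a | a e = a} is a direct summand of A: projection a ↦ a e (LinearMap.toSpanSingleton / codRestrict), `Module.Projective.of_split`.
br_add: TB10.hom_add for P₀ = p i (finite over k: TB10.instFinSub), sum over i.  br_congr: finrank of Hom(p i, .) is invariant under e
(TB10.p3_finrank_congr in LibTB10/P3 or `LinearEquiv.congrRight`-like by hand).  br_ker: br_add with N = ker f and X ⧸ ker f ≃ Y.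
br_*_left, br_sum, br_list_sum: unfold, Finset.sum_add_distrib, mul_sum, induction.  br_one_pos: some Hom(p i, X) ≠ 0 by hp.faithful, so its finrank is
positive (TB10.instFinHom).  br_bound: C = ∑ |x i| * finrank Hom(p i, X); finrank Hom(p i, K) ≤ finrank Hom(p i, X) and
finrank Hom(p i, X ⧸ K) ≤ finrank Hom(p i, X) by hom_add.
-/
set_option autoImplicit false
universe u
namespace TB3
open Module TB10

section
variable {k : Type u} [Field k] {A : Type u} [Ring A] [Algebra k A]
variable {n : ℕ} {p : Fin n → Submodule A A}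
    {X : Type u} [AddCommGroup X] [Module A X] [Module k X] [IsScalarTower k A X] [Module.Finite k X]
    {Y : Type u} [AddCommGroup Y] [Module A Y] [Module k Y] [IsScalarTower k A Y] [Module.Finite k Y]

theorem Bas.proj (hp : Bas k p) (i : Fin n) : Module.Projective A (p i) := by
  obtain ⟨e, he, hm⟩ := hp.idem i
  have hs : ∀ a : A, LinearMap.toSpanSingleton A A e a ∈ p i := by
    intro a
    rw [hm, LinearMap.toSpanSingleton_apply, smul_eq_mul, mul_assoc, he]
  refine Module.Projective.of_split (p i).subtype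
    (LinearMap.codRestrict (p i) (LinearMap.toSpanSingleton A A e) hs) ?_
  ext a
  simp only [LinearMap.comp_apply, LinearMap.id_apply, LinearMap.codRestrict_apply,
    LinearMap.toSpanSingleton_apply, smul_eq_mul, Submodule.subtype_apply]
  exact (hm a.1).1 a.2

/-- `Hom(P, X) ≃ Hom(P, Y)` for `X ≃ Y`, `k`-linear -/
def n1_congr {P : Type u} [AddCommGroup P] [Module A P]
    {X : Type u} [AddCommGroup X] [Module A X] [Module k X] [IsScalarTower k A X]
    {Y : Type u} [AddCommGroup Y] [Module A Y] [Module k Y] [IsScalarTower k A Y]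
    (e : X ≃ₗ[A] Y) : (P →ₗ[A] X) ≃ₗ[k] (P →ₗ[A] Y) where
  toFun h := e.toLinearMap ∘ₗ h
  invFun h := e.symm.toLinearMap ∘ₗ h
  left_inv h := by
    ext a
    simp
  right_inv h := by
    ext a
    simp
  map_add' h h' := by
    ext a
    simp
  map_smul' c h := by
    ext a
    simp only [LinearMap.comp_apply, LinearMap.smul_apply, LinearEquiv.coe_coe, RingHom.id_apply]
    rw [← algebraMap_smul A c (h a), map_smul, algebraMap_smul]

theorem br_add [Module.Finite k A] (hp : Bas k p) (x : Fin n → ℤ) (N : Submodule A X) :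
    br k p x X = br k p x N + br k p x (X ⧸ N) := by
  rw [br, br, br, ← Finset.sum_add_distrib]
  apply Finset.sum_congr rfl
  intro i _
  have := hp.proj i
  rw [hom_add (k := k) (P₀ := p i) N]
  push_cast
  ring

theorem br_congr (x : Fin n → ℤ) (e : X ≃ₗ[A] Y) : br k p x X = br k p x Y := by
  rw [br, br]
  apply Finset.sum_congr rfl
  intro i _
  rw [LinearEquiv.finrank_eq (n1_congr (k := k) (P := p i) e)]

theorem br_ker [Module.Finite k A] (hp : Bas k p) (x : Fin n → ℤ) (f : X →ₗ[A] Y) (hf : Function.Surjective f) :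
    br k p x X = br k p x (LinearMap.ker f) + br k p x Y := by
  rw [br_add hp x (LinearMap.ker f), br_congr x (f.quotKerEquivOfSurjective hf)]

theorem br_add_left (x y : Fin n → ℤ) : br k p (x + y) X = br k p x X + br k p y X := by
  rw [br, br, br, ← Finset.sum_add_distrib]
  apply Finset.sum_congr rfl
  intro i _
  rw [Pi.add_apply, add_mul]

theorem br_zsmul_left (m : ℤ) (x : Fin n → ℤ) : br k p (m • x) X = m * br k p x X := by
  rw [br, br, Finset.mul_sum]
  apply Finset.sum_congr rfl
  intro i _
  rw [Pi.smul_apply, smul_eq_mul, mul_assoc]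

theorem br_neg_left (x : Fin n → ℤ) : br k p (-x) X = - br k p x X := by
  have h := br_zsmul_left (k := k) (p := p) (X := X) (-1) x
  rw [neg_one_smul, neg_one_mul] at h
  exact h

theorem br_sub_left (x y : Fin n → ℤ) : br k p (x - y) X = br k p x X - br k p y X := by
  rw [sub_eq_add_neg, br_add_left, br_neg_left, sub_eq_add_neg]

theorem br_nsmul_left (m : ℕ) (x : Fin n → ℤ) : br k p (m • x) X = m * br k p x X := by
  have h := br_zsmul_left (k := k) (p := p) (X := X) (m : ℤ) x
  rw [natCast_zsmul] at h
  exact h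

theorem br_zero_left : br k p (0 : Fin n → ℤ) X = 0 := by
  rw [br]
  apply Finset.sum_eq_zero
  intro i _
  rw [Pi.zero_apply, zero_mul]

theorem br_sum_left {ι : Type*} (s : Finset ι) (x : ι → Fin n → ℤ) :
    br k p (∑ i ∈ s, x i) X = ∑ i ∈ s, br k p (x i) X := by
  classical
  induction s using Finset.induction_on with
  | empty => simp [br_zero_left]
  | insert a s ha ih => rw [Finset.sum_insert ha, Finset.sum_insert ha, br_add_left, ih]

theorem br_list_sum (l : List (Fin n → ℤ)) :
    br k p l.sum X = (l.map fun y => br k p y X).sum := by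
  induction l with
  | nil => simp [br_zero_left]
  | cons a l ih => rw [List.sum_cons, List.map_cons, List.sum_cons, br_add_left, ih]

theorem br_subsingleton [Subsingleton X] (x : Fin n → ℤ) : br k p x X = 0 := by
  rw [br]
  apply Finset.sum_eq_zero
  intro i _
  have : Subsingleton (p i →ₗ[A] X) := ⟨fun f g => by
    ext a
    exact Subsingleton.elim _ _⟩
  rw [finrank_zero_of_subsingleton]
  simp

theorem br_one_nonneg : 0 ≤ br k p (fun _ => 1) X := by
  rw [br]
  apply Finset.sum_nonneg
  intro i _
  rw [one_mul]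
  exact Int.natCast_nonneg _

theorem br_one_pos [Module.Finite k A] (hp : Bas k p) [Nontrivial X] : 0 < br k p (fun _ => 1) X := by
  by_contra hneg
  have h0 : br k p (fun _ => 1) X = 0 := le_antisymm (not_lt.1 hneg) br_one_nonneg
  rw [br, Finset.sum_eq_zero_iff_of_nonneg (fun i _ => by
    rw [one_mul]
    exact Int.natCast_nonneg _)] at h0
  have hsub : Subsingleton X := hp.faithful X (by
    intro i h
    have h1 := h0 i (Finset.mem_univ i)
    rw [one_mul] at h1
    have h2 : finrank k (p i →ₗ[A] X) = 0 := by exact_mod_cast h1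
    have h3 := finrank_zero_iff.1 h2
    exact Subsingleton.elim _ _)
  exact not_subsingleton X hsub

theorem subsingleton_of_br [Module.Finite k A] (hp : Bas k p) (h : ∀ u : Fin n → ℤ, br k p u X = 0) : Subsingleton X := by
  by_contra hns
  rw [not_subsingleton_iff_nontrivial] at hns
  have h1 := br_one_pos (X := X) hp
  rw [h] at h1
  exact lt_irrefl _ h1

theorem br_bound [Module.Finite k A] (hp : Bas k p) (x : Fin n → ℤ) (X : Type u) [AddCommGroup X] [Module A X]
    [Module k X] [IsScalarTower k A X] [Module.Finite k X] :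
    ∃ C : ℕ, ∀ K : Submodule A X, |br k p x (X ⧸ K)| ≤ C ∧ |br k p x K| ≤ C := by
  refine ⟨∑ i, (x i).natAbs * finrank k (p i →ₗ[A] X), fun K => ?_⟩
  have hadd : ∀ i, finrank k (p i →ₗ[A] X) = finrank k (p i →ₗ[A] K) + finrank k (p i →ₗ[A] (X ⧸ K)) := by
    intro i
    have := hp.proj i
    exact hom_add (k := k) (P₀ := p i) K
  constructor
  · rw [br]
    refine (Finset.abs_sum_le_sum_abs _ _).trans ?_
    push_cast
    apply Finset.sum_le_sum
    intro i _
    rw [abs_mul, Nat.abs_cast]
    apply mul_le_mul_of_nonneg_left _ (abs_nonneg _)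
    rw [hadd i]
    push_cast
    linarith [Int.natCast_nonneg (finrank k (p i →ₗ[A] K))]
  · rw [br]
    refine (Finset.abs_sum_le_sum_abs _ _).trans ?_
    push_cast
    apply Finset.sum_le_sum
    intro i _
    rw [abs_mul, Nat.abs_cast]
    apply mul_le_mul_of_nonneg_left _ (abs_nonneg _)
    rw [hadd i]
    push_cast
    linarith [Int.natCast_nonneg (finrank k (p i →ₗ[A] (X ⧸ K)))]

/-- `Hom(P, X × Y) ≃ Hom(P, X) × Hom(P, Y)`, `k`-linear -/
def n1_prod {P : Type u} [AddCommGroup P] [Module A P]
    {X : Type u} [AddCommGroup X] [Module A X] [Module k X] [IsScalarTower k A X]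
    {Y : Type u} [AddCommGroup Y] [Module A Y] [Module k Y] [IsScalarTower k A Y] :
    (P →ₗ[A] (X × Y)) ≃ₗ[k] ((P →ₗ[A] X) × (P →ₗ[A] Y)) where
  toFun h := (LinearMap.fst A X Y ∘ₗ h, LinearMap.snd A X Y ∘ₗ h)
  invFun h := h.1.prod h.2
  left_inv h := by
    ext a <;> simp
  right_inv h := by
    ext a <;> simp
  map_add' h h' := by
    ext a <;> simp
  map_smul' c h := by
    ext a <;> simp

theorem br_prod [Module.Finite k A] (x : Fin n → ℤ) : br k p x (X × Y) = br k p x X + br k p x Y := by
  rw [br, br, br, ← Finset.sum_add_distrib]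
  apply Finset.sum_congr rfl
  intro i _
  rw [LinearEquiv.finrank_eq (n1_prod (k := k) (P := p i) (X := X) (Y := Y)), finrank_prod]
  push_cast
  ring

end

end TB3
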