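import Pool.Agent.LibTB3.N1
/-!
ROW [TB3 N2] MEDIUM (API, 21 small lemmas).
(cite N1) Closure properties of `E0c`, `H0c`, `Tc`, `Ws`.
PLAN. Everything is about quotients and submodules.  Quotients of a quotient: for f : X → Y surjective and K ≤ Y, X ⧸ comap f K ≃ Y ⧸ K
(`Submodule.Quotient.equiv`/`LinearMap.quotKerEquivOfSurjective` of mkQ ∘ f, kernel = comap), then br_congr.  Submodules through an injective f: K ≃ map f K.
E0c_ext: for K ≤ X: X ⧸ K has the submodule (N ⊔ K)/K ≃ N/(N ⊓ K) (second isomorphism theorem `LinearMap.quotientInfEquivSupQuotient`) with quotient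
X/(N ⊔ K) = quotient of X ⧸ N; br_add.  It is easier with the following form: map N → X → X ⧸ K; range is a quotient of N, cokernel is a quotient of X ⧸ N.
H0c_ext: K ≤ X: K ⊓ N (as comap) and K/(K ⊓ N) embeds in X ⧸ N.
Ws_of_E0c: br X = br N + br (X ⧸ N), so br N = br X - br (X ⧸ N) ≤ 0.  Ws_of_H0c similar.  Ws_range: range f is a quotient of X (E0c) and a submodule of Y (H0c).
Ws_ker: ker f is a submodule of X (H0c), br (ker f) = br X - br (range f) = 0, so Ws_of_H0c.  Ws_coker dual.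
Tc_iff_E0c: → : K = ⊤ gives 0 (subsingleton), Ws quotient has br = 0.  ← : if K ≠ ⊤ and br (X ⧸ K) ≤ 0 then X ⧸ K is E0c with br ≤ 0, so Ws: contradiction.
-/
set_option autoImplicit false
universe u
namespace TB3
open Module TB10

section
variable {k : Type u} [Field k] {A : Type u} [Ring A] [Algebra k A]
variable {n : ℕ} {p : Fin n → Submodule A A}
    {X : Type u} [AddCommGroup X] [Module A X] [Module k X] [IsScalarTower k A X] [Module.Finite k X]
    {Y : Type u} [AddCommGroup Y] [Module A Y] [Module k Y] [IsScalarTower k A Y] [Module.Finite k Y]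

theorem n2_quot (x : Fin n → ℤ) (f : X →ₗ[A] Y) (hf : Function.Surjective f) :
    br k p x (X ⧸ LinearMap.ker f) = br k p x Y :=
  br_congr x (f.quotKerEquivOfSurjective hf)

theorem n2_mkQ_surj (f : X →ₗ[A] Y) (hf : Function.Surjective f) (K : Submodule A Y) :
    Function.Surjective (K.mkQ ∘ₗ f) := by
  intro y
  obtain ⟨y', hy'⟩ := K.mkQ_surjective y
  obtain ⟨x, hx⟩ := hf y'
  exact ⟨x, by rw [LinearMap.comp_apply, hx, hy']⟩

theorem E0c_surj {x : Fin n → ℤ} (f : X →ₗ[A] Y) (hf : Function.Surjective f) (h : E0c k p x X) :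
    E0c k p x Y := by
  intro K
  rw [← n2_quot x (K.mkQ ∘ₗ f) (n2_mkQ_surj f hf K)]
  exact h _

theorem Tc_surj {x : Fin n → ℤ} (f : X →ₗ[A] Y) (hf : Function.Surjective f) (h : Tc k p x X) :
    Tc k p x Y := by
  intro K hK
  rw [← n2_quot x (K.mkQ ∘ₗ f) (n2_mkQ_surj f hf K)]
  apply h
  intro htop
  apply hK
  rw [eq_top_iff]
  intro y _
  obtain ⟨z, hz⟩ := hf y
  have h1 : z ∈ LinearMap.ker (K.mkQ ∘ₗ f) := by
    rw [htop]
    exact Submodule.mem_top
  rw [LinearMap.mem_ker, LinearMap.comp_apply, hz, Submodule.mkQ_apply,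
    Submodule.Quotient.mk_eq_zero] at h1
  exact h1

theorem H0c_inj {x : Fin n → ℤ} (f : X →ₗ[A] Y) (hf : Function.Injective f) (h : H0c k p x Y) :
    H0c k p x X := by
  intro K
  rw [br_congr x (Submodule.equivMapOfInjective f hf K)]
  exact h _

theorem n2_bot (x : Fin n → ℤ) : br k p x (X ⧸ (⊥ : Submodule A X)) = br k p x X :=
  br_congr x (Submodule.quotEquivOfEqBot (⊥ : Submodule A X) rfl)

theorem E0c_br {x : Fin n → ℤ} (h : E0c k p x X) : 0 ≤ br k p x X := by
  rw [← n2_bot]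
  exact h _

theorem H0c_br {x : Fin n → ℤ} (h : H0c k p x X) : br k p x X ≤ 0 := by
  have h1 := h ⊤
  rw [br_congr x (Submodule.topEquiv (R := A) (M := X))] at h1
  exact h1

theorem Tc_br {x : Fin n → ℤ} [Nontrivial X] (h : Tc k p x X) : 0 < br k p x X := by
  rw [← n2_bot]
  exact h _ bot_ne_top

theorem n2_top (x : Fin n → ℤ) (K : Submodule A X) (hK : K = ⊤) : br k p x (X ⧸ K) = 0 := by
  have : Subsingleton (X ⧸ K) := Submodule.Quotient.subsingleton_iff.2 hK
  exact br_subsingleton x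

theorem Tc_E0c {x : Fin n → ℤ} (h : Tc k p x X) : E0c k p x X := by
  intro K
  by_cases hK : K = ⊤
  · rw [n2_top x K hK]
  · exact (h K hK).le

theorem Ws_br {x : Fin n → ℤ} (h : Ws k p x X) : br k p x X = 0 :=
  le_antisymm (H0c_br h.2) (E0c_br h.1)

theorem Ws_congr {x : Fin n → ℤ} (e : X ≃ₗ[A] Y) (h : Ws k p x X) : Ws k p x Y :=
  ⟨E0c_surj e.toLinearMap e.surjective h.1, H0c_inj e.symm.toLinearMap e.symm.injective h.2⟩

theorem E0c_subsingleton [Subsingleton X] (x : Fin n → ℤ) : E0c k p x X := by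
  intro K
  have : Subsingleton (X ⧸ K) := K.mkQ_surjective.subsingleton
  rw [br_subsingleton x]

variable [Module.Finite k A]

theorem E0c_ext (hp : Bas k p) {x : Fin n → ℤ} (N : Submodule A X) (h1 : E0c k p x N)
    (h2 : E0c k p x (X ⧸ N)) : E0c k p x X := by
  intro K
  set g : N →ₗ[A] (X ⧸ K) := K.mkQ ∘ₗ N.subtype with hg
  rw [br_add hp x (LinearMap.range g)]
  have hR : E0c k p x (LinearMap.range g) :=
    E0c_surj g.rangeRestrict g.surjective_rangeRestrict h1
  have hker : N ≤ LinearMap.ker ((LinearMap.range g).mkQ ∘ₗ K.mkQ) := by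
    intro a ha
    rw [LinearMap.mem_ker, LinearMap.comp_apply, Submodule.mkQ_apply, Submodule.Quotient.mk_eq_zero]
    exact ⟨⟨a, ha⟩, rfl⟩
  have hQ : E0c k p x ((X ⧸ K) ⧸ LinearMap.range g) := by
    refine E0c_surj (N.liftQ ((LinearMap.range g).mkQ ∘ₗ K.mkQ) hker) ?_ h2
    intro z
    obtain ⟨w, hw⟩ := n2_mkQ_surj K.mkQ K.mkQ_surjective (LinearMap.range g) z
    refine ⟨N.mkQ w, ?_⟩
    rw [← hw]
    rfl
  exact add_nonneg (E0c_br hR) (E0c_br hQ)

theorem H0c_ext (hp : Bas k p) {x : Fin n → ℤ} (N : Submodule A X) (h1 : H0c k p x N)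
    (h2 : H0c k p x (X ⧸ N)) : H0c k p x X := by
  intro K
  set g : K →ₗ[A] (X ⧸ N) := N.mkQ ∘ₗ K.subtype with hg
  have hmem : ∀ a : LinearMap.ker g, (K.subtype ∘ₗ (LinearMap.ker g).subtype) a ∈ N := by
    intro a
    have h3 : g a.1 = 0 := LinearMap.mem_ker.1 a.2
    have h4 : N.mkQ ((K.subtype ∘ₗ (LinearMap.ker g).subtype) a) = 0 := h3
    rw [Submodule.mkQ_apply, Submodule.Quotient.mk_eq_zero] at h4
    exact h4
  have hker : H0c k p x (LinearMap.ker g) := by
    refine H0c_inj (LinearMap.codRestrict N (K.subtype ∘ₗ (LinearMap.ker g).subtype) hmem) ?_ h1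
    intro a b hab
    have h3 := congrArg (fun t : N => (t : X)) hab
    exact Subtype.ext (Subtype.ext h3)
  rw [br_add hp x (LinearMap.ker g), br_congr x g.quotKerEquivRange]
  exact add_nonpos (H0c_br hker) (h2 _)

theorem Ws_of_E0c (hp : Bas k p) {x : Fin n → ℤ} (h : E0c k p x X) (h0 : br k p x X ≤ 0) :
    Ws k p x X := by
  refine ⟨h, fun K => ?_⟩
  have h1 := br_add hp x K
  have h2 := h K
  linarith

theorem Ws_of_H0c (hp : Bas k p) {x : Fin n → ℤ} (h : H0c k p x X) (h0 : 0 ≤ br k p x X) :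
    Ws k p x X := by
  refine ⟨fun K => ?_, h⟩
  have h1 := br_add hp x K
  have h2 := h K
  linarith

theorem Ws_ext (hp : Bas k p) {x : Fin n → ℤ} (N : Submodule A X) (h1 : Ws k p x N)
    (h2 : Ws k p x (X ⧸ N)) : Ws k p x X :=
  ⟨E0c_ext hp N h1.1 h2.1, H0c_ext hp N h1.2 h2.2⟩

/-- a submodule with `⟨x, N⟩ = 0` of a semistable module: it and the quotient are semistable -/
theorem Ws_sub (hp : Bas k p) {x : Fin n → ℤ} (h : Ws k p x X) (N : Submodule A X)
    (h0 : br k p x N = 0) : Ws k p x N ∧ Ws k p x (X ⧸ N) := by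
  refine ⟨Ws_of_H0c hp (H0c_inj N.subtype N.injective_subtype h.2) h0.ge,
    Ws_of_E0c hp (E0c_surj N.mkQ N.mkQ_surjective h.1) ?_⟩
  have h1 := br_add hp x N
  have h2 := Ws_br h
  linarith

theorem Ws_range (hp : Bas k p) {x : Fin n → ℤ} (f : X →ₗ[A] Y) (hX : E0c k p x X)
    (hY : H0c k p x Y) : Ws k p x (LinearMap.range f) :=
  ⟨E0c_surj f.rangeRestrict f.surjective_rangeRestrict hX,
    H0c_inj (LinearMap.range f).subtype (LinearMap.range f).injective_subtype hY⟩

theorem Ws_ker (hp : Bas k p) {x : Fin n → ℤ} (f : X →ₗ[A] Y) (hX : Ws k p x X)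
    (hY : Ws k p x Y) : Ws k p x (LinearMap.ker f) := by
  have h1 := Ws_br (Ws_range hp f hX.1 hY.2)
  have h2 := br_add hp x (LinearMap.ker f)
  rw [br_congr x f.quotKerEquivRange, h1, Ws_br hX, add_zero] at h2
  exact (Ws_sub hp hX (LinearMap.ker f) h2.symm).1

theorem Ws_coker (hp : Bas k p) {x : Fin n → ℤ} (f : X →ₗ[A] Y) (hX : Ws k p x X)
    (hY : Ws k p x Y) : Ws k p x (Y ⧸ LinearMap.range f) :=
  (Ws_sub hp hY (LinearMap.range f) (Ws_br (Ws_range hp f hX.1 hY.2))).2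

theorem Tc_iff_E0c (hp : Bas k p) {x : Fin n → ℤ} :
    Tc k p x X ↔ E0c k p x X ∧ ∀ K : Submodule A X, K ≠ ⊤ → ¬ Ws k p x (X ⧸ K) := by
  constructor
  · intro h
    refine ⟨Tc_E0c h, fun K hK hW => ?_⟩
    have h1 := h K hK
    rw [Ws_br hW] at h1
    exact lt_irrefl _ h1
  · rintro ⟨h1, h2⟩ K hK
    by_contra hneg
    exact h2 K hK (Ws_of_E0c hp (E0c_surj K.mkQ K.mkQ_surjective h1) (not_lt.1 hneg))

theorem Tc_of_NoW (hp : Bas k p) {z : Fin n → ℤ} (hz : NoW k p z) (h : E0c k p z X) : Tc k p z X := by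
  rw [Tc_iff_E0c hp]
  refine ⟨h, fun K hK hW => hK ?_⟩
  exact Submodule.Quotient.subsingleton_iff.1 (hz (X ⧸ K) hW)

theorem E0c_zero : E0c k p (0 : Fin n → ℤ) X := by
  intro K
  rw [br_zero_left]

theorem subsingleton_of_Tc_zero (h : Tc k p (0 : Fin n → ℤ) X) : Subsingleton X := by
  by_contra hns
  rw [not_subsingleton_iff_nontrivial] at hns
  have h1 := Tc_br h
  rw [br_zero_left] at h1
  exact lt_irrefl _ h1

end

end TB3
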