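import Pool.Agent.LibTB3.Defs
import Pool.Agent.LibTB10.P1
import Pool.Agent.LibTB10.P2
/-!
ROW [TB3 P1] MEDIUM.
(cite TB10.P1, TB10.P2) the projective covers of the simple modules as left ideals.
PLAN. As TB10.P1.exists_projective_cover (read its proof): S simple; choose P : Submodule A A with TB10.P1.Wc A S P and finrank k P minimal.  π : P → S nonzero.
idem: pr : A → P with pr ∘ subtype = id; e = pr 1 ∈ P: a ∈ P ↔ a * e = a (pr a = a • pr 1 = a e, pr a = a for a ∈ P), e * e = e.
loc: for g : P → P: Fitting (see P1.key); TB10.P1.top: a submodule K of P on which π is not 0 is everything; so K ≤ ker π for all K ≠ ⊤.  If g is not surjective then range g ≤ ker π,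
π g = 0; P = ker g^m ⊕ range g^m, range g^m ≤ ker π so π does not vanish on ker g^m so ker g^m = ⊤: nilpotent.  Surjective: bijective by finite dimension.
finrank Hom(P,S) = 1 and Hom(P,S') = 0 for S' not isomorphic: as in exists_projective_cover.
-/
set_option autoImplicit false
universe u
namespace TB3
open Module TB10

section
variable {k : Type u} [Field k] {A : Type u} [Ring A] [Algebra k A]
open P1 in
theorem exists_cover [IsAlgClosed k] [Module.Finite k A] (S : Type u) [AddCommGroup S] [Module A S]
    [Module k S] [IsScalarTower k A S] [Module.Finite k S] [IsSimpleModule A S] :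
    ∃ P : Submodule A A, (∃ e : A, e * e = e ∧ ∀ a : A, a ∈ P ↔ a * e = a) ∧ Loc A P ∧
      finrank k (P →ₗ[A] S) = 1 ∧
      ∀ (S' : Type u) [AddCommGroup S'] [Module A S'] [Module k S'] [IsScalarTower k A S'] [Module.Finite k S']
        [IsSimpleModule A S'], IsEmpty (S ≃ₗ[A] S') → ∀ h : P →ₗ[A] S', h = 0 := by
  classical
  haveI : Nontrivial S := IsSimpleModule.nontrivial A S
  have hex : ∃ n : ℕ, ∃ P : Submodule A A, Wc A S P ∧ finrank k P = n := ⟨_, ⊤, Wc_top S, rfl⟩
  obtain ⟨P, hW, hP⟩ := Nat.find_spec hex
  have hmin : ∀ P' : Submodule A A, Wc A S P' → finrank k P ≤ finrank k P' := by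
    intro P' hP'
    rw [hP]
    exact Nat.find_min' hex ⟨P', hP', rfl⟩
  obtain ⟨π, hπ⟩ := hW.2
  -- a nonzero map to a simple module divides π
  have hdiv : ∀ (S' : Type u) [AddCommGroup S'] [Module A S'] [IsSimpleModule A S'] (h : P →ₗ[A] S'), h ≠ 0 →
      ∃ c : S' →ₗ[A] S, c ∘ₗ h = π := by
    intro S' _ _ _ h hh
    have hs : Function.Surjective h := LinearMap.surjective_of_ne_zero hh
    have hle : LinearMap.ker h ≤ LinearMap.ker π := by
      by_contra hcon
      apply hh
      have : LinearMap.ker h = ⊤ := by
        apply top P hW hmin π hπ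
        intro h0
        apply hcon
        intro x hx
        exact LinearMap.congr_fun h0 ⟨x, hx⟩
      exact LinearMap.ker_eq_top.mp this
    refine ⟨((LinearMap.ker h).liftQ π hle) ∘ₗ (h.quotKerEquivOfSurjective hs).symm.toLinearMap, ?_⟩
    ext x
    simp only [LinearMap.comp_apply, LinearEquiv.coe_coe]
    have : (h.quotKerEquivOfSurjective hs).symm (h x) = Submodule.Quotient.mk x := by
      rw [LinearEquiv.symm_apply_eq]
      rfl
    rw [this]
    rfl
  refine ⟨P, ?_, ?_, ?_, ?_⟩
  · obtain ⟨⟨pr, hpr⟩, -⟩ := hW
    have h1 : ∀ a : A, ((pr a : P) : A) = a * (pr 1 : P) := by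
      intro a
      have h0 : pr a = a • pr 1 := by rw [← map_smul, smul_eq_mul, mul_one]
      rw [h0]
      rfl
    have h2 : ∀ a : P, pr (a : A) = a := fun a => LinearMap.congr_fun hpr a
    refine ⟨((pr 1 : P) : A), ?_, ?_⟩
    · rw [← h1, h2]
    · intro a
      constructor
      · intro ha
        rw [← h1]
        exact congrArg Subtype.val (h2 ⟨a, ha⟩)
      · intro ha
        rw [← ha, ← h1]
        exact (pr a).2
  · intro g
    haveI : IsNoetherian A P := isNoetherian_of_tower k (inferInstance : IsNoetherian k P)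
    haveI : IsArtinian A P := isArtinian_of_tower k (inferInstance : IsArtinian k P)
    by_cases hs : Function.Surjective g
    · right
      exact ⟨IsNoetherian.injective_of_surjective_endomorphism g hs, hs⟩
    · left
      have hr : π ∘ₗ g = 0 := by
        by_contra hne
        apply hs
        rw [← LinearMap.range_eq_top]
        apply top P hW hmin π hπ
        intro h0
        apply hne
        ext x
        exact LinearMap.congr_fun h0 ⟨g x, LinearMap.mem_range_self _ x⟩
      obtain ⟨n, hn⟩ := Filter.eventually_atTop.mp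
        (LinearMap.eventually_isCompl_ker_pow_range_pow (g : Module.End A P))
      have hc := hn (n + 1) (Nat.le_succ n)
      refine ⟨n + 1, ?_⟩
      have hk : LinearMap.ker ((g : Module.End A P) ^ (n + 1)) = ⊤ := by
        apply top P hW hmin π hπ
        intro h0
        apply hπ
        ext x
        have hx : x ∈ LinearMap.ker ((g : Module.End A P) ^ (n + 1)) ⊔
            LinearMap.range ((g : Module.End A P) ^ (n + 1)) := by
          rw [hc.sup_eq_top]
          trivial
        obtain ⟨y, hy, z, ⟨w, hw⟩, rfl⟩ := Submodule.mem_sup.1 hx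
        have e1 : π y = 0 := LinearMap.congr_fun h0 ⟨y, hy⟩
        have e2 : π z = 0 := by
          rw [← hw, pow_succ']
          exact LinearMap.congr_fun hr (((g : Module.End A P) ^ n) w)
        rw [map_add, e1, e2, add_zero]
        rfl
      exact LinearMap.ker_eq_top.mp hk
  · rw [finrank_eq_one_iff']
    refine ⟨π, hπ, ?_⟩
    intro w
    by_cases hw : w = 0
    · exact ⟨0, by rw [hw, zero_smul]⟩
    · obtain ⟨c, hc⟩ := hdiv S w hw
      obtain ⟨l, hl⟩ := schur (k := k) S c
      have hl0 : l ≠ 0 := by
        rintro rfl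
        apply hπ
        rw [← hc, hl, zero_smul, LinearMap.zero_comp]
      refine ⟨l⁻¹, ?_⟩
      rw [← hc, hl, LinearMap.smul_comp, LinearMap.id_comp, smul_smul, inv_mul_cancel₀ hl0, one_smul]
  · intro S' _ _ _ _ _ _ hemp h
    by_contra hh
    obtain ⟨c, hc⟩ := hdiv S' h hh
    have hc0 : c ≠ 0 := by
      rintro rfl
      apply hπ
      rw [← hc, LinearMap.zero_comp]
    have hb := LinearMap.bijective_of_ne_zero hc0
    exact hemp.false (LinearEquiv.ofBijective c hb).symm

end

end TB3
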