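import Pool.Agent.LibTB3.L3
import Pool.Agent.LibTB3.N4
import Pool.Agent.LibTB3.N3
/-!
ROW [TB3 S0] MEDIUM.
(cite N1-N4, L3) the classes of semistable modules if there are exactly two stable ones.
PLAN. two_br: Ws_rec with C V := ∀ u, br u V = br y V * br u S + br y' V * br u S': for the stable quotient W ≃ S: br y W = 1, br y' W = 0 (Dl.one, Dl.zero with the
symmetric non-isomorphism), similarly S'; br_add.
two_pos: V nontrivial: br y V ≥ 0, br y' V ≥ 0 by Dl.ws and E0c_br; if both 0 then br u V = 0 for all u, subsingleton_of_br.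
quot_of_zero: br y V = 0, V nontrivial semistable: the stable quotient (exists_stable_quot) W has br y W ≤ br y V = 0 (br_add, the kernel is semistable), so W ≃ S'.
sub_of_zero: the same with exists_stable_sub.
-/
set_option autoImplicit false
universe u
namespace TB3
open Module TB10

section
variable {k : Type u} [Field k] {A : Type u} [Ring A] [Algebra k A]
variable {n : ℕ} {p : Fin n → Submodule A A}
    {S : Type u} [AddCommGroup S] [Module A S] [Module k S] [IsScalarTower k A S] [Module.Finite k S]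
    {S' : Type u} [AddCommGroup S'] [Module A S'] [Module k S'] [IsScalarTower k A S'] [Module.Finite k S']
    [Module.Finite k A]

theorem Two.symm {x y y' : Fin n → ℤ} (h : Two k p x S S' y y') : Two k p x S' S y' y :=
  ⟨h.s', h.s, ⟨fun e => h.ne.false e.symm⟩, fun V => by intros; exact (h.all V ‹_›).symm, h.d', h.d⟩

theorem two_br (hp : Bas k p) {x y y' : Fin n → ℤ} (h : Two k p x S S' y y')
    (V : Type u) [AddCommGroup V] [Module A V] [Module k V] [IsScalarTower k A V] [Module.Finite k V]
    (hV : Ws k p x V) : ∀ u, br k p u V = br k p y V * br k p u S + br k p y' V * br k p u S' := by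
  refine Ws_rec (C := fun V _ _ _ _ _ => ∀ u, br k p u V = br k p y V * br k p u S +
      br k p y' V * br k p u S') hp ?_ ?_ V hV
  · intro X _ _ _ _ _ hX u
    rw [br_subsingleton (X := X) u, br_subsingleton (X := X) y, br_subsingleton (X := X) y']
    ring
  · intro X _ _ _ _ _ K hX hK hS hC u
    rw [br_add hp u K, br_add hp y K, br_add hp y' K, hC u]
    rcases h.all (X ⧸ K) hS with ⟨⟨e⟩⟩ | ⟨⟨e⟩⟩
    · rw [br_congr u e, br_congr y e, br_congr y' e, h.d.one,
        h.d'.zero S h.s ⟨fun e' => h.ne.false e'.symm⟩]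
      ring
    · rw [br_congr u e, br_congr y e, br_congr y' e, h.d'.one, h.d.zero S' h.s' h.ne]
      ring

theorem two_nonneg {x y y' : Fin n → ℤ} (h : Two k p x S S' y y')
    (V : Type u) [AddCommGroup V] [Module A V] [Module k V] [IsScalarTower k A V] [Module.Finite k V]
    (hV : Ws k p x V) : 0 ≤ br k p y V ∧ 0 ≤ br k p y' V := by
  exact ⟨E0c_br (h.d.ws V hV), E0c_br (h.d'.ws V hV)⟩

theorem two_pos (hp : Bas k p) {x y y' : Fin n → ℤ} (h : Two k p x S S' y y')
    (V : Type u) [AddCommGroup V] [Module A V] [Module k V] [IsScalarTower k A V] [Module.Finite k V]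
    [Nontrivial V] (hV : Ws k p x V) : 0 < br k p y V ∨ 0 < br k p y' V := by
  by_contra hcon
  push Not at hcon
  obtain ⟨h1, h2⟩ := two_nonneg h V hV
  have h3 : br k p y V = 0 := le_antisymm hcon.1 h1
  have h4 : br k p y' V = 0 := le_antisymm hcon.2 h2
  have h5 : Subsingleton V := subsingleton_of_br (k := k) hp fun u => by
    rw [two_br hp h V hV u, h3, h4]
    ring
  exact not_subsingleton V h5

theorem quot_of_zero (hp : Bas k p) {x y y' : Fin n → ℤ} (h : Two k p x S S' y y')
    (V : Type u) [AddCommGroup V] [Module A V] [Module k V] [IsScalarTower k A V] [Module.Finite k V]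
    [Nontrivial V] (hV : Ws k p x V) (h0 : br k p y V = 0) : ∃ f : V →ₗ[A] S', Function.Surjective f := by
  obtain ⟨K, hK⟩ := exists_stable_quot hp hV
  have h1 : br k p x K = 0 := by
    have := br_add hp x K
    rw [Ws_br hV, hK.zero] at this
    linarith
  have h2 := (two_nonneg h K (Ws_sub hp hV K h1).1).1
  have h3 := br_add hp y K
  rw [h0] at h3
  rcases h.all (V ⧸ K) hK with ⟨⟨e⟩⟩ | ⟨⟨e⟩⟩
  · rw [br_congr y e, h.d.one] at h3
    exfalso
    linarith
  · exact ⟨e.toLinearMap ∘ₗ K.mkQ, e.surjective.comp K.mkQ_surjective⟩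

theorem sub_of_zero (hp : Bas k p) {x y y' : Fin n → ℤ} (h : Two k p x S S' y y')
    (V : Type u) [AddCommGroup V] [Module A V] [Module k V] [IsScalarTower k A V] [Module.Finite k V]
    [Nontrivial V] (hV : Ws k p x V) (h0 : br k p y V = 0) : ∃ f : S' →ₗ[A] V, Function.Injective f := by
  obtain ⟨N, hN⟩ := exists_stable_sub hp hV
  have h2 := (two_nonneg h (V ⧸ N) (Ws_sub hp hV N hN.zero).2).1
  have h3 := br_add hp y N
  rw [h0] at h3
  rcases h.all N hN with ⟨⟨e⟩⟩ | ⟨⟨e⟩⟩
  · rw [br_congr y e, h.d.one] at h3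
    exfalso
    linarith
  · exact ⟨N.subtype ∘ₗ e.symm.toLinearMap, N.injective_subtype.comp e.symm.injective⟩

end

end TB3
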