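import Pool.Agent.LibTB3.H3
import Pool.Agent.LibTB3.H0
import Pool.Agent.LibTB3.S0
/-!
ROW [TB3 S1] MEDIUM/STRONG.
(cite H0, H1, H3, L3, N4) n = 3: a member x = t i of a chamber has exactly two stable modules.
PLAN. For j ≠ i let S_j be a stable module of the wall wl t j (exists_wall); wl t j = t i + t l (l the third index), so S_j is semistable for t i (sum_E0c, sum_H0c or Ws_add);
br (t j) S_j = ±1, br (t l) S_j = 0.  So the functionals of S_j and S_l are not proportional.
Some stable S exists for x = t i (exists_stable_quot for S_j).  If every stable is ≃ S then every semistable V has br u V = m * br u S (Ws_rec), contradiction with S_j, S_l: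
br (t j) S_j ≠ 0 so br (t j) S ≠ 0, and br (t j) S_l = 0 so m_l = 0 but br (t l) S_l ≠ 0.  So there is a stable S' not isomorphic to S.
Duals y, y' (exists_dual).  If there were a stable V not ≃ S, S': duals y, y', y'' and indep_le with m = 3, v_j l = finrank Hom(p l, S_j) as integers
(br y S = ∑ y l * v l), x ≠ 0 (prime) with br x S_j = 0: 4 ≤ 3.
-/
set_option autoImplicit false
universe u
namespace TB3
open Module TB10

section
variable {k : Type u} [Field k] {A : Type u} [Ring A] [Algebra k A]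
variable {p : Fin 3 → Submodule A A} [Module.Finite k A] [Infinite k] [IsAlgClosed k]

omit [Module.Finite k A] [Infinite k] [IsAlgClosed k] [Field k] in
theorem s1_wl (t : Fin 3 → Fin 3 → ℤ) {i j l : Fin 3} (hij : i ≠ j) (hil : i ≠ l) (hjl : j ≠ l) :
    wl t j = t i + t l := by
  have h : (Finset.univ : Finset (Fin 3)).erase j = {i, l} := by
    revert i j l
    decide
  unfold wl
  rw [h, Finset.sum_pair hil]

/-- the wall modules, as semistable modules for the third member -/
theorem s1_wall (hp : Bas k p) (hfin : FinB k A) {t : Fin 3 → Fin 3 → ℤ} (ht : Chm k p t)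
    {i j l : Fin 3} (hij : i ≠ j) (hil : i ≠ l) (hjl : j ≠ l) :
    ∃ (S : Type u) (_ : AddCommGroup S) (_ : Module A S) (_ : Module k S) (_ : IsScalarTower k A S)
      (_ : Module.Finite k S), Nontrivial S ∧ Ws k p (t i) S ∧ br k p (t j) S ≠ 0 ∧
        br k p (t l) S = 0 := by
  obtain ⟨S, i1, i2, i3, i4, i5, hS⟩ := exists_wall hp hfin ht j
  obtain ⟨h1, h2⟩ := wall_pair hp hfin ht j hS
  refine ⟨S, i1, i2, i3, i4, i5, hS.nt, ?_, ?_, h1 l hjl.symm⟩
  · have h3 := hS.ws hp
    rw [s1_wl t hij hil hjl] at h3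
    exact ((Ws_add hp hfin (ht.cmp i l)).1 h3).1
  · rcases h2 with h2 | h2 <;> rw [h2] <;> norm_num

/-- if all stable modules are isomorphic to `S` then the vectors of the semistable modules are
multiples -/
theorem s1_rec (hp : Bas k p) {x : Fin 3 → ℤ} {S : Type u} [AddCommGroup S] [Module A S]
    [Module k S] [IsScalarTower k A S] [Module.Finite k S]
    (h : ∀ (V : Type u) [AddCommGroup V] [Module A V] [Module k V] [IsScalarTower k A V]
      [Module.Finite k V], St k p x V → Nonempty (V ≃ₗ[A] S))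
    (V : Type u) [AddCommGroup V] [Module A V] [Module k V] [IsScalarTower k A V]
    [Module.Finite k V] (hV : Ws k p x V) : ∃ m : ℕ, ∀ u, br k p u V = m * br k p u S := by
  refine Ws_rec (C := fun X _ _ _ _ _ => ∃ m : ℕ, ∀ u, br k p u X = m * br k p u S) hp ?_ ?_ V hV
  · intro X _ _ _ _ _ hX
    exact ⟨0, fun u => by rw [br_subsingleton]; simp⟩
  · intro X _ _ _ _ _ K _ _ hK hm
    obtain ⟨m, hm⟩ := hm
    obtain ⟨e⟩ := h _ hK
    refine ⟨m + 1, fun u => ?_⟩
    rw [br_add hp u K, hm u, br_congr u e]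
    push_cast
    ring

omit [Infinite k] [IsAlgClosed k] [Module.Finite k A] in
theorem s1_three {x : Fin 3 → ℤ} (hx : x ≠ 0) {S S' V : Type u}
    [AddCommGroup S] [Module A S] [Module k S] [IsScalarTower k A S] [Module.Finite k S]
    [AddCommGroup S'] [Module A S'] [Module k S'] [IsScalarTower k A S'] [Module.Finite k S']
    [AddCommGroup V] [Module A V] [Module k V] [IsScalarTower k A V] [Module.Finite k V]
    {y y' y'' : Fin 3 → ℤ} (hS : St k p x S) (hS' : St k p x S') (hV : St k p x V)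
    (hd : Dl k p x S y) (hd' : Dl k p x S' y') (hd'' : Dl k p x V y'')
    (h1 : IsEmpty (S ≃ₗ[A] S')) (h2 : IsEmpty (V ≃ₗ[A] S)) (h3 : IsEmpty (V ≃ₗ[A] S')) : False := by
  have e1 : IsEmpty (S' ≃ₗ[A] S) := ⟨fun e => h1.false e.symm⟩
  have e2 : IsEmpty (S ≃ₗ[A] V) := ⟨fun e => h2.false e.symm⟩
  have e3 : IsEmpty (S' ≃ₗ[A] V) := ⟨fun e => h3.false e.symm⟩
  have a11 := hd.one
  have a12 := hd.zero S' hS' h1
  have a13 := hd.zero V hV e2
  have a21 := hd'.zero S hS e1
  have a22 := hd'.one
  have a23 := hd'.zero V hV e3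
  have a31 := hd''.zero S hS h2
  have a32 := hd''.zero S' hS' h3
  have a33 := hd''.one
  have b1 := hS.zero
  have b2 := hS'.zero
  have b3 := hV.zero
  unfold br at a11 a12 a13 a21 a22 a23 a31 a32 a33 b1 b2 b3
  have h := indep_le (n := 3) (m := 3)
    ![fun l => (finrank k (p l →ₗ[A] S) : ℤ), fun l => (finrank k (p l →ₗ[A] S') : ℤ),
      fun l => (finrank k (p l →ₗ[A] V) : ℤ)] ![y, y', y''] (by
      intro i j
      fin_cases i <;> fin_cases j
      · exact a11
      · exact a12
      · exact a13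
      · exact a21
      · exact a22
      · exact a23
      · exact a31
      · exact a32
      · exact a33) x hx (by
      intro j
      fin_cases j
      · exact b1
      · exact b2
      · exact b3)
  omega

theorem exists_two (hp : Bas k p) (hfin : FinB k A) {t : Fin 3 → Fin 3 → ℤ} (ht : Chm k p t) (i : Fin 3) :
    ∃ (S : Type u) (_ : AddCommGroup S) (_ : Module A S) (_ : Module k S) (_ : IsScalarTower k A S)
      (_ : Module.Finite k S) (S' : Type u) (_ : AddCommGroup S') (_ : Module A S') (_ : Module k S')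
      (_ : IsScalarTower k A S') (_ : Module.Finite k S') (y y' : Fin 3 → ℤ), Two k p (t i) S S' y y' := by
  obtain ⟨j, l, hij, hil, hjl⟩ : ∃ j l : Fin 3, i ≠ j ∧ i ≠ l ∧ j ≠ l := by
    revert i
    decide
  obtain ⟨S1, i1, i2, i3, i4, i5, n1, w1, b1, c1⟩ := s1_wall hp hfin ht hij hil hjl
  obtain ⟨S2, j1, j2, j3, j4, j5, n2, w2, b2, c2⟩ := s1_wall hp hfin ht hil hij hjl.symm
  obtain ⟨K, hK⟩ := exists_stable_quot hp w1
  obtain ⟨S', k1, k2, k3, k4, k5, hS', hne⟩ : ∃ (S' : Type u) (_ : AddCommGroup S')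
      (_ : Module A S') (_ : Module k S') (_ : IsScalarTower k A S') (_ : Module.Finite k S'),
      St k p (t i) S' ∧ IsEmpty ((S1 ⧸ K) ≃ₗ[A] S') := by
    by_contra hcon
    have h : ∀ (V : Type u) [AddCommGroup V] [Module A V] [Module k V] [IsScalarTower k A V]
        [Module.Finite k V], St k p (t i) V → Nonempty (V ≃ₗ[A] (S1 ⧸ K)) := by
      intro V _ _ _ _ _ hV
      by_contra hn
      exact hcon ⟨V, _, _, _, inferInstance, inferInstance, hV, ⟨fun e => hn ⟨e.symm⟩⟩⟩
    obtain ⟨m1, h1⟩ := s1_rec hp h S1 w1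
    obtain ⟨m2, h2⟩ := s1_rec hp h S2 w2
    have e1 := h1 (t j)
    have e2 := h2 (t j)
    rw [c2] at e2
    have e3 : br k p (t j) (S1 ⧸ K) ≠ 0 := by
      intro h0
      rw [h0, mul_zero] at e1
      exact b1 e1
    have e4 : (m2 : ℤ) = 0 := by
      rcases mul_eq_zero.1 e2.symm with h0 | h0
      · exact h0
      · exact absurd h0 e3
    have e5 := h2 (t l)
    rw [e4, zero_mul] at e5
    exact b2 e5
  obtain ⟨y, hy⟩ := exists_dual hp hfin hK
  obtain ⟨y', hy'⟩ := exists_dual hp hfin hS'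
  refine ⟨S1 ⧸ K, _, _, _, inferInstance, inferInstance, S', k1, k2, k3, k4, k5, y, y',
    ⟨hK, hS', hne, ?_, hy, hy'⟩⟩
  intro V _ _ _ _ _ hV
  by_contra hcon
  rw [not_or, not_nonempty_iff, not_nonempty_iff] at hcon
  obtain ⟨y'', hy''⟩ := exists_dual hp hfin hV
  exact s1_three (ht.prm i).1 hK hS' hV hy hy' hy'' hne hcon.1 hcon.2

end

end TB3
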