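import Pool.Agent.LibTB3.Defs
/-!
ROW [TB3 S9] SHORT/MEDIUM.
ONLY MATHLIB (and Defs.Hx).  The hexagon: the five cones around (a,b) cover the six directions.
PLAN. Everything is finite: a, b ∈ Hx, the β's are 0 or 1; c, d, c', d' are determined.  `decide` or rcases on the 6 * 6 * 16 cases and then give (m, m') ∈ {0,1}².
It helps to restate it as a decidable statement over Finset.product with m, m' ∈ Finset.range 2, and `decide` / `native_decide` is NOT allowed (only kernel `decide`),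
or `rcases` + `simp`/`omega`.
-/
set_option autoImplicit false
universe u
namespace TB3
open Module TB10

section
variable {k : Type u} [Field k] {A : Type u} [Ring A] [Algebra k A]

/-- integer combination, in coordinates -/
def s9_lin (m : ℤ) (x : ℤ × ℤ) (m' : ℤ) (y : ℤ × ℤ) : ℤ × ℤ := (m * x.1 + m' * y.1, m * x.2 + m' * y.2)

/-- the two vectors lie in a common closed quadrant -/
def s9_cone (x y : ℤ × ℤ) : Prop := 0 ≤ x.1 * y.1 ∧ 0 ≤ x.2 * y.2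

instance s9_dcone (x y : ℤ × ℤ) : Decidable (s9_cone x y) :=
  inferInstanceAs (Decidable (0 ≤ x.1 * y.1 ∧ 0 ≤ x.2 * y.2))

/-- the conclusion for given vectors -/
def s9_last (a b c d c' d' : ℤ × ℤ) : Prop :=
  ∀ h ∈ Hx, ∃ m ∈ Finset.range 2, ∃ m' ∈ Finset.range 2,
    h = s9_lin m a m' b ∨ h = s9_lin m b m' c ∨ h = s9_lin m c m' d ∨
    h = s9_lin m a m' c' ∨ h = s9_lin m c' m' d'

instance s9_dlast (a b c d c' d' : ℤ × ℤ) : Decidable (s9_last a b c d c' d') := by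
  unfold s9_last
  infer_instance

/-- the second half of the statement -/
def s9_snd (a b c d : ℤ × ℤ) : Prop :=
  ∀ β₃ ∈ ({0, 1} : Finset ℤ), s9_lin β₃ a (-1) b ∈ Hx → s9_cone a (s9_lin β₃ a (-1) b) →
    ∀ β₄ ∈ ({0, 1} : Finset ℤ), s9_lin β₄ (s9_lin β₃ a (-1) b) (-1) a ∈ Hx →
      s9_cone (s9_lin β₃ a (-1) b) (s9_lin β₄ (s9_lin β₃ a (-1) b) (-1) a) →
      s9_last a b c d (s9_lin β₃ a (-1) b) (s9_lin β₄ (s9_lin β₃ a (-1) b) (-1) a)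

instance s9_dsnd (a b c d : ℤ × ℤ) : Decidable (s9_snd a b c d) := by
  unfold s9_snd
  infer_instance

/-- the first half of the statement -/
def s9_fst (a b : ℤ × ℤ) : Prop :=
  ∀ β₁ ∈ ({0, 1} : Finset ℤ), s9_lin β₁ b (-1) a ∈ Hx → s9_cone b (s9_lin β₁ b (-1) a) →
    ∀ β₂ ∈ ({0, 1} : Finset ℤ), s9_lin β₂ (s9_lin β₁ b (-1) a) (-1) b ∈ Hx →
      s9_cone (s9_lin β₁ b (-1) a) (s9_lin β₂ (s9_lin β₁ b (-1) a) (-1) b) →
      s9_snd a b (s9_lin β₁ b (-1) a) (s9_lin β₂ (s9_lin β₁ b (-1) a) (-1) b)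

instance s9_dfst (a b : ℤ × ℤ) : Decidable (s9_fst a b) := by
  unfold s9_fst
  infer_instance

set_option maxRecDepth 100000 in
theorem s9_dec : ∀ a ∈ Hx, ∀ b ∈ Hx,
    (a.1 * b.2 - a.2 * b.1 = 1 ∨ a.1 * b.2 - a.2 * b.1 = -1) → s9_cone a b → s9_fst a b := by
  decide

theorem s9_eq {x y z : ℤ × ℤ} {β : ℤ} (h : x + y = β • z) : y = s9_lin β z (-1) x := by
  have h1 := congrArg Prod.fst h
  have h2 := congrArg Prod.snd h
  simp only [Prod.fst_add, Prod.snd_add, Prod.smul_fst, Prod.smul_snd, smul_eq_mul] at h1 h2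
  apply Prod.ext
  · change y.1 = β * z.1 + -1 * x.1
    linarith
  · change y.2 = β * z.2 + -1 * x.2
    linarith

theorem s9_smul (m m' : ℕ) (x y : ℤ × ℤ) : s9_lin m x m' y = m • x + m' • y := by
  apply Prod.ext
  · simp [s9_lin]
  · simp [s9_lin]

theorem hexagon (a b c d c' d' h : ℤ × ℤ) (ha : a ∈ Hx) (hb : b ∈ Hx) (hc : c ∈ Hx) (hd : d ∈ Hx)
    (hc' : c' ∈ Hx) (hd' : d' ∈ Hx) (hh : h ∈ Hx)
    (hdet : a.1 * b.2 - a.2 * b.1 = 1 ∨ a.1 * b.2 - a.2 * b.1 = -1)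
    (hab : 0 ≤ a.1 * b.1 ∧ 0 ≤ a.2 * b.2)
    (β₁ β₂ β₃ β₄ : ℤ) (h₁ : β₁ = 0 ∨ β₁ = 1) (h₂ : β₂ = 0 ∨ β₂ = 1) (h₃ : β₃ = 0 ∨ β₃ = 1)
    (h₄ : β₄ = 0 ∨ β₄ = 1)
    (e₁ : a + c = β₁ • b) (e₂ : b + d = β₂ • c) (e₃ : b + c' = β₃ • a) (e₄ : a + d' = β₄ • c')
    (hbc : 0 ≤ b.1 * c.1 ∧ 0 ≤ b.2 * c.2) (hcd : 0 ≤ c.1 * d.1 ∧ 0 ≤ c.2 * d.2)
    (hac' : 0 ≤ a.1 * c'.1 ∧ 0 ≤ a.2 * c'.2) (hcd' : 0 ≤ c'.1 * d'.1 ∧ 0 ≤ c'.2 * d'.2) :
    ∃ m m' : ℕ, h = m • a + m' • b ∨ h = m • b + m' • c ∨ h = m • c + m' • d ∨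
      h = m • a + m' • c' ∨ h = m • c' + m' • d' := by
  have hB : ∀ β : ℤ, β = 0 ∨ β = 1 → β ∈ ({0, 1} : Finset ℤ) := by
    intro β hβ
    simpa using hβ
  obtain rfl := s9_eq e₁
  obtain rfl := s9_eq e₂
  obtain rfl := s9_eq e₃
  obtain rfl := s9_eq e₄
  obtain ⟨m, -, m', -, H⟩ := s9_dec a ha b hb hdet hab β₁ (hB _ h₁) hc hbc β₂ (hB _ h₂) hd hcd
    β₃ (hB _ h₃) hc' hac' β₄ (hB _ h₄) hd' hcd' h hh
  simp only [s9_smul] at H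
  exact ⟨m, m', H⟩

end

end TB3
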