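import Pool.Agent.LibTB3.S8
import Pool.Agent.LibTB3.S9
/-!
ROW [TB3 S10] MEDIUM/STRONG.
(cite C2, D7, H0, S1, S6, S7, S8, S9) n = 3: the linear function of a chamber is at most 1 on the primes of the star of a member.
PLAN. cone_mem: z - m u - m' v has br S = br S' = 0; in the basis x, u, v (span, det_two ≠ 0) it is e x: z = e x + m u + m' v.  If e ≥ 0: z = ∑ c i • t i with t = ![x,u,v],
c = ![e,m,m'] so z ∈ {x,u,v} (prm_of_sum), z ≠ x.  If e < 0: z + |e| x = m u + m' v =: s.  Sbo z s: E0c s → E0c z by E0c_add/comb (Cmp z (|e| x)), Tc z → Tc s (Tc_add_left); t, c = ![0,m,m'],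
mem_of_sbo_sum: z = u or z = v (with positive coefficient, so not x).
llp: if z = x: c = (1,0,0) by coords_unique.  Otherwise Two for x (exists_two).  step four times: c₁ from ![x,a,b] (Chm ![x,b,c₁], a + c₁ = α x + β b), d from ![x,b,c₁], c' from ![x,b,a]
(chm_swap12), d' from ![x,a,c'].  hexagon with the q-vectors (coord, det_two, signs; q of the relations; q x = 0): q z is in one of the five cones, cone_mem: z ∈ {a,b,c₁,d,c',d'}.
λ(u) := sum of the coordinates of u in the basis x,a,b: λ(c₁) = α + β - 1 ≤ 1, λ(d) = α₂ + β₂ λ(c₁) - 1 ≤ 1, the same for c', d'.  (coords_unique to identify the coordinates.)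
-/
set_option autoImplicit false
universe u
namespace TB3
open Module TB10

section
variable {k : Type u} [Field k] {A : Type u} [Ring A] [Algebra k A]
variable {p : Fin 3 → Submodule A A} [Module.Finite k A] [Infinite k] [IsAlgClosed k]
    (hp : Bas k p) (hfin : FinB k A)

theorem s10_cramer {a b c d m m' e f : ℤ} (hdet : a * d - b * c = 1 ∨ a * d - b * c = -1)
    (h1 : e * a + f * c = m * a + m' * c) (h2 : e * b + f * d = m * b + m' * d) :
    e = m ∧ f = m' := by
  have h3 : (e - m) * (a * d - b * c) = 0 := by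
    have h4 : (e - m) * (a * d - b * c) = d * ((e * a + f * c) - (m * a + m' * c)) -
      c * ((e * b + f * d) - (m * b + m' * d)) := by ring
    rw [h4, h1, h2]
    ring
  have h5 : (f - m') * (a * d - b * c) = 0 := by
    have h4 : (f - m') * (a * d - b * c) = a * ((e * b + f * d) - (m * b + m' * d)) -
      b * ((e * a + f * c) - (m * a + m' * c)) := by ring
    rw [h4, h1, h2]
    ring
  have hne : a * d - b * c ≠ 0 := by
    rcases hdet with h | h <;> rw [h] <;> norm_num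
  exact ⟨by have := (mul_eq_zero.1 h3).resolve_right hne; omega,
    by have := (mul_eq_zero.1 h5).resolve_right hne; omega⟩

theorem s10_le {α β α' β' : ℤ} (h1 : α = 0 ∨ α = 1) (h2 : β = 0 ∨ β = 1) (h3 : α' = 0 ∨ α' = 1)
    (h4 : β' = 0 ∨ β' = 1) : α' + β' * (α + β - 1) - 1 ≤ 1 := by
  rcases h1 with rfl | rfl <;> rcases h2 with rfl | rfl <;> rcases h3 with rfl | rfl <;>
    rcases h4 with rfl | rfl <;> norm_num

include hp hfin

variable {S : Type u} [AddCommGroup S] [Module A S] [Module k S] [IsScalarTower k A S] [Module.Finite k S]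
    {S' : Type u} [AddCommGroup S'] [Module A S'] [Module k S'] [IsScalarTower k A S'] [Module.Finite k S']

theorem cone_mem {x u v z y y' : Fin 3 → ℤ} (hT : Two k p x S S' y y') (h : Chm k p ![x, u, v])
    (hz : Prm k p z) (hxz : Cmp k p x z) (hne : z ≠ x) (m m' : ℕ)
    (h1 : br k p z S = m * br k p u S + m' * br k p v S)
    (h2 : br k p z S' = m * br k p u S' + m' * br k p v S') : z = u ∨ z = v := by
  obtain ⟨c, hc⟩ := h.span z
  have hz' : z = c 0 • x + c 1 • u + c 2 • v := by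
    rw [hc, Fin.sum_univ_three]
    rfl
  have e1 : br k p z S = c 1 * br k p u S + c 2 * br k p v S := by
    rw [hz', br_add_left, br_add_left, br_zsmul_left, br_zsmul_left, br_zsmul_left, hT.s.zero,
      mul_zero, zero_add]
  have e2 : br k p z S' = c 1 * br k p u S' + c 2 * br k p v S' := by
    rw [hz', br_add_left, br_add_left, br_zsmul_left, br_zsmul_left, br_zsmul_left, hT.s'.zero,
      mul_zero, zero_add]
  obtain ⟨e3, e4⟩ := s10_cramer (det_two hp hfin hT h) (e1.symm.trans h1) (e2.symm.trans h2)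
  rw [e3, e4, natCast_zsmul, natCast_zsmul] at hz'
  rcases le_or_gt 0 (c 0) with h0 | h0
  · obtain ⟨e, he⟩ := Int.eq_ofNat_of_zero_le h0
    rw [he, natCast_zsmul] at hz'
    have hs : ∑ i, (![e, m, m'] : Fin 3 → ℕ) i • (![x, u, v] : Fin 3 → Fin 3 → ℤ) i = z := by
      rw [hz', Fin.sum_univ_three]
      rfl
    obtain ⟨i, -, hi⟩ := prm_of_sum hp hfin (![x, u, v] : Fin 3 → Fin 3 → ℤ) h.cmp h.prm ![e, m, m']
      (by rw [hs]; exact hz)
    rw [hs] at hi
    fin_cases i
    · exact absurd hi hne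
    · exact Or.inl hi
    · exact Or.inr hi
  · obtain ⟨f, hf⟩ := Int.eq_ofNat_of_zero_le (show 0 ≤ -(c 0) by omega)
    have hs : z + f • x = ∑ i, (![0, m, m'] : Fin 3 → ℕ) i • (![x, u, v] : Fin 3 → Fin 3 → ℤ) i := by
      rw [Fin.sum_univ_three]
      show z + f • x = 0 • x + m • u + m' • v
      have h5 : (f : ℤ) • x = f • x := natCast_zsmul x f
      rw [← h5, ← hf, hz']
      module
    have hcm : Cmp k p z (f • x) := (hxz.smul f).symm
    have hsb : Sbo k p z (z + f • x) := by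
      refine ⟨fun X => ?_, fun X => ?_⟩
      · intros
        exact ((E0c_add hp hfin hcm).1 ‹_›).1
      · intros
        exact Tc_add_left hcm ‹_›
    rw [hs] at hsb
    obtain ⟨i, hi0, hi⟩ := mem_of_sbo_sum hp hfin (![x, u, v] : Fin 3 → Fin 3 → ℤ) h.cmp h.prm
      ![0, m, m'] hz hsb
    fin_cases i
    · exact absurd hi hne
    · exact Or.inl hi
    · exact Or.inr hi

omit [AddCommGroup S] [Module A S] [Module k S] [IsScalarTower k A S] [Module.Finite k S]
  [AddCommGroup S'] [Module A S'] [Module k S'] [IsScalarTower k A S'] [Module.Finite k S'] in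
theorem llp (hA : NSE k p) {x a b z : Fin 3 → ℤ} (h : Chm k p ![x, a, b])
    (hz : Prm k p z) (hxz : Cmp k p x z) (c : Fin 3 → ℤ)
    (hc : z = c 0 • x + c 1 • a + c 2 • b) : c 0 + c 1 + c 2 ≤ 1 := by
  have hc' : z = ∑ i, c i • (![x, a, b] : Fin 3 → Fin 3 → ℤ) i := by
    rw [hc, Fin.sum_univ_three]
    rfl
  have key : ∀ e f g : ℤ, z = e • x + f • a + g • b → c 0 + c 1 + c 2 = e + f + g := by
    intro e f g h1
    have h2 : z = ∑ i, (![e, f, g] : Fin 3 → ℤ) i • (![x, a, b] : Fin 3 → Fin 3 → ℤ) i := by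
      rw [h1, Fin.sum_univ_three]
      rfl
    have h3 := coords_unique (![x, a, b] : Fin 3 → Fin 3 → ℤ) h.span c ![e, f, g] (hc'.symm.trans h2)
    rw [h3]
    rfl
  by_cases hzx : z = x
  · rw [key 1 0 0 (by rw [hzx]; module)]
    norm_num
  obtain ⟨S, i1, i2, i3, i4, i5, S', i1', i2', i3', i4', i5', y, y', hT⟩ := exists_two hp hfin h 0
  have hT : Two k p x S S' y y' := hT
  have hx : Prm k p x := h.prm 0
  obtain ⟨c₁, hc₁, α₁, β₁, ha₁, hb₁, e₁⟩ := step hp hfin hA h
  obtain ⟨d, hd, α₂, β₂, ha₂, hb₂, e₂⟩ := step hp hfin hA hc₁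
  obtain ⟨c₂, hc₂, α₃, β₃, ha₃, hb₃, e₃⟩ := step hp hfin hA (chm_swap12 h)
  obtain ⟨d₂, hd₂, α₄, β₄, ha₄, hb₄, e₄⟩ := step hp hfin hA hc₂
  have crd : ∀ {u v : Fin 3 → ℤ}, Chm k p ![x, u, v] →
      (br k p u S, br k p u S') ∈ Hx ∧ (br k p v S, br k p v S') ∈ Hx := by
    intro u v h
    refine ⟨coord hp hfin hA hT hx (h.prm 1) (h.cmp 0 1) fun h1 => ?_,
      coord hp hfin hA hT hx (h.prm 2) (h.cmp 0 2) fun h1 => ?_⟩
    · have h2 : (1 : Fin 3) = 0 := h.inj h1
      exact absurd h2 (by decide)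
    · have h2 : (2 : Fin 3) = 0 := h.inj h1
      exact absurd h2 (by decide)
  have sgn : ∀ {u v : Fin 3 → ℤ}, Chm k p ![x, u, v] →
      0 ≤ br k p u S * br k p v S ∧ 0 ≤ br k p u S' * br k p v S' := by
    intro u v h
    exact ⟨signs hp hfin hT.s (h.cmp 0 1) (h.cmp 0 2) (h.cmp 1 2),
      signs hp hfin hT.s' (h.cmp 0 1) (h.cmp 0 2) (h.cmp 1 2)⟩
  have rel : ∀ {u v w : Fin 3 → ℤ} {α β : ℤ}, u + w = α • x + β • v →
      ((br k p u S, br k p u S') : ℤ × ℤ) + (br k p w S, br k p w S') =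
        β • ((br k p v S, br k p v S') : ℤ × ℤ) := by
    intro u v w α β h
    have h1 : br k p u S + br k p w S = β * br k p v S := by
      rw [← br_add_left, h, br_add_left, br_zsmul_left, br_zsmul_left, hT.s.zero, mul_zero, zero_add]
    have h2 : br k p u S' + br k p w S' = β * br k p v S' := by
      rw [← br_add_left, h, br_add_left, br_zsmul_left, br_zsmul_left, hT.s'.zero, mul_zero, zero_add]
    exact Prod.ext h1 h2
  have mem : ∀ {u v : Fin 3 → ℤ} (_ : Chm k p ![x, u, v]) (m m' : ℕ),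
      ((br k p z S, br k p z S') : ℤ × ℤ) =
        m • ((br k p u S, br k p u S') : ℤ × ℤ) + m' • ((br k p v S, br k p v S') : ℤ × ℤ) →
      z = u ∨ z = v := by
    intro u v hch m m' h1
    apply cone_mem hp hfin hT hch hz hxz hzx m m'
    · have h2 := congrArg Prod.fst h1
      rw [Prod.fst_add, Prod.smul_fst, Prod.smul_fst, nsmul_eq_mul, nsmul_eq_mul] at h2
      exact h2
    · have h2 := congrArg Prod.snd h1
      rw [Prod.snd_add, Prod.smul_snd, Prod.smul_snd, nsmul_eq_mul, nsmul_eq_mul] at h2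
      exact h2
  have hzH : (br k p z S, br k p z S') ∈ Hx := coord hp hfin hA hT hx hz hxz hzx
  obtain ⟨m, m', hm⟩ := hexagon (br k p a S, br k p a S') (br k p b S, br k p b S')
    (br k p c₁ S, br k p c₁ S') (br k p d S, br k p d S') (br k p c₂ S, br k p c₂ S')
    (br k p d₂ S, br k p d₂ S') (br k p z S, br k p z S') (crd h).1 (crd h).2 (crd hc₁).2 (crd hd).2
    (crd hc₂).2 (crd hd₂).2 hzH (det_two hp hfin hT h) (sgn h) β₁ β₂ β₃ β₄ hb₁ hb₂ hb₃ hb₄
    (rel e₁) (rel e₂) (rel e₃) (rel e₄) (sgn hc₁) (sgn hd) (sgn hc₂) (sgn hd₂)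
  have ca : z = a → c 0 + c 1 + c 2 ≤ 1 := fun h1 => by
    rw [key 0 1 0 (by rw [h1]; module)]
    norm_num
  have cb : z = b → c 0 + c 1 + c 2 ≤ 1 := fun h1 => by
    rw [key 0 0 1 (by rw [h1]; module)]
    norm_num
  have cc : z = c₁ → c 0 + c 1 + c 2 ≤ 1 := fun h1 => by
    rw [key α₁ (-1) β₁ (by rw [h1]; linear_combination (norm := module) e₁)]
    omega
  have cd : z = d → c 0 + c 1 + c 2 ≤ 1 := fun h1 => by
    rw [key (α₂ + β₂ * α₁) (-β₂) (β₂ * β₁ - 1)
      (by rw [h1]; linear_combination (norm := module) e₂ + β₂ • e₁)]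
    have := s10_le ha₁ hb₁ ha₂ hb₂
    have h5 : α₂ + β₂ * α₁ + -β₂ + (β₂ * β₁ - 1) = α₂ + β₂ * (α₁ + β₁ - 1) - 1 := by ring
    rw [h5]
    exact this
  have cc2 : z = c₂ → c 0 + c 1 + c 2 ≤ 1 := fun h1 => by
    rw [key α₃ β₃ (-1) (by rw [h1]; linear_combination (norm := module) e₃)]
    omega
  have cd2 : z = d₂ → c 0 + c 1 + c 2 ≤ 1 := fun h1 => by
    rw [key (α₄ + β₄ * α₃) (β₄ * β₃ - 1) (-β₄)
      (by rw [h1]; linear_combination (norm := module) e₄ + β₄ • e₃)]
    have := s10_le ha₃ hb₃ ha₄ hb₄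
    have h5 : α₄ + β₄ * α₃ + (β₄ * β₃ - 1) + -β₄ = α₄ + β₄ * (α₃ + β₃ - 1) - 1 := by ring
    rw [h5]
    exact this
  rcases hm with hm | hm | hm | hm | hm
  · rcases mem h m m' hm with h1 | h1
    · exact ca h1
    · exact cb h1
  · rcases mem hc₁ m m' hm with h1 | h1
    · exact cb h1
    · exact cc h1
  · rcases mem hd m m' hm with h1 | h1
    · exact cc h1
    · exact cd h1
  · rcases mem hc₂ m m' hm with h1 | h1
    · exact ca h1
    · exact cc2 h1
  · rcases mem hd₂ m m' hm with h1 | h1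
    · exact cc2 h1
    · exact cd2 h1

end

end TB3
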