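import Pool.Agent.LibTB3.T5
import Pool.Agent.LibTB3.S0
/-!
ROW [TB3 S2] MEDIUM/STRONG.
(cite T5, L1, L2, N2, N3, R1, TB10.Cov) M = F.M, F local rigid of class y (dual of S), π : M → S nonzero, K = ker π: Hom(K,S) = 0 and dim Hom(K,S') ≤ 1.
PLAN. M is E0c x (Tc_M, Dl.cmp), π surjective (St.surj), K is E0c x (ker_E0c_x), finrank Hom(M,V) = br y V for semistable V (finrank_hom, E0_iff, Dl.ws).
ker_same: h : K → S, h ≠ 0 is surjective; R = (ker h).map K.subtype ≤ M, Z = M ⧸ R; σ : Z → S induced by π (R ≤ K), kernel = K/R ≃ K ⧸ ker h ≃ S through h, ι : S → Z with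
range ι = ker σ.  no_selfext: s with σ s = id; so there is ρ : Z → S with ρ ι = id (ρ z = ι⁻¹(z - s σ z)).  ρ ∘ mkQ : M → S restricted to K is h ≠ 0, π restricted to K is 0 and
π ≠ 0, so π and ρ mkQ are linearly independent in Hom(M,S) of dimension br y S = 1: contradiction.
ker_other: θ₁, θ₂ : K → S', θ₁ ≠ 0.  Suppose θ₂ is not a multiple of θ₁.  For c : k let θ_c = θ₂ + c θ₁ ≠ 0, surjective (St.surj), R_c = (ker θ_c).map K.subtype, Y_c = M ⧸ R_c,
an extension of S by S': semistable for x (Ws_ext), finrank Y_c = finrank S + finrank S', finrank Hom(M,Y_c) = br y Y_c = 1 + 0 = 1.  Y_c is a brick: g : Y_c → Y_c nonzero,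
g ∘ mkQ = γ mkQ with γ ≠ 0, g = γ id.  hfin gives a list L containing all bricks of that dimension; k infinite, so c ≠ c' with Y_c ≃ Y_c' (pigeonhole
`Finite.exists_ne_map_eq_of_infinite` k → {r // r ∈ L}); φ : Y_c ≃ Y_c', φ ∘ mkQ_c = γ mkQ_c', γ ≠ 0, so R_c = R_c' (kernels), ker θ_c = ker θ_c'; both surjective onto S'
so θ_c' = g θ_c, g : S' → S' scalar (St.scalar): θ₂ + c' θ₁ = g (θ₂ + c θ₁); θ₁, θ₂ independent: g = 1, c = c'.
-/
set_option autoImplicit false
universe u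
namespace TB3
open Module TB10

section
variable {k : Type u} [Field k] {A : Type u} [Ring A] [Algebra k A]
omit [Field k] in
theorem s2_iota {M T : Type u} [AddCommGroup M] [Module A M] [AddCommGroup T] [Module A T]
    (K : Submodule A M) (h : K →ₗ[A] T) (hs : Function.Surjective h) :
    ∃ ι : T →ₗ[A] (M ⧸ (LinearMap.ker h).map K.subtype), Function.Injective ι ∧
      ∀ v : K, ι (h v) = Submodule.Quotient.mk (v : M) := by
  let e := h.quotKerEquivOfSurjective hs
  let j : (K ⧸ LinearMap.ker h) →ₗ[A] (M ⧸ (LinearMap.ker h).map K.subtype) :=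
    (LinearMap.ker h).mapQ _ K.subtype (Submodule.le_comap_map _ _)
  have hj : ∀ v : K, j (e.symm (h v)) = Submodule.Quotient.mk (v : M) := by
    intro v
    have h1 : e (Submodule.Quotient.mk v) = h v :=
      LinearMap.quotKerEquivOfSurjective_apply_mk h hs v
    rw [← h1, LinearEquiv.symm_apply_apply]
    rfl
  refine ⟨j ∘ₗ e.symm.toLinearMap, ?_, fun v => hj v⟩
  rw [injective_iff_map_eq_zero]
  intro t ht
  obtain ⟨v, rfl⟩ := hs t
  have h2 : (Submodule.Quotient.mk (v : M) : M ⧸ (LinearMap.ker h).map K.subtype) = 0 := by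
    rw [← hj v]
    exact ht
  rw [Submodule.Quotient.mk_eq_zero] at h2
  obtain ⟨w, hw, hwv⟩ := h2
  have h3 : w = v := Subtype.ext hwv
  rw [← h3]
  exact hw

omit [Field k] in
/-- the extension of `S` by `T` given by a surjection from the kernel -/
theorem s2_ext {M S T : Type u} [AddCommGroup M] [Module A M] [AddCommGroup S] [Module A S]
    [AddCommGroup T] [Module A T] (π : M →ₗ[A] S) (hπ : Function.Surjective π)
    (h : LinearMap.ker π →ₗ[A] T) (hs : Function.Surjective h) :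
    ∃ (ι : T →ₗ[A] (M ⧸ (LinearMap.ker h).map (LinearMap.ker π).subtype))
      (σ : (M ⧸ (LinearMap.ker h).map (LinearMap.ker π).subtype) →ₗ[A] S),
      Function.Injective ι ∧ Function.Surjective σ ∧ LinearMap.range ι = LinearMap.ker σ ∧
      (∀ v : LinearMap.ker π, ι (h v) = Submodule.Quotient.mk (v : M)) ∧
      ∀ m : M, σ (Submodule.Quotient.mk m) = π m := by
  obtain ⟨ι, h1, h2⟩ := s2_iota (LinearMap.ker π) h hs
  have hle : (LinearMap.ker h).map (LinearMap.ker π).subtype ≤ LinearMap.ker π := by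
    rintro _ ⟨w, _, rfl⟩
    exact w.2
  refine ⟨ι, Submodule.liftQ _ π hle, h1, ?_, ?_, h2, fun m => rfl⟩
  · intro s
    obtain ⟨m, rfl⟩ := hπ s
    exact ⟨Submodule.Quotient.mk m, rfl⟩
  · ext z
    obtain ⟨m, rfl⟩ := Submodule.Quotient.mk_surjective _ z
    constructor
    · rintro ⟨t, ht⟩
      obtain ⟨v, rfl⟩ := hs t
      rw [h2 v] at ht
      rw [← ht]
      exact v.2
    · intro hm
      exact ⟨h ⟨m, hm⟩, h2 ⟨m, hm⟩⟩

omit [Field k] in
theorem s2_retract {Z S : Type u} [AddCommGroup Z] [Module A Z] [AddCommGroup S] [Module A S]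
    {T : Type u} [AddCommGroup T] [Module A T]
    (ι : T →ₗ[A] Z) (hι : Function.Injective ι) (σ : Z →ₗ[A] S)
    (hex : LinearMap.range ι = LinearMap.ker σ) (s : S →ₗ[A] Z) (hs : σ ∘ₗ s = LinearMap.id) :
    ∃ ρ : Z →ₗ[A] T, ρ ∘ₗ ι = LinearMap.id := by
  have hmem : ∀ z, (LinearMap.id - s ∘ₗ σ : Z →ₗ[A] Z) z ∈ LinearMap.range ι := by
    intro z
    rw [hex, LinearMap.mem_ker]
    have h1 : σ (s (σ z)) = σ z := LinearMap.congr_fun hs (σ z)
    simp [h1]
  refine ⟨(LinearEquiv.ofInjective ι hι).symm.toLinearMap ∘ₗ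
    LinearMap.codRestrict (LinearMap.range ι) (LinearMap.id - s ∘ₗ σ) hmem, ?_⟩
  ext t
  have h2 : σ (ι t) = 0 := by
    rw [← LinearMap.mem_ker, ← hex]
    exact ⟨t, rfl⟩
  have h3 : (LinearMap.codRestrict (LinearMap.range ι) (LinearMap.id - s ∘ₗ σ) hmem) (ι t) =
      LinearEquiv.ofInjective ι hι t := by
    apply Subtype.ext
    simp [h2]
  change (LinearEquiv.ofInjective ι hι).symm
    ((LinearMap.codRestrict (LinearMap.range ι) (LinearMap.id - s ∘ₗ σ) hmem) (ι t)) = t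
  rw [h3, LinearEquiv.symm_apply_apply]

omit [Field k] in
/-- a map with a bigger kernel factors through a surjection -/
theorem s2_factor {K T T' : Type u} [AddCommGroup K] [Module A K] [AddCommGroup T] [Module A T]
    [AddCommGroup T'] [Module A T'] (h : K →ₗ[A] T) (hs : Function.Surjective h) (h' : K →ₗ[A] T')
    (hk : ∀ v, h v = 0 → h' v = 0) : ∃ g : T →ₗ[A] T', h' = g ∘ₗ h := by
  let e := h.quotKerEquivOfSurjective hs
  refine ⟨Submodule.liftQ (LinearMap.ker h) h' (fun v hv => hk v hv) ∘ₗ e.symm.toLinearMap, ?_⟩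
  ext v
  have h1 : e (Submodule.Quotient.mk v) = h v :=
    LinearMap.quotKerEquivOfSurjective_apply_mk h hs v
  change h' v = Submodule.liftQ (LinearMap.ker h) h' (fun v hv => hk v hv) (e.symm (h v))
  rw [← h1, LinearEquiv.symm_apply_apply]
  rfl

/-- in a one-dimensional space of homomorphisms everything is a multiple of a nonzero one -/
theorem s2_one {M V : Type u} [AddCommGroup M] [Module A M] [AddCommGroup V] [Module A V]
    [Module k V] [IsScalarTower k A V] (h1 : finrank k (M →ₗ[A] V) = 1) (π : M →ₗ[A] V)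
    (hπ : π ≠ 0) (φ : M →ₗ[A] V) : ∃ c : k, c • π = φ :=
  exists_smul_eq_of_finrank_eq_one h1 hπ φ

theorem s2_mkQ_ne {M : Type u} [AddCommGroup M] [Module A M] (R : Submodule A M)
    [Nontrivial (M ⧸ R)] : R.mkQ ≠ 0 := by
  intro h0
  obtain ⟨z, hz⟩ := exists_ne (0 : M ⧸ R)
  apply hz
  obtain ⟨m, rfl⟩ := R.mkQ_surjective z
  rw [h0, LinearMap.zero_apply]

theorem s2_isBrick {M : Type u} [AddCommGroup M] [Module A M] [Module k M] [IsScalarTower k A M]
    (R : Submodule A M) (hn : Nontrivial (M ⧸ R))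
    (h1 : finrank k (M →ₗ[A] (M ⧸ R)) = 1) : IsBrick A (M ⧸ R) := by
  refine ⟨hn, fun g hg => ?_⟩
  obtain ⟨γ, hγ⟩ := s2_one h1 R.mkQ (s2_mkQ_ne R) (g ∘ₗ R.mkQ)
  have hgz : ∀ z, g z = γ • z := by
    intro z
    obtain ⟨m, rfl⟩ := R.mkQ_surjective z
    exact (LinearMap.congr_fun hγ m).symm
  have hγ0 : γ ≠ 0 := by
    intro h0
    apply hg
    refine LinearMap.ext fun z => ?_
    rw [hgz z, h0, zero_smul, LinearMap.zero_apply]
  constructor
  · rw [injective_iff_map_eq_zero]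
    intro z hz
    rw [hgz z] at hz
    exact (smul_eq_zero.1 hz).resolve_left hγ0
  · intro z
    refine ⟨γ⁻¹ • z, ?_⟩
    rw [hgz, smul_inv_smul₀ hγ0]

theorem s2_le {M : Type u} [AddCommGroup M] [Module A M] [Module k M] [IsScalarTower k A M]
    (R R' : Submodule A M) (hn : Nontrivial (M ⧸ R'))
    (h1 : finrank k (M →ₗ[A] (M ⧸ R')) = 1) (φ : (M ⧸ R) ≃ₗ[A] (M ⧸ R')) : R ≤ R' := by
  obtain ⟨γ, hγ⟩ := s2_one h1 R'.mkQ (s2_mkQ_ne R') (φ.toLinearMap ∘ₗ R.mkQ)
  have hγ0 : γ ≠ 0 := by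
    intro h0
    obtain ⟨w, hw⟩ := exists_ne (0 : M ⧸ R')
    apply hw
    obtain ⟨z, rfl⟩ := φ.surjective w
    obtain ⟨m, rfl⟩ := R.mkQ_surjective z
    have h2 := LinearMap.congr_fun hγ m
    rw [h0, zero_smul] at h2
    exact h2.symm
  intro v hv
  have h2 : γ • R'.mkQ v = φ (R.mkQ v) := LinearMap.congr_fun hγ v
  have h3 : R.mkQ v = 0 := (Submodule.Quotient.mk_eq_zero R).2 hv
  rw [h3, map_zero] at h2
  have h4 := (smul_eq_zero.1 h2).resolve_left hγ0
  exact (Submodule.Quotient.mk_eq_zero R').1 h4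

theorem s2_pigeon [Infinite k] {M : Type u} [AddCommGroup M] [Module A M] [Module k M]
    [IsScalarTower k A M] [Module.Finite k M] (hfin : FinB k A) (R : k → Submodule A M)
    (hn : ∀ c, Nontrivial (M ⧸ R c)) (h1 : ∀ c, finrank k (M →ₗ[A] (M ⧸ R c)) = 1) :
    ∃ c c', c ≠ c' ∧ R c ≤ R c' := by
  obtain ⟨L, hL⟩ := hfin (finrank k M)
  have hex : ∀ c : k, ∃ r ∈ L, Nonempty ((M ⧸ R c) ≃ₗ[A] Vm r.2) := by
    intro c
    refine hL _ (s2_isBrick (R c) (hn c) (h1 c)) ?_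
    exact LinearMap.finrank_le_finrank_of_surjective
      (f := ((R c).mkQ).restrictScalars k) (R c).mkQ_surjective
  choose r hrL hr using hex
  haveI : Finite {q // q ∈ L} := List.finite_toSet L
  obtain ⟨c, c', hcc, hrr⟩ := Finite.exists_ne_map_eq_of_infinite
    (fun c : k => (⟨r c, hrL c⟩ : {q // q ∈ L}))
  have hrr' : r c = r c' := congrArg Subtype.val hrr
  obtain ⟨e1⟩ := hr c
  obtain ⟨e2⟩ := hr c'
  rw [← hrr'] at e2
  exact ⟨c, c', hcc, s2_le (R c) (R c') (hn c') (h1 c') (e1.trans e2.symm)⟩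

variable {n : ℕ} {p : Fin n → Submodule A A}
    {S : Type u} [AddCommGroup S] [Module A S] [Module k S] [IsScalarTower k A S] [Module.Finite k S]
    {S' : Type u} [AddCommGroup S'] [Module A S'] [Module k S'] [IsScalarTower k A S'] [Module.Finite k S']
    [Module.Finite k A] [Infinite k] [IsAlgClosed k]

theorem ker_same (hp : Bas k p) (hfin : FinB k A) (hA : NSE k p) {x y : Fin n → ℤ}
    (hS : St k p x S) (hd : Dl k p x S y) {F : Pres k A} (hF : Rigid F.f) (hL : LocP F)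
    (hy : Cl k p F y) (π : F.M →ₗ[A] S) (hπ : π ≠ 0) (h : LinearMap.ker π →ₗ[A] S) : h = 0 := by
  by_contra h0
  have hM : E0c k p x F.M := hd.cmp.2 F.M (Tc_M hF hy)
  have hπs : Function.Surjective π := hS.surj hp hM π hπ
  have hK : E0c k p x (LinearMap.ker π) :=
    ker_E0c_x hp π hπs hM (by rw [Ws_br (hS.ws hp)])
  have hhs : Function.Surjective h := hS.surj hp hK h h0
  obtain ⟨ι, σ, hι, hσ, hex, hιh, hσπ⟩ := s2_ext π hπs h hhs
  obtain ⟨s, hs⟩ := no_selfext hp hfin hA hS ι hι σ hσ hex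
  obtain ⟨ρ, hρ⟩ := s2_retract ι hι σ hex s hs
  have h1 : finrank k (F.M →ₗ[A] S) = 1 := by
    have h2 := finrank_hom hy ((E0_iff hF hy).2 (hd.ws S (hS.ws hp)))
    rw [hd.one] at h2
    exact_mod_cast h2
  obtain ⟨c, hc⟩ := s2_one h1 π hπ (ρ ∘ₗ Submodule.mkQ _)
  apply h0
  ext v
  have h3 := LinearMap.congr_fun hc (v : F.M)
  have h4 : π (v : F.M) = 0 := v.2
  have h5 : ρ (ι (h v)) = h v := LinearMap.congr_fun hρ (h v)
  rw [LinearMap.smul_apply, h4, smul_zero] at h3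
  rw [LinearMap.zero_apply, ← h5, hιh v]
  exact h3.symm

/-- the extensions `Y` of `S` by `S'` which are quotients of `M` -/
theorem s2_brick (hp : Bas k p) {x y : Fin n → ℤ}
    (hS : St k p x S) (hd : Dl k p x S y) (hS' : St k p x S') (hne : IsEmpty (S ≃ₗ[A] S'))
    {F : Pres k A} (hF : Rigid F.f)
    (hy : Cl k p F y) (π : F.M →ₗ[A] S) (hπs : Function.Surjective π)
    (θ : LinearMap.ker π →ₗ[A] S') (hθ : Function.Surjective θ) :
    Nontrivial (F.M ⧸ (LinearMap.ker θ).map (LinearMap.ker π).subtype) ∧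
      finrank k (F.M →ₗ[A] (F.M ⧸ (LinearMap.ker θ).map (LinearMap.ker π).subtype)) = 1 := by
  obtain ⟨ι, σ, hι, hσ, hex, -, -⟩ := s2_ext π hπs θ hθ
  haveI := hS.nt
  refine ⟨hσ.nontrivial, ?_⟩
  have hN : Ws k p x (LinearMap.range ι) :=
    Ws_congr (LinearEquiv.ofInjective ι hι) (hS'.ws hp)
  have hQ : Ws k p x
      ((F.M ⧸ (LinearMap.ker θ).map (LinearMap.ker π).subtype) ⧸ LinearMap.range ι) := by
    rw [hex]
    exact Ws_congr (σ.quotKerEquivOfSurjective hσ).symm (hS.ws hp)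
  have hW := Ws_ext hp (LinearMap.range ι) hN hQ
  have h2 := finrank_hom hy ((E0_iff hF hy).2 (hd.ws _ hW))
  have h3 : br k p y (F.M ⧸ (LinearMap.ker θ).map (LinearMap.ker π).subtype) = 1 := by
    rw [br_ker hp y σ hσ, hd.one, ← hex, ← br_congr y (LinearEquiv.ofInjective ι hι),
      hd.zero S' hS' hne]
    rfl
  rw [h3] at h2
  exact_mod_cast h2

theorem ker_other (hp : Bas k p) (hfin : FinB k A) {x y : Fin n → ℤ}
    (hS : St k p x S) (hd : Dl k p x S y) (hS' : St k p x S') (hne : IsEmpty (S ≃ₗ[A] S'))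
    {F : Pres k A} (hF : Rigid F.f) (hL : LocP F)
    (hy : Cl k p F y) (π : F.M →ₗ[A] S) (hπ : π ≠ 0) (θ₁ θ₂ : LinearMap.ker π →ₗ[A] S')
    (h : θ₁ ≠ 0) : ∃ c : k, θ₂ = c • θ₁ := by
  by_contra hcon
  push Not at hcon
  have hM : E0c k p x F.M := hd.cmp.2 F.M (Tc_M hF hy)
  have hπs : Function.Surjective π := hS.surj hp hM π hπ
  have hK : E0c k p x (LinearMap.ker π) :=
    ker_E0c_x hp π hπs hM (by rw [Ws_br (hS.ws hp)])
  let θ : k → (LinearMap.ker π →ₗ[A] S') := fun c => θ₂ + c • θ₁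
  have hθ0 : ∀ c, θ c ≠ 0 := by
    intro c hc
    apply hcon (-c)
    rw [neg_smul]
    exact eq_neg_of_add_eq_zero_left hc
  have hθs : ∀ c, Function.Surjective (θ c) := fun c => hS'.surj hp hK (θ c) (hθ0 c)
  have hB := fun c => s2_brick hp hS hd hS' hne hF hy π hπs (θ c) (hθs c)
  obtain ⟨c, c', hcc, hle⟩ := s2_pigeon hfin
    (fun c => (LinearMap.ker (θ c)).map (LinearMap.ker π).subtype)
    (fun c => (hB c).1) (fun c => (hB c).2)
  have hker : ∀ v : LinearMap.ker π, θ c v = 0 → θ c' v = 0 := by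
    intro v hv
    obtain ⟨w, hw, hwv⟩ := hle (⟨v, hv, rfl⟩ : (v : F.M) ∈
      (LinearMap.ker (θ c)).map (LinearMap.ker π).subtype)
    have h3 : w = v := Subtype.ext hwv
    rw [← h3]
    exact hw
  obtain ⟨g, hg⟩ := s2_factor (θ c) (hθs c) (θ c') hker
  obtain ⟨a, ha⟩ := hS'.scalar hp g
  have hmain : θ₂ + c' • θ₁ = a • θ₂ + (a * c) • θ₁ := by
    have h5 : θ c' = a • θ c := by
      rw [hg, ha]
      rfl
    change θ c' = _
    rw [h5]
    change a • (θ₂ + c • θ₁) = _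
    rw [smul_add, smul_smul]
  by_cases ha1 : a = 1
  · rw [ha1, one_smul, one_mul] at hmain
    have h6 : (c' - c) • θ₁ = 0 := by
      rw [sub_smul, sub_eq_zero]
      exact add_left_cancel hmain
    rcases smul_eq_zero.1 h6 with h7 | h7
    · exact hcc (sub_eq_zero.1 h7).symm
    · exact h h7
  · have h8 : (1 - a) ≠ 0 := sub_ne_zero.2 (Ne.symm ha1)
    apply hcon ((1 - a)⁻¹ * (a * c - c'))
    have h9 : (1 - a) • θ₂ = (a * c - c') • θ₁ := by
      rw [sub_smul, sub_smul, one_smul, sub_eq_sub_iff_add_eq_add]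
      rw [hmain]
      abel
    rw [mul_smul, ← h9, inv_smul_smul₀ h8]

end

end TB3
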