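import Pool.Agent.LibTB3.S2
/-!
ROW [TB3 S3] STRONG.
(cite S0, S2, T5, L1, N2, N3, N4, R1) a semistable B with a quotient S and without submodule S contains the extension M ⧸ ker θ.
Setting: M = F.M, F local rigid of class y (dual of S), π : M → S nonzero, K = ker π.
PLAN. finrank Hom(M,V) = br y V for semistable V.  br y B ≥ 1 (quotient S: kernel semistable, br_ker).  Choose φ : M → B, φ ≠ 0 with finrank (range φ) minimal.  U = range φ is semistable
(Ws_range).  φ restricted to K is not 0: otherwise φ factors through π : M → S, giving a nonzero S → B.  ker φ ≤ K: U is nontrivial, has a stable quotient, the composite M → U → stable is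
surjective; it is not S' since Hom(M,S') = 0 (br y S' = 0), so S (up to iso), and the composite is a scalar multiple of π (finrank Hom(M,S) = 1), so ker φ ≤ ker π.
R = φ(K) = kernel of U → S, semistable (Ws_ker / Ws_sub).  br y R = 0: otherwise Hom(M,R) ≠ 0 and a nonzero M → R ≤ B has smaller range (R < U).  R ≠ 0.
quot_of_zero: ρ : R → S' surjective.  If R₂ = ker ρ ≠ 0: semistable, br y R₂ = 0, ρ₂ : R₂ → S' surjective, R₃ = ker ρ₂ (mapped to R); R ⧸ R₃ is an extension of S' by S', splits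
(no_selfext), so there are two linearly independent maps R → S', composed with the surjection K → R two linearly independent maps K → S': contradiction with
ker_other.  So ρ is an isomorphism, θ = ρ ∘ (φ restricted to K → R), ker θ = ker φ ⊓ K.
-/
set_option autoImplicit false
universe u
namespace TB3
open Module TB10

section
variable {k : Type u} [Field k] {A : Type u} [Ring A] [Algebra k A]

/-- factorization through a surjection -/
theorem s3_factor {M U V : Type u} [AddCommGroup M] [Module A M] [AddCommGroup U] [Module A U]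
    [AddCommGroup V] [Module A V] (f : M →ₗ[A] U) (hf : Function.Surjective f) (g : M →ₗ[A] V)
    (h : LinearMap.ker f ≤ LinearMap.ker g) : ∃ σ : U →ₗ[A] V, σ ∘ₗ f = g := by
  refine ⟨(LinearMap.ker f).liftQ g h ∘ₗ
    (f.quotKerEquivOfSurjective hf).symm.toLinearMap, ?_⟩
  ext m
  have h1 : (f.quotKerEquivOfSurjective hf).symm (f m) = (LinearMap.ker f).mkQ m := by
    rw [LinearEquiv.symm_apply_eq]
    rfl
  rw [LinearMap.comp_apply, LinearMap.comp_apply, LinearEquiv.coe_coe, h1,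
    Submodule.mkQ_apply, Submodule.liftQ_apply]

/-- a retraction from a section -/
theorem s3_retract {V Z W : Type u} [AddCommGroup V] [Module A V] [AddCommGroup Z] [Module A Z]
    [AddCommGroup W] [Module A W] (ι : V →ₗ[A] Z) (hι : Function.Injective ι) (σ : Z →ₗ[A] W)
    (hex : LinearMap.range ι = LinearMap.ker σ) (s : W →ₗ[A] Z) (hs : σ ∘ₗ s = LinearMap.id) :
    ∃ r : Z →ₗ[A] V, r ∘ₗ ι = LinearMap.id := by
  have h1 : ∀ z : Z, (LinearMap.id - s ∘ₗ σ : Z →ₗ[A] Z) z ∈ LinearMap.range ι := by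
    intro z
    rw [hex, LinearMap.mem_ker, LinearMap.sub_apply, LinearMap.id_apply, LinearMap.comp_apply,
      map_sub]
    have h2 : σ (s (σ z)) = σ z := congrArg (fun f : W →ₗ[A] W => f (σ z)) hs
    rw [h2, sub_self]
  refine ⟨(LinearEquiv.ofInjective ι hι).symm.toLinearMap ∘ₗ
    (LinearMap.id - s ∘ₗ σ : Z →ₗ[A] Z).codRestrict (LinearMap.range ι) h1, ?_⟩
  ext v
  rw [LinearMap.comp_apply, LinearMap.comp_apply, LinearEquiv.coe_coe, LinearMap.id_apply,
    LinearEquiv.symm_apply_eq]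
  apply Subtype.ext
  rw [LinearMap.codRestrict_apply, LinearEquiv.ofInjective_apply, LinearMap.sub_apply,
    LinearMap.id_apply, LinearMap.comp_apply]
  have h3 : σ (ι v) = 0 := by
    rw [← LinearMap.mem_ker, ← hex]
    exact ⟨v, rfl⟩
  rw [h3, map_zero, sub_zero]

theorem s3_exists_ne {M V : Type u} [AddCommGroup M] [Module A M] [Module k M] [IsScalarTower k A M]
    [Module.Finite k M] [AddCommGroup V] [Module A V] [Module k V] [IsScalarTower k A V]
    [Module.Finite k V] (h : 0 < finrank k (M →ₗ[A] V)) : ∃ f : M →ₗ[A] V, f ≠ 0 := by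
  by_contra hcon
  push Not at hcon
  have : Subsingleton (M →ₗ[A] V) := ⟨fun a b => by rw [hcon a, hcon b]⟩
  rw [finrank_zero_of_subsingleton] at h
  exact lt_irrefl _ h

theorem s3_all_zero {M V : Type u} [AddCommGroup M] [Module A M] [Module k M] [IsScalarTower k A M]
    [Module.Finite k M] [AddCommGroup V] [Module A V] [Module k V] [IsScalarTower k A V]
    [Module.Finite k V] (h : finrank k (M →ₗ[A] V) = 0) (f : M →ₗ[A] V) : f = 0 := by
  have : Subsingleton (M →ₗ[A] V) := finrank_zero_iff.1 h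
  exact Subsingleton.elim _ _

/-- the dimension of a proper submodule -/
theorem s3_finrank_lt {V : Type u} [AddCommGroup V] [Module A V] [Module k V] [IsScalarTower k A V]
    [Module.Finite k V] (N N' : Submodule A V) (h : N < N') : finrank k N < finrank k N' := by
  have h1 : N.restrictScalars k < N'.restrictScalars k := by
    rw [lt_iff_le_and_ne] at h ⊢
    exact ⟨fun x hx => h.1 hx, fun he => h.2 (Submodule.restrictScalars_injective k A V he)⟩
  exact Submodule.finrank_lt_finrank_of_lt h1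

variable {n : ℕ} {p : Fin n → Submodule A A}
    {S : Type u} [AddCommGroup S] [Module A S] [Module k S] [IsScalarTower k A S] [Module.Finite k S]
    {S' : Type u} [AddCommGroup S'] [Module A S'] [Module k S'] [IsScalarTower k A S'] [Module.Finite k S']
    {B : Type u} [AddCommGroup B] [Module A B] [Module k B] [IsScalarTower k A B] [Module.Finite k B]
    [Module.Finite k A] [Infinite k] [IsAlgClosed k]

omit [Module.Finite k S] [Infinite k] [IsAlgClosed k] in
/-- `dim Hom(M,V) = ⟨y, V⟩` for semistable `V` -/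
theorem s3_hom {x y : Fin n → ℤ} (hd : Dl k p x S y) {F : Pres k A} (hF : Rigid F.f)
    (hy : Cl k p F y) (V : Type u) [AddCommGroup V] [Module A V] [Module k V] [IsScalarTower k A V]
    [Module.Finite k V] (hV : Ws k p x V) : (finrank k (F.M →ₗ[A] V) : ℤ) = br k p y V :=
  finrank_hom hy ((E0_iff hF hy).2 (hd.ws V hV))

omit [Infinite k] [IsAlgClosed k] in
/-- a nonzero map from `M` to a semistable module has kernel in `ker π` -/
theorem s3_ker_le (hp : Bas k p) {x y y' : Fin n → ℤ}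
    (h : Two k p x S S' y y') {F : Pres k A} (hF : Rigid F.f)
    (hy : Cl k p F y) (π : F.M →ₗ[A] S) (hπ : π ≠ 0) (hB : Ws k p x B) (φ : F.M →ₗ[A] B)
    (hφ : φ ≠ 0) : LinearMap.ker φ ≤ LinearMap.ker π := by
  have hM : E0c k p x F.M := h.d.cmp.2 F.M (Tc_M hF hy)
  have hU : Ws k p x (LinearMap.range φ) := Ws_range hp φ hM hB.2
  have hnt : Nontrivial (LinearMap.range φ) := by
    rw [Submodule.nontrivial_iff_ne_bot]
    intro h0
    exact hφ (LinearMap.range_eq_bot.1 h0)
  obtain ⟨K₁, hK₁⟩ := exists_stable_quot hp hU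
  have hntW : Nontrivial ((LinearMap.range φ) ⧸ K₁) := hK₁.nt
  set ψ : F.M →ₗ[A] ((LinearMap.range φ) ⧸ K₁) := K₁.mkQ ∘ₗ φ.rangeRestrict with hψ
  have hψs : Function.Surjective ψ :=
    (Submodule.mkQ_surjective K₁).comp (LinearMap.surjective_rangeRestrict φ)
  have hS1 : finrank k (F.M →ₗ[A] S) = 1 := by
    have h1 := s3_hom h.d hF hy S (h.s.ws hp)
    rw [h.d.one] at h1
    exact_mod_cast h1
  have hS2 : finrank k (F.M →ₗ[A] S') = 0 := by
    have h1 := s3_hom h.d hF hy S' (h.s'.ws hp)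
    rw [h.d.zero S' h.s' h.ne] at h1
    exact_mod_cast h1
  rcases h.all _ hK₁ with ⟨⟨e⟩⟩ | ⟨⟨e⟩⟩
  · obtain ⟨c, hc⟩ := (finrank_eq_one_iff_of_nonzero' π hπ).1 hS1 (e.toLinearMap ∘ₗ ψ)
    have hc0 : c ≠ 0 := by
      rintro rfl
      rw [zero_smul] at hc
      obtain ⟨w, hw⟩ := exists_ne (0 : (LinearMap.range φ) ⧸ K₁)
      obtain ⟨m, rfl⟩ := hψs w
      have h2 : e (ψ m) = 0 := (congrArg (fun f : F.M →ₗ[A] S => f m) hc).symm
      exact hw (e.map_eq_zero_iff.1 h2)
    intro m hm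
    rw [LinearMap.mem_ker] at hm ⊢
    have h2 : c • π m = e (ψ m) := congrArg (fun f : F.M →ₗ[A] S => f m) hc
    have h3 : ψ m = 0 := by
      have h4 : φ.rangeRestrict m = 0 := Subtype.ext hm
      rw [hψ, LinearMap.comp_apply, h4, map_zero]
    rw [h3, map_zero] at h2
    rcases smul_eq_zero.1 h2 with h4 | h4
    · exact absurd h4 hc0
    · exact h4
  · exfalso
    have h1 := s3_all_zero hS2 (e.toLinearMap ∘ₗ ψ)
    obtain ⟨w, hw⟩ := exists_ne (0 : (LinearMap.range φ) ⧸ K₁)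
    obtain ⟨m, rfl⟩ := hψs w
    have h2 : e (ψ m) = 0 := congrArg (fun f : F.M →ₗ[A] S' => f m) h1
    exact hw (e.map_eq_zero_iff.1 h2)

theorem fourB_sub (hp : Bas k p) (hfin : FinB k A) (hA : NSE k p) {x y y' : Fin n → ℤ}
    (h : Two k p x S S' y y') {F : Pres k A} (hF : Rigid F.f) (hL : LocP F)
    (hy : Cl k p F y) (π : F.M →ₗ[A] S) (hπ : π ≠ 0) (hB : Ws k p x B)
    (h1 : ∃ g : B →ₗ[A] S, g ≠ 0) (h2 : ∀ g : S →ₗ[A] B, g = 0) :
    ∃ (φ : F.M →ₗ[A] B) (θ : LinearMap.ker π →ₗ[A] S'), θ ≠ 0 ∧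
      LinearMap.ker φ = (LinearMap.ker θ).map (LinearMap.ker π).subtype := by
  classical
  have hM : E0c k p x F.M := h.d.cmp.2 F.M (Tc_M hF hy)
  have hSw : Ws k p x S := h.s.ws hp
  have hSw' : Ws k p x S' := h.s'.ws hp
  have hntS : Nontrivial S := h.s.nt
  have hntS' : Nontrivial S' := h.s'.nt
  have hπs : Function.Surjective π := h.s.surj hp hM π hπ
  -- a nonzero map to B
  obtain ⟨g, hg⟩ := h1
  have hgs : Function.Surjective g := h.s.surj hp hB.1 g hg
  have hex : ∃ φ : F.M →ₗ[A] B, φ ≠ 0 := by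
    refine s3_exists_ne (k := k) ?_
    have e1 := s3_hom h.d hF hy B hB
    have e2 := br_ker hp y g hgs
    have e3 := E0c_br (h.d.ws _ (Ws_ker hp g hB hSw))
    rw [h.d.one] at e2
    have : (0 : ℤ) < finrank k (F.M →ₗ[A] B) := by rw [e1]; linarith
    exact_mod_cast this
  -- minimal range
  have hmin : ∃ φ : F.M →ₗ[A] B, φ ≠ 0 ∧ ∀ φ' : F.M →ₗ[A] B, φ' ≠ 0 →
      finrank k (LinearMap.range φ) ≤ finrank k (LinearMap.range φ') := by
    have hP : ∃ d : ℕ, ∃ φ : F.M →ₗ[A] B, φ ≠ 0 ∧ finrank k (LinearMap.range φ) = d := by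
      obtain ⟨φ, hφ⟩ := hex
      exact ⟨_, φ, hφ, rfl⟩
    obtain ⟨φ, hφ, hd⟩ := Nat.find_spec hP
    refine ⟨φ, hφ, fun φ' hφ' => ?_⟩
    rw [hd]
    exact Nat.find_min' hP ⟨φ', hφ', rfl⟩
  obtain ⟨φ, hφ, hmin⟩ := hmin
  have hU : Ws k p x (LinearMap.range φ) := Ws_range hp φ hM hB.2
  have hker : LinearMap.ker φ ≤ LinearMap.ker π := s3_ker_le hp h hF hy π hπ hB φ hφ
  -- φ is not zero on ker π
  have hres : ∃ m ∈ LinearMap.ker π, φ m ≠ 0 := by
    by_contra hcon
    push Not at hcon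
    obtain ⟨σ, hσ⟩ := s3_factor π hπs φ (fun m hm => LinearMap.mem_ker.2 (hcon m hm))
    rw [h2 σ, LinearMap.zero_comp] at hσ
    exact hφ hσ.symm
  -- the map U → S
  have hkr : LinearMap.ker φ.rangeRestrict ≤ LinearMap.ker π := by
    rw [LinearMap.ker_rangeRestrict]
    exact hker
  obtain ⟨σ, hσ⟩ := s3_factor φ.rangeRestrict (LinearMap.surjective_rangeRestrict φ) π hkr
  have hσ' : ∀ m, σ (φ.rangeRestrict m) = π m := fun m =>
    congrArg (fun f : F.M →ₗ[A] S => f m) hσ
  have hR : Ws k p x (LinearMap.ker σ) := Ws_ker hp σ hU hSw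
  -- the map K → R
  have hmaps : ∀ m ∈ LinearMap.ker π, φ.rangeRestrict m ∈ LinearMap.ker σ := by
    intro m hm
    rw [LinearMap.mem_ker, hσ']
    exact hm
  set κ : LinearMap.ker π →ₗ[A] LinearMap.ker σ := φ.rangeRestrict.restrict hmaps with hκ
  have hκs : Function.Surjective κ := by
    rintro ⟨u, hu⟩
    obtain ⟨m, rfl⟩ := LinearMap.surjective_rangeRestrict φ u
    have hm : m ∈ LinearMap.ker π := by
      rw [LinearMap.mem_ker, hσ'] at hu
      exact hu
    exact ⟨⟨m, hm⟩, rfl⟩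
  have hκ0 : ∀ m : LinearMap.ker π, κ m = 0 ↔ φ m = 0 := by
    intro m
    constructor
    · intro h0
      have h3 := congrArg (fun r : LinearMap.ker σ => ((r : LinearMap.range φ) : B)) h0
      exact h3
    · intro h0
      apply Subtype.ext
      apply Subtype.ext
      exact h0
  have hntR : Nontrivial (LinearMap.ker σ) := by
    obtain ⟨m, hm, hm0⟩ := hres
    exact ⟨κ ⟨m, hm⟩, 0, fun h0 => hm0 ((hκ0 ⟨m, hm⟩).1 h0)⟩
  -- br y R = 0
  have hyR : br k p y (LinearMap.ker σ) = 0 := by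
    have e1 := E0c_br (h.d.ws _ hR)
    rcases e1.eq_or_lt with e1 | e1
    · exact e1.symm
    exfalso
    have e2 := s3_hom h.d hF hy (LinearMap.ker σ) hR
    have e3 : 0 < finrank k (F.M →ₗ[A] LinearMap.ker σ) := by
      have : (0 : ℤ) < finrank k (F.M →ₗ[A] LinearMap.ker σ) := by rw [e2]; exact e1
      exact_mod_cast this
    obtain ⟨f, hf⟩ := s3_exists_ne e3
    have hf' : (LinearMap.range φ).subtype ∘ₗ (LinearMap.ker σ).subtype ∘ₗ f ≠ 0 := by
      intro h0
      apply hf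
      refine LinearMap.ext fun m => Subtype.ext (Subtype.ext ?_)
      exact congrArg (fun f : F.M →ₗ[A] B => f m) h0
    have h3 := hmin _ hf'
    have h4 : LinearMap.range ((LinearMap.range φ).subtype ∘ₗ (LinearMap.ker σ).subtype ∘ₗ f) <
        LinearMap.range φ := by
      rw [lt_iff_le_and_ne]
      constructor
      · rintro _ ⟨m, rfl⟩
        exact ((f m : LinearMap.ker σ) : LinearMap.range φ).2
      · intro he
        obtain ⟨s, hs⟩ := exists_ne (0 : S)
        obtain ⟨m, rfl⟩ := hπs s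
        have h5 : φ m ∈ LinearMap.range
            ((LinearMap.range φ).subtype ∘ₗ (LinearMap.ker σ).subtype ∘ₗ f) := by
          rw [he]
          exact ⟨m, rfl⟩
        obtain ⟨m', hm'⟩ := h5
        have h6 : ((f m' : LinearMap.ker σ) : LinearMap.range φ) = φ.rangeRestrict m :=
          Subtype.ext hm'
        have h7 : σ (φ.rangeRestrict m) = 0 := by
          rw [← h6]
          exact (f m').2
        rw [hσ'] at h7
        exact hs h7
    have h5 := s3_finrank_lt (k := k) _ _ h4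
    omega
  obtain ⟨ρ, hρ⟩ := quot_of_zero hp h (LinearMap.ker σ) hR hyR
  have hyS' : br k p y S' = 0 := h.d.zero S' h.s' h.ne
  -- ρ is injective
  have hρi : LinearMap.ker ρ = ⊥ := by
    by_contra hne
    have hnt2 : Nontrivial (LinearMap.ker ρ) := (Submodule.nontrivial_iff_ne_bot).2 hne
    have hR2 : Ws k p x (LinearMap.ker ρ) := Ws_ker hp ρ hR hSw'
    have hyR2 : br k p y (LinearMap.ker ρ) = 0 := by
      have e1 := br_ker hp y ρ hρ
      rw [hyR, hyS', add_zero] at e1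
      exact e1.symm
    obtain ⟨ρ₂, hρ₂⟩ := quot_of_zero hp h (LinearMap.ker ρ) hR2 hyR2
    set R₃ : Submodule A (LinearMap.ker σ) :=
      (LinearMap.ker ρ₂).map (LinearMap.ker ρ).subtype with hR₃
    have hmem : ∀ r : LinearMap.ker ρ, (r : LinearMap.ker σ) ∈ R₃ ↔ ρ₂ r = 0 := by
      intro r
      constructor
      · rintro ⟨r', hr', he⟩
        have : r' = r := Subtype.ext he
        rw [← this]
        exact hr'
      · intro hr
        exact ⟨r, hr, rfl⟩
    let jj : LinearMap.ker ρ →ₗ[A] (LinearMap.ker σ ⧸ R₃) := R₃.mkQ ∘ₗ (LinearMap.ker ρ).subtype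
    have hkle : LinearMap.ker ρ₂ ≤ LinearMap.ker jj := by
      intro r hr
      have h3 : (r : LinearMap.ker σ) ∈ R₃ := (hmem r).2 (LinearMap.mem_ker.1 hr)
      exact LinearMap.mem_ker.2 ((Submodule.Quotient.mk_eq_zero R₃).2 h3)
    obtain ⟨ι, hι⟩ := s3_factor (A := A) (M := LinearMap.ker ρ) (U := S')
      (V := LinearMap.ker σ ⧸ R₃) ρ₂ hρ₂ jj hkle
    have hι' : ∀ r : LinearMap.ker ρ, ι (ρ₂ r) = R₃.mkQ (r : LinearMap.ker σ) := fun r =>
      congrArg (fun f : LinearMap.ker ρ →ₗ[A] (LinearMap.ker σ ⧸ R₃) => f r) hι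
    have hιi : Function.Injective ι := by
      rw [injective_iff_map_eq_zero]
      intro s hs
      obtain ⟨r, rfl⟩ := hρ₂ s
      rw [hι', Submodule.mkQ_apply, Submodule.Quotient.mk_eq_zero] at hs
      exact (hmem r).1 hs
    have hR₃le : R₃ ≤ LinearMap.ker ρ := by
      rintro _ ⟨r, -, rfl⟩
      exact r.2
    set τ : (LinearMap.ker σ ⧸ R₃) →ₗ[A] S' := R₃.liftQ ρ hR₃le with hτ
    have hτ' : ∀ r, τ (R₃.mkQ r) = ρ r := fun r => by
      rw [hτ, Submodule.mkQ_apply, Submodule.liftQ_apply]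
    have hτs : Function.Surjective τ := by
      intro s
      obtain ⟨r, rfl⟩ := hρ s
      exact ⟨R₃.mkQ r, hτ' r⟩
    have hexact : LinearMap.range ι = LinearMap.ker τ := by
      ext z
      constructor
      · rintro ⟨s, rfl⟩
        obtain ⟨r, rfl⟩ := hρ₂ s
        rw [LinearMap.mem_ker, hι', hτ']
        exact r.2
      · intro hz
        obtain ⟨r, rfl⟩ := Submodule.mkQ_surjective R₃ z
        rw [LinearMap.mem_ker, hτ'] at hz
        exact ⟨ρ₂ ⟨r, hz⟩, hι' ⟨r, hz⟩⟩
    obtain ⟨s, hs⟩ := no_selfext hp hfin hA h.s' ι hιi τ hτs hexact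
    obtain ⟨r, hr⟩ := s3_retract ι hιi τ hexact s hs
    have hr' : ∀ v, r (ι v) = v := fun v => congrArg (fun f : S' →ₗ[A] S' => f v) hr
    have hθ₁ : ρ ∘ₗ κ ≠ 0 := by
      intro h0
      obtain ⟨w, hw⟩ := exists_ne (0 : S')
      obtain ⟨v, rfl⟩ := hρ w
      obtain ⟨m, rfl⟩ := hκs v
      exact hw (congrArg (fun f : LinearMap.ker π →ₗ[A] S' => f m) h0)
    obtain ⟨c, hc⟩ := ker_other hp hfin h.s h.d h.s' h.ne hF hL hy π hπ (ρ ∘ₗ κ)
      ((r ∘ₗ R₃.mkQ) ∘ₗ κ) hθ₁
    obtain ⟨w, hw⟩ := exists_ne (0 : S')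
    obtain ⟨v, rfl⟩ := hρ₂ w
    obtain ⟨m, hm⟩ := hκs (v : LinearMap.ker σ)
    have h3 := congrArg (fun f : LinearMap.ker π →ₗ[A] S' => f m) hc
    have h4 : r (R₃.mkQ (κ m)) = c • ρ (κ m) := h3
    rw [hm, ← hι', hr'] at h4
    have h5 : ρ (v : LinearMap.ker σ) = 0 := v.2
    rw [h5, smul_zero] at h4
    exact hw h4
  refine ⟨φ, ρ ∘ₗ κ, ?_, ?_⟩
  · intro h0
    obtain ⟨w, hw⟩ := exists_ne (0 : S')
    obtain ⟨v, rfl⟩ := hρ w
    obtain ⟨m, rfl⟩ := hκs v
    exact hw (congrArg (fun f : LinearMap.ker π →ₗ[A] S' => f m) h0)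
  · ext m
    constructor
    · intro hm
      refine ⟨⟨m, hker hm⟩, ?_, rfl⟩
      rw [SetLike.mem_coe, LinearMap.mem_ker, LinearMap.comp_apply, (hκ0 ⟨m, hker hm⟩).2 hm,
        map_zero]
    · rintro ⟨m', hm', rfl⟩
      rw [SetLike.mem_coe, LinearMap.mem_ker, LinearMap.comp_apply, ← LinearMap.mem_ker, hρi,
        Submodule.mem_bot] at hm'
      exact (hκ0 m').1 hm'

end

end TB3
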