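import Pool.Agent.LibTB3.S2
/-!
ROW [TB3 S4] STRONG.
(cite S0, S2, L1, N2, N3, N4, R1) a semistable B with Hom(B,S') = 0 and Hom(S,B) = 0 has the quotient M ⧸ ker θ.
Setting: M = F.M, F local rigid of class y (dual of S), π : M → S nonzero, K = ker π.
PLAN. finrank Hom(M,V) = br y V for semistable V.  (a) For D semistable with br y' D = 0 every K → D is 0: Ws_rec-like induction on finrank: D has a stable quotient W (quot; kernel D₁ with
br y' = 0), W ≃ S (br y' W = 0), K → D → W is 0 by ker_same, so K → D₁, 0.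
(b) Among the quotients C = B ⧸ J with C semistable and br y' C ≥ 1 choose finrank minimal (J = ⊥: B has a stable submodule (exists_stable_sub), not S (h2), so S', br y' B ≥ 1).
V ≤ C stable (exists_stable_sub); C ⧸ V is a semistable quotient of smaller dimension, so br y' (C ⧸ V) = 0, br y' V ≥ 1, V ≃ S', br y' C = 1.  Hom(S,C) = 0: an injective S → C with
image V₂ (St.inj): C ⧸ V₂ would have br y' ≥ 1 and smaller dimension.  D = C ⧸ V is nontrivial (otherwise B → C ≃ S' nonzero).  br y C = br y D ≥ 1 (two_pos).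
φ : M → C nonzero.  φ(K) ≤ V (by (a) for D).  φ restricted to K is not 0 (otherwise S → C nonzero).  θ = (K → V ≃ S') ≠ 0.
ker φ ≤ K: range φ is semistable nontrivial with a stable quotient, M → quotient; not S' (br y S' = 0), so S and a multiple of π.
So ker φ = map (ker θ).  br y C = 1: for φ₂ : M → C restricted to K → V ≃ S': by ker_other a combination φ₂ - c φ vanishes on K, factors through S → C, so is 0: finrank
Hom(M,C) = 1.  range φ: br y = 1 (M → range φ nonzero, ≤ br y C), br y' (range φ) ≥ 1 because it contains φ(K) = V.  So C ⧸ range φ has br y = br y' = 0: it is 0 (two_pos).  φ is onto.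
-/
set_option autoImplicit false
universe u
namespace TB3
open Module TB10

section
variable {k : Type u} [Field k] {A : Type u} [Ring A] [Algebra k A]

/-- factorization through a surjection -/
theorem s4_factor {M U V : Type u} [AddCommGroup M] [Module A M] [AddCommGroup U] [Module A U]
    [AddCommGroup V] [Module A V] (f : M →ₗ[A] U) (hf : Function.Surjective f) (g : M →ₗ[A] V)
    (h : LinearMap.ker f ≤ LinearMap.ker g) : ∃ σ : U →ₗ[A] V, σ ∘ₗ f = g := by
  refine ⟨(LinearMap.ker f).liftQ g h ∘ₗ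
    (f.quotKerEquivOfSurjective hf).symm.toLinearMap, ?_⟩
  ext m
  have h1 : (f.quotKerEquivOfSurjective hf).symm (f m) = (LinearMap.ker f).mkQ m := by
    rw [LinearEquiv.symm_apply_eq]
    rfl
  rw [LinearMap.comp_apply, LinearMap.comp_apply, LinearEquiv.coe_coe, h1,
    Submodule.mkQ_apply, Submodule.liftQ_apply]

theorem s4_exists_ne {M V : Type u} [AddCommGroup M] [Module A M] [Module k M] [IsScalarTower k A M]
    [Module.Finite k M] [AddCommGroup V] [Module A V] [Module k V] [IsScalarTower k A V]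
    [Module.Finite k V] (h : 0 < finrank k (M →ₗ[A] V)) : ∃ f : M →ₗ[A] V, f ≠ 0 := by
  by_contra hcon
  push Not at hcon
  have : Subsingleton (M →ₗ[A] V) := ⟨fun a b => by rw [hcon a, hcon b]⟩
  rw [finrank_zero_of_subsingleton] at h
  exact lt_irrefl _ h

theorem s4_all_zero {M V : Type u} [AddCommGroup M] [Module A M] [Module k M] [IsScalarTower k A M]
    [Module.Finite k M] [AddCommGroup V] [Module A V] [Module k V] [IsScalarTower k A V]
    [Module.Finite k V] (h : finrank k (M →ₗ[A] V) = 0) (f : M →ₗ[A] V) : f = 0 := by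
  have : Subsingleton (M →ₗ[A] V) := finrank_zero_iff.1 h
  exact Subsingleton.elim _ _

/-- the dimension of a proper submodule -/
theorem s4_finrank_lt {V : Type u} [AddCommGroup V] [Module A V] [Module k V] [IsScalarTower k A V]
    [Module.Finite k V] (N N' : Submodule A V) (h : N < N') : finrank k N < finrank k N' := by
  have h1 : N.restrictScalars k < N'.restrictScalars k := by
    rw [lt_iff_le_and_ne] at h ⊢
    exact ⟨fun x hx => h.1 hx, fun he => h.2 (Submodule.restrictScalars_injective k A V he)⟩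
  exact Submodule.finrank_lt_finrank_of_lt h1

variable {n : ℕ} {p : Fin n → Submodule A A}
    {S : Type u} [AddCommGroup S] [Module A S] [Module k S] [IsScalarTower k A S] [Module.Finite k S]
    {S' : Type u} [AddCommGroup S'] [Module A S'] [Module k S'] [IsScalarTower k A S'] [Module.Finite k S']
    {B : Type u} [AddCommGroup B] [Module A B] [Module k B] [IsScalarTower k A B] [Module.Finite k B]
    [Module.Finite k A] [Infinite k] [IsAlgClosed k]

omit [Module.Finite k S] [Infinite k] [IsAlgClosed k] in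
/-- `dim Hom(M,V) = ⟨y, V⟩` for semistable `V` -/
theorem s4_hom {x y : Fin n → ℤ} (hd : Dl k p x S y) {F : Pres k A} (hF : Rigid F.f)
    (hy : Cl k p F y) (V : Type u) [AddCommGroup V] [Module A V] [Module k V] [IsScalarTower k A V]
    [Module.Finite k V] (hV : Ws k p x V) : (finrank k (F.M →ₗ[A] V) : ℤ) = br k p y V :=
  finrank_hom hy ((E0_iff hF hy).2 (hd.ws V hV))

omit [Infinite k] [IsAlgClosed k] in
/-- a nonzero map from `M` to a semistable module has kernel in `ker π` -/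
theorem s4_ker_le (hp : Bas k p) {x y y' : Fin n → ℤ}
    (h : Two k p x S S' y y') {F : Pres k A} (hF : Rigid F.f)
    (hy : Cl k p F y) (π : F.M →ₗ[A] S) (hπ : π ≠ 0) (hB : Ws k p x B) (φ : F.M →ₗ[A] B)
    (hφ : φ ≠ 0) : LinearMap.ker φ ≤ LinearMap.ker π := by
  have hM : E0c k p x F.M := h.d.cmp.2 F.M (Tc_M hF hy)
  have hU : Ws k p x (LinearMap.range φ) := Ws_range hp φ hM hB.2
  have hnt : Nontrivial (LinearMap.range φ) := by
    rw [Submodule.nontrivial_iff_ne_bot]
    intro h0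
    exact hφ (LinearMap.range_eq_bot.1 h0)
  obtain ⟨K₁, hK₁⟩ := exists_stable_quot hp hU
  have hntW : Nontrivial ((LinearMap.range φ) ⧸ K₁) := hK₁.nt
  set ψ : F.M →ₗ[A] ((LinearMap.range φ) ⧸ K₁) := K₁.mkQ ∘ₗ φ.rangeRestrict with hψ
  have hψs : Function.Surjective ψ :=
    (Submodule.mkQ_surjective K₁).comp (LinearMap.surjective_rangeRestrict φ)
  have hS1 : finrank k (F.M →ₗ[A] S) = 1 := by
    have h1 := s4_hom h.d hF hy S (h.s.ws hp)
    rw [h.d.one] at h1
    exact_mod_cast h1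
  have hS2 : finrank k (F.M →ₗ[A] S') = 0 := by
    have h1 := s4_hom h.d hF hy S' (h.s'.ws hp)
    rw [h.d.zero S' h.s' h.ne] at h1
    exact_mod_cast h1
  rcases h.all _ hK₁ with ⟨⟨e⟩⟩ | ⟨⟨e⟩⟩
  · obtain ⟨c, hc⟩ := (finrank_eq_one_iff_of_nonzero' π hπ).1 hS1 (e.toLinearMap ∘ₗ ψ)
    have hc0 : c ≠ 0 := by
      rintro rfl
      rw [zero_smul] at hc
      obtain ⟨w, hw⟩ := exists_ne (0 : (LinearMap.range φ) ⧸ K₁)
      obtain ⟨m, rfl⟩ := hψs w
      have h2 : e (ψ m) = 0 := (congrArg (fun f : F.M →ₗ[A] S => f m) hc).symm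
      exact hw (e.map_eq_zero_iff.1 h2)
    intro m hm
    rw [LinearMap.mem_ker] at hm ⊢
    have h2 : c • π m = e (ψ m) := congrArg (fun f : F.M →ₗ[A] S => f m) hc
    have h3 : ψ m = 0 := by
      have h4 : φ.rangeRestrict m = 0 := Subtype.ext hm
      rw [hψ, LinearMap.comp_apply, h4, map_zero]
    rw [h3, map_zero] at h2
    rcases smul_eq_zero.1 h2 with h4 | h4
    · exact absurd h4 hc0
    · exact h4
  · exfalso
    have h1 := s4_all_zero hS2 (e.toLinearMap ∘ₗ ψ)
    obtain ⟨w, hw⟩ := exists_ne (0 : (LinearMap.range φ) ⧸ K₁)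
    obtain ⟨m, rfl⟩ := hψs w
    have h2 : e (ψ m) = 0 := congrArg (fun f : F.M →ₗ[A] S' => f m) h1
    exact hw (e.map_eq_zero_iff.1 h2)

/-- a semistable module with `⟨y', ·⟩ = 0` receives no nonzero map from `ker π` -/
theorem s4_zero (hp : Bas k p) (hfin : FinB k A) (hA : NSE k p) {x y y' : Fin n → ℤ}
    (h : Two k p x S S' y y') {F : Pres k A} (hF : Rigid F.f) (hL : LocP F)
    (hy : Cl k p F y) (π : F.M →ₗ[A] S) (hπ : π ≠ 0) (D : Type u) [AddCommGroup D] [Module A D]
    [Module k D] [IsScalarTower k A D] [Module.Finite k D] (hD : Ws k p x D) :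
    br k p y' D = 0 → ∀ g : LinearMap.ker π →ₗ[A] D, g = 0 := by
  refine Ws_rec (C := fun X _ _ _ _ _ => br k p y' X = 0 →
    ∀ g : LinearMap.ker π →ₗ[A] X, g = 0) hp ?_ ?_ D hD
  · intro X _ _ _ _ _ hX _ g
    exact LinearMap.ext fun m => Subsingleton.elim _ _
  · intro X _ _ _ _ _ K₁ hX hK₁ hst hrec h0 g
    have hW : Ws k p x (X ⧸ K₁) := hst.ws hp
    have e1 := br_add hp y' K₁
    have e2 := (two_nonneg h _ hK₁).2
    have e3 := (two_nonneg h _ hW).2
    have hs : Nonempty ((X ⧸ K₁) ≃ₗ[A] S) := by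
      rcases h.all _ hst with h3 | ⟨⟨e⟩⟩
      · exact h3
      · exfalso
        have e4 := br_congr (k := k) (p := p) y' e
        rw [h.d'.one] at e4
        linarith
    obtain ⟨e⟩ := hs
    have h3 := ker_same hp hfin hA h.s h.d hF hL hy π hπ (e.toLinearMap ∘ₗ K₁.mkQ ∘ₗ g)
    have h4 : ∀ m, g m ∈ K₁ := by
      intro m
      have h5 : e (K₁.mkQ (g m)) = 0 := congrArg (fun f : LinearMap.ker π →ₗ[A] S => f m) h3
      have h6 := e.map_eq_zero_iff.1 h5
      exact (Submodule.Quotient.mk_eq_zero K₁).1 h6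
    have h5 := hrec (by linarith) (g.codRestrict K₁ h4)
    refine LinearMap.ext fun m => ?_
    have h6 : g.codRestrict K₁ h4 m = 0 := congrArg (fun f : LinearMap.ker π →ₗ[A] K₁ => f m) h5
    exact congrArg Subtype.val h6

theorem fourB_quot (hp : Bas k p) (hfin : FinB k A) (hA : NSE k p) {x y y' : Fin n → ℤ}
    (h : Two k p x S S' y y') {F : Pres k A} (hF : Rigid F.f) (hL : LocP F)
    (hy : Cl k p F y) (π : F.M →ₗ[A] S) (hπ : π ≠ 0) [Nontrivial B] (hB : Ws k p x B)
    (h1 : ∀ g : B →ₗ[A] S', g = 0) (h2 : ∀ g : S →ₗ[A] B, g = 0) :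
    ∃ (J : Submodule A B) (φ : F.M →ₗ[A] (B ⧸ J)) (θ : LinearMap.ker π →ₗ[A] S'), θ ≠ 0 ∧
      Function.Surjective φ ∧ LinearMap.ker φ = (LinearMap.ker θ).map (LinearMap.ker π).subtype := by
  classical
  have hM : E0c k p x F.M := h.d.cmp.2 F.M (Tc_M hF hy)
  have hSw : Ws k p x S := h.s.ws hp
  have hSw' : Ws k p x S' := h.s'.ws hp
  have hntS : Nontrivial S := h.s.nt
  have hntS' : Nontrivial S' := h.s'.nt
  have hπs : Function.Surjective π := h.s.surj hp hM π hπ
  have hyS' : br k p y S' = 0 := h.d.zero S' h.s' h.ne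
  have hy'S : br k p y' S = 0 := h.d'.zero S h.s ⟨fun e => h.ne.false e.symm⟩
  -- the minimal quotient
  have hP : ∃ d : ℕ, ∃ J : Submodule A B, Ws k p x (B ⧸ J) ∧ 1 ≤ br k p y' (B ⧸ J) ∧
      finrank k (B ⧸ J) = d := by
    refine ⟨_, ⊥, ?_, ?_, rfl⟩
    · exact Ws_congr (Submodule.quotEquivOfEqBot (⊥ : Submodule A B) rfl).symm hB
    · rw [← br_congr (k := k) (p := p) y' (Submodule.quotEquivOfEqBot (⊥ : Submodule A B) rfl).symm]
      obtain ⟨N, hN⟩ := exists_stable_sub hp hB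
      rcases h.all _ hN with ⟨⟨e⟩⟩ | ⟨⟨e⟩⟩
      · exfalso
        have h3 := h2 (N.subtype ∘ₗ e.symm.toLinearMap)
        obtain ⟨s, hs⟩ := exists_ne (0 : S)
        have h4 : ((e.symm s : N) : B) = 0 := congrArg (fun f : S →ₗ[A] B => f s) h3
        have h5 : e.symm s = 0 := Subtype.ext h4
        exact hs (e.symm.map_eq_zero_iff.1 h5)
      · have e1 := br_add hp y' N
        have e2 := br_congr (k := k) (p := p) y' e
        rw [h.d'.one] at e2
        have e3 := (two_nonneg h _ (Ws_sub hp hB N hN.zero).2).2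
        linarith
  obtain ⟨J, hC, hy'C, hd⟩ := Nat.find_spec hP
  have hminY : ∀ (Y : Type u) [AddCommGroup Y] [Module A Y] [Module k Y] [IsScalarTower k A Y]
      [Module.Finite k Y] (f : (B ⧸ J) →ₗ[A] Y), Function.Surjective f → Ws k p x Y →
      finrank k Y < finrank k (B ⧸ J) → br k p y' Y = 0 := by
    intro Y _ _ _ _ _ f hf hY hlt
    by_contra hne
    have h3 := (two_nonneg h _ hY).2
    have hfs : Function.Surjective (f ∘ₗ J.mkQ) := hf.comp (Submodule.mkQ_surjective J)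
    have eY : (B ⧸ LinearMap.ker (f ∘ₗ J.mkQ)) ≃ₗ[A] Y := (f ∘ₗ J.mkQ).quotKerEquivOfSurjective hfs
    have h4 : finrank k (B ⧸ LinearMap.ker (f ∘ₗ J.mkQ)) = finrank k Y :=
      LinearEquiv.finrank_eq (eY.restrictScalars k)
    have h5 := Nat.find_min' hP (m := finrank k (B ⧸ LinearMap.ker (f ∘ₗ J.mkQ)))
      ⟨LinearMap.ker (f ∘ₗ J.mkQ), Ws_congr eY.symm hY, by
        rw [br_congr (k := k) (p := p) y' eY]
        omega, rfl⟩
    rw [← hd] at h5
    omega
  have hntC : Nontrivial (B ⧸ J) := by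
    by_contra hcon
    rw [not_nontrivial_iff_subsingleton] at hcon
    have h3 := br_subsingleton (k := k) (p := p) (X := B ⧸ J) y'
    omega
  obtain ⟨V, hV⟩ := exists_stable_sub hp hC
  have hntV : Nontrivial V := hV.nt
  have hVne : V ≠ ⊥ := Submodule.nontrivial_iff_ne_bot.1 hntV
  have hD : Ws k p x ((B ⧸ J) ⧸ V) := (Ws_sub hp hC V hV.zero).2
  have hquot : ∀ N : Submodule A (B ⧸ J), N ≠ ⊥ → finrank k ((B ⧸ J) ⧸ N) < finrank k (B ⧸ J) := by
    intro N hN
    have h3 : finrank k ((B ⧸ J) ⧸ N.restrictScalars k) + finrank k (N.restrictScalars k) =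
        finrank k (B ⧸ J) := Submodule.finrank_quotient_add_finrank (N.restrictScalars k)
    have h4 := s4_finrank_lt (k := k) (⊥ : Submodule A (B ⧸ J)) N (bot_lt_iff_ne_bot.2 hN)
    have h5 : finrank k ((B ⧸ J) ⧸ N) = finrank k ((B ⧸ J) ⧸ N.restrictScalars k) := rfl
    have h6 : finrank k (N.restrictScalars k) = finrank k N := rfl
    omega
  have hy'D : br k p y' ((B ⧸ J) ⧸ V) = 0 :=
    hminY _ V.mkQ (Submodule.mkQ_surjective V) hD (hquot V hVne)
  have hadd' := br_add hp y' V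
  have hVS' : Nonempty (V ≃ₗ[A] S') := by
    rcases h.all _ hV with ⟨⟨e⟩⟩ | h3
    · exfalso
      have e2 := br_congr (k := k) (p := p) y' e
      rw [hy'S] at e2
      omega
    · exact h3
  obtain ⟨e⟩ := hVS'
  have hy'V : br k p y' V = 1 := by
    rw [br_congr (k := k) (p := p) y' e, h.d'.one]
  have hy'C1 : br k p y' (B ⧸ J) = 1 := by omega
  -- no maps S → C
  have hSC : ∀ g : S →ₗ[A] (B ⧸ J), g = 0 := by
    intro g
    by_contra hg
    have hgi := h.s.inj hp hC.2 g hg
    have hne : LinearMap.range g ≠ ⊥ := fun h0 => hg (LinearMap.range_eq_bot.1 h0)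
    have h3 := hminY _ (LinearMap.range g).mkQ (Submodule.mkQ_surjective _)
      (Ws_coker hp g hSw hC) (hquot _ hne)
    have h4 := br_add hp y' (LinearMap.range g)
    have h5 := br_congr (k := k) (p := p) y' (LinearEquiv.ofInjective g hgi)
    rw [hy'S] at h5
    omega
  -- D is nontrivial
  have hntD : Nontrivial ((B ⧸ J) ⧸ V) := by
    by_contra hcon
    rw [not_nontrivial_iff_subsingleton, Submodule.Quotient.subsingleton_iff] at hcon
    have h3 := h1 (e.toLinearMap ∘ₗ (LinearEquiv.ofTop V hcon).symm.toLinearMap ∘ₗ J.mkQ)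
    obtain ⟨w, hw⟩ := exists_ne (0 : S')
    obtain ⟨v, rfl⟩ := e.surjective w
    obtain ⟨b, hb⟩ := Submodule.mkQ_surjective J (v : B ⧸ J)
    have h4 : e ((LinearEquiv.ofTop V hcon).symm (J.mkQ b)) = 0 :=
      congrArg (fun f : B →ₗ[A] S' => f b) h3
    have h5 : (LinearEquiv.ofTop V hcon).symm (J.mkQ b) = v := by
      rw [LinearEquiv.symm_apply_eq, hb]
      rfl
    rw [h5] at h4
    exact hw h4
  have hyC : 0 < br k p y (B ⧸ J) := by
    have e1 := br_add hp y V
    have e2 := br_congr (k := k) (p := p) y e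
    rw [hyS'] at e2
    rcases two_pos hp h _ hD with h3 | h3
    · linarith
    · omega
  obtain ⟨φ, hφ⟩ : ∃ φ : F.M →ₗ[A] (B ⧸ J), φ ≠ 0 := by
    refine s4_exists_ne (k := k) ?_
    have e1 := s4_hom h.d hF hy _ hC
    have : (0 : ℤ) < finrank k (F.M →ₗ[A] (B ⧸ J)) := by rw [e1]; exact hyC
    exact_mod_cast this
  have hlandV : ∀ (φ₂ : F.M →ₗ[A] (B ⧸ J)) (m : LinearMap.ker π), φ₂ m ∈ V := by
    intro φ₂ m
    have h3 := s4_zero hp hfin hA h hF hL hy π hπ _ hD hy'D
      (V.mkQ ∘ₗ φ₂ ∘ₗ (LinearMap.ker π).subtype)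
    have h4 : V.mkQ (φ₂ m) = 0 :=
      congrArg (fun f : LinearMap.ker π →ₗ[A] ((B ⧸ J) ⧸ V) => f m) h3
    exact (Submodule.Quotient.mk_eq_zero V).1 h4
  have hzero : ∀ φ₂ : F.M →ₗ[A] (B ⧸ J), (∀ m : LinearMap.ker π, φ₂ m = 0) → φ₂ = 0 := by
    intro φ₂ hm
    obtain ⟨σ, hσ⟩ := s4_factor π hπs φ₂ (fun m hm' => LinearMap.mem_ker.2 (hm ⟨m, hm'⟩))
    rw [← hσ, hSC σ, LinearMap.zero_comp]
  let th : (F.M →ₗ[A] (B ⧸ J)) → (LinearMap.ker π →ₗ[A] S') := fun φ₂ =>
    e.toLinearMap ∘ₗ (φ₂ ∘ₗ (LinearMap.ker π).subtype).codRestrict V (hlandV φ₂)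
  have hth : ∀ φ₂ m, th φ₂ m = e ⟨φ₂ m, hlandV φ₂ m⟩ := fun φ₂ m => rfl
  have hth0 : ∀ φ₂ m, th φ₂ m = 0 ↔ φ₂ m = 0 := by
    intro φ₂ m
    rw [hth, e.map_eq_zero_iff]
    constructor
    · intro h0
      exact congrArg Subtype.val h0
    · intro h0
      exact Subtype.ext h0
  have hthne : th φ ≠ 0 := by
    intro h0
    apply hφ
    apply hzero
    intro m
    rw [← hth0, h0, LinearMap.zero_apply]
  have hker : LinearMap.ker φ ≤ LinearMap.ker π := s4_ker_le hp h hF hy π hπ hC φ hφ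
  -- dimension one
  have hone : finrank k (F.M →ₗ[A] (B ⧸ J)) = 1 := by
    rw [finrank_eq_one_iff_of_nonzero' φ hφ]
    intro φ₂
    obtain ⟨c, hc⟩ := ker_other hp hfin h.s h.d h.s' h.ne hF hL hy π hπ (th φ) (th φ₂) hthne
    refine ⟨c, ?_⟩
    have h3 : φ₂ - c • φ = 0 := by
      apply hzero
      intro m
      have h4 : th φ₂ m = c • th φ m := congrArg (fun f : LinearMap.ker π →ₗ[A] S' => f m) hc
      rw [hth, hth] at h4
      have h5 : e (⟨φ₂ m, hlandV φ₂ m⟩ - c • ⟨φ m, hlandV φ m⟩) = 0 := by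
        rw [map_sub, h4]
        have h6 : e (c • (⟨φ m, hlandV φ m⟩ : V)) = c • e ⟨φ m, hlandV φ m⟩ :=
          (e.restrictScalars k).map_smul c _
        rw [h6, sub_self]
      have h6 := congrArg Subtype.val (e.map_eq_zero_iff.1 h5)
      exact h6
    exact (sub_eq_zero.1 h3).symm
  have hyC1 : br k p y (B ⧸ J) = 1 := by
    have e1 := s4_hom h.d hF hy _ hC
    rw [hone] at e1
    exact_mod_cast e1.symm
  have hU : Ws k p x (LinearMap.range φ) := Ws_range hp φ hM hC.2
  have hyU : 0 < br k p y (LinearMap.range φ) := by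
    have e1 := s4_hom h.d hF hy _ hU
    have e2 := E0c_br (h.d.ws _ hU)
    rcases e2.eq_or_lt with e3 | e3
    · exfalso
      rw [← e3] at e1
      have h3 := s4_all_zero (k := k) (by exact_mod_cast e1) φ.rangeRestrict
      apply hφ
      refine LinearMap.ext fun m => ?_
      exact congrArg (fun f : F.M →ₗ[A] LinearMap.range φ => ((f m : LinearMap.range φ) : B ⧸ J)) h3
    · exact e3
  have hCU : Ws k p x ((B ⧸ J) ⧸ LinearMap.range φ) := (Ws_sub hp hC _ (Ws_br hU)).2
  have hsurj : Function.Surjective φ := by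
    rw [← LinearMap.range_eq_top]
    by_contra hne
    have hnt : Nontrivial ((B ⧸ J) ⧸ LinearMap.range φ) := Submodule.Quotient.nontrivial_iff.2 hne
    have e1 := br_add hp y (LinearMap.range φ)
    have e2 := (two_nonneg h _ hCU).1
    have e3 := hminY _ (LinearMap.range φ).mkQ (Submodule.mkQ_surjective _) hCU
      (hquot _ (fun h0 => hφ (LinearMap.range_eq_bot.1 h0)))
    rcases two_pos hp h _ hCU with h3 | h3
    · omega
    · omega
  refine ⟨J, φ, th φ, hthne, hsurj, ?_⟩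
  ext m
  constructor
  · intro hm
    exact ⟨⟨m, hker hm⟩, (hth0 φ ⟨m, hker hm⟩).2 hm, rfl⟩
  · rintro ⟨m', hm', rfl⟩
    exact (hth0 φ m').1 hm'

end

end TB3
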