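import Pool.Agent.LibTB3.S3
import Pool.Agent.LibTB3.S4
/-!
ROW [TB3 S5] MEDIUM/STRONG.
(cite S0, S2, S3, S4, N3, N4, R1) every brick in W_x has the class of S, of S' or of S + S'.
PLAN. B has a stable quotient W (exists_stable_quot), W ≃ S or S'; by symmetry (Two.symm) treat S; the conclusion is symmetric.  g₀ : B → S surjective.
If some g : S → B is nonzero: it is injective (St.inj), g ∘ g₀ : B → B is nonzero so bijective, so g₀ is injective, B ≃ S: br u B = br u S.
Otherwise Hom(S,B) = 0.  B has a stable submodule: ≃ S' (not S): injective j : S' → B.  If some g : B → S' is nonzero then j ∘ g ≠ 0 is bijective, g injective, B ≃ S'.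
Otherwise Hom(B,S') = 0.  F local rigid of class y (h.d.prm), M = F.M, π : M → S nonzero (finrank Hom(M,S) = br y S = 1).  fourB_sub: φ₁ : M → B, θ₁; fourB_quot: φ₂ : M → B ⧸ J onto, θ₂.
ker_other: θ₂ = c θ₁, c ≠ 0, so ker φ₁ = ker φ₂.  So B → B ⧸ J ≃ M ⧸ ker φ₂ = M ⧸ ker φ₁ → B (injective): a nonzero endomorphism (B ⧸ J nontrivial: φ₂ ≠ 0 since θ₂ ≠ 0...), so bijective;
so mkQ J is injective, B ≃ M ⧸ ker φ₂, which has the submodule K ⧸ ker θ₂ ≃ S' (θ₂ surjective: St.surj, K E0c x) with quotient M ⧸ K ≃ S: br u B = br u S + br u S'.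
-/
set_option autoImplicit false
universe u
namespace TB3
open Module TB10

section
variable {k : Type u} [Field k] {A : Type u} [Ring A] [Algebra k A]
variable {n : ℕ} {p : Fin n → Submodule A A}
    {S : Type u} [AddCommGroup S] [Module A S] [Module k S] [IsScalarTower k A S] [Module.Finite k S]
    {S' : Type u} [AddCommGroup S'] [Module A S'] [Module k S'] [IsScalarTower k A S'] [Module.Finite k S']
    {B : Type u} [AddCommGroup B] [Module A B] [Module k B] [IsScalarTower k A B] [Module.Finite k B]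
    [Module.Finite k A] [Infinite k] [IsAlgClosed k]

theorem s5_core (hp : Bas k p) (hfin : FinB k A) (hA : NSE k p) {x y y' : Fin n → ℤ}
    (h : Two k p x S S' y y') (hB : Ws k p x B) (hb : IsBrick A B) (g₀ : B →ₗ[A] S) (hg₀ : g₀ ≠ 0) :
    (∀ u, br k p u B = br k p u S) ∨ (∀ u, br k p u B = br k p u S') ∨
      (∀ u, br k p u B = br k p u S + br k p u S') := by
  have hBn : Nontrivial B := hb.1
  have hs₀ : Function.Surjective g₀ := h.s.surj hp hB.1 g₀ hg₀
  by_cases c1 : ∃ g : S →ₗ[A] B, g ≠ 0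
  · obtain ⟨g, hg⟩ := c1
    have hgi : Function.Injective g := h.s.inj hp hB.2 g hg
    have hne : g ∘ₗ g₀ ≠ 0 := by
      intro h0
      apply hg₀
      ext b
      apply hgi
      rw [LinearMap.zero_apply, map_zero]
      exact LinearMap.congr_fun h0 b
    have hbij := hb.2 _ hne
    have hi : Function.Injective g₀ := fun a b hab => hbij.1 (congrArg g hab)
    left
    intro u
    exact br_congr u (LinearEquiv.ofBijective g₀ ⟨hi, hs₀⟩)
  have h2 : ∀ g : S →ₗ[A] B, g = 0 := fun g => by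
    by_contra hg
    exact c1 ⟨g, hg⟩
  obtain ⟨N, hN⟩ := exists_stable_sub hp hB
  obtain ⟨j, hj⟩ : ∃ j : S' →ₗ[A] B, Function.Injective j := by
    rcases h.all N hN with ⟨⟨e⟩⟩ | ⟨⟨e⟩⟩
    · exfalso
      have hSn := h.s.nt
      obtain ⟨s, hs⟩ := exists_ne (0 : S)
      have h3 := LinearMap.congr_fun (h2 (N.subtype ∘ₗ (e.symm : S →ₗ[A] N))) s
      have h4 : ((e.symm s : N) : B) = 0 := h3
      have h5 : e.symm s = 0 := Subtype.ext h4
      exact hs (e.symm.map_eq_zero_iff.1 h5)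
    · exact ⟨N.subtype ∘ₗ (e.symm : S' →ₗ[A] N),
        (Submodule.subtype_injective N).comp e.symm.injective⟩
  by_cases c2 : ∃ g : B →ₗ[A] S', g ≠ 0
  · obtain ⟨g, hg⟩ := c2
    have hne : j ∘ₗ g ≠ 0 := by
      intro h0
      apply hg
      ext b
      apply hj
      rw [LinearMap.zero_apply, map_zero]
      exact LinearMap.congr_fun h0 b
    have hbij := hb.2 _ hne
    have hi : Function.Injective g := fun a b hab => hbij.1 (congrArg j hab)
    right
    left
    intro u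
    exact br_congr u (LinearEquiv.ofBijective g ⟨hi, h.s'.surj hp hB.1 g hg⟩)
  have h1 : ∀ g : B →ₗ[A] S', g = 0 := fun g => by
    by_contra hg
    exact c2 ⟨g, hg⟩
  obtain ⟨-, F, hF, hL, hy⟩ := h.d.prm
  have hfr : (finrank k (F.M →ₗ[A] S) : ℤ) = 1 := by
    rw [finrank_hom hy ((E0_iff hF hy).2 (h.d.ws S (h.s.ws hp))), h.d.one]
  obtain ⟨π, hπ⟩ : ∃ π : F.M →ₗ[A] S, π ≠ 0 := by
    by_contra hc
    have h3 : Subsingleton (F.M →ₗ[A] S) := by
      refine ⟨fun a b => ?_⟩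
      have ha : a = 0 := by
        by_contra h4
        exact hc ⟨a, h4⟩
      have hb' : b = 0 := by
        by_contra h4
        exact hc ⟨b, h4⟩
      rw [ha, hb']
    rw [finrank_zero_of_subsingleton] at hfr
    exact absurd hfr (by norm_num)
  obtain ⟨φ₁, θ₁, hθ₁, hk₁⟩ := fourB_sub hp hfin hA h hF hL hy π hπ hB ⟨g₀, hg₀⟩ h2
  obtain ⟨J, φ₂, θ₂, hθ₂, hs₂, hk₂⟩ := fourB_quot hp hfin hA h hF hL hy π hπ hB h1 h2
  obtain ⟨c, hc⟩ := ker_other hp hfin h.s h.d h.s' h.ne hF hL hy π hπ θ₁ θ₂ hθ₁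
  have hc0 : c ≠ 0 := by
    rintro rfl
    exact hθ₂ (by rw [hc, zero_smul])
  have hkθ : LinearMap.ker θ₂ = LinearMap.ker θ₁ := by
    ext z
    rw [LinearMap.mem_ker, LinearMap.mem_ker, hc, LinearMap.smul_apply, smul_eq_zero]
    exact ⟨fun h3 => h3.resolve_left hc0, Or.inr⟩
  have hkφ : LinearMap.ker φ₂ = LinearMap.ker φ₁ := by
    rw [hk₁, hk₂, hkθ]
  have hle : LinearMap.ker φ₂ ≤ LinearMap.ker π := by
    rw [hk₂]
    exact Submodule.map_subtype_le _ _
  have hQn : Nontrivial (B ⧸ J) := by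
    by_contra h3
    rw [not_nontrivial_iff_subsingleton] at h3
    apply hπ
    rw [← LinearMap.ker_eq_top]
    rw [eq_top_iff]
    refine le_trans (fun z _ => ?_) hle
    exact Subsingleton.elim _ _
  let lam : (F.M ⧸ LinearMap.ker φ₂) →ₗ[A] B := (LinearMap.ker φ₂).liftQ φ₁ hkφ.le
  have hlam : Function.Injective lam := by
    rw [← LinearMap.ker_eq_bot]
    exact Submodule.ker_liftQ_eq_bot _ _ _ hkφ.ge
  let e₂ : (F.M ⧸ LinearMap.ker φ₂) ≃ₗ[A] (B ⧸ J) := φ₂.quotKerEquivOfSurjective hs₂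
  let lam2 : (B ⧸ J) →ₗ[A] B := lam ∘ₗ (e₂.symm : (B ⧸ J) →ₗ[A] (F.M ⧸ LinearMap.ker φ₂))
  have hlam2 : Function.Injective lam2 := hlam.comp e₂.symm.injective
  have hψ : lam2 ∘ₗ J.mkQ ≠ 0 := by
    intro h0
    obtain ⟨z, hz⟩ := exists_ne (0 : B ⧸ J)
    obtain ⟨b, rfl⟩ := J.mkQ_surjective z
    apply hz
    apply hlam2
    rw [map_zero]
    exact LinearMap.congr_fun h0 b
  have hbij := hb.2 _ hψ
  have hiJ : Function.Injective J.mkQ := fun a b hab => hbij.1 (congrArg lam2 hab)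
  right
  right
  intro u
  have hM : E0c k p x F.M := h.d.cmp.2 F.M (Tc_M hF hy)
  have hπs : Function.Surjective π := h.s.surj hp hM π hπ
  have hK : E0c k p x (LinearMap.ker π) := ker_E0c_x hp π hπs hM h.s.zero.le
  have hθs : Function.Surjective θ₂ := h.s'.surj hp hK θ₂ hθ₂
  have b1 := br_ker hp u π hπs
  have b2 := br_ker hp u θ₂ hθs
  have b3 := br_ker hp u φ₂ hs₂
  have b4 : br k p u (LinearMap.ker θ₂) = br k p u (LinearMap.ker φ₂) := by
    rw [hk₂]
    exact br_congr u (Submodule.equivMapOfInjective (LinearMap.ker π).subtype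
      (Submodule.subtype_injective _) (LinearMap.ker θ₂))
  have b5 : br k p u B = br k p u (B ⧸ J) :=
    br_congr u (LinearEquiv.ofBijective J.mkQ ⟨hiJ, J.mkQ_surjective⟩)
  omega

theorem fourB (hp : Bas k p) (hfin : FinB k A) (hA : NSE k p) {x y y' : Fin n → ℤ}
    (h : Two k p x S S' y y') (hB : Ws k p x B) (hb : IsBrick A B) :
    (∀ u, br k p u B = br k p u S) ∨ (∀ u, br k p u B = br k p u S') ∨
      (∀ u, br k p u B = br k p u S + br k p u S') := by
  have hBn : Nontrivial B := hb.1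
  obtain ⟨K, hK⟩ := exists_stable_quot hp hB
  have key : ∀ (T : Type u) [AddCommGroup T] [Module A T], Nontrivial T → ∀ e : (B ⧸ K) ≃ₗ[A] T,
      (e : (B ⧸ K) →ₗ[A] T) ∘ₗ K.mkQ ≠ 0 := by
    intro T _ _ hT e h0
    obtain ⟨t, ht⟩ := exists_ne (0 : T)
    obtain ⟨z, rfl⟩ := e.surjective t
    obtain ⟨b, rfl⟩ := K.mkQ_surjective z
    exact ht (LinearMap.congr_fun h0 b)
  rcases h.all (B ⧸ K) hK with ⟨⟨e⟩⟩ | ⟨⟨e⟩⟩
  · exact s5_core hp hfin hA h hB hb _ (key S h.s.nt e)
  · rcases s5_core hp hfin hA h.symm hB hb _ (key S' h.s'.nt e) with h3 | h3 | h3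
    · exact Or.inr (Or.inl h3)
    · exact Or.inl h3
    · exact Or.inr (Or.inr fun u => by rw [h3 u, add_comm])

end

end TB3
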