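import Pool.Agent.LibTB3.H3
import Pool.Agent.LibTB3.S5
/-!
ROW [TB3 S6] MEDIUM/STRONG.
(cite H0, H1, H3, D7, S0, S5, N3) n = 3: coordinates in the star of a prime x.
PLAN. exists_third: exists_chm_prm gives t, i ≠ j; a permutation σ of Fin 3 with σ 0 = i, σ 1 = j; t ∘ σ = ![x, z, w] with w = t (σ 2) (Chm.perm).
perm lemmas: Chm ![a,b,c] → Chm ![b,a,c], Chm ![a,c,b] etc. by Chm.perm with Equiv.swap and funext on Fin 3 (fin_cases).
det_two: Chm ![x,z,w], Two x S S' y y': br x S = br x S' = 0 (Ws_br).  y = c0 x + c1 z + c2 w, y' = c0' x + c1' z + c2' w (span): 1 = c1 zS + c2 wS, 0 = c1 zS' + c2 wS',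
0 = c1' zS + c2' wS, 1 = c1' zS' + c2' wS' where zS = br z S etc.: (c1 c2' - c2 c1')(zS wS' - zS' wS) = 1, so the determinant is ±1 (Int.isUnit_iff / Int.eq_one_or_neg_one_of_mul_eq_one).
coord: exists_third for x, z: w.  B stable for the wall opposite to w: wl ![x,z,w] 2 = x + z (exists_wall, Fin.sum_univ_three / Finset computation), br x B = br z B = 0 (wall_pair).
B is semistable for x (Ws_add or sum_*), a brick (St.isBrick).  fourB: br z S = 0 or br z S' = 0 or br z S + br z S' = 0.  With det_two: zS = 0 → zS' wS = ±1 so zS' = ±1;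
zS' = 0 → zS = ±1; zS' = - zS → zS (wS' + wS) = ±1 → zS = ±1.  So (zS, zS') ∈ Hx.
-/
set_option autoImplicit false
universe u
namespace TB3
open Module TB10

section
variable {k : Type u} [Field k] {A : Type u} [Ring A] [Algebra k A]
variable {p : Fin 3 → Submodule A A} [Module.Finite k A] [Infinite k] [IsAlgClosed k]
    (hp : Bas k p) (hfin : FinB k A)

theorem s6_unit {a b : ℤ} (h : a * b = 1 ∨ a * b = -1) : a = 1 ∨ a = -1 := by
  rcases h with h | h
  · exact Int.eq_one_or_neg_one_of_mul_eq_one h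
  · apply Int.eq_one_or_neg_one_of_mul_eq_one (u := a) (v := -b)
    rw [mul_neg, h, neg_neg]

theorem s6_perm (i j : Fin 3) (h : i ≠ j) : ∃ σ : Equiv.Perm (Fin 3), σ 0 = i ∧ σ 1 = j := by
  revert i j
  decide

theorem s6_det {a b c d p q r s : ℤ} (h1 : p * a + q * c = 1) (h2 : p * b + q * d = 0)
    (h3 : r * a + s * c = 0) (h4 : r * b + s * d = 1) : a * d - b * c = 1 ∨ a * d - b * c = -1 := by
  apply Int.eq_one_or_neg_one_of_mul_eq_one (v := p * s - q * r)
  have h : (a * d - b * c) * (p * s - q * r) =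
      (p * a + q * c) * (r * b + s * d) - (p * b + q * d) * (r * a + s * c) := by ring
  rw [h, h1, h2, h3, h4]
  norm_num

omit [Infinite k] [IsAlgClosed k] [Module.Finite k A] in
theorem chm_swap01 {a b c : Fin 3 → ℤ} (h : Chm k p ![a, b, c]) : Chm k p ![b, a, c] := by
  have h1 := h.perm (Equiv.swap 0 1)
  have h2 : (![a, b, c] : Fin 3 → Fin 3 → ℤ) ∘ (Equiv.swap 0 1 : Equiv.Perm (Fin 3)) = ![b, a, c] := by
    funext i
    fin_cases i <;> rfl
  rwa [h2] at h1

omit [Infinite k] [IsAlgClosed k] [Module.Finite k A] in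
theorem chm_swap12 {a b c : Fin 3 → ℤ} (h : Chm k p ![a, b, c]) : Chm k p ![a, c, b] := by
  have h1 := h.perm (Equiv.swap 1 2)
  have h2 : (![a, b, c] : Fin 3 → Fin 3 → ℤ) ∘ (Equiv.swap 1 2 : Equiv.Perm (Fin 3)) = ![a, c, b] := by
    funext i
    fin_cases i <;> rfl
  rwa [h2] at h1

include hp hfin

theorem exists_third {x z : Fin 3 → ℤ} (hx : Prm k p x) (hz : Prm k p z) (h : Cmp k p x z)
    (hne : x ≠ z) : ∃ w, Chm k p ![x, z, w] := by
  obtain ⟨t, i, j, ht, hij, rfl, rfl⟩ := exists_chm_prm hp hfin hx hz h hne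
  obtain ⟨σ, h0, h1⟩ := s6_perm i j hij
  refine ⟨t (σ 2), ?_⟩
  have h2 := ht.perm σ
  have h3 : t ∘ σ = ![t i, t j, t (σ 2)] := by
    funext l
    fin_cases l
    · show t (σ 0) = t i
      rw [h0]
    · show t (σ 1) = t j
      rw [h1]
    · rfl
  rwa [h3] at h2

variable {S : Type u} [AddCommGroup S] [Module A S] [Module k S] [IsScalarTower k A S] [Module.Finite k S]
    {S' : Type u} [AddCommGroup S'] [Module A S'] [Module k S'] [IsScalarTower k A S'] [Module.Finite k S']

theorem det_two {x z w y y' : Fin 3 → ℤ} (hT : Two k p x S S' y y') (h : Chm k p ![x, z, w]) :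
    br k p z S * br k p w S' - br k p z S' * br k p w S = 1 ∨
      br k p z S * br k p w S' - br k p z S' * br k p w S = -1 := by
  obtain ⟨c, hc⟩ := h.span y
  obtain ⟨c', hc'⟩ := h.span y'
  have hne' : IsEmpty (S' ≃ₗ[A] S) := ⟨fun e => hT.ne.false e.symm⟩
  have ev : ∀ (u : Fin 3 → ℤ) (c : Fin 3 → ℤ), u = ∑ i, c i • (![x, z, w] : Fin 3 → Fin 3 → ℤ) i →
      (br k p u S = c 1 * br k p z S + c 2 * br k p w S) ∧
      (br k p u S' = c 1 * br k p z S' + c 2 * br k p w S') := by
    intro u c hu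
    have e1 : u = c 0 • x + c 1 • z + c 2 • w := by
      rw [hu, Fin.sum_univ_three]
      rfl
    constructor
    · rw [e1, br_add_left, br_add_left, br_zsmul_left, br_zsmul_left, br_zsmul_left, hT.s.zero,
        mul_zero, zero_add]
    · rw [e1, br_add_left, br_add_left, br_zsmul_left, br_zsmul_left, br_zsmul_left, hT.s'.zero,
        mul_zero, zero_add]
  obtain ⟨e1, e2⟩ := ev y c hc
  obtain ⟨e3, e4⟩ := ev y' c' hc'
  rw [hT.d.one] at e1
  rw [hT.d.zero S' hT.s' hT.ne] at e2
  rw [hT.d'.zero S hT.s hne'] at e3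
  rw [hT.d'.one] at e4
  exact s6_det e1.symm e2.symm e3.symm e4.symm

theorem coord (hA : NSE k p) {x z y y' : Fin 3 → ℤ} (hT : Two k p x S S' y y')
    (hx : Prm k p x) (hz : Prm k p z) (h : Cmp k p x z) (hne : z ≠ x) :
    (br k p z S, br k p z S') ∈ Hx := by
  obtain ⟨w, ht⟩ := exists_third hp hfin hx hz h (Ne.symm hne)
  obtain ⟨B, iB1, iB2, iB3, iB4, iB5, hB⟩ := exists_wall hp hfin ht 2
  obtain ⟨hw, -⟩ := wall_pair hp hfin ht 2 hB
  have hz0 : br k p z B = 0 := hw 1 (by decide)
  have hwl : wl (![x, z, w] : Fin 3 → Fin 3 → ℤ) 2 = x + z := by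
    have e1 : (Finset.univ : Finset (Fin 3)).erase 2 = {0, 1} := by decide
    unfold wl
    rw [e1, Finset.sum_pair (by decide)]
    rfl
  have hWs : Ws k p (x + z) B := by
    have := hB.ws hp
    rwa [hwl] at this
  have hWx : Ws k p x B := ((Ws_add hp hfin h).1 hWs).1
  have hdet := det_two hp hfin hT ht
  set a := br k p z S
  set b := br k p z S'
  set c := br k p w S
  set d := br k p w S'
  rcases fourB hp hfin hA hT hWx (hB.isBrick hp) with h3 | h3 | h3
  · have h4 : a = 0 := (h3 z).symm.trans hz0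
    have h5 : b = 1 ∨ b = -1 := by
      apply s6_unit (b := c)
      rw [h4, zero_mul, zero_sub] at hdet
      rcases hdet with h6 | h6
      · right
        omega
      · left
        omega
    rw [h4]
    rcases h5 with h5 | h5 <;> rw [h5] <;> decide
  · have h4 : b = 0 := (h3 z).symm.trans hz0
    have h5 : a = 1 ∨ a = -1 := by
      apply s6_unit (b := d)
      rwa [h4, zero_mul, sub_zero] at hdet
    rw [h4]
    rcases h5 with h5 | h5 <;> rw [h5] <;> decide
  · have h4 : b = -a := by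
      have h5 : a + b = 0 := (h3 z).symm.trans hz0
      omega
    have h5 : a = 1 ∨ a = -1 := by
      apply s6_unit (b := d + c)
      rw [h4] at hdet
      have h6 : a * (d + c) = a * d - -a * c := by ring
      rwa [h6]
    rw [h4]
    rcases h5 with h5 | h5 <;> rw [h5] <;> decide

end

end TB3
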