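import Pool.Agent.LibTB3.C2
import Pool.Agent.LibTB3.N3
/-!
ROW [TB3 S7] SHORT/MEDIUM.
(cite N1, N2, N3, C2) signs: compatible classes have no opposite signs on a stable module.
PLAN. Suppose br z S * br w S < 0; by symmetry br z S > 0 > br w S.  Take C from br_bound for z and S, N = C + 1.  Tc (N • x + z) S: for K ≠ ⊤: K = ⊥: S ⧸ ⊥ ≃ S, value 0 + br z S > 0;
K ≠ ⊥: br x (S ⧸ K) ≥ 1 (St.pos), value ≥ N - C > 0.  N • x + z is compatible with w (Cmp_add_iff with Cmp.smul, both compatible with w; Cmp (N•x) z), so E0c w S and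
0 ≤ br w S: contradiction.
-/
set_option autoImplicit false
universe u
namespace TB3
open Module TB10

section
variable {k : Type u} [Field k] {A : Type u} [Ring A] [Algebra k A]
variable {n : ℕ} {p : Fin n → Submodule A A}
    {S : Type u} [AddCommGroup S] [Module A S] [Module k S] [IsScalarTower k A S] [Module.Finite k S]
    [Module.Finite k A] [Infinite k]

theorem s7_key (hp : Bas k p) (hfin : FinB k A) {x z w : Fin n → ℤ} (hS : St k p x S)
    (hxz : Cmp k p x z) (hxw : Cmp k p x w) (hzw : Cmp k p z w) (hpos : 0 < br k p z S) :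
    0 ≤ br k p w S := by
  obtain ⟨C, hC⟩ := br_bound hp z S
  have hT : Tc k p ((C + 1) • x + z) S := by
    intro K hK
    rw [br_add_left, br_nsmul_left]
    by_cases hK0 : K = ⊥
    · have h1 : ∀ u : Fin n → ℤ, br k p u (S ⧸ K) = br k p u S := fun u =>
        br_congr u (Submodule.quotEquivOfEqBot K hK0)
      rw [h1, h1, hS.zero, mul_zero, zero_add]
      exact hpos
    · have h1 := St.pos hp hS K hK0 hK
      have h2 := (abs_le.1 (hC K).1).1
      have h3 : ((C + 1 : ℕ) : ℤ) ≤ ((C + 1 : ℕ) : ℤ) * br k p x (S ⧸ K) := by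
        have h4 : (0 : ℤ) ≤ ((C + 1 : ℕ) : ℤ) := Int.natCast_nonneg _
        nlinarith
      push_cast at h3 ⊢
      linarith
  have hcmp : Cmp k p w ((C + 1) • x + z) :=
    (Cmp_add_iff hp hfin (hxz.smul (C + 1))).2 ⟨(hxw.smul (C + 1)).symm, hzw.symm⟩
  exact E0c_br (hcmp.2 S hT)

theorem signs (hp : Bas k p) (hfin : FinB k A) {x z w : Fin n → ℤ} (hS : St k p x S)
    (hxz : Cmp k p x z) (hxw : Cmp k p x w) (hzw : Cmp k p z w) : 0 ≤ br k p z S * br k p w S := by
  rcases lt_trichotomy (br k p z S) 0 with h | h | h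
  · have h1 : br k p w S ≤ 0 := by
      by_contra hneg
      have h2 := s7_key hp hfin hS hxw hxz hzw.symm (not_le.1 hneg)
      linarith
    exact mul_nonneg_of_nonpos_of_nonpos h.le h1
  · rw [h, zero_mul]
  · exact mul_nonneg h.le (s7_key hp hfin hS hxz hxw hzw h)

end

end TB3
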