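import Pool.Agent.LibTB3.S1
import Pool.Agent.LibTB3.S6
import Pool.Agent.LibTB3.S7
import Pool.Agent.LibTB3.H6
import Pool.Agent.LibTB3.H5
/-!
ROW [TB3 S8] MEDIUM.
(cite H1, H5, H6, S1, S6, S7) n = 3: the exchange relations.
PLAN. exch_half: Two for x (S1.exists_two for t = ![x,z,w], i = 0).  With h = q z, g = q w, g' = q w' (q u = (br u S, br u S')): all in Hx (coord; z, w, w' ≠ x by inj),
g + g' = b h (q x = 0), det(h,g) = ±1, det(h,g') = ±1 (det_two), componentwise products of h with g and of h with g' are ≥ 0 (signs): finite check over Hx (decide or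
fin_cases/omega) gives b = 0 or b = 1.
exch: S stable for the wall 2 of t = ![x,z,w] (exists_wall); ![x,z,w'] = Function.update t 2 w' has the same wall; br w S = ±1, br w' S = ±1 (wall_pair for both), not equal
(side, w ≠ w').  w + w' = a x + b z + c w (span for t): pair with S: 0 = c * (±1), c = 0.  exch_half gives b; exch_half after chm_swap01 gives a.
step: from ![x,a,b] the neighbour through the wall opposite to a: exists_neighbour t 1: c, Chm (update ![x,a,b] 1 c) = Chm ![x,c,b], c ≠ a because br c S = - br a S ≠ br a S.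
Then chm_swap12: Chm ![x,b,c], and exch for ![x,b,a], ![x,b,c].
-/
set_option autoImplicit false
universe u
namespace TB3
open Module TB10

section
variable {k : Type u} [Field k] {A : Type u} [Ring A] [Algebra k A]
variable {p : Fin 3 → Submodule A A} [Module.Finite k A] [Infinite k] [IsAlgClosed k]
    (hp : Bas k p) (hfin : FinB k A)

theorem s8_fin {h1 h2 g1 g2 f1 f2 b : ℤ} (hh : (h1, h2) ∈ Hx) (hg : (g1, g2) ∈ Hx)
    (hf : (f1, f2) ∈ Hx) (d : h1 * g2 - h2 * g1 = 1 ∨ h1 * g2 - h2 * g1 = -1)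
    (d' : h1 * f2 - h2 * f1 = 1 ∨ h1 * f2 - h2 * f1 = -1) (s1 : 0 ≤ h1 * g1) (s2 : 0 ≤ h2 * g2)
    (s3 : 0 ≤ h1 * f1) (s4 : 0 ≤ h2 * f2) (e1 : g1 + f1 = b * h1) (e2 : g2 + f2 = b * h2) :
    b = 0 ∨ b = 1 := by
  simp only [Hx, Finset.mem_insert, Finset.mem_singleton, Prod.mk.injEq] at hh hg hf
  rcases hh with ⟨rfl, rfl⟩ | ⟨rfl, rfl⟩ | ⟨rfl, rfl⟩ | ⟨rfl, rfl⟩ | ⟨rfl, rfl⟩ | ⟨rfl, rfl⟩ <;>
    omega

theorem s8_wl (x z w : Fin 3 → ℤ) : wl ![x, z, w] 2 = x + z := by
  have h : Finset.univ.erase (2 : Fin 3) = {0, 1} := by decide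
  rw [wl, h, Finset.sum_pair (by decide)]
  rfl

theorem s8_update2 (x z w w' : Fin 3 → ℤ) : Function.update ![x, z, w] 2 w' = ![x, z, w'] := by
  funext i
  fin_cases i <;> rfl

theorem s8_update1 (x z w w' : Fin 3 → ℤ) : Function.update ![x, z, w] 1 w' = ![x, w', w] := by
  funext i
  fin_cases i <;> rfl

include hp hfin

theorem exch_half (hA : NSE k p) {x z w w' : Fin 3 → ℤ} (h : Chm k p ![x, z, w])
    (h' : Chm k p ![x, z, w']) (a b : ℤ) (hw : w + w' = a • x + b • z) : b = 0 ∨ b = 1 := by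
  obtain ⟨S, _, _, _, _, _, S', _, _, _, _, _, y, y', hT0⟩ := exists_two hp hfin h 0
  have hT : Two k p x S S' y y' := hT0
  have hPx : Prm k p x := h.prm 0
  have hPz : Prm k p z := h.prm 1
  have hPw : Prm k p w := h.prm 2
  have hPw' : Prm k p w' := h'.prm 2
  have hxz : Cmp k p x z := h.cmp 0 1
  have hxw : Cmp k p x w := h.cmp 0 2
  have hzw : Cmp k p z w := h.cmp 1 2
  have hxw' : Cmp k p x w' := h'.cmp 0 2
  have hzw' : Cmp k p z w' := h'.cmp 1 2
  have hz : z ≠ x := fun e => absurd (h.inj (show ![x, z, w] 1 = ![x, z, w] 0 from e)) (by decide)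
  have hwx : w ≠ x := fun e => absurd (h.inj (show ![x, z, w] 2 = ![x, z, w] 0 from e)) (by decide)
  have hwx' : w' ≠ x := fun e =>
    absurd (h'.inj (show ![x, z, w'] 2 = ![x, z, w'] 0 from e)) (by decide)
  have c1 := coord hp hfin hA hT hPx hPz hxz hz
  have c2 := coord hp hfin hA hT hPx hPw hxw hwx
  have c3 := coord hp hfin hA hT hPx hPw' hxw' hwx'
  have d1 := det_two hp hfin hT h
  have d2 := det_two hp hfin hT h'
  have s1 := signs hp hfin hT.s hxz hxw hzw
  have s2 := signs hp hfin hT.s' hxz hxw hzw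
  have s3 := signs hp hfin hT.s hxz hxw' hzw'
  have s4 := signs hp hfin hT.s' hxz hxw' hzw'
  have e1 : br k p w S + br k p w' S = b * br k p z S := by
    rw [← br_add_left, hw, br_add_left, br_zsmul_left, br_zsmul_left, hT.s.zero, mul_zero, zero_add]
  have e2 : br k p w S' + br k p w' S' = b * br k p z S' := by
    rw [← br_add_left, hw, br_add_left, br_zsmul_left, br_zsmul_left, hT.s'.zero, mul_zero, zero_add]
  exact s8_fin c1 c2 c3 d1 d2 s1 s2 s3 s4 e1 e2

theorem exch (hA : NSE k p) {x z w w' : Fin 3 → ℤ} (h : Chm k p ![x, z, w])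
    (h' : Chm k p ![x, z, w']) (hne : w ≠ w') :
    ∃ a b : ℤ, (a = 0 ∨ a = 1) ∧ (b = 0 ∨ b = 1) ∧ w + w' = a • x + b • z := by
  obtain ⟨S, _, _, _, _, _, hS⟩ := exists_wall hp hfin h 2
  have hS' : St k p (wl ![x, z, w'] 2) S := by
    rw [s8_wl]
    rw [s8_wl] at hS
    exact hS
  obtain ⟨hz0, hw1⟩ := wall_pair hp hfin h 2 hS
  obtain ⟨_, hw1'⟩ := wall_pair hp hfin h' 2 hS'
  have hx0 : br k p x S = 0 := hz0 0 (by decide)
  have hzz : br k p z S = 0 := hz0 1 (by decide)
  have hw2 : br k p w S = 1 ∨ br k p w S = -1 := hw1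
  have hw2' : br k p w' S = 1 ∨ br k p w' S = -1 := hw1'
  have hneq : br k p w S ≠ br k p w' S := by
    intro e
    apply hne
    have hupd : Chm k p (Function.update ![x, z, w] 2 w') := by
      rw [s8_update2]
      exact h'
    exact (side hp hfin h 2 w' hupd hS e).symm
  obtain ⟨c, hc⟩ := h.span (w + w')
  have hc3 : w + w' = c 0 • x + c 1 • z + c 2 • w := by
    rw [hc, Fin.sum_univ_three]
    rfl
  have hsum : br k p w S + br k p w' S = 0 := by
    rcases hw2 with e | e <;> rcases hw2' with e' | e' <;> rw [e, e'] at hneq ⊢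
    · exact absurd rfl hneq
    · norm_num
    · norm_num
    · exact absurd rfl hneq
  have hc2 : c 2 = 0 := by
    have h1 : br k p (w + w') S = c 2 * br k p w S := by
      rw [hc3, br_add_left, br_add_left, br_zsmul_left, br_zsmul_left, br_zsmul_left, hx0, hzz]
      ring
    rw [br_add_left, hsum] at h1
    rcases mul_eq_zero.1 h1.symm with h2 | h2
    · exact h2
    · rw [h2] at hw2
      omega
  rw [hc2, zero_smul, add_zero] at hc3
  refine ⟨c 0, c 1, ?_, exch_half hp hfin hA h h' (c 0) (c 1) hc3, hc3⟩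
  rw [add_comm (c 0 • x)] at hc3
  exact exch_half hp hfin hA (chm_swap01 h) (chm_swap01 h') (c 1) (c 0) hc3

theorem step (hA : NSE k p) {x a b : Fin 3 → ℤ} (h : Chm k p ![x, a, b]) :
    ∃ c, Chm k p ![x, b, c] ∧ ∃ α β : ℤ, (α = 0 ∨ α = 1) ∧ (β = 0 ∨ β = 1) ∧ a + c = α • x + β • b := by
  obtain ⟨c, hc, hc2⟩ := exists_neighbour hp hfin h 1
  rw [s8_update1] at hc
  obtain ⟨S, _, _, _, _, _, hS⟩ := exists_wall hp hfin h 1
  have h1 := hc2 S hS
  have h2 := (wall_pair hp hfin h 1 hS).2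
  have h3 : br k p a S = 1 ∨ br k p a S = -1 := h2
  have h4 : br k p c S = - br k p a S := h1
  have hne : a ≠ c := by
    rintro rfl
    omega
  exact ⟨c, chm_swap12 hc, exch hp hfin hA (chm_swap12 h) (chm_swap12 hc) hne⟩

end

end TB3
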