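import Pool.Agent.LibTB3.Defs
/-!
ROW [TB3 T1] MEDIUM.
ONLY MATHLIB.  Traces with a contracting homotopy (e² = 0, e h + h e = 1), e, T, u, h : Module.End k V, V finite-dimensional.
PLAN. tr_indep: tr(Tu) = tr(Tu(eh + he)) = tr(T u e h) + tr(T u h e), tr(T u h e) = tr(e T u h) = tr(T e u h) = - tr(T u e h)  (LinearMap.trace_mul_comm / cycle).
tr_idem (e_ an idempotent commuting with e): g = q h q satisfies e g + g e = q (q² = q, q e = e q); g₀ = g e g satisfies e g₀ + g₀ e = q (e g, g e are idempotents with
sum q), g₀ = (g e) g₀ (e g), so tr g₀ = tr(g₀ (e g)(g e)) = 0 as (e g)(g e) = (q - g e)(g e) = 0.  h₁ = g₀ + (1-q) h (1-q) satisfies e h₁ + h₁ e = 1;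
tr_indep with T = q, u = h - h₁: tr(q h) = tr(q h₁) = tr(q g₀) = tr(g₀) = 0.
exists_homotopy: ker e = range e: choose a complement W of ker e (Submodule.exists_isCompl), e : W → range e = ker e is bijective; h = inverse on ker e, 0 on W.
Alternatively: s = right inverse of the surjection e.rangeRestrict, r = a projection onto ker e; h = ...
tr_two: finrank V = 2, e ≠ 0, e² = 0, e h + h e = 1: e h is idempotent (e h e h = e(1 - e h)h...= e h) of rank 1, trace 1 (`LinearMap.IsProj.trace` or
`LinearMap.trace` of idempotents; or with an explicit basis v, e v).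
-/
set_option autoImplicit false
universe u
namespace TB3
open Module TB10

section
variable {k : Type u} [Field k] {A : Type u} [Ring A] [Algebra k A]
variable {V : Type u} [AddCommGroup V] [Module k V] [Module.Finite k V]

omit [Ring A] [Algebra k A] in
theorem tr_indep (e T v h : Module.End k V) (hT : e * T = T * e) (hv : e * v + v * e = 0)
    (hh : e * h + h * e = 1) : LinearMap.trace k V (T * v) = 0 := by
  have h1 : T * v = T * v * e * h + T * v * h * e := by
    calc T * v = T * v * (e * h + h * e) := by rw [hh, mul_one]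
      _ = _ := by rw [mul_add]; simp only [mul_assoc]
  have h2 : LinearMap.trace k V (T * v * h * e) = -LinearMap.trace k V (T * v * e * h) := by
    have hv' : e * v = -(v * e) := eq_neg_of_add_eq_zero_left hv
    have h3 : e * (T * v * h) = -(T * v * e * h) := by
      calc e * (T * v * h) = (e * T) * v * h := by simp only [mul_assoc]
        _ = T * (e * v) * h := by rw [hT]; simp only [mul_assoc]
        _ = _ := by rw [hv']; simp only [mul_assoc, mul_neg, neg_mul]
    rw [LinearMap.trace_mul_comm, h3, map_neg]
  rw [h1, map_add, h2, add_neg_cancel]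

theorem tr_idem (e q h : Module.End k V) (he : e * e = 0) (hq : q * q = q) (hc : e * q = q * e)
    (hh : e * h + h * e = 1) : LinearMap.trace k V (q * h) = 0 := by
  set g : Module.End k V := q * h * q with hg
  have hqg : q * g = g := by rw [hg, ← mul_assoc, ← mul_assoc, hq]
  have hgq : g * q = g := by rw [hg, mul_assoc, hq]
  have h1 : e * g + g * e = q := by
    calc e * g + g * e = (e * q) * h * q + q * h * (q * e) := by
          rw [hg]; simp only [mul_assoc]
      _ = q * (e * h + h * e) * q := by
          rw [hc, ← hc, mul_add, add_mul]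
          nth_rewrite 1 [hc]
          simp only [mul_assoc]
      _ = q := by rw [hh, mul_one, hq]
  have h2 : e * g * e = e * q := by
    have h3 : g * e = q - e * g := by rw [← h1]; abel
    rw [mul_assoc, h3, mul_sub, ← mul_assoc e e g, he, zero_mul, sub_zero]
  have h4 : e * g * (e * g) = e * g := by
    rw [← mul_assoc, h2, mul_assoc, hqg]
  have h5 : g * e * (g * e) = g * e := by
    calc g * e * (g * e) = g * (e * g * e) := by simp only [mul_assoc]
      _ = g * (q * e) := by rw [h2, hc]
      _ = g * e := by rw [← mul_assoc, hgq]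
  have h6 : e * g * (g * e) = 0 := by
    have h7 : e * g = q - g * e := by rw [← h1]; abel
    rw [h7, sub_mul, h5, ← mul_assoc, hqg, sub_self]
  have h8 : LinearMap.trace k V (g * e * g) = 0 := by
    have e1 : LinearMap.trace k V (g * e * g) = LinearMap.trace k V (e * g * g) := by
      rw [mul_assoc, LinearMap.trace_mul_comm]
    have e2 : e * g * g = (e * g) * (e * g * g) := by
      calc e * g * g = (e * g * (e * g)) * g := by rw [h4]
        _ = _ := by simp only [mul_assoc]
    have e3 : (e * g * g) * (e * g) = 0 := by
      calc (e * g * g) * (e * g) = (e * g * (g * e)) * g := by simp only [mul_assoc]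
        _ = 0 := by rw [h6, zero_mul]
    rw [e1, e2, LinearMap.trace_mul_comm, e3, map_zero]
  set h₁ : Module.End k V := g * e * g + (1 - q) * h * (1 - q) with hh1
  have h9 : e * h₁ + h₁ * e = 1 := by
    have e1 : e * (g * e * g) + g * e * g * e = q := by
      calc e * (g * e * g) + g * e * g * e = e * g * (e * g) + g * e * (g * e) := by
            simp only [mul_assoc]
        _ = q := by rw [h4, h5, h1]
    have hc' : e * (1 - q) = (1 - q) * e := by rw [mul_sub, sub_mul, mul_one, one_mul, hc]
    have hq' : (1 - q) * (1 - q) = 1 - q := by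
      rw [sub_mul, one_mul, mul_sub, mul_one, hq, sub_self, sub_zero]
    have e2 : e * ((1 - q) * h * (1 - q)) + (1 - q) * h * (1 - q) * e = 1 - q := by
      calc e * ((1 - q) * h * (1 - q)) + (1 - q) * h * (1 - q) * e
          = (e * (1 - q)) * h * (1 - q) + (1 - q) * h * ((1 - q) * e) := by
            simp only [mul_assoc]
        _ = ((1 - q) * e) * h * (1 - q) + (1 - q) * h * (e * (1 - q)) := by rw [hc']
        _ = (1 - q) * (e * h + h * e) * (1 - q) := by
            rw [mul_add, add_mul]; simp only [mul_assoc]
        _ = 1 - q := by rw [hh, mul_one, hq']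
    calc e * h₁ + h₁ * e = (e * (g * e * g) + g * e * g * e) +
          (e * ((1 - q) * h * (1 - q)) + (1 - q) * h * (1 - q) * e) := by
          rw [hh1, mul_add, add_mul]; abel
      _ = 1 := by rw [e1, e2]; abel
  have h10 : LinearMap.trace k V (q * (h - h₁)) = 0 := by
    refine tr_indep e q (h - h₁) h hc ?_ hh
    calc e * (h - h₁) + (h - h₁) * e = (e * h + h * e) - (e * h₁ + h₁ * e) := by
          rw [mul_sub, sub_mul]; abel
      _ = 0 := by rw [hh, h9, sub_self]
  have h11 : q * h₁ = g * e * g := by
    have : q * (1 - q) = 0 := by rw [mul_sub, mul_one, hq, sub_self]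
    have e1 : q * (g * e * g) = g * e * g := by
      calc q * (g * e * g) = (q * g) * e * g := by simp only [mul_assoc]
        _ = _ := by rw [hqg]
    have e2 : q * ((1 - q) * h * (1 - q)) = 0 := by
      calc q * ((1 - q) * h * (1 - q)) = (q * (1 - q)) * h * (1 - q) := by
            simp only [mul_assoc]
        _ = 0 := by rw [this, zero_mul, zero_mul]
    rw [hh1, mul_add, e1, e2, add_zero]
  rw [mul_sub, map_sub, h11, h8, sub_zero] at h10
  exact h10

theorem exists_homotopy (e : Module.End k V) (he : e * e = 0) (hk : ∀ v, e v = 0 → ∃ w, e w = v) :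
    ∃ h : Module.End k V, e * h + h * e = 1 := by
  obtain ⟨s, hs⟩ := LinearMap.exists_rightInverse_of_surjective (LinearMap.rangeRestrict e)
    (LinearMap.range_rangeRestrict e)
  have hs' : ∀ y : LinearMap.range e, e (s y) = y := by
    intro y
    have := LinearMap.congr_fun hs y
    exact congrArg Subtype.val this
  let p : V →ₗ[k] V := LinearMap.id - s ∘ₗ LinearMap.rangeRestrict e
  have hpv : ∀ v, p v = v - s (LinearMap.rangeRestrict e v) := fun v => rfl
  have hp : ∀ v, p v ∈ LinearMap.range e := by
    intro v
    obtain ⟨w, hw⟩ := hk (p v) (by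
      rw [hpv, map_sub, hs']
      exact sub_self (e v))
    exact ⟨w, hw⟩
  refine ⟨s ∘ₗ LinearMap.codRestrict (LinearMap.range e) p hp, ?_⟩
  ext v
  have h1 : e (e v) = 0 := LinearMap.congr_fun he v
  have h2 : LinearMap.codRestrict (LinearMap.range e) p hp (e v) =
      LinearMap.rangeRestrict e v := by
    apply Subtype.ext
    have h3 : LinearMap.rangeRestrict e (e v) = 0 := Subtype.ext h1
    rw [LinearMap.codRestrict_apply, hpv, h3, map_zero, sub_zero]
    rfl
  rw [LinearMap.add_apply, Module.End.mul_apply, Module.End.mul_apply, LinearMap.comp_apply,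
    LinearMap.comp_apply, h2, hs', LinearMap.codRestrict_apply, hpv, sub_add_cancel]
  rfl

theorem tr_two (e h : Module.End k V) (he : e * e = 0) (h0 : e ≠ 0) (hV : finrank k V = 2)
    (hh : e * h + h * e = 1) : LinearMap.trace k V (e * h) = 1 := by
  have hproj : LinearMap.IsProj (LinearMap.range e) (e * h) := by
    refine ⟨fun v => ⟨h v, rfl⟩, ?_⟩
    rintro v ⟨u, rfl⟩
    have h1 : h * e = 1 - e * h := by rw [← hh]; abel
    have h2 : e * h * e = e := by
      rw [mul_assoc, h1, mul_sub, mul_one, ← mul_assoc, he, zero_mul, sub_zero]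
    exact LinearMap.congr_fun h2 u
  rw [hproj.trace]
  have h1 : finrank k (LinearMap.range e) + finrank k (LinearMap.ker e) = 2 := by
    rw [← hV]; exact LinearMap.finrank_range_add_finrank_ker e
  have h2 : LinearMap.range e ≤ LinearMap.ker e := by
    rintro v ⟨u, rfl⟩
    exact LinearMap.congr_fun he u
  have h3 := Submodule.finrank_mono h2
  have h4 : finrank k (LinearMap.range e) ≠ 0 := by
    intro h5
    exact h0 (LinearMap.range_eq_bot.1 (Submodule.finrank_eq_zero.1 h5))
  have h5 : finrank k (LinearMap.range e) = 1 := by omega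
  rw [h5, Nat.cast_one]

end

end TB3
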