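import Pool.Agent.LibTB3.T1
/-!
ROW [TB3 T2] MEDIUM.
ONLY MATHLIB (cite T1.tr_indep, T1.exists_homotopy).  Additivity in short exact sequences.
PLAN. Choose a k-linear section s : V'' → V of q.  s' = e s h'' + s h'' e'' satisfies q s' = 1 (q e = e'' q) and e s' = e s h'' e'' = s' e'' (e² = 0, e''² = 0).
So V = i V' ⊕ s' V'' with e-equivariant splitting; r : V → V' with r i = 1, r s' = 0, i r + s' q = 1, and r e = e' r.
h₁ = i h' r + s' h'' q satisfies e h₁ + h₁ e = 1.  By tr_indep (T, u = h - h₁) tr(T h) = tr(T h₁) = tr(T i h' r) + tr(T s' h'' q) = tr(r T i h') + tr(q T s' h'')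
= tr(T' h') + tr(T'' h'') (LinearMap.trace_comp_comm' for maps between different spaces).
-/
set_option autoImplicit false
universe u
namespace TB3
open Module TB10

section
variable {k : Type u} [Field k] {A : Type u} [Ring A] [Algebra k A]
omit [Ring A] [Algebra k A] in
theorem tr_exact {V' V V'' : Type u} [AddCommGroup V'] [Module k V'] [Module.Finite k V']
    [AddCommGroup V] [Module k V] [Module.Finite k V] [AddCommGroup V''] [Module k V''] [Module.Finite k V'']
    (i : V' →ₗ[k] V) (q : V →ₗ[k] V'') (hi : Function.Injective i) (hq : Function.Surjective q)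
    (hex : LinearMap.range i = LinearMap.ker q)
    (e' T' h' : Module.End k V') (e T h : Module.End k V) (e'' T'' h'' : Module.End k V'')
    (he' : e' * e' = 0) (he : e * e = 0) (he'' : e'' * e'' = 0)
    (hT' : e' * T' = T' * e') (hT : e * T = T * e) (hT'' : e'' * T'' = T'' * e'')
    (hh' : e' * h' + h' * e' = 1) (hh : e * h + h * e = 1) (hh'' : e'' * h'' + h'' * e'' = 1)
    (ie : ∀ v, i (e' v) = e (i v)) (iT : ∀ v, i (T' v) = T (i v))
    (qe : ∀ v, q (e v) = e'' (q v)) (qT : ∀ v, q (T v) = T'' (q v)) :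
    LinearMap.trace k V (T * h) = LinearMap.trace k V' (T' * h') + LinearMap.trace k V'' (T'' * h'') := by
  have qi : ∀ v, q (i v) = 0 := fun v => by
    have h1 : i v ∈ LinearMap.ker q := by
      rw [← hex]
      exact LinearMap.mem_range_self i v
    exact h1
  obtain ⟨s, hs⟩ := LinearMap.exists_rightInverse_of_surjective q (LinearMap.range_eq_top.2 hq)
  obtain ⟨r0, hr0⟩ := LinearMap.exists_leftInverse_of_injective i (LinearMap.ker_eq_bot.2 hi)
  have hs1 : ∀ v, q (s v) = v := fun v => LinearMap.congr_fun hs v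
  have hr1 : ∀ v, r0 (i v) = v := fun v => LinearMap.congr_fun hr0 v
  have aee : ∀ v, e (e v) = 0 := fun v => LinearMap.congr_fun he v
  have aee'' : ∀ v, e'' (e'' v) = 0 := fun v => LinearMap.congr_fun he'' v
  have ahh : ∀ v, e (h v) + h (e v) = v := fun v => LinearMap.congr_fun hh v
  have ahh' : ∀ v, e' (h' v) + h' (e' v) = v := fun v => LinearMap.congr_fun hh' v
  have ahh'' : ∀ v, e'' (h'' v) + h'' (e'' v) = v := fun v => LinearMap.congr_fun hh'' v
  let s' : V'' →ₗ[k] V := e ∘ₗ s ∘ₗ h'' + s ∘ₗ h'' ∘ₗ e''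
  have s'a : ∀ v, s' v = e (s (h'' v)) + s (h'' (e'' v)) := fun v => rfl
  have qs : ∀ v, q (s' v) = v := by
    intro v
    rw [s'a, map_add, qe, hs1, hs1]
    exact ahh'' v
  have es : ∀ v, e (s' v) = s' (e'' v) := by
    intro v
    rw [s'a, s'a, map_add, aee, aee'', map_zero, map_zero, zero_add, add_zero]
  let r : V →ₗ[k] V' := r0 ∘ₗ (LinearMap.id - s' ∘ₗ q)
  have ra : ∀ v, r v = r0 (v - s' (q v)) := fun v => rfl
  have ir : ∀ v, i (r v) = v - s' (q v) := by
    intro v
    have h1 : v - s' (q v) ∈ LinearMap.range i := by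
      rw [hex, LinearMap.mem_ker, map_sub, qs, sub_self]
    obtain ⟨w, hw⟩ := h1
    rw [ra, ← hw, hr1]
  have ri : ∀ v, r (i v) = v := by
    intro v
    rw [ra, qi, map_zero, sub_zero, hr1]
  have re : ∀ v, r (e v) = e' (r v) := by
    intro v
    apply hi
    rw [ir, qe, ← es, ie, ir, map_sub]
  let h1 : Module.End k V := i ∘ₗ h' ∘ₗ r + s' ∘ₗ h'' ∘ₗ q
  have h1a : ∀ v, h1 v = i (h' (r v)) + s' (h'' (q v)) := fun v => rfl
  have hh1 : e * h1 + h1 * e = 1 := by
    refine LinearMap.ext fun v => ?_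
    show e (h1 v) + h1 (e v) = v
    rw [h1a, h1a, map_add, ← ie, es, re, qe]
    have a1 : i (e' (h' (r v))) + s' (e'' (h'' (q v))) + (i (h' (e' (r v))) + s' (h'' (e'' (q v)))) =
        i (e' (h' (r v)) + h' (e' (r v))) + s' (e'' (h'' (q v)) + h'' (e'' (q v))) := by
      rw [map_add, map_add]
      abel
    rw [a1, ahh', ahh'', ir]
    abel
  have k1 := tr_indep e T (h - h1) h hT (by
    have a1 : e * (h - h1) + (h - h1) * e = (e * h + h * e) - (e * h1 + h1 * e) := by
      rw [mul_sub, sub_mul]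
      abel
    rw [a1, hh, hh1, sub_self]) hh
  rw [mul_sub, map_sub, sub_eq_zero] at k1
  rw [k1]
  have k2 : T * h1 = (T ∘ₗ i ∘ₗ h') ∘ₗ r + (T ∘ₗ s' ∘ₗ h'') ∘ₗ q := by
    refine LinearMap.ext fun v => ?_
    show T (h1 v) = T (i (h' (r v))) + T (s' (h'' (q v)))
    rw [h1a, map_add]
  have k3 : r ∘ₗ (T ∘ₗ i ∘ₗ h') = T' * h' := by
    refine LinearMap.ext fun v => ?_
    show r (T (i (h' v))) = T' (h' v)
    rw [← iT, ri]
  have k4 : q ∘ₗ (T ∘ₗ s' ∘ₗ h'') = T'' * h'' := by
    refine LinearMap.ext fun v => ?_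
    show q (T (s' (h'' v))) = T'' (h'' v)
    rw [qT, qs]
  have k5 := LinearMap.trace_comp_comm' r (T ∘ₗ i ∘ₗ h')
  have k6 := LinearMap.trace_comp_comm' q (T ∘ₗ s' ∘ₗ h'')
  rw [k3] at k5
  rw [k4] at k6
  rw [k2, map_add, k5, k6]

end

end TB3
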