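import Pool.Agent.LibTB3.N1
/-!
ROW [TB3 T3] MEDIUM.
(cite Defs) trace functions which vanish on idempotents are 0 if dim A/[A,A] ≤ n.
PLAN. idempotents e i with p i = {a | a e = a} (hp.idem), simple modules S_j of hp.dual j, dim Hom(p i, S_j) = δ.  χ_j a = trace_k (a on S_j) (Algebra.lsmul / LinearMap.trace)
vanishes on commutators.  χ_j (e i) = dim e_i S_j = dim Hom(p i, S_j) = δ (idempotent endomorphism: `LinearMap.IsProj.trace`; Hom(p i, S) ≃ e_i S, h ↦ h e_i).
So the classes of e_i in A/[A,A] are linearly independent: n of them, finrank ≤ n, so they span.  δ factors through A/[A,A] (span of the commutators ≤ ker δ), vanishes on the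
classes of e_i, so δ = 0.
-/
set_option autoImplicit false
universe u
namespace TB3
open Module TB10

section
variable {k : Type u} [Field k] {A : Type u} [Ring A] [Algebra k A]
variable {n : ℕ} {p : Fin n → Submodule A A}

private theorem t3_finrank {k : Type u} [Field k] {A : Type u} [Ring A] [Algebra k A]
    {P : Submodule A A} {e : A} (he : e * e = e)
    (hP : ∀ a : A, a ∈ P ↔ a * e = a) (S : Type u) [AddCommGroup S] [Module A S] [Module k S]
    [IsScalarTower k A S] [Module.Finite k S] :
    LinearMap.trace k S (Algebra.lsmul k k S e) = (finrank k (P →ₗ[A] S) : k) := by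
  have heP : e ∈ P := (hP e).2 he
  have hproj : LinearMap.IsProj (LinearMap.range (Algebra.lsmul k k S e : S →ₗ[k] S))
      (Algebra.lsmul k k S e : S →ₗ[k] S) := by
    refine ⟨fun v => ⟨v, rfl⟩, ?_⟩
    rintro v ⟨u, rfl⟩
    change e • (e • u) = e • u
    rw [← mul_smul, he]
  rw [hproj.trace]
  congr 1
  let ev : (P →ₗ[A] S) →ₗ[k] S :=
    { toFun := fun h => h ⟨e, heP⟩
      map_add' := fun _ _ => rfl
      map_smul' := fun _ _ => rfl }
  have hev : ∀ h, ev h = h ⟨e, heP⟩ := fun _ => rfl
  have hinj : Function.Injective ev := by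
    intro h h' hh
    ext a
    have ha : a = (a : A) • (⟨e, heP⟩ : P) := by
      apply Subtype.ext
      exact ((hP a).1 a.2).symm
    rw [ha, map_smul, map_smul]
    rw [hev, hev] at hh
    rw [hh]
  have hrange : LinearMap.range ev = LinearMap.range (Algebra.lsmul k k S e : S →ₗ[k] S) := by
    apply le_antisymm
    · rintro v ⟨h, rfl⟩
      refine ⟨h ⟨e, heP⟩, ?_⟩
      change e • h ⟨e, heP⟩ = h ⟨e, heP⟩
      rw [← map_smul]
      congr 1
      exact Subtype.ext he
    · rintro v ⟨u, rfl⟩
      refine ⟨(LinearMap.toSpanSingleton A S u) ∘ₗ P.subtype, ?_⟩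
      rfl
  rw [← LinearMap.finrank_range_of_inj hinj, hrange]

theorem trace_fun_zero [Module.Finite k A] (hp : Bas k p) (hA : hh0 k A ≤ n) (δ : A →ₗ[k] k)
    (hδ : ∀ a b, δ (a * b) = δ (b * a)) (he : ∀ e : A, e * e = e → δ e = 0) : δ = 0 := by
  classical
  choose e hee hpe using hp.idem
  set N : Submodule k A := Submodule.span k {z : A | ∃ a b : A, z = a * b - b * a} with hN
  have hNδ : N ≤ LinearMap.ker δ := by
    rw [hN, Submodule.span_le]
    rintro z ⟨a, b, rfl⟩
    change δ (a * b - b * a) = 0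
    rw [map_sub, hδ, sub_self]
  have hχ : ∀ j, ∃ χ : (A ⧸ N) →ₗ[k] k, ∀ i, χ (N.mkQ (e i)) = if i = j then 1 else 0 := by
    intro j
    obtain ⟨S, _, _, _, _, _, _, hS⟩ := hp.dual j
    let χ0 : A →ₗ[k] k := LinearMap.trace k S ∘ₗ (Algebra.lsmul k k S).toLinearMap
    have hχ0 : ∀ a, χ0 a = LinearMap.trace k S (Algebra.lsmul k k S a) := fun _ => rfl
    have hker : N ≤ LinearMap.ker χ0 := by
      rw [hN, Submodule.span_le]
      rintro z ⟨a, b, rfl⟩
      change χ0 (a * b - b * a) = 0
      rw [map_sub, hχ0, hχ0, map_mul (Algebra.lsmul k k S) a b, map_mul (Algebra.lsmul k k S) b a,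
        LinearMap.trace_mul_comm, sub_self]
    refine ⟨N.liftQ χ0 hker, fun i => ?_⟩
    rw [Submodule.mkQ_apply, Submodule.liftQ_apply, hχ0, t3_finrank (hee i) (hpe i) S, hS i]
    split_ifs <;> simp
  choose χ hχ using hχ
  have hli : LinearIndependent k (fun i => N.mkQ (e i)) := by
    rw [Fintype.linearIndependent_iff]
    intro c hc j
    have h1 := congrArg (χ j) hc
    rw [map_sum, map_zero] at h1
    simp only [map_smul, hχ, smul_eq_mul, mul_ite, mul_one, mul_zero, Finset.sum_ite_eq',
      Finset.mem_univ, if_true] at h1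
    exact h1
  have hcard : Fintype.card (Fin n) = finrank k (A ⧸ N) := by
    apply le_antisymm
    · exact hli.fintype_card_le_finrank
    · rw [Fintype.card_fin]
      exact hA
  have hspan := hli.span_eq_top_of_card_eq_finrank' hcard
  have h0 : N.liftQ δ hNδ = 0 := by
    refine LinearMap.ext_on hspan ?_
    rintro _ ⟨i, rfl⟩
    change N.liftQ δ hNδ (N.mkQ (e i)) = 0
    rw [Submodule.mkQ_apply, Submodule.liftQ_apply, he _ (hee i)]
  ext a
  have h1 := LinearMap.congr_fun h0 (N.mkQ a)
  rw [Submodule.mkQ_apply, Submodule.liftQ_apply] at h1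
  exact h1

end

end TB3
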