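import Pool.Agent.LibTB3.T1
import Pool.Agent.LibTB3.T3
/-!
ROW [TB3 T4] MEDIUM/STRONG.
(cite T1, T3) the trace of h on Hom(Q,Z), Q projective.  Z a module with e : Z → Z A-linear, e² = 0, ker e = range e.
PLAN. h₀ on Z with e h₀ + h₀ e = 1 (exists_homotopy for e as a k-linear map).  δ a = tr_Z (a h₀) (a as a k-linear endomorphism of Z, Algebra.lsmul or
LinearMap of restricted scalars; linear in a).  δ(ab) - δ(ba) = tr(a (b h₀ - h₀ b)) = 0 by tr_indep (v = b h₀ - h₀ b, e v + v e = b - b = 0; tr(a h₀ b) = tr(b a h₀)).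
δ(q) = 0 for idempotents by tr_idem.  So δ = 0 (trace_fun_zero).
Q a direct summand of A^m: j : Q → (Fin m → A), π : (Fin m → A) → Q, π j = id (Module.Finite A Q from finiteness over k, projective).  E = Hom(Fin m → A, Z) ≃ (Fin m → Z).
For H on Hom(Q,Z) with e H + H e = 1: by tr_indep (on Hom(Q,Z), T = pre k t Z) the trace tr(T H) does not depend on H; take H₁ φ = (h₀^m (φ π)) j, where h₀^m on
Hom(A^m, Z) ≃ Z^m is componentwise.  tr(T H₁) = tr over Z^m of (pre (j t π) ∘ h₀^m) (LinearMap.trace_comp_comm') = ∑_i tr_Z(a_ii h₀) = 0, where j t π = (a_il) (right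
multiplications: an A-linear map A → A is b ↦ b a).
(`pre k t Z φ = φ ∘ₗ t`.)
-/
set_option autoImplicit false
universe u
namespace TB3
open Module TB10

section
variable {k : Type u} [Field k] {A : Type u} [Ring A] [Algebra k A]
variable {n : ℕ} {p : Fin n → Submodule A A}
    {Z : Type u} [AddCommGroup Z] [Module A Z] [Module k Z] [IsScalarTower k A Z] [Module.Finite k Z]
    [Module.Finite k A]
    {Q : Type u} [AddCommGroup Q] [Module A Q] [Module k Q] [IsScalarTower k A Q] [Module.Finite k Q]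
    [Module.Projective A Q]

/-- composition with `e` as a `k`-linear endomorphism of `Hom(Q,Z)` -/
def postE (k : Type u) [Field k] [Algebra k A] (Q : Type u) [AddCommGroup Q] [Module A Q]
    {Z : Type u} [AddCommGroup Z] [Module A Z] [Module k Z] [IsScalarTower k A Z]
    (e : Z →ₗ[A] Z) : Module.End k (Q →ₗ[A] Z) where
  toFun φ := e ∘ₗ φ
  map_add' φ ψ := by
    ext q
    simp
  map_smul' c φ := by
    ext q
    have h : e (c • (φ q)) = c • e (φ q) := by
      rw [← algebraMap_smul A c (φ q), map_smul, algebraMap_smul]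
    simp [h]

/-- the action of `a` on `Z` as a `k`-linear map -/
def t4_act (k : Type u) [Field k] [Algebra k A] (Z : Type u) [AddCommGroup Z] [Module A Z] [Module k Z]
    [IsScalarTower k A Z] : A →ₐ[k] Module.End k Z := Algebra.lsmul k k Z

omit [Module.Finite k Z] [Module.Finite k A] in
theorem t4_act_apply (a : A) (z : Z) : t4_act k Z a z = a • z := rfl

/-- the trace function `δ a = tr (a h₀)` -/
noncomputable def t4_del (k : Type u) [Field k] [Algebra k A] (Z : Type u) [AddCommGroup Z] [Module A Z]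
    [Module k Z] [IsScalarTower k A Z] (h₀ : Module.End k Z) : A →ₗ[k] k :=
  (LinearMap.trace k Z) ∘ₗ (LinearMap.mulRight k h₀) ∘ₗ (t4_act (A := A) k Z).toLinearMap

omit [Module.Finite k Z] [Module.Finite k A] in
theorem t4_del_apply (h₀ : Module.End k Z) (a : A) :
    t4_del k Z h₀ a = LinearMap.trace k Z (t4_act k Z a * h₀) := rfl

theorem t4_del_zero (hp : Bas k p) (hA : hh0 k A ≤ n) (e : Z →ₗ[A] Z) (he : e ∘ₗ e = 0)
    (h₀ : Module.End k Z)
    (hh : (e.restrictScalars k : Module.End k Z) * h₀ + h₀ * (e.restrictScalars k : Module.End k Z) = 1)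
    (a : A) : LinearMap.trace k Z (t4_act k Z a * h₀) = 0 := by
  have hcomm : ∀ b : A, (e.restrictScalars k : Module.End k Z) * t4_act k Z b =
      t4_act k Z b * (e.restrictScalars k : Module.End k Z) := by
    intro b
    ext z
    show e (b • z) = b • e z
    exact map_smul e b z
  have hee : (e.restrictScalars k : Module.End k Z) * (e.restrictScalars k : Module.End k Z) = 0 := by
    ext z
    exact LinearMap.congr_fun he z
  have h := trace_fun_zero hp hA (t4_del (A := A) k Z h₀) ?_ ?_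
  · have := LinearMap.congr_fun h a
    simpa [t4_del_apply] using this
  · intro a b
    rw [t4_del_apply, t4_del_apply, map_mul (t4_act (A := A) k Z), map_mul (t4_act (A := A) k Z)]
    have h1 := tr_indep (e.restrictScalars k : Module.End k Z) (t4_act k Z a)
      (t4_act k Z b * h₀ - h₀ * t4_act k Z b) h₀ (hcomm a) ?_ hh
    · rw [mul_sub, map_sub, sub_eq_zero, ← mul_assoc, ← mul_assoc] at h1
      rw [h1, LinearMap.trace_mul_comm, ← mul_assoc]
    · have e1 : (e.restrictScalars k : Module.End k Z) * (t4_act k Z b * h₀ - h₀ * t4_act k Z b) +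
          (t4_act k Z b * h₀ - h₀ * t4_act k Z b) * (e.restrictScalars k : Module.End k Z) =
          t4_act k Z b * ((e.restrictScalars k : Module.End k Z) * h₀ +
            h₀ * (e.restrictScalars k : Module.End k Z)) -
          ((e.restrictScalars k : Module.End k Z) * h₀ +
            h₀ * (e.restrictScalars k : Module.End k Z)) * t4_act k Z b := by
        have g1 : (e.restrictScalars k : Module.End k Z) * (t4_act k Z b * h₀) =
            t4_act k Z b * ((e.restrictScalars k : Module.End k Z) * h₀) := by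
          rw [← mul_assoc, hcomm b, mul_assoc]
        have g2 : h₀ * t4_act k Z b * (e.restrictScalars k : Module.End k Z) =
            h₀ * (e.restrictScalars k : Module.End k Z) * t4_act k Z b := by
          rw [mul_assoc, ← hcomm b, mul_assoc]
        rw [mul_sub, sub_mul, mul_add, add_mul, g1, g2]
        simp only [mul_assoc]
        abel
      rw [e1, hh, mul_one, one_mul, sub_self]
  · intro q hq
    rw [t4_del_apply]
    refine tr_idem (e.restrictScalars k : Module.End k Z) (t4_act k Z q) h₀ hee ?_ (hcomm q) hh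
    rw [← map_mul, hq]

/-- the homotopy on `Hom(A^m, Z)` -/
noncomputable def t4_H (m : ℕ) (h₀ : Module.End k Z) : Module.End k ((Fin m → A) →ₗ[A] Z) where
  toFun φ := Fintype.linearCombination A (fun i => h₀ (φ (Pi.single i 1)))
  map_add' φ ψ := by
    apply LinearMap.pi_ext
    intro i a
    rw [LinearMap.add_apply, Fintype.linearCombination_apply_single,
      Fintype.linearCombination_apply_single, Fintype.linearCombination_apply_single,
      LinearMap.add_apply, map_add, smul_add]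
  map_smul' c φ := by
    apply LinearMap.pi_ext
    intro i a
    rw [RingHom.id_apply, LinearMap.smul_apply, Fintype.linearCombination_apply_single,
      Fintype.linearCombination_apply_single, LinearMap.smul_apply, map_smul, smul_comm]

theorem t4_H_single (m : ℕ) (h₀ : Module.End k Z) (φ : (Fin m → A) →ₗ[A] Z) (i : Fin m) :
    t4_H m h₀ φ (Pi.single i 1) = h₀ (φ (Pi.single i 1)) := by
  show Fintype.linearCombination A (fun i => h₀ (φ (Pi.single i 1))) (Pi.single i 1) = _
  rw [Fintype.linearCombination_apply_single, one_smul]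

theorem t4_H_apply (m : ℕ) (h₀ : Module.End k Z) (φ : (Fin m → A) →ₗ[A] Z) (v : Fin m → A) :
    t4_H m h₀ φ v = ∑ l, v l • h₀ (φ (Pi.single l 1)) := by
  show Fintype.linearCombination A (fun i => h₀ (φ (Pi.single i 1))) v = _
  rw [Fintype.linearCombination_apply]

theorem t4_H_htpy (m : ℕ) (e : Z →ₗ[A] Z) (h₀ : Module.End k Z)
    (hh : (e.restrictScalars k : Module.End k Z) * h₀ + h₀ * (e.restrictScalars k : Module.End k Z) = 1)
    (φ : (Fin m → A) →ₗ[A] Z) :
    e ∘ₗ t4_H m h₀ φ + t4_H m h₀ (e ∘ₗ φ) = φ := by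
  apply LinearMap.pi_ext'
  intro i
  ext
  have h1 := LinearMap.congr_fun hh (φ (Pi.single i 1))
  have h2 : e (h₀ (φ (Pi.single i 1))) + h₀ (e (φ (Pi.single i 1))) = φ (Pi.single i 1) := h1
  simp only [LinearMap.comp_apply, LinearMap.add_apply, LinearMap.single_apply]
  rw [t4_H_single, t4_H_single]
  exact h2

/-- `z ↦ (v ↦ v i • z)` -/
def t4_S (k : Type u) [Field k] [Algebra k A] (Z : Type u) [AddCommGroup Z] [Module A Z] [Module k Z]
    [IsScalarTower k A Z] (m : ℕ) (i : Fin m) : Z →ₗ[k] ((Fin m → A) →ₗ[A] Z) where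
  toFun z := (LinearMap.toSpanSingleton A Z z) ∘ₗ (LinearMap.proj i : (Fin m → A) →ₗ[A] A)
  map_add' z z' := by
    ext l
    simp
  map_smul' c z := by
    ext l
    simp only [LinearMap.comp_apply, LinearMap.single_apply, LinearMap.proj_apply,
      LinearMap.toSpanSingleton_apply, RingHom.id_apply, LinearMap.smul_apply]
    rw [smul_comm]

omit [Module.Finite k Z] [Module.Finite k A] in
theorem t4_S_apply (m : ℕ) (i : Fin m) (z : Z) (v : Fin m → A) : t4_S k Z m i z v = v i • z := rfl

/-- evaluation at the `i`-th basis vector -/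
def t4_P (k : Type u) [Field k] [Algebra k A] (Z : Type u) [AddCommGroup Z] [Module A Z] [Module k Z]
    [IsScalarTower k A Z] (m : ℕ) (i : Fin m) : ((Fin m → A) →ₗ[A] Z) →ₗ[k] Z where
  toFun φ := φ (Pi.single i 1)
  map_add' _ _ := rfl
  map_smul' _ _ := rfl

omit [Module.Finite k Z] [Module.Finite k A] in
theorem t4_sum (m : ℕ) : ∑ i, (t4_S (A := A) k Z m i) ∘ₗ (t4_P (A := A) k Z m i) = LinearMap.id := by
  ext φ l
  simp only [LinearMap.sum_apply, LinearMap.comp_apply, LinearMap.id_apply, LinearMap.single_apply]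
  rw [Finset.sum_eq_single l]
  · show ((Pi.single l (1 : A) : Fin m → A) l) • (φ (Pi.single l 1)) = _
    rw [Pi.single_eq_same, one_smul]
  · intro b _ hb
    show ((Pi.single l (1 : A) : Fin m → A) b) • (φ (Pi.single b 1)) = _
    rw [Pi.single_eq_of_ne hb, zero_smul]
  · simp

theorem t4_block (m : ℕ) (h₀ : Module.End k Z) (s : (Fin m → A) →ₗ[A] (Fin m → A))
    (h0 : ∀ a : A, LinearMap.trace k Z (t4_act k Z a * h₀) = 0) :
    LinearMap.trace k ((Fin m → A) →ₗ[A] Z)
      ((pre k s Z : Module.End k ((Fin m → A) →ₗ[A] Z)) * t4_H m h₀) = 0 := by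
  set W : Module.End k ((Fin m → A) →ₗ[A] Z) :=
    (pre k s Z : Module.End k ((Fin m → A) →ₗ[A] Z)) * t4_H m h₀ with hW
  have e1 : W = ∑ i, (W ∘ₗ t4_S (A := A) k Z m i) ∘ₗ (t4_P (A := A) k Z m i) := by
    have h1 : W = W ∘ₗ (∑ i, (t4_S (A := A) k Z m i) ∘ₗ (t4_P (A := A) k Z m i)) := by
      rw [t4_sum]
      rfl
    conv_lhs => rw [h1]
    apply LinearMap.ext
    intro φ
    rw [LinearMap.comp_apply, LinearMap.sum_apply, LinearMap.sum_apply, map_sum]
    rfl
  rw [e1, map_sum]
  refine Finset.sum_eq_zero fun i _ => ?_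
  rw [LinearMap.trace_comp_comm']
  have e2 : (t4_P (A := A) k Z m i) ∘ₗ (W ∘ₗ t4_S (A := A) k Z m i) =
      t4_act k Z (s (Pi.single i 1) i) * h₀ := by
    ext z
    show (t4_H m h₀ (t4_S k Z m i z)) (s (Pi.single i 1)) = (s (Pi.single i 1) i) • h₀ z
    rw [t4_H_apply, Finset.sum_eq_single i]
    · rw [t4_S_apply, Pi.single_eq_same, one_smul]
    · intro b _ hb
      rw [t4_S_apply, Pi.single_eq_of_ne hb.symm, zero_smul, map_zero, smul_zero]
    · simp
  rw [e2]
  exact h0 _

theorem tr_hom_zero (hp : Bas k p) (hA : hh0 k A ≤ n) (e : Z →ₗ[A] Z) (he : e ∘ₗ e = 0)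
    (hk : ∀ v, e v = 0 → ∃ w, e w = v) (t : Q →ₗ[A] Q) (H : Module.End k (Q →ₗ[A] Z))
    (hH : postE k Q e * H + H * postE k Q e = 1) :
    LinearMap.trace k (Q →ₗ[A] Z) ((pre k t Z : Module.End k (Q →ₗ[A] Z)) * H) = 0 := by
  obtain ⟨h₀, hh⟩ := exists_homotopy (e.restrictScalars k : Module.End k Z)
    (by ext z; exact LinearMap.congr_fun he z) hk
  have h0 := t4_del_zero hp hA e he h₀ hh
  have : Module.Finite A Q := Module.Finite.of_restrictScalars_finite k A Q
  obtain ⟨m, π, j, -, -, hπj⟩ := Module.Finite.exists_comp_eq_id_of_projective A Q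
  set H₁ : Module.End k (Q →ₗ[A] Z) := (pre k j Z) ∘ₗ (t4_H m h₀) ∘ₗ (pre k π Z) with hH₁
  have hH₁' : postE k Q e * H₁ + H₁ * postE k Q e = 1 := by
    ext φ q
    have h2 := LinearMap.congr_fun (t4_H_htpy m e h₀ hh (φ ∘ₗ π)) (j q)
    have h3 := LinearMap.congr_fun hπj q
    show e ((t4_H m h₀ (φ ∘ₗ π)) (j q)) + (t4_H m h₀ ((e ∘ₗ φ) ∘ₗ π)) (j q) = φ q
    rw [LinearMap.comp_assoc]
    have h4 : e ((t4_H m h₀ (φ ∘ₗ π)) (j q)) + (t4_H m h₀ (e ∘ₗ (φ ∘ₗ π))) (j q) =
      φ (π (j q)) := h2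
    rw [h4]
    have h5 : π (j q) = q := h3
    rw [h5]
  have k1 := tr_indep (postE k Q e) (pre k t Z : Module.End k (Q →ₗ[A] Z)) (H - H₁) H ?_ ?_ hH
  · rw [mul_sub, map_sub, sub_eq_zero] at k1
    rw [k1]
    have k2 : (pre k t Z : Module.End k (Q →ₗ[A] Z)) * H₁ =
        ((pre k t Z) ∘ₗ (pre k j Z) ∘ₗ (t4_H m h₀)) ∘ₗ (pre k π Z) := rfl
    rw [k2, LinearMap.trace_comp_comm']
    have k3 : (pre k π Z) ∘ₗ ((pre k t Z) ∘ₗ (pre k j Z) ∘ₗ (t4_H m h₀)) =
        (pre k (j ∘ₗ t ∘ₗ π) Z : Module.End k ((Fin m → A) →ₗ[A] Z)) * t4_H m h₀ := rfl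
    rw [k3]
    exact t4_block m h₀ _ h0
  · rfl
  · rw [mul_sub, sub_mul]
    have : postE k Q e * H - postE k Q e * H₁ + (H * postE k Q e - H₁ * postE k Q e) =
      (postE k Q e * H + H * postE k Q e) - (postE k Q e * H₁ + H₁ * postE k Q e) := by abel
    rw [this, hH, hH₁', sub_self]

end

end TB3
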