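import Pool.Agent.LibTB3.T4
import Pool.Agent.LibTB3.T2
import Pool.Agent.LibTB3.L3
/-!
ROW [TB3 T5] STRONG.
(cite T1, T2, T4, L1, L3, D3, N3) stable modules have no self-extensions if dim A/[A,A] ≤ n.
PLAN. y dual of S (exists_dual), F local rigid of class y, M = F.M, Tc y M so E0c x M.  S, Z are semistable for x (Ws_ext: Z with N = range ι ≃ S, Z ⧸ N ≃ S), so E0 F.f S, E0 F.f Z.
finrank Hom(M,S) = br y S = 1 (finrank_hom): π : M → S, π ≠ 0.  E0 F.f (ker σ) (ker σ ≃ S): π₂ : M → Z with σ π₂ = π (lift_hom).  Suppose there is no section of σ.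
π₂ is surjective: R = range π₂ is semistable (Ws_range), σ maps R onto S (St.surj: π surjective).  R ⊓ range ι: kernel of σ on R, semistable (Ws_ker), a submodule of range ι ≃ S,
S stable: ⊥ or all.  ⊥: σ : R ≃ S gives a section.  All: range ι ≤ R so R = ⊤.
e = ι ∘ σ : Z → Z, e² = 0 (σ ι = 0), ker e = ker σ = range ι = range e.  ker π₂ is E0c y (ker_E0c_y), so t : M → M with π₂ t = ι π (lift_hom).  (a,b) lift of t to F (lift_pair).
V' = Hom(M,Z), V = Hom(F.Q,Z), V'' = Hom(F.P,Z), i φ = φ ∘ mkQ, q = pre k F.f Z: exact (E0 F.f Z; kernel of q = maps that factor through M).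
T' = pre k t Z, T = pre k a Z, T'' = pre k b Z; e', e, e'' = postE.  Homotopies h, h'' by exists_homotopy (F.Q, F.P projective: φ with e φ = 0 lands in ker e = range e, lift).
V' has dimension br y Z = 2 (finrank_hom, br_add), e' ≠ 0 (e π₂ = ι π ≠ 0), kernel = range by dimension, h' by exists_homotopy.
tr_exact and tr_hom_zero twice: tr(T' h') = 0.  But T' = e': φ t = e φ for all φ ∈ Hom(M,Z): true for π₂ and for ι π (both sides 0: ι π t = ι σ π₂ t = ι σ ι π = 0), which form
a basis (linearly independent, dimension 2).  tr_two: tr(e' h') = 1.  Contradiction.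
-/
set_option autoImplicit false
universe u
namespace TB3
open Module TB10

section
variable {k : Type u} [Field k] {A : Type u} [Ring A] [Algebra k A]
variable {n : ℕ} {p : Fin n → Submodule A A}
    {S : Type u} [AddCommGroup S] [Module A S] [Module k S] [IsScalarTower k A S] [Module.Finite k S]
    {Z : Type u} [AddCommGroup Z] [Module A Z] [Module k Z] [IsScalarTower k A Z] [Module.Finite k Z]
    [Module.Finite k A] [Infinite k] [IsAlgClosed k]

omit [Module.Finite k A] [Infinite k] [IsAlgClosed k] [Module k S] [IsScalarTower k A S]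
  [Module.Finite k S] [Module k Z] [IsScalarTower k A Z] [Module.Finite k Z] in
omit [Field k] [Algebra k A] in
theorem t5_factor {M : Type u} [AddCommGroup M] [Module A M] (ι : S →ₗ[A] Z)
    (hι : Function.Injective ι) (σ : Z →ₗ[A] S) (hex : LinearMap.range ι = LinearMap.ker σ)
    (φ : M →ₗ[A] Z) (h : σ ∘ₗ φ = 0) : ∃ ψ : M →ₗ[A] S, φ = ι ∘ₗ ψ := by
  have h1 : ∀ m, φ m ∈ LinearMap.range ι := by
    intro m
    rw [hex, LinearMap.mem_ker]
    exact LinearMap.congr_fun h m
  refine ⟨(LinearEquiv.ofInjective ι hι).symm.toLinearMap ∘ₗ φ.codRestrict _ h1, ?_⟩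
  ext m
  have h2 := LinearEquiv.apply_symm_apply (LinearEquiv.ofInjective ι hι) (φ.codRestrict _ h1 m)
  exact (congrArg Subtype.val h2).symm

omit [Module.Finite k A] [Infinite k] [IsAlgClosed k] [Ring A] [Algebra k A] in
theorem t5_hk2 {V : Type u} [AddCommGroup V] [Module k V] [Module.Finite k V]
    (e : Module.End k V) (he : e * e = 0) (h0 : e ≠ 0) (hV : finrank k V = 2) :
    ∀ v, e v = 0 → ∃ w, e w = v := by
  have h1 := LinearMap.finrank_range_add_finrank_ker e
  have hle : LinearMap.range e ≤ LinearMap.ker e := by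
    rintro _ ⟨w, rfl⟩
    exact LinearMap.congr_fun he w
  have h2 : LinearMap.range e ≠ ⊥ := by
    rwa [Ne, LinearMap.range_eq_bot]
  have h3 : 1 ≤ finrank k (LinearMap.range e) := Submodule.one_le_finrank_iff.2 h2
  have h4 := Submodule.finrank_mono hle
  have h5 : finrank k (LinearMap.range e) = finrank k (LinearMap.ker e) := by omega
  have h6 := Submodule.eq_of_le_of_finrank_eq hle h5
  intro v hv
  have h7 : v ∈ LinearMap.range e := by
    rw [h6]
    exact hv
  exact h7

omit [Module.Finite k A] [Infinite k] [IsAlgClosed k] [Module.Finite k Z] in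
theorem t5_sq {Q : Type u} [AddCommGroup Q] [Module A Q] (e : Z →ₗ[A] Z) (he : e ∘ₗ e = 0) :
    postE k Q e * postE k Q e = 0 := by
  ext φ x
  exact LinearMap.congr_fun he (φ x)

omit [Module.Finite k A] [Infinite k] [IsAlgClosed k] in
theorem t5_homotopy (Q : Type u) [AddCommGroup Q] [Module A Q] [Module k Q] [IsScalarTower k A Q]
    [Module.Finite k Q] [Module.Projective A Q] (e : Z →ₗ[A] Z) (he : e ∘ₗ e = 0)
    (hk : ∀ v, e v = 0 → ∃ w, e w = v) :
    ∃ h : Module.End k (Q →ₗ[A] Z), postE k Q e * h + h * postE k Q e = 1 := by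
  apply exists_homotopy (postE k Q e) (t5_sq e he)
  intro φ hφ
  have h1 : ∀ x, φ x ∈ LinearMap.range e := fun x => hk _ (LinearMap.congr_fun hφ x)
  obtain ⟨ψ, hψ⟩ := Module.projective_lifting_property e.rangeRestrict (φ.codRestrict _ h1)
    (LinearMap.surjective_rangeRestrict e)
  refine ⟨ψ, ?_⟩
  ext x
  exact congrArg Subtype.val (LinearMap.congr_fun hψ x)

omit [Infinite k] [IsAlgClosed k] in
theorem t5_contra (hp : Bas k p) (hA : hh0 k A ≤ n) {F : Pres k A} (hE : E0 F.f Z)
    (e : Z →ₗ[A] Z) (he : e ∘ₗ e = 0) (hk : ∀ v, e v = 0 → ∃ w, e w = v)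
    (t : F.M →ₗ[A] F.M) (ht : ∀ φ : F.M →ₗ[A] Z, φ ∘ₗ t = e ∘ₗ φ)
    (h2 : finrank k (F.M →ₗ[A] Z) = 2) (h0 : ∃ φ : F.M →ₗ[A] Z, e ∘ₗ φ ≠ 0) : False := by
  obtain ⟨a, b, hab, hat⟩ := lift_pair F F t
  obtain ⟨h, hh⟩ := t5_homotopy (k := k) F.Q e he hk
  obtain ⟨h'', hh''⟩ := t5_homotopy (k := k) F.P e he hk
  have he0 : postE k F.M e ≠ 0 := by
    obtain ⟨φ, hφ⟩ := h0
    intro h3
    exact hφ (LinearMap.congr_fun h3 φ)
  obtain ⟨h', hh'⟩ := exists_homotopy (postE k F.M e) (t5_sq e he)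
    (t5_hk2 (postE k F.M e) (t5_sq e he) he0 h2)
  have hi : Function.Injective (pre k (LinearMap.range F.f).mkQ Z) := by
    intro φ ψ hφψ
    ext x
    exact LinearMap.congr_fun hφψ x
  have hq : Function.Surjective (pre k F.f Z) := hE
  have hex : LinearMap.range (pre k (LinearMap.range F.f).mkQ Z) = LinearMap.ker (pre k F.f Z) := by
    ext φ
    rw [LinearMap.mem_range, LinearMap.mem_ker]
    constructor
    · rintro ⟨ψ, rfl⟩
      ext x
      show ψ ((LinearMap.range F.f).mkQ (F.f x)) = 0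
      have h5 : (LinearMap.range F.f).mkQ (F.f x) = 0 := by
        rw [Submodule.mkQ_apply, Submodule.Quotient.mk_eq_zero]
        exact ⟨x, rfl⟩
      rw [h5, map_zero]
    · intro hφ
      refine ⟨(LinearMap.range F.f).liftQ φ ?_, ?_⟩
      · rintro _ ⟨x, rfl⟩
        rw [LinearMap.mem_ker]
        exact LinearMap.congr_fun hφ x
      · ext x
        rfl
  have key := tr_exact (pre k (LinearMap.range F.f).mkQ Z) (pre k F.f Z) hi hq hex
    (postE k F.M e) (pre k t Z) h' (postE k F.Q e) (pre k a Z) h (postE k F.P e) (pre k b Z) h''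
    (t5_sq e he) (t5_sq e he) (t5_sq e he) rfl rfl rfl hh' hh hh'' (fun _ => rfl)
    (fun φ => by
      ext x
      show φ (t ((LinearMap.range F.f).mkQ x)) = φ ((LinearMap.range F.f).mkQ (a x))
      rw [Submodule.mkQ_apply, Submodule.mkQ_apply, hat x])
    (fun _ => rfl)
    (fun φ => by
      ext x
      show φ (a (F.f x)) = φ (F.f (b x))
      rw [show a (F.f x) = F.f (b x) from LinearMap.congr_fun hab x])
  rw [tr_hom_zero hp hA e he hk a h hh, tr_hom_zero hp hA e he hk b h'' hh'', add_zero] at key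
  have hT : (pre k t Z : Module.End k (F.M →ₗ[A] Z)) = postE k F.M e := by
    exact LinearMap.ext fun φ => ht φ
  rw [hT, tr_two _ _ (t5_sq e he) he0 h2 hh'] at key
  exact zero_ne_one key

theorem no_selfext_hh0 (hp : Bas k p) (hfin : FinB k A) (hA : hh0 k A ≤ n) {x : Fin n → ℤ}
    (hS : St k p x S) (ι : S →ₗ[A] Z) (hι : Function.Injective ι) (σ : Z →ₗ[A] S)
    (hσ : Function.Surjective σ) (hex : LinearMap.range ι = LinearMap.ker σ) :
    ∃ s : S →ₗ[A] Z, σ ∘ₗ s = LinearMap.id := by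
  obtain ⟨y, hy⟩ := exists_dual hp hfin hS
  obtain ⟨-, F, hF, hL, hcl⟩ := hy.prm
  have hEM : E0c k p x F.M := hy.cmp.2 F.M (Tc_M hF hcl)
  have hwS : Ws k p x S := hS.ws hp
  have hwZ : Ws k p x Z := Ws_ext hp (LinearMap.range ι) (Ws_congr (LinearEquiv.ofInjective ι hι) hwS)
    (Ws_congr ((Submodule.quotEquivOfEq _ _ hex).trans (σ.quotKerEquivOfSurjective hσ)).symm hwS)
  have hES : E0 F.f S := (E0_iff hF hcl).2 (hy.ws S hwS)
  have hEZ : E0 F.f Z := (E0_iff hF hcl).2 (hy.ws Z hwZ)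
  have hbZ : br k p y Z = 2 := by
    rw [br_add hp y (LinearMap.range ι), br_congr y (LinearEquiv.ofInjective ι hι).symm,
      br_congr y ((Submodule.quotEquivOfEq _ _ hex).trans (σ.quotKerEquivOfSurjective hσ)), hy.one]
    rfl
  have hfS : finrank k (F.M →ₗ[A] S) = 1 := by
    have h1 := finrank_hom hcl hES
    rw [hy.one] at h1
    exact_mod_cast h1
  have hfZ : finrank k (F.M →ₗ[A] Z) = 2 := by
    have h1 := finrank_hom hcl hEZ
    rw [hbZ] at h1
    exact_mod_cast h1
  obtain ⟨π, hπ0, hπ⟩ := finrank_eq_one_iff'.1 hfS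
  have hπs : Function.Surjective π := hS.surj hp hEM π hπ0
  have hKσ : E0 F.f (LinearMap.ker σ) := by
    have h1 : Ws k p x (LinearMap.ker σ) := Ws_ker hp σ hwZ hwS
    exact (E0_iff hF hcl).2 (hy.ws _ h1)
  obtain ⟨π₂, hπ₂⟩ := lift_hom F σ hσ hKσ π
  have hσ2 : ∀ m, σ (π₂ m) = π m := fun m => LinearMap.congr_fun hπ₂ m
  have hwR : Ws k p x (LinearMap.range π₂) := Ws_range hp π₂ hEM hwZ.2
  have hwK : Ws k p x (LinearMap.ker (σ ∘ₗ (LinearMap.range π₂).subtype)) := Ws_ker hp _ hwR hwS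
  have hσι : ∀ s, σ (ι s) = 0 := by
    intro s
    have h1 : ι s ∈ LinearMap.ker σ := by
      rw [← hex]
      exact ⟨s, rfl⟩
    exact h1
  -- the submodule of `S`
  have hKbr : br k p x (Submodule.comap ι (LinearMap.range π₂)) = 0 := by
    have eK : (Submodule.comap ι (LinearMap.range π₂)) ≃ₗ[A]
        LinearMap.ker (σ ∘ₗ (LinearMap.range π₂).subtype) := by
      refine LinearEquiv.ofBijective
        (LinearMap.codRestrict _ (LinearMap.codRestrict (LinearMap.range π₂)
          (ι ∘ₗ (Submodule.comap ι (LinearMap.range π₂)).subtype) (fun s => s.2)) ?_) ⟨?_, ?_⟩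
      · intro s
        rw [LinearMap.mem_ker]
        exact hσι s.1
      · intro s s' hss
        have h1 := congrArg Subtype.val (congrArg Subtype.val hss)
        exact Subtype.ext (hι h1)
      · rintro ⟨⟨z, hz⟩, hz2⟩
        have h1 : z ∈ LinearMap.range ι := by
          rw [hex]
          exact hz2
        obtain ⟨s, hs⟩ := h1
        refine ⟨⟨s, ?_⟩, ?_⟩
        · show ι s ∈ LinearMap.range π₂
          rw [hs]
          exact hz
        · exact Subtype.ext (Subtype.ext hs)
    rw [br_congr x eK]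
    exact Ws_br hwK
  by_cases hK : Submodule.comap ι (LinearMap.range π₂) = ⊥
  · -- section
    have hbij : Function.Bijective (σ ∘ₗ (LinearMap.range π₂).subtype) := by
      constructor
      · rw [← LinearMap.ker_eq_bot, LinearMap.ker_eq_bot']
        rintro ⟨z, hz⟩ hz2
        have h1 : z ∈ LinearMap.range ι := by
          rw [hex]
          exact hz2
        obtain ⟨s, hs⟩ := h1
        have h2 : s ∈ Submodule.comap ι (LinearMap.range π₂) := by
          show ι s ∈ LinearMap.range π₂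
          rw [hs]
          exact hz
        rw [hK, Submodule.mem_bot] at h2
        rw [h2, map_zero] at hs
        exact Subtype.ext hs.symm
      · intro s
        obtain ⟨m, hm⟩ := hπs s
        exact ⟨⟨π₂ m, m, rfl⟩, (hσ2 m).trans hm⟩
    refine ⟨(LinearMap.range π₂).subtype ∘ₗ (LinearEquiv.ofBijective _ hbij).symm.toLinearMap, ?_⟩
    ext s
    exact (LinearEquiv.ofBijective _ hbij).apply_symm_apply s
  by_cases hK' : Submodule.comap ι (LinearMap.range π₂) = ⊤
  swap
  · exact absurd hKbr (ne_of_lt (hS.neg _ hK hK'))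
  exfalso
  have hιR : ∀ s, ι s ∈ LinearMap.range π₂ := by
    intro s
    have h1 : s ∈ Submodule.comap ι (LinearMap.range π₂) := by
      rw [hK']
      trivial
    exact h1
  have hsurj : Function.Surjective π₂ := by
    intro z
    obtain ⟨m, hm⟩ := hπs (σ z)
    have h1 : z - π₂ m ∈ LinearMap.range ι := by
      rw [hex, LinearMap.mem_ker, map_sub, hσ2, hm, sub_self]
    obtain ⟨s, hs⟩ := h1
    obtain ⟨m', hm'⟩ := hιR s
    refine ⟨m' + m, ?_⟩
    rw [map_add, hm', hs, sub_add_cancel]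
  have hKπ : E0 F.f (LinearMap.ker π₂) :=
    (E0_iff hF hcl).2 (ker_E0c_y hp hfin hy.cmp hy.ws π₂ hsurj hEM hwZ)
  obtain ⟨t, ht⟩ := lift_hom F π₂ hsurj hKπ (ι ∘ₗ π)
  refine t5_contra hp hA hEZ (ι ∘ₗ σ) ?_ ?_ t ?_ hfZ ⟨π₂, ?_⟩
  · ext z
    show ι (σ (ι (σ z))) = 0
    rw [hσι, map_zero]
  · intro v hv
    have h1 : σ v = 0 := hι (by rw [map_zero]; exact hv)
    have h2 : v ∈ LinearMap.range ι := by
      rw [hex]
      exact h1
    obtain ⟨s, hs⟩ := h2
    obtain ⟨w, hw⟩ := hσ s
    refine ⟨w, ?_⟩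
    show ι (σ w) = v
    rw [hw, hs]
  · intro φ
    obtain ⟨c, hc⟩ := hπ (σ ∘ₗ φ)
    have h1 : σ ∘ₗ (φ - c • π₂) = 0 := by
      refine LinearMap.ext fun m => ?_
      have h2 := LinearMap.congr_fun hc m
      have h3 : σ (c • π₂ m) = c • σ (π₂ m) := by
        rw [← algebraMap_smul A c (π₂ m), map_smul, algebraMap_smul]
      show σ (φ m - c • π₂ m) = 0
      rw [map_sub, h3, hσ2]
      exact sub_eq_zero.2 h2.symm
    obtain ⟨ψ, hψ⟩ := t5_factor ι hι σ hex _ h1
    obtain ⟨d, hd⟩ := hπ ψ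
    have h4 : ∀ m, φ m = c • π₂ m + ι (d • π m) := by
      intro m
      have h5 : φ m - c • π₂ m = ι (ψ m) := LinearMap.congr_fun hψ m
      have h6 : ψ m = d • π m := (LinearMap.congr_fun hd m).symm
      rw [← h6, ← h5]
      abel
    have h7 : ∀ (r : k) (s : S), ι (r • s) = r • ι s := by
      intro r s
      rw [← algebraMap_smul A r s, map_smul, algebraMap_smul]
    have h8 : ∀ (r : k) (z : Z), σ (r • z) = r • σ z := by
      intro r z
      rw [← algebraMap_smul A r z, map_smul, algebraMap_smul]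
    have h9 : ∀ m, π₂ (t m) = ι (π m) := fun m => LinearMap.congr_fun ht m
    have h10 : ∀ m, π (t m) = 0 := by
      intro m
      rw [← hσ2, h9, hσι]
    refine LinearMap.ext fun m => ?_
    show φ (t m) = ι (σ (φ m))
    rw [h4 (t m), h4 m, h9, h10, smul_zero, map_zero, add_zero, map_add, hσι, add_zero, h8, hσ2, h7]
  · intro h1
    have h2 : ∀ m, ι (π m) = 0 := by
      intro m
      rw [← hσ2]
      exact LinearMap.congr_fun h1 m
    apply hπ0
    refine LinearMap.ext fun m => ?_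
    exact hι (by rw [h2 m, LinearMap.zero_apply, map_zero])

omit [Module.Finite k Z] [Module.Finite k S] [AddCommGroup Z] [Module A Z] [Module k Z] [IsScalarTower k A Z]
  [AddCommGroup S] [Module A S] [Module k S] [IsScalarTower k A S] in
/-- `dim A/[A,A] ≤ n` implies that no stable module has a nonsplit self-extension -/
theorem nse_of_hh0 (hp : Bas k p) (hfin : FinB k A) (hA : hh0 k A ≤ n) : NSE k p := by
  intro x S Z _ _ _ _ _ _ _ _ _ _ hS ι hι σ hσ hex
  exact no_selfext_hh0 hp hfin hA hS ι hι σ hσ hex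

theorem no_selfext (_hp : Bas k p) (_hfin : FinB k A) (hA : NSE k p) {x : Fin n → ℤ}
    (hS : St k p x S) (ι : S →ₗ[A] Z) (hι : Function.Injective ι) (σ : Z →ₗ[A] S)
    (hσ : Function.Surjective σ) (hex : LinearMap.range ι = LinearMap.ker σ) :
    ∃ s : S →ₗ[A] Z, σ ∘ₗ s = LinearMap.id :=
  hA x S Z hS ι hι σ hσ hex

end

end TB3
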